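import Pool.Agent.Work.MP_f62247_an.St.RB

-- merged part: Pool.Agent.Work.MP_f62247_an.St.G2
section
/-!
# Weak Harnack chain, discs of positivity, Cartan circle
`da_le_super`: `da_le_of_ca`. `chain`: induction on `n` (generalising `y1`; move `y1` towards `y2` by `(y2 - y1)/(n+1)`, the column shrinks). One step, `|y' - y| ≤ ρ/2`: for `z'` in `ball (x + y' I) (ρ/2)`,
`V z' ≥ da V z' (3ρ/2) ≥ (1/9) da V (x + y I) (ρ/2)` (`da_step` with `R = 3ρ/2`, `l = ρ`), then `da_mono`, `da_const`.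
`lip_disc`: with `ψ = B ∘ re - b`: `b z ≤ da b z ρ` (`le_da_of_ca`), `da b = da (B ∘ re) - da ψ`, `da (B ∘ re) z ρ ≤ B z.re + Λ ρ`, `da ψ z ρ ≥ (7/8)² da ψ ζ (7ρ/8) ≥ (7/8)² ψ ζ` (`da_step`).
`cartan`: `pot ν (2ρ) p ≤ D p` and `gk (2ρ) ≥ log (4/3) ≥ 1/4` a.e. on `ball p (3ρ/2)` bound the mass of that ball by `4 D p`; `exists_line` (Mo/F4) with `f ζ = ‖ζ - p‖`, `t0 = l = ρ/2`. On the circle `D z - pot ν (ρ/2) z ≤ da D z (ρ/2) ≤ 16 da D p (2ρ) ≤ 16 D p`,
and `gk (ρ/2) (ζ - z) ≤ lp (‖ζ - p‖ - rc)` for `‖ζ - p‖ ≠ rc` (`ae_norm_ne`), zero outside `ball p (3ρ/2)`.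
-/

open Real MeasureTheory Set Filter Topology

namespace Pool.Agent.MinMod.St

open Pool.Agent.MinMod.Mo

noncomputable section

theorem da_le_super {V : ℂ → ℝ} {Ω : Set ℂ} (h : SubOn (fun z => -V z) Ω) {z : ℂ} {s : ℝ} (hs : 0 < s)
    (hb : Metric.closedBall z s ⊆ Ω) : da V z s ≤ V z := by
  have hc : ContinuousOn V Ω := h.1.neg.congr fun z _ => by simp
  refine da_le_of_ca hs (i4_io hc hb) fun t ht ht' => ?_
  have h1 := h.2 z t ht ((Metric.closedBall_subset_closedBall ht'.le).trans hb)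
  have e : ca (fun z => -V z) z t = -ca V z t := by
    simp only [ca, circleAverage_def, intervalIntegral.integral_neg, smul_neg]
  rw [e] at h1
  linarith

theorem exists_le_da {V : ℂ → ℝ} (hc : Continuous V) (z : ℂ) {s : ℝ} (hs : 0 < s) :
    ∃ q : ℂ, ‖q - z‖ ≤ s ∧ V q ≤ da V z s := by
  obtain ⟨q, hq, hm⟩ := (isCompact_closedBall z s).exists_isMinOn
    ⟨z, Metric.mem_closedBall_self hs.le⟩ hc.continuousOn
  refine ⟨q, mem_closedBall_iff_norm.1 hq, ?_⟩
  rw [← da_const (V q) z hs]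
  exact da_mono (i4_io (Ω := univ) continuousOn_const (subset_univ _))
    (i4_io (Ω := univ) hc.continuousOn (subset_univ _))
    (Eventually.of_forall fun w hw => hm (Metric.ball_subset_closedBall hw))

theorem sg2_step {V : ℂ → ℝ} (hc : Continuous V) {Ω : Set ℂ} {p p' : ℂ} {ρ : ℝ} (hρ : 0 < ρ)
    (hp : ‖p' - p‖ ≤ ρ / 2) (hb : Metric.closedBall p' (2 * ρ) ⊆ Ω) (h0 : ∀ z ∈ Ω, 0 ≤ V z)
    (hs : SubOn (fun z => -V z) Ω) : da V p (ρ / 2) ≤ 9 * da V p' (ρ / 2) := by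
  have hi : ∀ (z : ℂ) (s : ℝ), IntegrableOn V (Metric.ball z s) := fun z s =>
    i4_io (Ω := univ) hc.continuousOn (subset_univ _)
  have h1 : ∀ w ∈ Metric.ball p' (ρ / 2), da V p (ρ / 2) / 9 ≤ V w := by
    intro w hw
    have a1 : ‖w - p'‖ < ρ / 2 := mem_ball_iff_norm.1 hw
    have a2 : Metric.closedBall w (3 * ρ / 2) ⊆ Ω :=
      (Metric.closedBall_subset_closedBall' (by rw [dist_eq_norm]; linarith only [a1])).trans hb
    have a3 : ‖w - p‖ ≤ ρ := by
      have := norm_sub_le_norm_sub_add_norm_sub w p' p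
      linarith only [hp, a1, this]
    have a4 := da_step (V := V) (R := 3 * ρ / 2) a3 (by linarith) (hi _ _)
      (Eventually.of_forall fun ζ hζ => h0 ζ (a2 (Metric.ball_subset_closedBall hζ)))
    have e1 : (1 - ρ / (3 * ρ / 2)) ^ 2 = 1 / 9 := by
      field_simp
      norm_num
    have e2 : 3 * ρ / 2 - ρ = ρ / 2 := by ring
    rw [e1, e2] at a4
    have a5 := da_le_super hs (by linarith only [hρ] : 0 < 3 * ρ / 2) a2
    linarith only [a4, a5]
  have h2 := da_mono (f := fun _ => da V p (ρ / 2) / 9) (z := p') (R := ρ / 2)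
    (i4_io (Ω := univ) continuousOn_const (subset_univ _)) (hi _ _) (Eventually.of_forall h1)
  rw [da_const _ _ (by linarith)] at h2
  linarith

theorem chain {V : ℂ → ℝ} (hc : Continuous V) {x y1 y2 ρ : ℝ} (hρ : 0 < ρ) {n : ℕ}
    (hn : |y2 - y1| ≤ n * (ρ / 2)) (h0 : ∀ z ∈ col x y1 y2 ρ, 0 ≤ V z)
    (hs : SubOn (fun z => -V z) (col x y1 y2 ρ)) :
    da V (x + y1 * Complex.I) (ρ / 2) ≤ 9 ^ n * da V (x + y2 * Complex.I) (ρ / 2) := by
  have hb : ∀ y : ℝ, min y1 y2 ≤ y → y ≤ max y1 y2 →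
      Metric.closedBall (x + y * Complex.I : ℂ) (2 * ρ) ⊆ col x y1 y2 ρ := by
    intro y a b z hz
    rw [mem_closedBall_iff_norm] at hz
    have c1 := (Complex.abs_re_le_norm (z - (x + y * Complex.I))).trans hz
    have c2 := abs_le.1 ((Complex.abs_im_le_norm (z - (x + y * Complex.I))).trans hz)
    simp only [Complex.sub_re, Complex.add_re, Complex.ofReal_re, Complex.mul_re, Complex.I_re,
      mul_zero, Complex.ofReal_im, Complex.I_im, mul_one, sub_self, add_zero, Complex.sub_im,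
      Complex.add_im, Complex.mul_im, zero_add] at c1 c2
    exact ⟨c1, by linarith only [a, c2, c2.1], by linarith [c2.2]⟩
  have key : ∀ (n : ℕ) (y : ℝ), min y1 y2 ≤ y → y ≤ max y1 y2 → |y2 - y| ≤ n * (ρ / 2) →
      da V (x + y * Complex.I) (ρ / 2) ≤ 9 ^ n * da V (x + y2 * Complex.I) (ρ / 2) := by
    intro n
    induction n with
    | zero =>
      intro y _ _ h
      have : y2 - y = 0 := abs_nonpos_iff.1 (by simpa using h)
      rw [show y = y2 by linarith only [this], pow_zero, one_mul]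
    | succ n ih =>
      intro y a b h
      have hn0 : (0 : ℝ) ≤ n * (ρ / 2) := by positivity
      have l2 := min_le_right y1 y2
      have u2 := le_max_right y1 y2
      push_cast at h
      rw [abs_le] at h
      obtain ⟨m, m1, m2, m3, m4⟩ : ∃ m : ℝ, min y1 y2 ≤ m ∧ m ≤ max y1 y2 ∧ |m - y| ≤ ρ / 2 ∧
          |y2 - m| ≤ n * (ρ / 2) := by
        rcases le_total y2 (y - ρ / 2) with c | c
        · exact ⟨y - ρ / 2, by linarith only [l2, c], by linarith only [hρ, b], abs_le.2 ⟨by linarith only [], by linarith only [hρ]⟩,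
            abs_le.2 ⟨by linarith only [h, h.1], by linarith only [hn0, c]⟩⟩
        rcases le_total (y + ρ / 2) y2 with c' | c'
        · exact ⟨y + ρ / 2, by linarith only [hρ, a], by linarith only [u2, c'], abs_le.2 ⟨by linarith only [hρ], by linarith only []⟩,
            abs_le.2 ⟨by linarith only [hn0, c'], by linarith only [h, h.2]⟩⟩
        · exact ⟨y2, l2, u2, abs_le.2 ⟨by linarith only [c], by linarith only [c']⟩, by simpa using hn0⟩
      have hp : ‖(x + m * Complex.I : ℂ) - (x + y * Complex.I)‖ ≤ ρ / 2 := by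
        have e : (x + m * Complex.I : ℂ) - (x + y * Complex.I) = (m - y : ℝ) * Complex.I := by
          push_cast
          ring
        rwa [e, norm_mul, Complex.norm_I, mul_one, Complex.norm_real, Real.norm_eq_abs]
      have s1 := sg2_step hc hρ hp (hb m m1 m2) h0 hs
      have s2 := ih m m1 m2 m4
      rw [pow_succ]
      linarith only [s1, s2]
  exact key n y1 (min_le_left _ _) (le_max_left _ _) hn

theorem lip_disc {b : ℂ → ℝ} {B : ℝ → ℝ} (hb : SubOn b univ) (hB : Continuous B)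
    (hle : ∀ z, b z ≤ B z.re) {ζ : ℂ} {ρ Λ θ : ℝ} (hρ : 0 < ρ)
    (hψ : SubOn (fun z => B z.re - b z) (Metric.closedBall ζ ρ))
    (hΛ : ∀ x x', |x - ζ.re| ≤ 2 * ρ → |x' - ζ.re| ≤ 2 * ρ → |B x' - B x| ≤ Λ * |x' - x|)
    (hΛ0 : 0 ≤ Λ) (h1 : Λ * ρ ≤ θ / 4) (h2 : θ ≤ B ζ.re - b ζ) {z : ℂ} (hz : ‖z - ζ‖ ≤ ρ / 8) :
    θ / 2 ≤ B z.re - b z := by
  have cB : ContinuousOn (fun w : ℂ => B w.re) univ := (hB.comp Complex.continuous_re).continuousOn
  have cψ : ContinuousOn (fun w : ℂ => B w.re - b w) univ := cB.sub hb.1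
  have iB := i4_io (z := z) (r := ρ) cB (subset_univ _)
  have ib := i4_io (z := z) (r := ρ) hb.1 (subset_univ _)
  have iψ := i4_io (z := z) (r := ρ) cψ (subset_univ _)
  have a1 : b z ≤ da b z ρ := le_da_of_ca hρ ib fun t ht _ => hb.2 z t ht (subset_univ _)
  have a2 := da_add ib iψ
  simp only [add_sub_cancel] at a2
  have r1 : |z.re - ζ.re| ≤ ρ / 8 := (Frame.f1_re ζ z).trans hz
  have a3 : da (fun w : ℂ => B w.re) z ρ ≤ B z.re + Λ * ρ := by
    rw [← da_const (B z.re + Λ * ρ) z hρ]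
    refine da_mono iB (i4_io (Ω := univ) continuousOn_const (subset_univ _))
      (Eventually.of_forall fun w hw => ?_)
    have r2 : |w.re - z.re| ≤ ρ := (Frame.f1_re z w).trans (mem_ball_iff_norm.1 hw).le
    have r3 := abs_sub_le w.re z.re ζ.re
    have r4 := (abs_le.1 (hΛ z.re w.re (by linarith only [hρ, r1]) (by linarith only [hρ, r1, r2, r3]))).2
    have r5 := mul_le_mul_of_nonneg_left r2 hΛ0
    linarith only [r4, r5]
  have a4 := da_step (z := ζ) (z' := z) (R := ρ) hz (by linarith only [hρ]) iψ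
    (Eventually.of_forall fun w _ => sub_nonneg.2 (hle w))
  have e1 : (1 - ρ / 8 / ρ) ^ 2 = 49 / 64 := by
    field_simp
    norm_num
  rw [e1] at a4
  have a5 : B ζ.re - b ζ ≤ da (fun w : ℂ => B w.re - b w) ζ (ρ - ρ / 8) :=
    le_da_of_ca (by linarith only [hρ]) (i4_io cψ (subset_univ _)) fun t ht ht' =>
      hψ.2 ζ t ht (Metric.closedBall_subset_closedBall (by linarith only [ht, ht']))
  have a6 := mul_nonneg hΛ0 hρ.le
  linarith only [h1, h2, a1, a2, a3, a4, a5, a6]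

theorem cartan {D ν : ℂ → ℝ} (hD : Continuous D) (hν : Continuous ν) (h0 : ∀ z, 0 ≤ ν z) {p : ℂ}
    {ρ : ℝ} (hρ : 0 < ρ) (hρ1 : ρ ≤ 1 / 4) (hpos : ∀ z ∈ Metric.closedBall p (2 * ρ), 0 ≤ D z)
    (hj : ∀ z s, 0 < s → Metric.closedBall z s ⊆ Metric.closedBall p (2 * ρ) →
      ca D z s = D z - pot ν s z) :
    ∃ rc : ℝ, ρ / 2 ≤ rc ∧ rc ≤ ρ ∧ ∀ z, ‖z - p‖ = rc →
      D z ≤ (24 - 4 * Real.log (ρ / 2)) * D p := by
  have iD : ∀ (z : ℂ) (s : ℝ), IntegrableOn D (Metric.ball z s) := fun z s =>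
    i4_io (Ω := univ) hD.continuousOn (subset_univ _)
  have iν : IntegrableOn ν (Metric.ball p (3 * ρ / 2)) :=
    i4_io (Ω := univ) hν.continuousOn (subset_univ _)
  have a1 : pot ν (2 * ρ) p ≤ D p := by
    have b1 := hj p (2 * ρ) (by linarith only [hρ]) Subset.rfl
    have b2 : ca (fun _ => (0 : ℝ)) p (2 * ρ) ≤ ca D p (2 * ρ) :=
      ca_le_of_le (by linarith)
        (ci_of_cont (Ω := univ) continuousOn_const (by linarith) (subset_univ _))
        (ci_of_cont (Ω := univ) hD.continuousOn (by linarith) (subset_univ _))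
        fun w hw => hpos w (mem_closedBall_iff_norm.2 hw.le)
    rw [ca, circleAverage_const] at b2
    linarith
  have a2 : ∫ ζ in Metric.ball p (3 * ρ / 2), ν ζ ≤ 4 * D p := by
    have ip := integrable_pot hν (2 * ρ) p
    have b1 : ∫ ζ in Metric.ball p (3 * ρ / 2), ν ζ * (1 / 4) ≤
        ∫ ζ in Metric.ball p (3 * ρ / 2), ν ζ * gk (2 * ρ) (ζ - p) := by
      refine setIntegral_mono_on_ae (iν.mul_const _) ip.integrableOn measurableSet_ball ?_
      filter_upwards [ae_norm_ne p 0] with ζ hζ hb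
      refine mul_le_mul_of_nonneg_left ?_ (h0 ζ)
      have c1 : 0 < ‖ζ - p‖ := lt_of_le_of_ne (norm_nonneg _) hζ.symm
      have c2 : ‖ζ - p‖ < 3 * ρ / 2 := mem_ball_iff_norm.1 hb
      have c3 := Real.one_sub_inv_le_log_of_pos (by positivity : 0 < 2 * ρ / ‖ζ - p‖)
      have c4 : (2 * ρ / ‖ζ - p‖)⁻¹ ≤ 3 / 4 := by
        rw [inv_div, div_le_iff₀ (by linarith only [hρ])]
        linarith only [c2]
      have c5 : Real.log (2 * ρ / ‖ζ - p‖) ≤ gk (2 * ρ) (ζ - p) := le_max_right _ _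
      linarith only [c3, c4, c5]
    have b2 : ∫ ζ in Metric.ball p (3 * ρ / 2), ν ζ * gk (2 * ρ) (ζ - p) ≤ pot ν (2 * ρ) p :=
      setIntegral_le_integral ip (Eventually.of_forall fun ζ => mul_nonneg (h0 ζ) (gk_nonneg _ _))
    rw [integral_mul_const] at b1
    linarith only [a1, b1, b2]
  obtain ⟨rc, hrc, i1, a3⟩ := exists_line (f := fun ζ => ‖ζ - p‖) measurableSet_ball hν.measurable h0
    iν (by fun_prop) (l := ρ / 2) (by linarith only [hρ]) (by linarith only [hρ, hρ1]) (ρ / 2)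
  have r1 := hrc.1
  have r2 : rc ≤ ρ := by linarith only [hrc, hrc.2]
  refine ⟨rc, r1, r2, fun z hz => ?_⟩
  have a4 : D z - pot ν (ρ / 2) z ≤ da D z (ρ / 2) := by
    refine le_da_of_ca (by linarith only [hρ]) (iD _ _) fun t ht ht' => ?_
    rw [hj z t ht (Metric.closedBall_subset_closedBall' (by rw [dist_eq_norm]; linarith only [r2, hz, ht, ht']))]
    refine sub_le_sub_left (integral_mono (integrable_pot hν _ _) (integrable_pot hν _ _)
      fun ζ => mul_le_mul_of_nonneg_left (gk_mono ht ht'.le _) (h0 ζ)) _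
  have a5 := da_step (V := D) (z := z) (z' := p) (R := 2 * ρ) (l := 3 * ρ / 2)
    (by rw [norm_sub_rev]; linarith only [hρ, r2, hz]) (by linarith only [hρ]) (iD _ _)
    (Eventually.of_forall fun w hw => hpos w (Metric.ball_subset_closedBall hw))
  have e1 : (1 - 3 * ρ / 2 / (2 * ρ)) ^ 2 = 1 / 16 := by
    field_simp
    norm_num
  have e2 : 2 * ρ - 3 * ρ / 2 = ρ / 2 := by ring
  rw [e1, e2] at a5
  have a6 : da D p (2 * ρ) ≤ D p := by
    refine da_le_of_ca (by linarith only [hρ]) (iD _ _) fun t ht ht' => ?_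
    rw [hj p t ht (Metric.closedBall_subset_closedBall ht'.le)]
    exact sub_le_self _ (pot_nonneg ht fun ζ _ => h0 ζ)
  have a7 : pot ν (ρ / 2) z ≤ ∫ ζ in Metric.ball p (3 * ρ / 2), ν ζ * lp (‖ζ - p‖ - rc) := by
    have b1 : pot ν (ρ / 2) z = ∫ ζ in Metric.ball p (3 * ρ / 2), ν ζ * gk (ρ / 2) (ζ - z) := by
      refine (setIntegral_eq_integral_of_forall_compl_eq_zero fun ζ hζ => ?_).symm
      rw [mem_ball_iff_norm, not_lt] at hζ
      have := norm_sub_le_norm_sub_add_norm_sub ζ z p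
      rw [gk_eq_zero (by linarith only [hρ]) (by linarith only [r2, hz, hζ, this]), mul_zero]
    rw [b1]
    refine setIntegral_mono_on_ae (integrable_pot hν _ _).integrableOn i1 measurableSet_ball ?_
    filter_upwards [ae_norm_ne p rc] with ζ hζ _
    refine mul_le_mul_of_nonneg_left ?_ (h0 ζ)
    have c1 : 0 < |‖ζ - p‖ - rc| := abs_pos.2 (sub_ne_zero.2 hζ)
    have c2 : |‖ζ - p‖ - rc| ≤ ‖ζ - z‖ := by
      have := abs_norm_sub_norm_le (ζ - p) (z - p)
      rwa [hz, sub_sub_sub_cancel_right] at this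
    exact (gk_mono (by linarith only [hρ]) (by linarith only [hρ, hρ1] : ρ / 2 ≤ 1) _).trans
      (posLog_le_posLog (by positivity) (one_div_le_one_div_of_le c1 c2))
  have a8 : 0 ≤ 2 - Real.log (ρ / 2) := by
    have := Real.log_nonpos (by linarith only [hρ] : 0 ≤ ρ / 2) (by linarith only [hρ, hρ1])
    linarith only [hρ, hρ1, this]
  have a9 := mul_le_mul_of_nonneg_left a2 a8
  linarith only [a3, a4, a5, a6, a7, a9]

end

end Pool.Agent.MinMod.St
end

-- merged part: Pool.Agent.Work.MP_f62247_an.St.RA1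
section
/-!
# The column above a point of positivity; a circle on which `D` is small
`S0 = θ/4000`, `A = Φ X`. `disc_psi`: `lip_disc` with `b = tav r v`, `B = Bt r u`, `ρ = θ/160`, `Λ = 40 A` (`Bt_lip`, `sub_psi`, `b_le_Bt`, `ht_sub`). `col_psi`: `psi_mono` from the point `re z + im ζ I`. `col_den`: `den_zero`, `Φ (re z) ≤ 2 A`.
`small_circle`: `D = tav r v - tav r u ≥ 0` (`le_uv`); `ca D z s = D z + pot (den r v) s z - pot (den r u) s z` (`ca_tav`), the middle term vanishes for discs in the region of `col_den` (`d2_pot0`). `chain` with `x = re ζ`, `y1 = im ζ + w/2`, `y2 = φ x + t^6/2`, `ρ = S0/16`; `D_top` with radius `S0/32`;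
`exists_le_da` gives `q`; `cartan` at `q` with `ρ = S0/64`, `ν = den r u` (`den_u`, `continuous_den`).
-/

open Real MeasureTheory Set Filter Topology

namespace Pool.Agent.MinMod.St

open Pool.Agent.MinMod.Mo

noncomputable section

/-- the data at the end of the chain -/
structure Stp (F : Frame) (t w r η X θ : ℝ) (u v : ℂ → ℝ) (ζ : ℂ) : Prop where
  eta : η ≤ w * t ^ 18 / 16
  pos : 0 < θ
  le : θ ≤ w
  small : 100 * η ≤ θ
  x : |ζ.re - X| ≤ 1 / 2000
  lo : -t ^ 8 ≤ F.ht ζ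
  hi : F.ht ζ ≤ t ^ 6 / 3
  big : θ * F.Φ X ≤ psi r u v ζ

variable {F : Frame} {μ K t w r η d e X θ : ℝ} {u v S H : ℂ → ℝ} {ζ : ℂ}

theorem sra1_num (h : DH F μ K t w r η d u v) (s : Stp F t w r η X θ u v ζ) :
    0 < θ ∧ θ ≤ w ∧ w ≤ t ^ 8 ∧ t ^ 8 ≤ t ^ 6 / 1000 ∧ t ^ 6 ≤ 1 / 1000000 ∧ μ ≤ 1 := by
  obtain ⟨-, a2, -, a4, -, -, -, -, a9⟩ := d2_num h
  exact ⟨s.pos, s.le, h.wle, a4, a2, by linarith only [a9]⟩

theorem disc_psi (h : DH F μ K t w r η d u v) (s : Stp F t w r η X θ u v ζ) {z : ℂ}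
    (hz : ‖z - ζ‖ ≤ θ / 2000) : θ * F.Φ X / 2 ≤ psi r u v z := by
  obtain ⟨a1, a2, a3, a4, a5, a6⟩ := sra1_num h s
  have hA := F.Φ_pos X
  have hx := abs_le.1 s.x
  refine lip_disc (b := tav r v) (B := Bt r u) (ζ := ζ) (ρ := θ / 160) (Λ := 40 * F.Φ X)
    (θ := θ * F.Φ X) (sub_b h) (continuous_Bt h) (b_le_Bt h) (by positivity)
    ((sub_psi h).mono fun p hp => ?_) (fun x x' h1 h2 => Bt_lip h ?_ ?_) (by positivity)
    (le_of_eq (by ring)) s.big (by linarith only [hz, a1])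
  · have e1 := (abs_le.1 (h.good.ht_sub a6 ζ p)).2
    have e2 : ‖p - ζ‖ ≤ θ / 160 := mem_closedBall_iff_norm.1 hp
    have e3 := s.hi
    show F.ht p ≤ 1 / 4000
    linarith only [a1, a2, a3, a4, a5, e1, e2, e3]
  · have := abs_le.1 h1
    exact abs_le.2 ⟨by linarith only [a1, a2, a3, a4, a5, hx, this], by linarith only [a1, a2, a3, a4, a5, hx, this]⟩
  · have := abs_le.1 h2
    exact abs_le.2 ⟨by linarith only [a1, a2, a3, a4, a5, hx, this], by linarith only [a1, a2, a3, a4, a5, hx, this]⟩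

theorem col_psi (h : DH F μ K t w r η d u v) (s : Stp F t w r η X θ u v ζ) {z : ℂ}
    (h1 : |z.re - ζ.re| ≤ θ / 2000) (h2 : ζ.im + w / 16 ≤ z.im) (h3 : F.ht z ≤ 3 * t ^ 6 / 4) :
    θ * F.Φ X / 2 ≤ psi r u v z := by
  have e1 : ((z.re : ℂ) + ζ.im * Complex.I) + (z.im - ζ.im : ℝ) * Complex.I = z := by
    apply Complex.ext <;> simp
  have e2 : ((z.re : ℂ) + ζ.im * Complex.I) - ζ = (z.re - ζ.re : ℝ) := by
    apply Complex.ext <;> simp
  have k1 : θ * F.Φ X / 2 ≤ psi r u v (z.re + ζ.im * Complex.I) := by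
    refine disc_psi h s ?_
    rw [e2, Complex.norm_real, Real.norm_eq_abs]
    exact h1
  have k2 := psi_mono h s.eta (s := z.im - ζ.im) (by linarith only [h2])
    (z := z.re + ζ.im * Complex.I) (by rw [← F.ht_add_I, e1]; exact h3)
  rw [e1] at k2
  exact k1.trans k2

theorem col_den (h : DH F μ K t w r η d u v) (s : Stp F t w r η X θ u v ζ) {z : ℂ}
    (h1 : |z.re - ζ.re| ≤ θ / 2000) (h2 : ζ.im + w / 16 ≤ z.im) (h3 : F.ht z ≤ 3 * t ^ 6 / 4) :
    den r v z = 0 := by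
  obtain ⟨a1, a2, a3, a4, a5, a6⟩ := sra1_num h s
  have hA := F.Φ_pos X
  have hx := abs_le.1 s.x
  have h1' := abs_le.1 h1
  have e1 : |z.re - X| ≤ 1 / 4 := abs_le.2 ⟨by linarith only [a1, a2, a3, a4, a5, hx, h1'], by linarith only [a1, a2, a3, a4, a5, hx, h1']⟩
  have e2 := (abs_le.1 (h.good.Φ_close a6 e1)).2
  have e3 : F.Φ z.re ≤ 2 * F.Φ X := by (refine le_of_not_gt fun h_nl => ?_; linarith only [h_nl, e2, a1, a2, a3, a4, a5, hA, e1, mul_pos_of_neg_of_neg (Mathlib.Tactic.Linarith.sub_neg_of_lt a1) (Mathlib.Tactic.Linarith.sub_neg_of_lt h_nl), mul_nonneg_of_nonpos_of_nonpos (Mathlib.Tactic.Linarith.sub_nonpos_of_le a2) (le_of_lt (Mathlib.Tactic.Linarith.sub_neg_of_lt h_nl)), mul_nonneg_of_nonpos_of_nonpos (Mathlib.Tactic.Linarith.sub_nonpos_of_le a3) (le_of_lt (Mathlib.Tactic.Linarith.sub_neg_of_lt h_nl)), mul_nonneg_of_nonpos_of_nonpos (Mathlib.Tactic.Linarith.sub_nonpos_of_le a4) (le_of_lt (Mathlib.Tactic.Linarith.sub_neg_of_lt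 h_nl)), mul_nonneg_of_nonpos_of_nonpos (Mathlib.Tactic.Linarith.sub_nonpos_of_le a5) (le_of_lt (Mathlib.Tactic.Linarith.sub_neg_of_lt h_nl)), mul_nonneg_of_nonpos_of_nonpos (le_of_lt (Mathlib.Tactic.Linarith.sub_neg_of_lt hA)) (Mathlib.Tactic.Linarith.sub_nonpos_of_le e1)])
  have e4 := col_psi h s h1 h2 h3
  have e5 := mul_le_mul_of_nonneg_left e3 h.epos.le
  have e6 := mul_le_mul_of_nonneg_right s.small hA.le
  have e7 := mul_pos a1 hA
  exact den_zero h (by linarith only [h3, a1, a2, a3, a4, a5]) (by linarith only [e4, e5, e6, e7])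

theorem sra1_ca (h : DH F μ K t w r η d u v) {Ω : Set ℂ} (hΩ : ∀ z ∈ Ω, den r v z = 0) (z : ℂ)
    (s : ℝ) (hs : 0 < s) (hb : Metric.closedBall z s ⊆ Ω) :
    ca (fun p => tav r v p - tav r u p) z s = (tav r v z - tav r u z) - pot (den r u) s z := by
  have cv := continuous_tav h.plat.cont h.rpos
  have cu := continuous_tav h.clean.cont h.rpos
  have e1 := ca_tav h.plat.cont h.rpos hs z
  have e2 := ca_tav h.clean.cont h.rpos hs z
  have e3 : pot (den r v) s z = 0 :=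
    d2_pot0 hs fun p hp => hΩ p (hb (mem_closedBall_iff_norm.2 hp.le))
  rw [ca, circleAverage_fun_sub (ci_of_cont cv.continuousOn hs.le (subset_univ _))
    (ci_of_cont cu.continuousOn hs.le (subset_univ _))]
  simp only [ca] at e1 e2
  rw [e1, e2, e3]
  ring

theorem sra1_sub (h : DH F μ K t w r η d u v) {Ω : Set ℂ} (hΩ : ∀ z ∈ Ω, den r v z = 0) :
    SubOn (fun p => -(tav r v p - tav r u p)) Ω := by
  have cv := continuous_tav h.plat.cont h.rpos
  have cu := continuous_tav h.clean.cont h.rpos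
  refine ⟨(cv.sub cu).neg.continuousOn, fun z s hs hb => ?_⟩
  have e1 := sra1_ca h hΩ z s hs hb
  have e2 := Frame.f2_ca_mul (fun p => tav r v p - tav r u p) (-1) z s
  have e3 : 0 ≤ pot (den r u) s z := pot_nonneg hs fun p _ => h.den_u p
  simp only [neg_one_mul] at e2
  rw [e2, e1]
  linarith

theorem sra1_col (h : DH F μ K t w r η d u v) (s : Stp F t w r η X θ u v ζ) :
    ∀ z ∈ col ζ.re (ζ.im + w / 2) (F.φ ζ.re + t ^ 6 / 2) (θ / 4000 / 16), den r v z = 0 := by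
  obtain ⟨a1, a2, a3, a4, a5, a6⟩ := sra1_num h s
  rintro z ⟨k1, k2, k3⟩
  have b1 := s.hi
  have b2 : F.ht ζ = ζ.im - F.φ ζ.re := rfl
  have b3 : ζ.im + w / 2 ≤ F.φ ζ.re + t ^ 6 / 2 := by linarith only [a1, a2, a3, a4, b1, b2]
  rw [min_eq_left b3] at k2
  rw [max_eq_right b3] at k3
  have b4 := (abs_le.1 (h.good.φ_sub ζ.re z.re)).1
  have b5 : μ * |z.re - ζ.re| ≤ |z.re - ζ.re| := mul_le_of_le_one_left (abs_nonneg _) a6
  have b6 : F.ht z = z.im - F.φ z.re := rfl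
  exact col_den h s (by linarith only [a1, k1]) (by linarith only [a1, a2, k2]) (by linarith only [a1, a2, a3, a4, k1, k3, b4, b5, b6])

theorem small_circle (h : GH F μ K t w r η d e u v S H) (s : Stp F t w r η X θ u v ζ)
    (hi : Integrable fun p => S p * eK t X p) {n : ℕ} (hn : 1 ≤ n * (θ / 4000 / 32)) :
    ∃ (q : ℂ) (rc : ℝ), ‖q - (ζ + (w / 2 : ℝ) * Complex.I)‖ ≤ θ / 4000 / 32 ∧ θ / 4000 / 128 ≤ rc ∧
      rc ≤ θ / 4000 / 64 ∧ ∀ z, ‖z - q‖ = rc → tav r v z - tav r u z ≤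
        (24 - 4 * Real.log (θ / 4000 / 128)) * (9 ^ n * (SS t S X / (θ / 4000 / 32) ^ 2)) := by
  obtain ⟨a1, a2, a3, a4, a5, a6⟩ := sra1_num h.dh s
  have cv := continuous_tav h.dh.plat.cont h.dh.rpos
  have cu := continuous_tav h.dh.clean.cont h.dh.rpos
  have cD : Continuous fun p => tav r v p - tav r u p := cv.sub cu
  have D0 : ∀ p, 0 ≤ tav r v p - tav r u p := fun p => sub_nonneg.2 (h.dh.le_uv p)
  have b1 := s.hi
  have b1' := s.lo
  have b2 : F.ht ζ = ζ.im - F.φ ζ.re := rfl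
  have b3 : ζ.im + w / 2 ≤ F.φ ζ.re + t ^ 6 / 2 := by linarith only [a1, a2, a3, a4, b1, b2]
  have hc := sra1_col h.dh s
  have c1 := chain cD (x := ζ.re) (y1 := ζ.im + w / 2) (y2 := F.φ ζ.re + t ^ 6 / 2)
    (ρ := θ / 4000 / 16) (by positivity) (n := n)
    (by
      have e : θ / 4000 / 16 / 2 = θ / 4000 / 32 := by ring
      rw [e]
      refine le_trans (abs_le.2 ⟨by linarith only [a1, a2, a3, a4, a5, b1, b2], by linarith only [a1, a2, a3, a4, a5, b1', b2]⟩) hn)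
    (fun z _ => D0 z) (sra1_sub h.dh hc)
  have e1 : θ / 4000 / 16 / 2 = θ / 4000 / 32 := by ring
  rw [e1] at c1
  have c2 := D_top h (X := X) (x := ζ.re) (ρ := θ / 4000 / 32) hi (s.x.trans (by norm_num))
    (by positivity) (by linarith only [a1, a2, a3, a4])
  have e2 : ((ζ.re : ℂ) + (ζ.im + w / 2 : ℝ) * Complex.I) = ζ + (w / 2 : ℝ) * Complex.I := by
    apply Complex.ext <;> simp
  rw [e2] at c1
  obtain ⟨q, q1, q2⟩ := exists_le_da cD (ζ + (w / 2 : ℝ) * Complex.I) (s := θ / 4000 / 32)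
    (by positivity)
  have c3 : tav r v q - tav r u q ≤ 9 ^ n * (SS t S X / (θ / 4000 / 32) ^ 2) :=
    q2.trans (c1.trans (mul_le_mul_of_nonneg_left c2 (by positivity)))
  have hsub : Metric.closedBall q (2 * (θ / 4000 / 64)) ⊆
      col ζ.re (ζ.im + w / 2) (F.φ ζ.re + t ^ 6 / 2) (θ / 4000 / 16) := by
    intro p hp
    have k1 : ‖p - q‖ ≤ 2 * (θ / 4000 / 64) := mem_closedBall_iff_norm.1 hp
    have k2 : ‖p - (ζ + (w / 2 : ℝ) * Complex.I)‖ ≤ θ / 4000 / 16 :=
      (norm_sub_le_norm_sub_add_norm_sub p q _).trans (by linarith only [q1, k1])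
    have k3 := (Complex.abs_re_le_norm _).trans k2
    have k4 := abs_le.1 ((Complex.abs_im_le_norm _).trans k2)
    have e3 : (p - (ζ + (w / 2 : ℝ) * Complex.I)).re = p.re - ζ.re := by simp
    have e4 : (p - (ζ + (w / 2 : ℝ) * Complex.I)).im = p.im - (ζ.im + w / 2) := by simp
    rw [e3] at k3
    rw [e4] at k4
    refine ⟨by linarith only [a1, k3], ?_, ?_⟩
    · rw [min_eq_left b3]; linarith only [a1, k4]
    · rw [max_eq_right b3]; linarith only [a1, a2, a3, a4, b1, b2, k4]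
  obtain ⟨rc, r1, r2, r3⟩ := cartan cD (continuous_den h.dh.clean.cont r) h.dh.den_u (p := q)
    (ρ := θ / 4000 / 64) (by positivity) (by linarith only [a1, a2, a3, a4, a5]) (fun z _ => D0 z)
    (fun z s' hs' hb => sra1_ca h.dh hc z s' hs' (hb.trans hsub))
  have e5 : θ / 4000 / 64 / 2 = θ / 4000 / 128 := by ring
  rw [e5] at r1 r3
  have l0 : Real.log (θ / 4000 / 128) ≤ 0 := Real.log_nonpos (by positivity) (by linarith only [a1, a2, a3, a4, a5])
  exact ⟨q, rc, q1, r1, r2, fun z hz =>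
    (r3 z hz).trans (mul_le_mul_of_nonneg_left c3 (by linarith only [a1, a2, a3, a4, a5, l0]))⟩

end

end Pool.Agent.MinMod.St
end

-- merged part: Pool.Agent.Work.MP_f62247_an.St.RA2
section
/-!
# Gluing the pole into the widened function
`S0 = θ/4000`, `A = Φ X`, `Q = {|re z - re ζ| ≤ S0, |im z - (im ζ - w/2)| ≤ 3w/8}` (closed). Near every point of `Q` heights lie in `(-t², t^6/2)`, so `GG = max a' g'` with `a' z = tav r u (z + w I) + 10 e Φ`, `g' = g2 + 10 e Φ` (`d4_B`), and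
`N := Y + R0 - H = g' + (Y - tav r v)` (`g2_eq`) is `LocSub` (`R0_loc` with `col_den` near `z + w I`, `negH_loc`, `LocSub.add`). `G1 z = if z ∈ Q then max (a' z) (N z) else GG z` equals `max a' N` near points of `Q` (off `Q` one has `Y = tav r v`) and `GG` near other points.
`G z = if ‖z - p‖ ≤ rc then N z else G1 z`; on the circle `a' < N` (hypothesis `circ`), `ite_left`. `up`, `cov`: `G ≤ GG + 4 f A` (`g2_le_GG`, `a_le_GG`, `GG_le`). `low`: `N ≥ g2 - θ A`, `A ≤ 2 Φ (re z)`. `pole`: `ball p (2 r') ⊆ ball p rc`, `subOn_of_loc`.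
-/

open Real MeasureTheory Set Filter Topology

namespace Pool.Agent.MinMod.St

open Pool.Agent.MinMod.Mo

noncomputable section

/-- the open box in which the function is changed -/
def sra2_W (θ w : ℝ) (ζ z : ℂ) : Prop :=
  |z.re - ζ.re| < θ / 2000 ∧ |z.im - (ζ.im - w / 2)| < 7 * w / 16

theorem sra2_open {θ w : ℝ} {ζ z : ℂ} (hz : sra2_W θ w ζ z) : ∀ᶠ y in 𝓝 z, sra2_W θ w ζ y := by
  have c1 : Continuous fun y : ℂ => |y.re - ζ.re| := by fun_prop
  have c2 : Continuous fun y : ℂ => |y.im - (ζ.im - w / 2)| := by fun_prop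
  exact (c1.continuousAt.eventually_lt continuousAt_const hz.1).and
    (c2.continuousAt.eventually_lt continuousAt_const hz.2)

section
variable {F : Frame} {μ K t w r η d e X θ : ℝ} {u v S H : ℂ → ℝ} {ζ z : ℂ}

theorem sra2_ht (h : GH F μ K t w r η d e u v S H) (s : Stp F t w r η X θ u v ζ)
    (hz : sra2_W θ w ζ z) :
    -t ^ 6 / 2 < F.ht z ∧ F.ht z + w ≤ t ^ 6 / 2 ∧ |z.re - X| ≤ 1 / 1000 := by
  obtain ⟨t3, t4, -, t5, -, -, -, -, m1⟩ := d2_num h.dh
  have h1 := h.dh.good.φ_sub ζ.re z.re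
  have h2 : μ * |z.re - ζ.re| ≤ |z.re - ζ.re| :=
    mul_le_of_le_one_left (abs_nonneg _) (by linarith only [t3, t4, m1])
  obtain ⟨a1, a2⟩ := abs_le.1 (h1.trans h2)
  obtain ⟨b1, b2⟩ := abs_lt.1 hz.2
  obtain ⟨c1, c2⟩ := abs_lt.1 hz.1
  obtain ⟨d1, d2⟩ := abs_le.1 s.x
  have e1 := s.lo
  have e2 := s.hi
  have e3 := hz.1
  have e4 := s.le
  have e5 := s.pos
  have e6 := h.dh.wle
  unfold Frame.ht at *
  refine ⟨by linarith only [t5, a2, b1, c1, c2, e1, e3, e4, e6], by linarith only [t5, a1, b2, c1, c2, e2, e3, e4, e6], abs_le.2 ⟨by linarith only [t4, t5, c1, c2, d1, e4, e6], by linarith only [t4, t5, c1, c2, d2, e4, e6]⟩⟩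

theorem sra2_t (h : GH F μ K t w r η d e u v S H) : t ^ 6 / 2 ≤ t ^ 2 := by
  have := d3_pow h.dh.tpos h.dh.tle 2 6 (by norm_num)
  have := pow_pos h.dh.tpos 2
  linarith

theorem sra2_lo (h : GH F μ K t w r η d e u v S H) (s : Stp F t w r η X θ u v ζ)
    (hz : sra2_W θ w ζ z) : -t ^ 2 < F.ht z := by
  linarith only [h, s, hz, (sra2_ht h s hz).1, sra2_t h]

theorem sra2_hi (h : GH F μ K t w r η d e u v S H) (s : Stp F t w r η X θ u v ζ)
    (hz : sra2_W θ w ζ z) : F.ht z ≤ t ^ 6 / 2 := by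
  linarith only [h, s, hz, (sra2_ht h s hz).2.1, h.dh.wpos]

theorem sra2_den (h : GH F μ K t w r η d e u v S H) (s : Stp F t w r η X θ u v ζ)
    (hz : sra2_W θ w ζ z) : ∀ᶠ y in 𝓝 (z + w * Complex.I), den r v y = 0 := by
  have c : ContinuousAt (fun y : ℂ => y - w * Complex.I) (z + w * Complex.I) := by fun_prop
  have e0 : z + w * Complex.I - w * Complex.I = z := by ring
  have h1 : ∀ᶠ y in 𝓝 (z + w * Complex.I), sra2_W θ w ζ (y - w * Complex.I) := by
    refine c.eventually ?_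
    simp only [e0]
    exact sra2_open hz
  refine h1.mono fun y hy => ?_
  have h2 := (sra2_ht h s hy).2.1
  rw [← F.ht_add_I, sub_add_cancel] at h2
  have h3 := hy.1
  have h4 := (abs_lt.1 hy.2).1
  simp only [Complex.sub_re, Complex.sub_im, Complex.mul_re, Complex.mul_im, Complex.ofReal_re,
    Complex.ofReal_im, Complex.I_re, Complex.I_im, mul_zero, mul_one, sub_zero,
    add_zero] at h3 h4
  have t3 := pow_pos h.dh.tpos 6
  exact col_den h.dh s h3.le (by linarith only [h4]) (by linarith only [h2, t3])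

theorem sra2_cΦ (F : Frame) (e : ℝ) : Continuous fun y : ℂ => 10 * e * F.Φ y.re :=
  continuous_const.mul (F.continuous_Φ.comp Complex.continuous_re)

/-- the modified upper piece -/
def sra2_N (F : Frame) (w e r : ℝ) (u v H Y : ℂ → ℝ) (z : ℂ) : ℝ :=
  g2 F w e r u v H z + 10 * e * F.Φ z.re + (Y z - tav r v z)

/-- the lower piece -/
def sra2_a (F : Frame) (w e r : ℝ) (u : ℂ → ℝ) (z : ℂ) : ℝ :=
  tav r u (z + w * Complex.I) + 10 * e * F.Φ z.re

theorem sra2_ca (h : GH F μ K t w r η d e u v S H) : Continuous (sra2_a F w e r u) :=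
  (d4_ca h).add (sra2_cΦ F e)

theorem sra2_la (h : GH F μ K t w r η d e u v S H) (z : ℂ) : LocSub (sra2_a F w e r u) z := by
  obtain ⟨s1, s2, -⟩ := d4_small h
  have hΦ := (h.dh.good.sub_Φ s1).smul (c := 10 * e) (by linarith only [s2])
  exact (((h.dh.sub_u.shift (w * Complex.I)).mono fun _ _ => mem_univ _).add hΦ).locSub univ_mem

theorem sra2_cN (h : GH F μ K t w r η d e u v S H) (s : Stp F t w r η X θ u v ζ) {Y : ℂ → ℝ}
    (y1 : Continuous Y) (hz : sra2_W θ w ζ z) : ContinuousAt (sra2_N F w e r u v H Y) z := by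
  have cb : Continuous (tav r v) := continuousOn_univ.1 (sub_b h.dh).1
  exact ((d4_cg h (sra2_lo h s hz)).add (sra2_cΦ F e).continuousAt).add (y1.sub cb).continuousAt

theorem sra2_lN (h : GH F μ K t w r η d e u v S H) (s : Stp F t w r η X θ u v ζ) {Y : ℂ → ℝ}
    (y1 : Continuous Y) (y2 : LocSub Y z) (hz : sra2_W θ w ζ z) :
    LocSub (sra2_N F w e r u v H Y) z := by
  obtain ⟨-, t2, -, -⟩ := d4_t h.dh.tpos h.dh.tle
  obtain ⟨-, t4, -⟩ := d2_num h.dh
  have a1 := sra2_lo h s hz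
  have a2 := sra2_hi h s hz
  have cR := continuous_R0 h
  have l1 := R0_loc h (z := z) (by linarith only [t2, t4, a1, a2]) (sra2_den h s hz)
  have l2 := negH_loc h a1 (by linarith only [t2, t4, a1, a2])
  have l3 := y2.add l1 (Eventually.of_forall fun _ => y1.continuousAt)
    (Eventually.of_forall fun _ => cR.continuousAt)
  have l4 := l3.add l2 (Eventually.of_forall fun _ => (y1.add cR).continuousAt)
    ((d4_gt F a1).mono fun y hy => (h.hh.cont.continuousAt (d4_gt F hy)).neg)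
  refine l4.congr (Eventually.of_forall fun y => ?_)
  have := g2_eq F w e r u v H y
  simp only [sra2_N]
  linarith only [this]

theorem sra2_GG (h : GH F μ K t w r η d e u v S H) (s : Stp F t w r η X θ u v ζ) {Y : ℂ → ℝ}
    (hz : sra2_W θ w ζ z) (hY : Y z = tav r v z) :
    max (sra2_a F w e r u z) (sra2_N F w e r u v H Y z) = GG F t w e r u v H z := by
  have t3 := pow_pos h.dh.tpos 6
  unfold GG sra2_a sra2_N
  rw [d4_B h (sra2_lo h s hz) (by linarith only [t3, h, s, hz, sra2_hi h s hz]), hY, sub_self, add_zero,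
    max_add_add_right]

theorem sra2_ball (s : Stp F t w r η X θ u v ζ) {p : ℂ} {rc : ℝ}
    (hp : ‖p - (ζ - (w / 2 : ℝ) * Complex.I)‖ ≤ θ / 4000 / 32) (hrc : rc ≤ θ / 4000 / 64)
    (hz : ‖z - p‖ ≤ rc) : sra2_W θ w ζ z := by
  have h1 : ‖z - (ζ - (w / 2 : ℝ) * Complex.I)‖ ≤ rc + θ / 4000 / 32 := by
    refine le_trans ?_ (add_le_add hz hp)
    exact norm_sub_le_norm_sub_add_norm_sub _ _ _
  have h2 := Frame.f1_re (ζ - (w / 2 : ℝ) * Complex.I) z
  have h3 := Frame.f1_im (ζ - (w / 2 : ℝ) * Complex.I) z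
  simp only [Complex.sub_re, Complex.sub_im, Complex.mul_re, Complex.mul_im, Complex.ofReal_re,
    Complex.ofReal_im, Complex.I_re, Complex.I_im, mul_zero, mul_one, sub_zero,
    add_zero] at h2 h3
  have e4 := s.le
  have e5 := s.pos
  exact ⟨by linarith only [hrc, h1, h2, e5], by linarith only [hrc, h1, h3, e4, e5]⟩

end

open Classical in
/-- the glued function -/
def sra2_G (F : Frame) (t w e r θ rc : ℝ) (u v H Y : ℂ → ℝ) (ζ p z : ℂ) : ℝ :=
  if ‖z - p‖ ≤ rc then sra2_N F w e r u v H Y z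
  else if sra2_W θ w ζ z then max (sra2_a F w e r u z) (sra2_N F w e r u v H Y z)
  else GG F t w e r u v H z

theorem sra2_cases {F : Frame} {μ K t w r η d e X θ rc : ℝ} {u v S H Y : ℂ → ℝ} {ζ p : ℂ}
    (h : GH F μ K t w r η d e u v S H) (s : Stp F t w r η X θ u v ζ) (y1 : Continuous Y)
    (y3 : ∀ z : ℂ, θ / 4000 ≤ |z.re - ζ.re| ∨ 3 * w / 8 ≤ |z.im - (ζ.im - w / 2)| → Y z = tav r v z)
    (hp : ‖p - (ζ - (w / 2 : ℝ) * Complex.I)‖ ≤ θ / 4000 / 32) (hrc : rc ≤ θ / 4000 / 64)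
    (circ : ∀ z, ‖z - p‖ = rc →
      tav r u (z + w * Complex.I) < g2 F w e r u v H z + (Y z - tav r v z)) (z : ℂ) :
    (sra2_W θ w ζ z ∧ sra2_N F w e r u v H Y =ᶠ[𝓝 z] sra2_G F t w e r θ rc u v H Y ζ p) ∨
    (rc < ‖z - p‖ ∧ sra2_W θ w ζ z ∧
      (fun y => max (sra2_a F w e r u y) (sra2_N F w e r u v H Y y)) =ᶠ[𝓝 z]
        sra2_G F t w e r θ rc u v H Y ζ p) ∨
    (¬ sra2_W θ w ζ z ∧ GG F t w e r u v H =ᶠ[𝓝 z] sra2_G F t w e r θ rc u v H Y ζ p) := by
  have cτ : Continuous fun y : ℂ => ‖y - p‖ := by fun_prop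
  rcases lt_trichotomy ‖z - p‖ rc with a | a | a
  · refine Or.inl ⟨sra2_ball s hp hrc a.le, ?_⟩
    filter_upwards [cτ.continuousAt.eventually_lt continuousAt_const a] with y hy
    simp only [sra2_G, if_pos hy.le]
  · have hz := sra2_ball s hp hrc a.le
    refine Or.inl ⟨hz, ?_⟩
    have h1 : sra2_a F w e r u z < sra2_N F w e r u v H Y z := by
      have := circ z a
      simp only [sra2_a, sra2_N]
      linarith only [this]
    filter_upwards [(sra2_ca h).continuousAt.eventually_lt (sra2_cN h s y1 hz) h1, sra2_open hz]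
      with y hy hy'
    simp only [sra2_G, if_pos hy', max_eq_right hy.le, ite_self]
  have h1 := continuousAt_const.eventually_lt cτ.continuousAt a
  by_cases hz : sra2_W θ w ζ z
  · refine Or.inr (Or.inl ⟨a, hz, ?_⟩)
    filter_upwards [h1, sra2_open hz] with y hy hy'
    simp only [sra2_G, if_neg (not_le.2 hy), if_pos hy']
  refine Or.inr (Or.inr ⟨hz, ?_⟩)
  have c1 : Continuous fun y : ℂ => |y.re - ζ.re| := by fun_prop
  have c2 : Continuous fun y : ℂ => |y.im - (ζ.im - w / 2)| := by fun_prop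
  have e5 := s.pos
  have e6 := h.dh.wpos
  have h2 : ∀ᶠ y in 𝓝 z, Y y = tav r v y := by
    rcases not_and_or.1 hz with b | b
    · have b' : θ / 4000 < |z.re - ζ.re| := by linarith only [e5, b, not_lt.1 b]
      exact (continuousAt_const.eventually_lt c1.continuousAt b').mono fun y hy =>
        y3 y (Or.inl hy.le)
    · have b' : 3 * w / 8 < |z.im - (ζ.im - w / 2)| := by linarith only [e6, b, not_lt.1 b]
      exact (continuousAt_const.eventually_lt c2.continuousAt b').mono fun y hy =>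
        y3 y (Or.inr hy.le)
  filter_upwards [h1, h2] with y hy hy'
  simp only [sra2_G, if_neg (not_le.2 hy)]
  split_ifs with b
  · exact (sra2_GG h s b hy').symm
  · rfl

theorem dip_of_Y {F : Frame} {μ K t w r η d e X θ θ' f K' rc r' : ℝ} {u v S H Y : ℂ → ℝ} {ζ p : ℂ}
    (h : GH F μ K t w r η d e u v S H) (s : Stp F t w r η X θ u v ζ) (hf : 0 ≤ f)
    (k1 : ∀ z, |GG F t w e r u v H z| ≤ K' * F.Φ z.re)
    (k2 : ∀ z, -t ^ 2 < F.ht z → |g2 F w e r u v H z| ≤ K' * F.Φ z.re)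
    (y1 : Continuous Y) (y2 : ∀ z, LocSub Y z)
    (y3 : ∀ z : ℂ, θ / 4000 ≤ |z.re - ζ.re| ∨ 3 * w / 8 ≤ |z.im - (ζ.im - w / 2)| → Y z = tav r v z)
    (y4 : ∀ z, Y z ≤ tav r v z + 4 * (f * F.Φ X)) (y5 : ∀ z, tav r v z - θ * F.Φ X ≤ Y z)
    (y6 : SubOn (fun z => Y z - θ' * F.Φ X * lm p r' z) (Metric.ball p (θ / 4000 / 32)))
    (hp : ‖p - (ζ - (w / 2 : ℝ) * Complex.I)‖ ≤ θ / 4000 / 32) (hθ' : 0 < θ') (hr : θ' ≤ r')
    (hr1 : 2 * r' ≤ rc) (hrc : rc ≤ θ / 4000 / 64)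
    (circ : ∀ z, ‖z - p‖ = rc →
      tav r u (z + w * Complex.I) < g2 F w e r u v H z + (Y z - tav r v z)) :
    ∃ G : ℂ → ℝ,
      Dip F (GG F t w e r u v H) (UU F η e u) (K' + 2) (t ^ 6 / 2) X θ' (4 * f) G p r' := by
  have hc := sra2_cases h s y1 y3 hp hrc circ
  obtain ⟨t1, t2, t3, -⟩ := d4_t h.dh.tpos h.dh.tle
  obtain ⟨-, t4, -⟩ := d2_num h.dh
  obtain ⟨s1, s2, -, s4⟩ := d4_small h
  have e4 := s.le
  have e5 := s.pos
  have r0 : 0 < r' := by linarith only [hθ', hr]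
  have A0 := F.Φ_pos X
  have fA : 0 ≤ f * F.Φ X := mul_nonneg hf A0.le
  have hW : sra2_W θ w ζ p := sra2_ball s hp hrc (by rw [sub_self, norm_zero]; linarith only [hθ', hr, hr1])
  have cG : Continuous (sra2_G F t w e r θ rc u v H Y ζ p) := by
    refine continuous_iff_continuousAt.2 fun z => ?_
    rcases hc z with ⟨a, b⟩ | ⟨-, a, b⟩ | ⟨-, b⟩
    · exact (sra2_cN h s y1 a).congr b
    · exact ContinuousAt.congr ((sra2_ca h).continuousAt.max (sra2_cN h s y1 a)) b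
    · exact (GG_cont h).continuousAt.congr b
  have hN : ∀ z, sra2_W θ w ζ z →
      sra2_N F w e r u v H Y z ≤ GG F t w e r u v H z + 4 * f * F.Φ X := fun z a => by
    have := g2_le_GG h (sra2_lo h s a)
    have := y4 z
    simp only [sra2_N]
    linarith
  have up : ∀ z, sra2_G F t w e r θ rc u v H Y ζ p z ≤ GG F t w e r u v H z + 4 * f * F.Φ X := by
    intro z
    rcases hc z with ⟨a, b⟩ | ⟨-, a, b⟩ | ⟨-, b⟩
    · rw [← b.self_of_nhds]
      exact hN z a
    · rw [← b.self_of_nhds]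
      refine max_le ?_ (hN z a)
      have := a_le_GG h (z := z) (by linarith only [t3, h, s, a, sra2_hi h s a])
      simp only [sra2_a]
      linarith only [fA, this]
    · rw [← b.self_of_nhds]
      linarith only [fA]
  have lN : ∀ z, sra2_W θ w ζ z → -(K' + 2) * F.Φ z.re ≤ sra2_N F w e r u v H Y z := fun z a => by
    have b1 := (abs_le.1 (k2 z (sra2_lo h s a))).1
    have b2 := y5 z
    have b3 : |X - z.re| ≤ 1 / 1000 := by
      rw [abs_sub_comm]
      exact (sra2_ht h s a).2.2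
    have b4 := (abs_le.1 (h.dh.good.Φ_close (by linarith only [hθ', hr, hr1, hrc, s1, s4, e4]) (b3.trans (by norm_num)))).2
    have p0 := F.Φ_pos z.re
    have b5 := mul_le_mul_of_nonneg_right b3 p0.le
    have b6 : θ * F.Φ X ≤ 1 * F.Φ X := mul_le_mul_of_nonneg_right (by linarith only [hθ', hr, hr1, hrc, s4, e4]) A0.le
    have b7 := mul_nonneg s2.le p0.le
    simp only [sra2_N]
    linarith only [b1, b2, b4, p0, b5, b6, b7]
  refine ⟨sra2_G F t w e r θ rc u v H Y ζ p, cG, fun z => ?_, fun z hz => ?_,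
    fun z => (up z).trans (by linarith only [h, GG_le h z]), fun z _ _ => up z, fun z => ?_, ?_, ?_, hr,
    by linarith only [hθ', hr, hr1, hrc, s4, e4], ?_⟩
  · rcases hc z with ⟨a, b⟩ | ⟨-, a, b⟩ | ⟨-, b⟩
    · exact (sra2_lN h s y1 (y2 z) a).congr b
    · exact (locSub_max (fun _ => sra2_la h z) (fun _ => sra2_lN h s y1 (y2 z) a)
        (Eventually.of_forall fun _ => (sra2_ca h).continuousAt)
        ((sra2_open a).mono fun y hy => sra2_cN h s y1 hy)).congr b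
    · exact LocSub.congr (d4_loc h z) b
  · have hn : ¬ sra2_W θ w ζ z := fun a => by
      have b1 := sra2_lo h s a
      have b2 := sra2_hi h s a
      have b3 := (sra2_ht h s a).2.2
      rcases hz with c | c
      · linarith only [hθ', hr, hr1, hrc, s4, e4, b3, c]
      · have : |F.ht z| < 1 / 1000 := abs_lt.2 ⟨by linarith only [t2, b1], by linarith only [hθ', hr, hr1, hrc, t4, s4, e4, b2]⟩
        linarith only [c, this]
    rcases hc z with ⟨a, -⟩ | ⟨-, a, -⟩ | ⟨-, b⟩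
    · exact absurd a hn
    · exact absurd a hn
    · exact b.self_of_nhds.symm
  · rcases hc z with ⟨a, b⟩ | ⟨-, a, b⟩ | ⟨-, b⟩
    · rw [← b.self_of_nhds]
      exact lN z a
    · rw [← b.self_of_nhds]
      exact (lN z a).trans (le_max_right _ _)
    · rw [← b.self_of_nhds]
      have := (abs_le.1 (k1 z)).1
      have := F.Φ_pos z.re
      linarith
  · linarith only [hθ', hr, hr1, hrc, s4, e4, h, s, hW, (sra2_ht h s hW).2.2]
  · exact abs_le.2 ⟨by linarith only [hθ', hr, hr1, hrc, t4, s4, e4, h, s, hW, (sra2_ht h s hW).1], by linarith only [hθ', hr, hr1, hrc, t4, s4, e4, h, s, hW, sra2_hi h s hW]⟩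
  · have cl : Continuous fun z => θ' * F.Φ X * lm p r' z :=
      continuous_const.mul (continuous_lm p r0)
    refine subOn_of_loc (cG.sub cl).continuousOn fun z hz => ?_
    rw [mem_ball_iff_norm] at hz
    have hz' : Metric.ball p (θ / 4000 / 32) ∈ 𝓝 z :=
      Metric.isOpen_ball.mem_nhds (by rw [mem_ball_iff_norm]; linarith only [hθ', hr, hr1, hrc, hz])
    rcases hc z with ⟨a, b⟩ | ⟨a, -⟩ | ⟨a, -⟩
    · refine (sra2_lN h s (y1.sub cl) (y6.locSub hz') a).congr (b.mono fun y hy => ?_)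
      simp only [← hy, sra2_N, Pi.sub_apply]
      ring
    · linarith only [hr1, hz, a]
    · exact absurd (sra2_ball s hp hrc (by linarith only [hr1, hz])) a

end

end Pool.Agent.MinMod.St
end

-- merged part: Pool.Agent.Work.MP_f62247_an.St.Y1
section
/-!
# A pole in a nearly flat plateau (no frame)
Write `x* = re ζ`, `yp = im ζ - w/2`, `l1 x = B x1 + s1 (x - x1)` with `x1 = x* - S/2`, `l2` with `x2 = x* + S/2`.
`V0 z = max (max (b (z + (w/2) I)) (b (re z + (im ζ + yp - im z) I))) (max (B (re z) + m lm p r z) (max (l1 (re z)) (l2 (re z))))` is subharmonic (`sub_vshift`, `sub_refl`, `sub_lm`, `mv_lin`, `SubOn.max`); `V0 ≤ B ∘ re` where `‖z - p‖ ≤ 1` (`lm_nonpos`), in particular for `|re z - x*| ≤ S`, `|im z - yp| ≤ w/2`.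
`V z = if re z ≤ x1 then l1 (re z) else if re z ≤ x2 then V0 z else l2 (re z)`; in the open box `|im z - yp| < w/2`, on the lines `re z = xi` one has `V0 z = B xi = li xi` and `V ≥ li` nearby, so `V` is continuous and `LocSub` there (`LocSub.of_le`).
`T z = 2 f + (32 f / w²) ((re z - x*)² - (im z - yp)²)` (`mv_poly`), `Y0 = V + T`, `τ1 z = max (|re z - x*| / (S/2)) (|im z - yp| / (w/8))`, `τ2 z = max (|re z - x*| / S) (|im z - yp| / (3w/8))`,
`Y z = if τ1 z ≤ 1 then Y0 z else if τ2 z ≤ 1 then max (Y0 z) (b z) else b z`. For `τ1 z = 1`: `Y0 z > b z` (sides: `V = B`, `T ≥ 3f/2`; top and bottom: one of the first two pieces is taken at a point of height `im ζ - w/8`, so `V ≥ B - f`).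
For `τ2 z = 1`: `Y0 z < b z` (`b ≥ B - f` by `low`; top and bottom `T ≤ -2 f`; sides `V ≤ B - β`, `T ≤ 5f/2`). Use `ite_lt`, `ite_gt`, `ite_left`, `ite_right`, `locSub_max`. On `ball p (S/32)` all pieces of `V0` but the third are `≤ B - min θ β`, so `Y = B ∘ re + m lm p r + T`.
-/

open Real MeasureTheory Set Filter Topology

namespace Pool.Agent.MinMod.St

open Pool.Agent.MinMod.Mo

noncomputable section

theorem sy1_ca {f : ℂ → ℝ} (hf : Continuous f) (z : ℂ) : ∀ᶠ w in 𝓝 z, ContinuousAt f w :=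
  Eventually.of_forall fun _ => hf.continuousAt

theorem sy1_cont {f : ℂ → ℝ} (hf : SubOn f univ) : Continuous f := continuousOn_univ.1 hf.1

theorem sy1_lin (a s x0 : ℝ) : SubOn (fun z : ℂ => a + s * (z.re - x0)) univ :=
  (sub_of_mv (by fun_prop) (mv_lin a s x0)).1

/-- continuation by two linear functions -/
theorem sy1_V {V0 : ℂ → ℝ} {x1 x2 a1 a2 s1 s2 y0 h : ℝ} (hV : SubOn V0 univ) (h12 : x1 < x2)
    (e1 : ∀ z : ℂ, |z.im - y0| < h → z.re = x1 → V0 z = a1)
    (e2 : ∀ z : ℂ, |z.im - y0| < h → z.re = x2 → V0 z = a2)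
    (g1 : ∀ z : ℂ, a1 + s1 * (z.re - x1) ≤ V0 z) (g2 : ∀ z : ℂ, a2 + s2 * (z.re - x2) ≤ V0 z) :
    ∃ V : ℂ → ℝ, Continuous V ∧ (∀ z : ℂ, |z.im - y0| < h → LocSub V z) ∧
      (∀ z : ℂ, |z.im - y0| < h → z.re ≤ x1 → V z = a1 + s1 * (z.re - x1)) ∧
      (∀ z : ℂ, x1 ≤ z.re → z.re ≤ x2 → V z = V0 z) ∧
      (∀ z : ℂ, |z.im - y0| < h → x2 ≤ z.re → V z = a2 + s2 * (z.re - x2)) := by
  have c0 := sy1_cont hV
  obtain ⟨V, hVd⟩ : ∃ V : ℂ → ℝ, V = fun z => V0 ((max x1 (min z.re x2) : ℝ) + z.im * Complex.I)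
      + s1 * min (z.re - x1) 0 + s2 * max (z.re - x2) 0 := ⟨_, rfl⟩
  have hc : Continuous V := by rw [hVd]; fun_prop
  have p1 : ∀ z : ℂ, |z.im - y0| < h → z.re ≤ x1 → V z = a1 + s1 * (z.re - x1) := by
    intro z hz hx
    rw [hVd]
    simp only
    rw [min_eq_left (by linarith : z.re ≤ x2), max_eq_left hx, min_eq_left (by linarith),
      max_eq_right (by linarith), e1 _ (by simpa using hz) (by simp)]
    ring
  have p2 : ∀ z : ℂ, x1 ≤ z.re → z.re ≤ x2 → V z = V0 z := by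
    intro z h1 h2
    rw [hVd]
    simp only
    rw [min_eq_left h2, max_eq_right h1, min_eq_right (by linarith), max_eq_right (by linarith),
      Complex.re_add_im]
    ring
  have p3 : ∀ z : ℂ, |z.im - y0| < h → x2 ≤ z.re → V z = a2 + s2 * (z.re - x2) := by
    intro z hz hx
    rw [hVd]
    simp only
    rw [min_eq_right hx, max_eq_right h12.le, min_eq_right (by linarith),
      max_eq_left (by linarith), e2 _ (by simpa using hz) (by simp)]
    ring
  refine ⟨V, hc, fun z hz => ?_, p1, p2, p3⟩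
  have n0 : ∀ᶠ w : ℂ in 𝓝 z, |w.im - y0| < h :=
    ContinuousAt.eventually_lt (by fun_prop) continuousAt_const hz
  rcases le_or_gt z.re x1 with k1 | k1
  · have n1 : ∀ᶠ w : ℂ in 𝓝 z, w.re < x2 :=
      ContinuousAt.eventually_lt (by fun_prop) continuousAt_const (by linarith)
    refine ((sy1_lin a1 s1 x1).locSub univ_mem).of_le (p1 z hz k1).le ?_
      (sy1_ca (by fun_prop) z) (sy1_ca hc z)
    filter_upwards [n0, n1] with w w0 w1
    rcases le_total w.re x1 with k | k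
    · exact (p1 w w0 k).ge
    · rw [p2 w k w1.le]; exact g1 w
  have n1 : ∀ᶠ w : ℂ in 𝓝 z, x1 < w.re :=
    ContinuousAt.eventually_lt continuousAt_const (by fun_prop) k1
  rcases lt_or_ge z.re x2 with k2 | k2
  · have n2 : ∀ᶠ w : ℂ in 𝓝 z, w.re < x2 :=
      ContinuousAt.eventually_lt (by fun_prop) continuousAt_const k2
    refine (hV.locSub univ_mem).congr ?_
    filter_upwards [n1, n2] with w w1 w2
    exact (p2 w w1.le w2.le).symm
  · refine ((sy1_lin a2 s2 x2).locSub univ_mem).of_le (p3 z hz k2).le ?_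
      (sy1_ca (by fun_prop) z) (sy1_ca hc z)
    filter_upwards [n0, n1] with w w0 w1
    rcases le_total x2 w.re with k | k
    · exact (p3 w w0 k).ge
    · rw [p2 w w1.le k]; exact g2 w

/-- gluing in two boxes -/
theorem sy1_glue {Y0 b τ1 τ2 : ℂ → ℝ} (cY : Continuous Y0) (hb : SubOn b univ)
    (c1 : Continuous τ1) (c2 : Continuous τ2) (h12 : ∀ z, τ1 z ≤ 0 → τ2 z < 0)
    (hY : ∀ z, τ2 z ≤ 0 → LocSub Y0 z) (q1 : ∀ z, τ1 z = 0 → b z < Y0 z)
    (q2 : ∀ z, τ2 z = 0 → Y0 z < b z) :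
    ∃ Y : ℂ → ℝ, Continuous Y ∧ (∀ z, LocSub Y z) ∧ (∀ z, τ1 z ≤ 0 → Y z = Y0 z) ∧
      (∀ z, 0 < τ1 z → b z ≤ Y z) ∧ (∀ z, Y z ≤ max (Y0 z) (b z)) ∧ ∀ z, 0 ≤ τ2 z → Y z = b z := by
  classical
  have cb := sy1_cont hb
  have lb : ∀ z, LocSub b z := fun z => hb.locSub univ_mem
  obtain ⟨Y, hd⟩ : ∃ Y : ℂ → ℝ, Y = fun z => if τ1 z ≤ 0 then Y0 z else
      if τ2 z ≤ 0 then max (Y0 z) (b z) else b z := ⟨_, rfl⟩
  have key : ∀ z, ∃ g : ℂ → ℝ, Continuous g ∧ LocSub g z ∧ Y =ᶠ[𝓝 z] g := by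
    intro z
    rcases lt_trichotomy (τ1 z) 0 with k | k | k
    · exact ⟨Y0, cY, hY z (h12 z k.le).le, hd ▸ ite_lt c1 k⟩
    · refine ⟨Y0, cY, hY z (h12 z k.le).le, hd ▸ ite_left ?_⟩
      have n1 : ∀ᶠ w in 𝓝 z, τ2 w < 0 :=
        c2.continuousAt.eventually_lt continuousAt_const (h12 z k.le)
      have n2 : ∀ᶠ w in 𝓝 z, b w < Y0 w := cb.continuousAt.eventually_lt cY.continuousAt (q1 z k)
      filter_upwards [n1, n2] with w w1 w2 _
      rw [if_pos w1.le, max_eq_left w2.le]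
    · have e : Y =ᶠ[𝓝 z] fun z => if τ2 z ≤ 0 then max (Y0 z) (b z) else b z := hd ▸ ite_gt c1 k
      rcases lt_trichotomy (τ2 z) 0 with j | j | j
      · exact ⟨fun z => max (Y0 z) (b z), cY.max cb,
          locSub_max (fun _ => hY z j.le) (fun _ => lb z) (sy1_ca cY z) (sy1_ca cb z),
          e.trans (ite_lt c2 j)⟩
      · refine ⟨b, cb, lb z, e.trans (ite_right ?_)⟩
        filter_upwards [cY.continuousAt.eventually_lt cb.continuousAt (q2 z j)] with w w2 _
        exact max_eq_right w2.le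
      · exact ⟨b, cb, lb z, e.trans (ite_gt c2 j)⟩
  refine ⟨Y, continuous_iff_continuousAt.2 fun z => ?_, fun z => ?_, fun z h => ?_, fun z h => ?_,
    fun z => ?_, fun z h => ?_⟩
  · obtain ⟨g, g1, -, g3⟩ := key z
    exact g1.continuousAt.congr g3.symm
  · obtain ⟨g, -, g2, g3⟩ := key z
    exact g2.congr g3.symm
  · rw [hd]; exact if_pos h
  · rw [hd]
    simp only [if_neg (not_le.2 h)]
    split_ifs
    · exact le_max_right _ _
    · exact le_rfl
  · rw [hd]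
    simp only
    split_ifs
    · exact le_max_left _ _
    · exact le_rfl
    · exact le_max_right _ _
  · have h1 : ¬ τ1 z ≤ 0 := fun k => absurd (h12 z k) (not_lt.2 h)
    rw [hd]
    simp only [if_neg h1]
    split_ifs with k
    · exact max_eq_right (q2 z (le_antisymm k h)).le
    · rfl

/-- the saddle -/
theorem sy1_T {X y0 S w f : ℝ} (hS : 0 < S) (hSw : S ≤ w / 8) (hf : 0 < f) :
    ∃ T : ℂ → ℝ, SubOn T univ ∧ (∀ z : ℂ, |z.im - y0| ≤ w / 8 → 3 / 2 * f ≤ T z) ∧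
      (∀ z : ℂ, |z.re - X| ≤ S → T z ≤ 5 / 2 * f) ∧
      ∀ z : ℂ, |z.re - X| ≤ S → 3 * w / 8 ≤ |z.im - y0| → T z ≤ -2 * f := by
  have hw : 0 < w := by linarith only [hS, hSw]
  obtain ⟨k, hk0, hk⟩ : ∃ k : ℝ, 0 ≤ k ∧ k * w ^ 2 = 32 * f :=
    ⟨32 * f / w ^ 2, by positivity, by field_simp⟩
  have a1 : ∀ z : ℂ, |z.re - X| ≤ S → k * (z.re - X) ^ 2 ≤ f / 2 := by
    intro z h
    have : (z.re - X) ^ 2 ≤ (w / 8) ^ 2 := sq_le_sq' (by linarith only [hSw, h, (abs_le.1 h).1])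
      (by linarith only [hSw, h, (abs_le.1 h).2])
    linarith only [hk, this, hk0, mul_le_mul_of_nonneg_left this hk0]
  refine ⟨fun z => 2 * f + k * ((z.re - X) ^ 2 - (z.im - y0) ^ 2) + 0 * (z.im - y0),
    (sub_of_mv (by fun_prop) (mv_poly _ _ _ _ _)).1, fun z h => ?_, fun z h => ?_, fun z h h' => ?_⟩
  · have : (z.im - y0) ^ 2 ≤ (w / 8) ^ 2 := sq_le_sq' (abs_le.1 h).1 (abs_le.1 h).2
    have h2 := mul_le_mul_of_nonneg_left this hk0
    have h3 : 0 ≤ k * (z.re - X) ^ 2 := by positivity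
    simp only
    linarith only [hk, h2, h3]
  · have h3 : 0 ≤ k * (z.im - y0) ^ 2 := by positivity
    have := a1 z h
    simp only
    linarith only [h3, this]
  · have : (3 * w / 8) ^ 2 ≤ (z.im - y0) ^ 2 := by
      rw [← sq_abs (z.im - y0)]
      exact pow_le_pow_left₀ (by positivity) h' 2
    have h2 := mul_le_mul_of_nonneg_left this hk0
    have := a1 z h
    simp only
    linarith only [hk, h2, this]

theorem exists_Y {b : ℂ → ℝ} {B : ℝ → ℝ} {ζ p : ℂ} {w S θ f β s1 s2 r m : ℝ} (hb : SubOn b univ)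
    (hB : SubOn (fun z => B z.re) univ) (hle : ∀ z, b z ≤ B z.re) (hS : 0 < S) (hSw : S ≤ w / 8)
    (hw : w ≤ 1 / 10) (hf : 0 < f)
    (low : ∀ z : ℂ, |z.re - ζ.re| ≤ S → z.im ≤ ζ.im - w / 8 → B z.re - b z ≤ f)
    (disc : ∀ z : ℂ, ‖z - ζ‖ ≤ S → θ ≤ B z.re - b z)
    (sup1 : ∀ x, B (ζ.re - S / 2) + s1 * (x - (ζ.re - S / 2)) ≤ B x)
    (sup2 : ∀ x, B (ζ.re + S / 2) + s2 * (x - (ζ.re + S / 2)) ≤ B x)
    (gap1 : ∀ x, S / 4 ≤ |x - (ζ.re - S / 2)| →
      B (ζ.re - S / 2) + s1 * (x - (ζ.re - S / 2)) + β ≤ B x)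
    (gap2 : ∀ x, S / 4 ≤ |x - (ζ.re + S / 2)| →
      B (ζ.re + S / 2) + s2 * (x - (ζ.re + S / 2)) + β ≤ B x)
    (hβ : 4 * f ≤ β) (hp : ‖p - (ζ - (w / 2 : ℝ) * Complex.I)‖ ≤ S / 32) (hr : 0 < r) (hr1 : r ≤ 1)
    (hm : 0 ≤ m) (hm1 : -(m * Real.log r) ≤ θ) (hm2 : -(m * Real.log r) ≤ β) :
    ∃ Y : ℂ → ℝ, Continuous Y ∧ (∀ z, LocSub Y z) ∧
      (∀ z : ℂ, S ≤ |z.re - ζ.re| ∨ 3 * w / 8 ≤ |z.im - (ζ.im - w / 2)| → Y z = b z) ∧
      (∀ z, Y z ≤ b z + 4 * f) ∧ (∀ z, b z - θ ≤ Y z) ∧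
      (∀ z ∈ Metric.ball p (S / 32), B z.re + m * Real.log r ≤ Y z) ∧
      SubOn (fun z => Y z - m * lm p r z) (Metric.ball p (S / 32)) := by
  have hw0 : 0 < w := by linarith only [hS, hSw]
  have hlog : Real.log r ≤ 0 := Real.log_nonpos hr.le hr1
  have hθ : 0 ≤ θ := by linarith only [hm1, hm, hlog, mul_nonneg_of_nonpos_of_nonpos (Mathlib.Tactic.Linarith.sub_nonpos_of_le hm) (Mathlib.Tactic.Linarith.sub_nonpos_of_le hlog)]
  obtain ⟨y0, hy0⟩ : ∃ y0, y0 = ζ.im - w / 2 := ⟨_, rfl⟩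
  obtain ⟨x1, hx1⟩ : ∃ x1, x1 = ζ.re - S / 2 := ⟨_, rfl⟩
  obtain ⟨x2, hx2⟩ : ∃ x2, x2 = ζ.re + S / 2 := ⟨_, rfl⟩
  rw [← hx1] at sup1 gap1
  rw [← hx2] at sup2 gap2
  rw [← hy0]
  obtain pre : |p.re - ζ.re| ≤ S / 32 := by
    have := (Complex.abs_re_le_norm _).trans hp
    simpa using this
  obtain pim : |p.im - y0| ≤ S / 32 := by
    have := (Complex.abs_im_le_norm _).trans hp
    rw [hy0]
    simpa using this
  obtain ⟨pr1, pr2⟩ := abs_le.1 pre
  obtain ⟨pi1, pi2⟩ := abs_le.1 pim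
  obtain ⟨V0, hV0⟩ : ∃ V0 : ℂ → ℝ, V0 = fun z => max (max (b (z + (w / 2 : ℝ) * Complex.I))
      (b (z.re + (ζ.im + y0 - z.im : ℝ) * Complex.I))) (max (B z.re + m * lm p r z)
      (max (B x1 + s1 * (z.re - x1)) (B x2 + s2 * (z.re - x2)))) := ⟨_, rfl⟩
  have sV : SubOn V0 univ := hV0 ▸ ((sub_vshift hb _).max (sub_refl hb _)).max
    ((hB.add ((sub_lm p hr).smul hm)).max ((sy1_lin _ _ _).max (sy1_lin _ _ _)))
  have v1 : ∀ z : ℂ, b (z + (w / 2 : ℝ) * Complex.I) ≤ V0 z := fun z =>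
    hV0 ▸ le_max_of_le_left (le_max_left _ _)
  have v2 : ∀ z : ℂ, b (z.re + (ζ.im + y0 - z.im : ℝ) * Complex.I) ≤ V0 z := fun z =>
    hV0 ▸ le_max_of_le_left (le_max_right _ _)
  have v3 : ∀ z : ℂ, B z.re + m * lm p r z ≤ V0 z := fun z =>
    hV0 ▸ le_max_of_le_right (le_max_left _ _)
  have v4 : ∀ z : ℂ, B x1 + s1 * (z.re - x1) ≤ V0 z := fun z =>
    hV0 ▸ le_max_of_le_right (le_max_of_le_right (le_max_left _ _))
  have v5 : ∀ z : ℂ, B x2 + s2 * (z.re - x2) ≤ V0 z := fun z =>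
    hV0 ▸ le_max_of_le_right (le_max_of_le_right (le_max_right _ _))
  have v6 : ∀ (z : ℂ) (c : ℝ), b (z + (w / 2 : ℝ) * Complex.I) ≤ c →
      b (z.re + (ζ.im + y0 - z.im : ℝ) * Complex.I) ≤ c → B z.re + m * lm p r z ≤ c →
      B x1 + s1 * (z.re - x1) ≤ c → B x2 + s2 * (z.re - x2) ≤ c → V0 z ≤ c :=
    fun z c a1 a2 a3 a4 a5 => hV0 ▸ max_le (max_le a1 a2) (max_le a3 (max_le a4 a5))
  have v3' : ∀ z : ℂ, B z.re + m * Real.log r ≤ B z.re + m * lm p r z := fun z => by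
    have := mul_le_mul_of_nonneg_left (lm_ge p hr z) hm
    linarith only [this]
  obtain vB : ∀ z : ℂ, |z.re - ζ.re| ≤ S → |z.im - y0| < w / 2 → V0 z ≤ B z.re := by
    clear * - ζ S y0 w v6 B b hle p hS hSw hw pr2 pr1 pi2 pi1 m r hm hr hr1 sup1 sup2
    intro z h1 h2
    refine v6 z _ (by simpa using hle (z + (w / 2 : ℝ) * Complex.I))
      (by simpa using hle (z.re + (ζ.im + y0 - z.im : ℝ) * Complex.I)) ?_ (sup1 _) (sup2 _)
    obtain hz : ‖z - p‖ ≤ 1 := by
      clear * - z p S ζ h1 w y0 h2 hS hSw hw pr2 pr1 pi2 pi1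
      refine (Complex.norm_le_abs_re_add_abs_im _).trans ?_
      obtain ⟨a1, a2⟩ := abs_le.1 h1
      obtain ⟨a3, a4⟩ := abs_lt.1 h2
      obtain b1 : |(z - p).re| ≤ 1 / 2 := by
        rw [Complex.sub_re, abs_le]; constructor <;> linarith only [hS, hSw, hw, pr2, a1, pr1, a2]
      obtain b2 : |(z - p).im| ≤ 1 / 2 := by
        rw [Complex.sub_im, abs_le]; constructor <;> linarith only [hS, hSw, hw, pi2, a3, pi1, a4]
      linarith only [b1, b2]
    have := mul_nonpos_of_nonneg_of_nonpos hm (lm_nonpos hr hr1 hz)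
    linarith only [this]
  obtain ⟨V, cV, lV, p1, p2, p3⟩ := sy1_V (a1 := B x1) (a2 := B x2) (s1 := s1) (s2 := s2)
    (y0 := y0) (h := w / 2) sV (show x1 < x2 by linarith only [hS, hx1, hx2])
    (fun z h e => le_antisymm (e ▸ vB z (by clear * - z ζ S x1 hS hx1 e h v4; rw [abs_le]; constructor <;> linarith only [hS, hx1, e]) h)
      (by simpa [e] using v4 z))
    (fun z h e => le_antisymm (e ▸ vB z (by clear * - z ζ S x2 hS hx2 e h v4 v5; rw [abs_le]; constructor <;> linarith only [hS, hx2, e]) h)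
      (by simpa [e] using v5 z)) v4 v5
  obtain VB : ∀ z : ℂ, |z.re - ζ.re| ≤ S → |z.im - y0| < w / 2 → V z ≤ B z.re := by
    intro z h1 h2
    rcases le_total z.re x1 with k | k
    · rw [p1 z h2 k]; exact sup1 _
    rcases le_total z.re x2 with j | j
    · rw [p2 z k j]; exact vB z h1 h2
    · rw [p3 z h2 j]; exact sup2 _
  obtain ⟨T, sT, t1, t2, t3⟩ := sy1_T (X := ζ.re) (y0 := y0) hS hSw hf
  have cT := sy1_cont sT
  have pm : ∀ z : ℂ, |z.re - ζ.re| ≤ S / 2 → V z = V0 z := fun z h =>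
    p2 z (by clear * - x1 z ζ S hx1 h hx2; linarith only [hx1, h, (abs_le.1 h).1]) (by clear * - z x2 ζ S hx2 h; linarith only [hx2, h, (abs_le.1 h).2])
  have lo : ∀ z : ℂ, |z.re - ζ.re| ≤ S → |z.im - y0| ≤ 3 * w / 8 → B z.re - b z ≤ f :=
    fun z h1 h2 => low z h1 (by linarith only [hy0, h2, (abs_le.1 h2).2])
  obtain ⟨Y, cY, lY, y1, y2, y3, y4⟩ := sy1_glue (Y0 := fun z => V z + T z)
    (τ1 := fun z => max (|z.re - ζ.re| - S / 2) (|z.im - y0| - w / 8))
    (τ2 := fun z => max (|z.re - ζ.re| - S) (|z.im - y0| - 3 * w / 8)) (cV.add cT) hb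
    (by fun_prop) (by fun_prop)
    (fun z h => by
      obtain ⟨a1, a2⟩ := max_le_iff.1 h
      exact max_lt (by linarith only [hS, a1]) (by linarith only [hS, hSw, a2]))
    (fun z h => by
      obtain ⟨a1, a2⟩ := max_le_iff.1 h
      exact (lV z (by linarith only [hS, hSw, a2])).add (sT.locSub univ_mem) (sy1_ca cV z) (sy1_ca cT z))
    (fun z h => by
      clear * - z ζ S y0 w b V T h V0 pm f t1 B hle x2 hx2 s2 v5 hf x1 hx1 s1 v4 low hS v2 hy0 v1
      obtain ⟨a1, a2⟩ := max_le_iff.1 h.le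
      have e := pm z (by linarith only [a1])
      have e1 := t1 z (by linarith only [a2])
      have e2 := hle z
      simp only [e]
      rcases max_eq_iff.1 h with ⟨k, -⟩ | ⟨k, -⟩
      · rcases eq_or_eq_neg_of_abs_eq (sub_eq_zero.1 k) with j | j
        · have j' : z.re = x2 := by linarith only [hx2, j]
          have := v5 z
          rw [j'] at this e2
          linarith only [hf, e1, e2, this]
        · have j' : z.re = x1 := by linarith only [hx1, j]
          have := v4 z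
          rw [j'] at this e2
          linarith only [hf, e1, e2, this]
      · rcases eq_or_eq_neg_of_abs_eq (sub_eq_zero.1 k) with j | j
        · have := low (z.re + (ζ.im + y0 - z.im : ℝ) * Complex.I) (by simp; linarith only [hS, a1])
            (by simp; linarith only [j])
          have e3 := v2 z
          simp only [Complex.add_re, Complex.ofReal_re, Complex.mul_re, Complex.I_re, mul_zero,
            Complex.ofReal_im, Complex.I_im, zero_mul, sub_zero, add_zero] at this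
          linarith only [hf, e1, e2, e3, this]
        · have := low (z + (w / 2 : ℝ) * Complex.I) (by simp; linarith only [hS, a1]) (by simp; linarith only [hy0, j])
          have e3 := v1 z
          simp only [Complex.add_re, Complex.ofReal_re, Complex.mul_re, Complex.I_re, mul_zero,
            Complex.ofReal_im, Complex.I_im, zero_mul, sub_zero, add_zero] at this
          linarith only [hf, e1, e2, e3, this])
    (fun z h => by
      clear * - z ζ S y0 w V T b h B f lo t2 hS hSw x2 s2 β gap2 hx2 p3 hf hβ x1 s1 gap1 hx1 p1 t3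
        VB
      obtain ⟨a1, a2⟩ := max_le_iff.1 h.le
      have e0 := lo z (by linarith only [a1]) (by linarith only [a2])
      have e1 := t2 z (by linarith only [a1])
      have hz : |z.im - y0| < w / 2 := by linarith only [hS, hSw, a2]
      rcases max_eq_iff.1 h with ⟨k, -⟩ | ⟨k, -⟩
      · rcases eq_or_eq_neg_of_abs_eq (sub_eq_zero.1 k) with j | j
        · have := gap2 z.re (le_abs.2 (Or.inl (by linarith only [hS, hx2, j])))
          have e := p3 z hz (by linarith only [hS, hx2, j])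
          simp only [e]
          linarith only [hf, hβ, e0, e1, this]
        · have := gap1 z.re (le_abs.2 (Or.inr (by linarith only [hS, hx1, j])))
          have e := p1 z hz (by linarith only [hS, hx1, j])
          simp only [e]
          linarith only [hf, hβ, e0, e1, this]
      · have := t3 z (by linarith only [a1]) (by linarith only [k])
        have e := VB z (by linarith only [a1]) hz
        linarith only [hf, e0, this, e])
  obtain ball : ∀ z ∈ Metric.ball p (S / 32), |z.re - ζ.re| ≤ S / 16 ∧ |z.im - y0| ≤ S / 16 := by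
    clear * - p S ζ y0 pr1 pr2 pi1 pi2
    intro z hz
    rw [mem_ball_iff_norm] at hz
    obtain ⟨a1, a2⟩ := abs_le.1 ((Complex.abs_re_le_norm _).trans hz.le)
    obtain ⟨a3, a4⟩ := abs_le.1 ((Complex.abs_im_le_norm _).trans hz.le)
    rw [Complex.sub_re] at a1 a2
    rw [Complex.sub_im] at a3 a4
    constructor <;> rw [abs_le] <;> constructor <;> linarith only [pr1, a1, pr2, a2, pi1, a3, pi2, a4]
  obtain inb : ∀ z ∈ Metric.ball p (S / 32), Y z = B z.re + m * lm p r z + T z := by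
    clear * - p S ζ y0 Y B m r T ball v3' V y1 w hS hSw V0 pm v6 θ b disc hy0 hm1 x1 s1 β gap1 hx1
      hm2 x2 s2 gap2 hx2 v3
    intro z hz
    obtain ⟨a1, a2⟩ := ball z hz
    obtain ⟨a3, a4⟩ := abs_le.1 a1
    have e3 := v3' z
    rw [y1 z (max_le (by linarith only [hS, a1]) (by linarith only [hS, hSw, a2]))]
    rw [pm z (by linarith only [hS, a1])]
    congr 1
    refine le_antisymm (v6 z _ ?_ ?_ le_rfl ?_ ?_) (v3 z)
    · have := disc (z + (w / 2 : ℝ) * Complex.I) (by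
        clear * - z w ζ S y0 hy0 hS a1 a2
        refine (Complex.norm_le_abs_re_add_abs_im _).trans ?_
        have b1 : (z + (w / 2 : ℝ) * Complex.I - ζ).re = z.re - ζ.re := by simp
        have b2 : (z + (w / 2 : ℝ) * Complex.I - ζ).im = z.im - y0 := by simp [hy0]; ring
        rw [b1, b2]; linarith only [hS, a1, a2])
      simp only [Complex.add_re, Complex.ofReal_re, Complex.mul_re, Complex.I_re, mul_zero,
        Complex.ofReal_im, Complex.I_im, zero_mul, sub_zero, add_zero] at this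
      linarith only [hm1, e3, this]
    · have := disc (z.re + (ζ.im + y0 - z.im : ℝ) * Complex.I) (by
        clear * - z ζ y0 S hS a1 a2
        refine (Complex.norm_le_abs_re_add_abs_im _).trans ?_
        have b1 : (z.re + (ζ.im + y0 - z.im : ℝ) * Complex.I - ζ).re = z.re - ζ.re := by simp
        obtain b2 : (z.re + (ζ.im + y0 - z.im : ℝ) * Complex.I - ζ).im = -(z.im - y0) := by
          simp; ring
        rw [b1, b2, abs_neg]; linarith only [hS, a1, a2])
      simp only [Complex.add_re, Complex.ofReal_re, Complex.mul_re, Complex.I_re, mul_zero,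
        Complex.ofReal_im, Complex.I_im, zero_mul, sub_zero, add_zero] at this
      linarith only [hm1, e3, this]
    · have := gap1 z.re (le_abs.2 (Or.inl (by linarith only [hS, hx1, a3])))
      linarith only [hm2, e3, this]
    · have := gap2 z.re (le_abs.2 (Or.inr (by linarith only [hS, hx2, a4])))
      linarith only [hm2, e3, this]
  refine ⟨Y, cY, lY, fun z h => y4 z ?_, fun z => ?_, fun z => ?_, fun z hz => ?_, ?_⟩
  · rcases h with h | h
    · exact le_max_of_le_left (by linarith only [h])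
    · exact le_max_of_le_right (by linarith only [h])
  · rcases le_total 0 (max (|z.re - ζ.re| - S) (|z.im - y0| - 3 * w / 8)) with k | k
    · rw [y4 z k]; linarith only [hf]
    · obtain ⟨a1, a2⟩ := max_le_iff.1 k
      refine (y3 z).trans (max_le ?_ (by linarith only [hf]))
      have e0 := lo z (by linarith only [a1]) (by clear * - z y0 w a2; linarith only [a2])
      have e1 := t2 z (by linarith only [a1])
      have e := VB z (by linarith only [a1]) (by linarith only [hS, hSw, a2])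
      linarith only [hf, e0, e1, e]
  · rcases le_or_gt (max (|z.re - ζ.re| - S / 2) (|z.im - y0| - w / 8)) 0 with k | k
    · obtain ⟨a1, a2⟩ := max_le_iff.1 k
      rw [y1 z k]
      rw [pm z (by linarith only [a1])]
      clear * - b z θ V0 T f m r B p hf hm1 v3 v3' t1 y0 w a2 hle; linarith only [hf, hm1, v3, v3', t1, a2, hle, v3 z, v3' z, t1 z (by linarith), hle z]
    · linarith only [hθ, y2, k, y2 z k]
  · rw [inb z hz]
    clear * - B z m r p T f hf v3' t1 y0 w S hS hSw ζ ball hz; linarith only [hf, v3', t1, hS, hSw, ball, hz, v3' z, t1 z (by linarith [(ball z hz).2])]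
  · refine subOn_of_loc (cY.sub (continuous_const.mul (continuous_lm p hr))).continuousOn
      fun z hz => ((hB.add sT).locSub univ_mem).congr ?_
    filter_upwards [Metric.isOpen_ball.mem_nhds hz] with u hu
    rw [inb u hu]; ring

end

end Pool.Agent.MinMod.St
end

-- merged part: Pool.Agent.Work.MP_f62247_an.St.Y2
section
/-!
# Quantitative strict convexity of the plateau
Let `l x = B x0 + s (x - x0)`, `q = B - l ≥ 0`. By `support_mono` (`convex_of_sub`) it suffices to treat `x1 = x0 ± S/4`, and `q ≤ q x1` between `x0` and `x1`. With `xm = (x0 + x1)/2`, `ρ = S/16` the function `V z = l (re z) + q x1 - b z` is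
`≥ B (re z) - b z ≥ 0` on `col xm (im ζ) (im ζ - w/8) ρ` and `-V` is subharmonic (`mv_lin`). `θ ≤ da V (xm + im ζ I) (ρ/2)` (`disc`, `da_mono`, `da_const`), `chain`, `da_le_super`, and `V (xm + (im ζ - w/8) I) ≤ f + q x1`.
-/

open Real MeasureTheory Set Filter Topology

namespace Pool.Agent.MinMod.St

open Pool.Agent.MinMod.Mo

noncomputable section

theorem sy2_core {b : ℂ → ℝ} {B : ℝ → ℝ} {ζ : ℂ} {w S θ f x0 s xm Q : ℝ} {n : ℕ}
    (hb : SubOn b univ) (hle : ∀ z, b z ≤ B z.re) (hS : 0 < S) (hw : 0 ≤ w)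
    (low : ∀ z : ℂ, |z.re - ζ.re| ≤ S → z.im ≤ ζ.im - w / 8 → B z.re - b z ≤ f)
    (disc : ∀ z : ℂ, ‖z - ζ‖ ≤ S → θ ≤ B z.re - b z) (hm : |xm - ζ.re| ≤ 3 * S / 4)
    (sup : ∀ x, B x0 + s * (x - x0) ≤ B x) (hn : w / 8 ≤ n * (S / 32))
    (hQ : ∀ u, |u - xm| ≤ S / 8 → B u - (B x0 + s * (u - x0)) ≤ Q) : θ / 9 ^ n - f ≤ Q := by
  have cb : Continuous b := continuousOn_univ.1 hb.1
  have cV : Continuous fun z : ℂ => B x0 + Q + s * (z.re - x0) - b z := by fun_prop
  have sV : SubOn (fun z : ℂ => -(B x0 + Q + s * (z.re - x0) - b z)) univ := by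
    have := hb.add (sub_of_mv (by fun_prop) (mv_lin (B x0 + Q) s x0)).2
    simpa only [neg_sub, sub_eq_add_neg, neg_add_rev, neg_neg] using this
  have r0 : 0 < S / 16 := by positivity
  have r1 : 0 < S / 16 / 2 := by positivity
  have a1 := chain cV (x := xm) (y1 := ζ.im) (y2 := ζ.im - w / 8) r0 (n := n)
    (by rw [sub_sub_cancel_left, abs_neg, abs_of_nonneg (by positivity)]; linarith only [hn])
    (fun z hz => by linarith only [hQ, hz, hle, hQ z.re (by linarith [hz.1]), hle z]) (sV.mono (subset_univ _))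
  have a2 := da_le_super sV (z := xm + (ζ.im - w / 8 : ℝ) * Complex.I) r1 (subset_univ _)
  have a3 := low (xm + (ζ.im - w / 8 : ℝ) * Complex.I) (by simpa using by linarith only [hS, hm]) (by simp)
  have e1 : ((xm : ℂ) + (ζ.im - w / 8 : ℝ) * Complex.I).re = xm := by simp
  rw [e1] at a2 a3
  have a4 : θ ≤ da (fun z : ℂ => B x0 + Q + s * (z.re - x0) - b z) (xm + ζ.im * Complex.I)
      (S / 16 / 2) := by
    clear * - θ B x0 Q s b xm ζ S r1 cV disc hS hm hQ
    rw [← da_const θ (xm + ζ.im * Complex.I) r1]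
    refine da_mono (integrableOn_const Metric.isBounded_ball.measure_lt_top.ne)
      ((cV.continuousOn.integrableOn_compact (isCompact_closedBall _ _)).mono_set
        Metric.ball_subset_closedBall) (ae_of_all _ fun z hz => ?_)
    have b1 : ‖z - (xm + ζ.im * Complex.I)‖ < S / 16 / 2 := by rwa [← dist_eq_norm]
    have b2 := Complex.abs_re_le_norm (z - (xm + ζ.im * Complex.I))
    have b3 : ((xm : ℂ) + ζ.im * Complex.I - ζ) = (xm - ζ.re : ℝ) := by
      apply Complex.ext <;> simp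
    have b4 := norm_sub_le_norm_sub_add_norm_sub z (xm + ζ.im * Complex.I) ζ
    rw [b3, Complex.norm_real, Real.norm_eq_abs] at b4
    have b5 : (z - (xm + ζ.im * Complex.I)).re = z.re - xm := by simp
    rw [b5] at b2
    linarith only [disc, hS, hm, b1, b4, hQ, b2, disc z (by linarith), hQ z.re (by linarith)]
  have p9 : (0 : ℝ) < 9 ^ n := by positivity
  rw [sub_le_iff_le_add, div_le_iff₀' p9]
  exact (a4.trans a1).trans (mul_le_mul_of_nonneg_left (by linarith only [a2, a3, sup, sup xm]) p9.le)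

theorem gap_support {b : ℂ → ℝ} {B : ℝ → ℝ} {ζ : ℂ} {w S θ f x0 s : ℝ} {n : ℕ} (hb : SubOn b univ)
    (hB : SubOn (fun z => B z.re) univ) (hle : ∀ z, b z ≤ B z.re) (hS : 0 < S) (hw : 0 ≤ w)
    (low : ∀ z : ℂ, |z.re - ζ.re| ≤ S → z.im ≤ ζ.im - w / 8 → B z.re - b z ≤ f)
    (disc : ∀ z : ℂ, ‖z - ζ‖ ≤ S → θ ≤ B z.re - b z) (hx0 : |x0 - ζ.re| = S / 2)
    (sup : ∀ x, B x0 + s * (x - x0) ≤ B x) (hn : w / 8 ≤ n * (S / 32)) {x : ℝ}
    (hx : S / 4 ≤ |x - x0|) : B x0 + s * (x - x0) + (θ / 9 ^ n - f) ≤ B x := by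
  have hc := convex_of_sub hB
  obtain ⟨c1, c2⟩ := abs_le.1 hx0.le
  rcases le_abs'.1 hx with h | h
  · have := sy2_core (xm := x0 - S / 8) (Q := B x - (B x0 + s * (x - x0))) hb hle hS hw low disc
      (abs_le.2 ⟨by linarith only [hS, c1], by linarith only [hS, c2]⟩) sup hn fun u hu =>
        support_mono hc sup (Or.inr ⟨by linarith only [h, hu, (abs_le.1 hu).1], by linarith only [hu, (abs_le.1 hu).2]⟩)
    linarith only [this]
  · have := sy2_core (xm := x0 + S / 8) (Q := B x - (B x0 + s * (x - x0))) hb hle hS hw low disc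
      (abs_le.2 ⟨by linarith only [hS, c1], by linarith only [hS, c2]⟩) sup hn fun u hu =>
        support_mono hc sup (Or.inl ⟨by linarith only [hu, (abs_le.1 hu).1], by linarith only [h, hu, (abs_le.1 hu).2]⟩)
    linarith only [this]

end

end Pool.Agent.MinMod.St
end

-- merged part: Pool.Agent.Work.MP_f62247_an.St.RA3
section
/-!
# A pole at small cost when the mass `S` is small
`S0 = θ/4000`, `n = ⌈32/S0⌉₊`, `β0 = θ / (4 * 9^n)`, `f0 = β0/4`, `r' = S0/256`, `θ' = min r' (min (θ/8) β0 / (- log r'))`, `e0 = θ/100`, `s0` so small that `C s0 ≤ θ/16` and `(24 - 4 log (S0/128)) 9^n s0 / (S0/32)² ≤ θ/16`. `A = Φ X`.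
`Stp` holds (`GH.eta`). `exists_support` (`convex_of_sub`, `sub_Bt`) at `re ζ ∓ S0/2`, `gap_support` with `θ A/2`, `f A` gives the gap `β0 A`; `small_circle` gives `q`, `rc`, `p = q - w I`; `exists_Y` with `m = θ' A`; `dip_of_Y`.
On the circle: `g2 + Y - b - a_w = (Y - b_w) - w (b_w - a_w) - H - e Xi`, `Y ≥ Bt - θ A/8`, `Bt - b_w ≥ θ A/2` (`col_psi` at `z + w I`), `w (b_w - a_w) ≤ θ A/16`, `H ≤ θ A/16` (`HT.hi`), `e Xi ≤ e Φ (re z) ≤ θ A/16` (`d3_Xi_le`).
-/

open Real MeasureTheory Set Filter Topology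

namespace Pool.Agent.MinMod.St

open Pool.Agent.MinMod.Mo

noncomputable section

theorem sra3_num {C : ℝ} (hC : 0 < C) {θ : ℝ} (hθ : 0 < θ) (hθ1 : θ ≤ 1 / 1000) :
    ∃ (n : ℕ) (β θ' s0 Λ : ℝ), 1 ≤ n * (θ / 4000 / 32) ∧ 0 < β ∧ θ / 2 / 9 ^ n = 2 * β ∧ β ≤ θ ∧
      0 < θ' ∧ θ' ≤ θ / 4000 / 256 ∧ -(θ' * Real.log (θ / 4000 / 256)) ≤ θ / 8 ∧
      -(θ' * Real.log (θ / 4000 / 256)) ≤ β ∧ 0 < s0 ∧ C * s0 ≤ θ / 16 ∧ 0 < Λ ∧ Λ * s0 ≤ θ / 16 ∧
      ∀ s : ℝ, (24 - 4 * Real.log (θ / 4000 / 128)) * (9 ^ n * (s / (θ / 4000 / 32) ^ 2)) = Λ * s := by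
  obtain ⟨n, hn⟩ := exists_nat_ge (1 / (θ / 4000 / 32))
  have h9 : (1 : ℝ) ≤ 9 ^ n := one_le_pow₀ (by norm_num)
  have l1 : 0 < -Real.log (θ / 4000 / 256) :=
    neg_pos.2 (Real.log_neg (by positivity) (by linarith only [hθ, hθ1]))
  have l2 : Real.log (θ / 4000 / 128) < 0 := Real.log_neg (by positivity) (by linarith only [hθ, hθ1])
  have l3 : 0 < 24 - 4 * Real.log (θ / 4000 / 128) := by linarith only [hθ, hθ1, l2]
  have hβ : 0 < θ / 4 / 9 ^ n := by positivity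
  set l := -Real.log (θ / 4000 / 256) with hl
  set Λ := (24 - 4 * Real.log (θ / 4000 / 128)) * (9 ^ n / (θ / 4000 / 32) ^ 2) with hΛ
  have Λ0 : 0 < Λ := by positivity
  have k : min (θ / 4000 / 256) (min (θ / 8) (θ / 4 / 9 ^ n) / l) * l ≤
      min (θ / 8) (θ / 4 / 9 ^ n) := by
    rw [← le_div_iff₀ l1]
    exact min_le_right _ _
  refine ⟨n, θ / 4 / 9 ^ n, min (θ / 4000 / 256) (min (θ / 8) (θ / 4 / 9 ^ n) / l),
    min (θ / 16 / C) (θ / 16 / Λ), Λ, (div_le_iff₀ (by positivity)).1 hn, hβ, by ring, ?_,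
    by positivity, min_le_left _ _, ?_, ?_, by positivity, ?_, Λ0, ?_, fun s => ?_⟩
  · exact (div_le_self (by positivity) h9).trans (by linarith only [hθ])
  · rw [← mul_neg]
    exact k.trans (min_le_left _ _)
  · rw [← mul_neg]
    exact k.trans (min_le_right _ _)
  · rw [mul_comm, ← le_div_iff₀ hC]
    exact min_le_left _ _
  · rw [mul_comm, ← le_div_iff₀ Λ0]
    exact min_le_right _ _
  · rw [hΛ]
    ring

theorem sra3_circ {F : Frame} {μ K t w r η d e c C X θ : ℝ} {u v S H : ℂ → ℝ} {ζ z : ℂ} {y : ℝ}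
    (h : GH F μ K t w r η d e u v S H) (hT : HT F t w c C S H) (s : Stp F t w r η X θ u v ζ)
    (he : e ≤ θ / 100) (hC : 0 < C) (hH : C * SS t S X ≤ θ / 16 * F.Φ X)
    (hz : ‖z + w * Complex.I - (ζ + (w / 2 : ℝ) * Complex.I)‖ ≤ θ / 4000)
    (hD : tav r v (z + w * Complex.I) - tav r u (z + w * Complex.I) ≤ θ / 16 * F.Φ X)
    (hy : Bt r u z.re - θ / 8 * F.Φ X ≤ y) :
    tav r u (z + w * Complex.I) < g2 F w e r u v H z + (y - tav r v z) := by
  obtain ⟨a1, a2, a3, a4, a5, a6, a7, a8, a9⟩ := d2_num h.dh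
  have w0 := h.dh.wpos
  have w1 := h.d3_w
  have w2 := h.dh.wle
  have hθ := s.pos
  have hθw := s.le
  have hA := F.Φ_pos X
  have e0 := h.d3_eps
  have b1 := abs_le.1 ((h.dh.good.ht_sub (by linarith only [he, a2, a4, a9, w2, hθw, e0]) (ζ + (w / 2 : ℝ) * Complex.I)
    (z + w * Complex.I)).trans (mul_le_mul_of_nonneg_left hz (by norm_num)))
  rw [Frame.ht_add_I, Frame.ht_add_I] at b1
  have b2 := (Frame.f1_re _ _).trans hz
  rw [d3_re, d3_re] at b2
  have b3 := abs_le.1 ((Frame.f1_im _ _).trans hz)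
  have b4 : (ζ + (w / 2 : ℝ) * Complex.I).im = ζ.im + w / 2 := by simp
  rw [b4] at b3
  have lo := s.lo
  have hi := s.hi
  have t2 : t ^ 8 ≤ t ^ 2 / 1000 := d3_pow h.dh.tpos h.dh.tle 2 8 (by norm_num)
  have t3 : 0 < t ^ 2 := pow_pos h.dh.tpos 2
  have t4 : t ^ 2 ≤ 1 / 1000 := d3_one h.dh.tpos h.dh.tle 2 (by norm_num)
  have c1 := col_psi h.dh s (z := z + w * Complex.I) (by rw [d3_re]; linarith only [he, e0, b2]) (by linarith only [he, hθw, e0, b3])
    (by rw [Frame.ht_add_I]; linarith only [he, a4, w2, hθw, e0, b1, hi])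
  have hx : |z.re - X| ≤ 1 / 1000 := by
    have := abs_sub_le z.re ζ.re X
    have := s.x
    linarith
  have c2 := hT.hi X z hx (by linarith only [he, w2, hθw, e0, b1, lo, t2]) (by linarith only [he, a2, a4, w2, hθw, e0, b1, hi])
  have c3 : C * w * SS t S X ≤ C * SS t S X := by
    have := mul_nonneg hC.le (SS_nonneg h X)
    (refine le_of_not_gt fun h_nl => ?_; linarith only [h_nl, this, a2, a3, a4, w1, mul_nonneg_of_nonpos_of_nonpos (Mathlib.Tactic.Linarith.sub_nonpos_of_le a2) (le_of_lt (Mathlib.Tactic.Linarith.sub_neg_of_lt h_nl)), mul_pos_of_neg_of_neg (Mathlib.Tactic.Linarith.sub_neg_of_lt a3) (Mathlib.Tactic.Linarith.sub_neg_of_lt h_nl), mul_nonneg_of_nonpos_of_nonpos (Mathlib.Tactic.Linarith.sub_nonpos_of_le a4) (le_of_lt (Mathlib.Tactic.Linarith.sub_neg_of_lt h_nl)), mul_nonneg_of_nonpos_of_nonpos (Mathlib.Tactic.Linarith.sub_nonpos_of_le w1) (Mathlib.Tactic.Linarith.sub_nonpos_of_le this)])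
  have c4 := d3_Xi_le F (z := z) (c := 1) zero_le_one (by linarith only [he, a2, a4, w2, hθw, e0, b1, lo])
  have c5 : F.Φ z.re ≤ 2 * F.Φ X := by
    have k1 := (abs_le.1 (h.dh.good.Φ_close (by linarith only [he, a2, a4, a9, w2, hθw, e0]) (x := X) (x' := z.re) (by linarith only [he, a2, a4, w2, hθw, e0, hx]))).2
    (refine le_of_not_gt fun h_nl => ?_; linarith only [h_nl, k1, he, hA, a2, a3, a4, w2, hθw, e0, hx, mul_nonneg_of_nonpos_of_nonpos (Mathlib.Tactic.Linarith.sub_nonpos_of_le he) (le_of_lt (Mathlib.Tactic.Linarith.sub_neg_of_lt hA)), mul_nonneg_of_nonpos_of_nonpos (Mathlib.Tactic.Linarith.sub_nonpos_of_le a2) (le_of_lt (Mathlib.Tactic.Linarith.sub_neg_of_lt hA)), mul_nonneg_of_nonpos_of_nonpos (Mathlib.Tactic.Linarith.sub_nonpos_of_le a2) (le_of_lt (Mathlib.Tactic.Linarith.sub_neg_of_lt h_nl)), mul_pos_of_neg_of_neg (Mathlib.Tactic.Linarith.sub_neg_of_lt a3) (Mathlib.Tactic.Linarith.sub_neg_of_lt h_nl), mul_nonneg_of_nonpos_of_nonpos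 (Mathlib.Tactic.Linarith.sub_nonpos_of_le a4) (le_of_lt (Mathlib.Tactic.Linarith.sub_neg_of_lt hA)), mul_nonneg_of_nonpos_of_nonpos (Mathlib.Tactic.Linarith.sub_nonpos_of_le a4) (le_of_lt (Mathlib.Tactic.Linarith.sub_neg_of_lt h_nl)), mul_nonneg_of_nonpos_of_nonpos (Mathlib.Tactic.Linarith.sub_nonpos_of_le w2) (le_of_lt (Mathlib.Tactic.Linarith.sub_neg_of_lt hA)), mul_nonneg_of_nonpos_of_nonpos (Mathlib.Tactic.Linarith.sub_nonpos_of_le hθw) (le_of_lt (Mathlib.Tactic.Linarith.sub_neg_of_lt hA)), mul_pos_of_neg_of_neg (Mathlib.Tactic.Linarith.sub_neg_of_lt hA) (Mathlib.Tactic.Linarith.sub_neg_of_lt e0), mul_nonneg_of_nonpos_of_nonpos (le_of_lt (Mathlib.Tactic.Linarith.sub_neg_of_lt hA)) (Mathlib.Tactic.Linarith.sub_nonpos_of_le hx)])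
  have c6 : e * F.Xi z ≤ θ / 100 * (2 * F.Φ X) :=
    mul_le_mul he (by linarith only [c4, c5]) (d3_Xi0 F z) (by linarith only [he, e0])
  have c7 := h.dh.le_uv (z + w * Complex.I)
  have c8 : w * (tav r v (z + w * Complex.I) - tav r u (z + w * Complex.I)) ≤
      tav r v (z + w * Complex.I) - tav r u (z + w * Complex.I) := by (refine le_of_not_gt fun h_nl => ?_; linarith only [h_nl, c7, a2, a3, a4, w1, mul_nonneg_of_nonpos_of_nonpos (Mathlib.Tactic.Linarith.sub_nonpos_of_le a2) (le_of_lt (Mathlib.Tactic.Linarith.sub_neg_of_lt h_nl)), mul_pos_of_neg_of_neg (Mathlib.Tactic.Linarith.sub_neg_of_lt a3) (Mathlib.Tactic.Linarith.sub_neg_of_lt h_nl), mul_nonneg_of_nonpos_of_nonpos (Mathlib.Tactic.Linarith.sub_nonpos_of_le a4) (le_of_lt (Mathlib.Tactic.Linarith.sub_neg_of_lt h_nl)), mul_nonneg_of_nonpos_of_nonpos (Mathlib.Tactic.Linarith.sub_nonpos_of_le w1) (Mathlib.Tactic.Linarith.sub_nonpos_of_le c7)])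
  have c9 := mul_pos hθ hA
  unfold psi at c1
  rw [d3_re] at c1
  unfold g2
  linarith only [hH, hD, hy, c1, c2, c3, c6, c8, c9]

theorem dipA {C : ℝ} (hC : 0 < C) {θ : ℝ} (hθ : 0 < θ) (hθ1 : θ ≤ 1 / 1000) :
    ∃ θ' f0 s0 e0 : ℝ, 0 < θ' ∧ θ' ≤ 1 / 1000 ∧ 0 < f0 ∧ f0 ≤ θ / 2 ∧ 0 < s0 ∧ 0 < e0 ∧
    ∀ (F : Frame) (μ K t w r η d e c K' X f : ℝ) (u v S H : ℂ → ℝ) (ζ : ℂ),
      GH F μ K t w r η d e u v S H → HT F t w c C S H → η ≤ w * t ^ 18 / 16 → e ≤ e0 → θ ≤ w →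
      0 < f → f ≤ f0 → SS t S X ≤ s0 * F.Φ X → (∀ z, |GG F t w e r u v H z| ≤ K' * F.Φ z.re) →
      (∀ z, -t ^ 2 < F.ht z → |g2 F w e r u v H z| ≤ K' * F.Φ z.re) →
      |ζ.re - X| ≤ 1 / 2000 → -t ^ 8 ≤ F.ht ζ → F.ht ζ ≤ t ^ 6 / 3 → θ * F.Φ X ≤ psi r u v ζ →
      (∀ z : ℂ, |z.re - ζ.re| ≤ θ / 4000 → z.im ≤ ζ.im - w / 8 → psi r u v z ≤ f * F.Φ X) →
      ∃ (G : ℂ → ℝ) (p : ℂ) (r' : ℝ),
        Dip F (GG F t w e r u v H) (UU F η e u) (K' + 2) (t ^ 6 / 2) X θ' (4 * f) G p r' := by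
  obtain ⟨n, β, θ', s0, Λ, hn, β0, βe, β1, θ0, θ1, θ2, θ3, s1, s2, Λ0, s3, hΛ⟩ :=
    sra3_num hC hθ hθ1
  refine ⟨θ', β / 4, s0, θ / 100, θ0, by linarith only [hθ1, θ0, θ1], by linarith only [β0], by linarith only [β1, θ0, θ1], s1, by linarith only [θ0, θ1], ?_⟩
  intro F μ K t w r η d e c K' X f u v S H ζ h hT hη he hw f0 f1 hS k1 k2 hx lo hi big low
  have hA := F.Φ_pos X
  have w1 := h.d3_w
  have s : Stp F t w r η X θ u v ζ :=
    ⟨hη, hθ, hw, by clear * - η e F μ K t w r d u v S H h θ he big hi hx lo; have := h.eta; have := h.dh.epos; norm_num at *; linarith, hx, lo, hi, big⟩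
  have hb := sub_b h.dh
  have hB := sub_Bt h.dh
  have hle := b_le_Bt h.dh
  have S0 : 0 < θ / 4000 := by positivity
  have disc : ∀ z : ℂ, ‖z - ζ‖ ≤ θ / 4000 → θ * F.Φ X / 2 ≤ Bt r u z.re - tav r v z :=
    fun z hz => disc_psi h.dh s (hz.trans (by linarith only [θ0, θ1]))
  have gap : ∀ x0 σ : ℝ, |x0 - ζ.re| = θ / 4000 / 2 → (∀ x, Bt r u x0 + σ * (x - x0) ≤ Bt r u x) →
      ∀ x, θ / 4000 / 4 ≤ |x - x0| → Bt r u x0 + σ * (x - x0) + β * F.Φ X ≤ Bt r u x := by
    clear * - ζ θ r u F X n f v w hb hB hle S0 μ K t η d e S H h low disc θ' hθ1 hn θ0 θ1 w1 β βe β0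
      f1 hA
    intro x0 σ h1 h2 x h3
    have k := gap_support (n := n) hb hB hle S0 h.dh.wpos.le low disc h1 h2 (by linarith only [hθ1, hn, θ0, θ1, w1]) h3
    have k' : θ * F.Φ X / 2 / 9 ^ n = 2 * β * F.Φ X := by rw [← βe]; ring
    have k'' : f * F.Φ X ≤ β * F.Φ X := mul_le_mul_of_nonneg_right (by linarith only [β0, f1]) hA.le
    linarith only [k, k', k'']
  obtain ⟨σ1, h1⟩ := exists_support (convex_of_sub hB) (ζ.re - θ / 4000 / 2)
  obtain ⟨σ2, h2⟩ := exists_support (convex_of_sub hB) (ζ.re + θ / 4000 / 2)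
  obtain ⟨q, rc, q1, q2, q3, q4⟩ := small_circle h s (hT.int X) hn
  have hp : ‖q - w * Complex.I - (ζ - (w / 2 : ℝ) * Complex.I)‖ ≤ θ / 4000 / 32 := by
    rw [show q - w * Complex.I - (ζ - (w / 2 : ℝ) * Complex.I) =
      q - (ζ + (w / 2 : ℝ) * Complex.I) by push_cast; ring]
    exact q1
  have m1 : -(θ' * F.Φ X * Real.log (θ / 4000 / 256)) ≤ θ / 8 * F.Φ X := by
    have := mul_le_mul_of_nonneg_right θ2 hA.le
    linarith only [this]
  have m2 : -(θ' * F.Φ X * Real.log (θ / 4000 / 256)) ≤ β * F.Φ X := by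
    have := mul_le_mul_of_nonneg_right θ3 hA.le
    linarith only [this]
  have c9 := mul_pos hθ hA
  obtain ⟨Y, y1, y2, y3, y4, y5, y6, y7⟩ := exists_Y (β := β * F.Φ X) (m := θ' * F.Φ X)
    (r := θ / 4000 / 256) hb hB hle S0 (by linarith only [θ0, θ1, hw]) (by clear * - w θ θ' hθ1 θ0 θ1 w1 disc f0 h1 h2 hA low; linarith only [hθ1, θ0, θ1, w1]) (mul_pos f0 hA) low disc h1 h2
    (gap _ _ (by rw [sub_sub_cancel_left, abs_neg, abs_of_pos (by positivity)]) h1)
    (gap _ _ (by rw [add_sub_cancel_left, abs_of_pos (by positivity)]) h2)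
    (by clear * - f F X β θ θ' hθ1 θ0 θ1 f1 hA c9 hp m1 m2; (refine le_of_not_gt fun h_nl => ?_; linarith only [h_nl, hθ1, θ0, θ1, f1, hA, mul_nonneg_of_nonpos_of_nonpos (Mathlib.Tactic.Linarith.sub_nonpos_of_le hθ1) (le_of_lt (Mathlib.Tactic.Linarith.sub_neg_of_lt h_nl)), mul_pos_of_neg_of_neg (Mathlib.Tactic.Linarith.sub_neg_of_lt θ0) (Mathlib.Tactic.Linarith.sub_neg_of_lt h_nl), mul_nonneg_of_nonpos_of_nonpos (Mathlib.Tactic.Linarith.sub_nonpos_of_le θ1) (le_of_lt (Mathlib.Tactic.Linarith.sub_neg_of_lt h_nl)), mul_nonneg_of_nonpos_of_nonpos (Mathlib.Tactic.Linarith.sub_nonpos_of_le f1) (le_of_lt (Mathlib.Tactic.Linarith.sub_neg_of_lt hA))])) hp (by positivity) (by linarith only [hθ1, θ0, θ1]) (mul_pos θ0 hA).le (by linarith only [m1, c9]) m2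
  obtain ⟨G, hG⟩ := dip_of_Y (rc := rc) h s f0.le k1 k2 y1 y2 y3 y4
    (fun z => by have := y5 z; linarith only [c9, this]) y7 hp θ0 θ1 (by linarith only [q2]) q3 (fun z hz => by
      clear * - z w q rc hz r v u θ n t S X q4 θ' F Y y6 θ0 θ1 q3 ζ μ K η d e c C H h hT s he hC s0
        hS s2 hA q1 Λ Λ0 s3 hΛ m1
      have hq : ‖z + w * Complex.I - q‖ = rc := by
        rw [← hz]
        congr 1
        ring
      have d1 := q4 _ hq
      rw [hΛ] at d1
      have d2 := y6 z (by rw [mem_ball_iff_norm, hz]; linarith only [θ0, θ1, q3])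
      have d3 := norm_sub_le_norm_sub_add_norm_sub (z + w * Complex.I) q
        (ζ + (w / 2 : ℝ) * Complex.I)
      refine sra3_circ h hT s he hC ?_ (by clear * - z w ζ θ θ' q rc θ0 θ1 q1 q3 hq d3 d2 m1; linarith only [θ0, θ1, q1, q3, hq, d3]) ?_ (by linarith only [m1, d2])
      · have := mul_le_mul_of_nonneg_left hS hC.le
        have := mul_le_mul_of_nonneg_right s2 hA.le
        linarith
      · have := mul_le_mul_of_nonneg_left hS Λ0.le
        have := mul_le_mul_of_nonneg_right s3 hA.le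
        linarith)
  exact ⟨G, _, _, hG⟩

end

end Pool.Agent.MinMod.St
end
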