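import Pool.Agent.Work.MP_f62247_an.Mo.B4
import Pool.Agent.Work.MP_f62247_an.Mo.K3

-- merged part: Pool.Agent.Work.MP_f62247_an.Mo.D4
section
-- merged part: Pool.Agent.Work.MP_f62247_an.Mo.D2
section
/-!
# Smoothing and sliding
`seam`: `tav r v` has the mean value property on `{t^8 ≤ ht ≤ 1/4000}` (`ca_tav`, `den r v = 0` there, `pot_congr`). `mv_lip` for `tav r v - M0 z.re` with `ρ = t^6/32`, `m = 100 t^18 Φ` (`M - ν Φ ≤ u ≤ v ≤ M + 20 ν Φ`, `M_sub_M0`); `M0 z.re z - M0 z.re (z + w I) = Φ (cos h - cos (h + w))` lies between `Φ w h/2` and `Φ w (h + w)`.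
`slide`: `Plat.maxi` with `y = t^6`, `f z = (1 - 12 t^6 w) v (z - w I)`; in the layer `v (z - w I) - v z ≤ (4 w t^6 + 2η) Φ` by `seam` and `v (z - w I) ≥ Φ/2`.
`exists_S`: `S z = den r v z * χ (ht z)`, `χ h = max 0 (min 1 (min (16000 h - 1) (2 - 500 h)))`. If `ht z ∈ [1/8000, 1/500]` then `pot S s z = pot (den r v) s z = ca (tav r v) z s - tav r v z`, compare with `M0`; otherwise `pot S s z = 0`.
-/

open Real MeasureTheory Set Filter Topology

namespace Pool.Agent.MinMod.Mo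

noncomputable section

structure DH (F : Frame) (μ K t w r η d : ℝ) (u v : ℂ → ℝ) : Prop where
  tpos : 0 < t
  tle : t ≤ 1 / 1000
  wpos : 0 < w
  wle : w ≤ t ^ 8
  mu : μ ≤ t ^ 18
  good : F.Good μ
  clean : Clean F (t ^ 18) K (t ^ 8) u
  mdu : F.Md u univ η d
  plat : Plat F (t ^ 18) (t ^ 8) r η d u v
  rpos : 0 < r
  rle : r ≤ t ^ 18
  rd : r ≤ d
  dle : d ≤ 1 / 100
  epos : 0 < η
  ele : η ≤ w * t ^ 18

variable {F : Frame} {μ K t w r η d : ℝ} {u v : ℂ → ℝ}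

theorem d2_num (h : DH F μ K t w r η d u v) : 0 < t ^ 6 ∧ t ^ 6 ≤ 1 / 1000000 ∧ 0 < t ^ 8 ∧
    t ^ 8 ≤ t ^ 6 / 1000 ∧ 0 < t ^ 18 ∧ t ^ 18 ≤ t ^ 6 / 1000 ∧ η ≤ t ^ 18 ∧
    η ≤ w * t ^ 6 / 1000 ∧ μ ≤ 1 / 100 := by
  have t0 := h.tpos
  have t1 := h.tle
  have a1 : t ^ 6 ≤ 1 / 1000000 :=
    (pow_le_pow_left₀ t0.le t1 6).trans (by norm_num)
  have a2 : t ^ 2 ≤ 1 / 1000 := (pow_le_pow_left₀ t0.le t1 2).trans (by norm_num)
  have a3 : t ^ 12 ≤ 1 / 1000 := (pow_le_pow_left₀ t0.le t1 12).trans (by norm_num)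
  have p6 : 0 < t ^ 6 := pow_pos t0 6
  have p18 : 0 < t ^ 18 := pow_pos t0 18
  have a4 : t ^ 8 ≤ t ^ 6 / 1000 := by
    have : t ^ 8 = t ^ 6 * t ^ 2 := by ring
    rw [this]; (refine le_of_not_gt fun h_nl => ?_; linarith only [h_nl, t0, t1, a2, p6, mul_pos_of_neg_of_neg (Mathlib.Tactic.Linarith.sub_neg_of_lt t0) (Mathlib.Tactic.Linarith.sub_neg_of_lt h_nl), mul_nonneg_of_nonpos_of_nonpos (Mathlib.Tactic.Linarith.sub_nonpos_of_le t1) (le_of_lt (Mathlib.Tactic.Linarith.sub_neg_of_lt h_nl)), mul_nonneg_of_nonpos_of_nonpos (Mathlib.Tactic.Linarith.sub_nonpos_of_le a2) (le_of_lt (Mathlib.Tactic.Linarith.sub_neg_of_lt p6))])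
  have a5 : t ^ 18 ≤ t ^ 6 / 1000 := by
    have : t ^ 18 = t ^ 6 * t ^ 12 := by ring
    rw [this]; linarith only [a3, p6, mul_nonneg_of_nonpos_of_nonpos (Mathlib.Tactic.Linarith.sub_nonpos_of_le a3) (le_of_lt (Mathlib.Tactic.Linarith.sub_neg_of_lt p6))]
  have w0 := h.wpos
  have w1 : w ≤ 1 := by linarith only [a1, p18, a4, a5, h, h.wle]
  refine ⟨p6, a1, pow_pos t0 8, a4, p18, a5, ?_, ?_, ?_⟩
  · exact h.ele.trans (mul_le_of_le_one_left p18.le w1)
  · have := mul_le_mul_of_nonneg_left a5 w0.le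
    linarith only [this, h, h.ele]
  · linarith only [a1, p18, a5, h, h.mu]

theorem d2_Φ (hF : F.Good μ) (h1 : μ ≤ 1) {z ζ : ℂ} (hz : ‖ζ - z‖ ≤ 1 / 4) :
    F.Φ ζ.re ≤ 2 * F.Φ z.re := by
  have a := Frame.f1_re z ζ
  have b := hF.Φ_close h1 (a.trans hz)
  have c := F.Φ_pos z.re
  have e := (abs_le.1 b).2
  linarith only [e, hz, c, a, abs_nonneg (ζ.re - z.re), mul_nonneg_of_nonpos_of_nonpos (Mathlib.Tactic.Linarith.sub_nonpos_of_le hz) (le_of_lt (Mathlib.Tactic.Linarith.sub_neg_of_lt c)), mul_nonneg_of_nonpos_of_nonpos (Mathlib.Tactic.Linarith.sub_nonpos_of_le a) (le_of_lt (Mathlib.Tactic.Linarith.sub_neg_of_lt c))]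

theorem d2_den0 (h : DH F μ K t w r η d u v) {z : ℂ} (h1 : t ^ 8 ≤ F.ht z) (h2 : F.ht z ≤ 1 / 10)
    (h3 : F.ht z ≤ 1 / 4000 ∨ 1 / 1000 ≤ F.ht z) : den r v z = 0 := by
  rw [den, h.plat.mv z h1 h2 h3, sub_self, mul_zero]

theorem d2_pot0 {ρ : ℂ → ℝ} {s : ℝ} (hs : 0 < s) {z : ℂ} (h : ∀ ζ, ‖ζ - z‖ < s → ρ ζ = 0) :
    pot ρ s z = 0 := by
  rw [pot_congr (ρ' := fun _ => 0) hs h]
  simp [pot]

theorem d2_cos {a w : ℝ} (ha : 0 < a) (hw : 0 < w) (h1 : a + w ≤ 1) :
    w * a / 2 ≤ cos a - cos (a + w) ∧ cos a - cos (a + w) ≤ w * (a + w) := by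
  have e : cos a - cos (a + w) = 2 * sin (a + w / 2) * sin (w / 2) := by
    rw [Real.cos_sub_cos, show (a + (a + w)) / 2 = a + w / 2 by ring,
      show (a - (a + w)) / 2 = -(w / 2) by ring, Real.sin_neg]
    ring
  have lo : ∀ x : ℝ, 0 < x → x ≤ 1 → 3 / 4 * x ≤ sin x := fun x h0 h1 => by
    have := Real.sin_gt_sub_cube h0
    have h2 : x ^ 3 ≤ x := by
      have : x ^ 2 ≤ 1 := by nlinarith
      nlinarith
    linarith only [h0, this, h2]
  have l1 := lo (a + w / 2) (by linarith only [ha, hw]) (by linarith only [hw, h1])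
  have l2 := lo (w / 2) (by linarith only [hw]) (by linarith only [ha, hw, h1])
  have u1 : sin (a + w / 2) ≤ a + w / 2 := Real.sin_le (by linarith only [ha, hw])
  have u2 : sin (w / 2) ≤ w / 2 := Real.sin_le (by linarith only [hw])
  rw [e]
  constructor
  · have := mul_le_mul l1 l2 (by linarith only [hw]) (by linarith only [ha, hw, l1])
    linarith only [this, ha, hw, mul_pos ha hw, mul_pos hw hw, mul_self_nonneg w]
  · have := mul_le_mul u1 u2 (by linarith only [hw, l2]) (by linarith only [ha, hw])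
    linarith only [this, mul_pos ha hw, mul_pos hw hw, mul_self_nonneg w]

theorem DH.close_u (h : DH F μ K t w r η d u v) (z : ℂ) : |tav r u z - u z| ≤ η * F.Φ z.re := by
  exact abs_tav_sub_le h.clean.cont h.rpos fun ζ hζ => h.mdu z (mem_univ _) ζ (hζ.trans h.rd)

theorem DH.close_v (h : DH F μ K t w r η d u v) (z : ℂ) : |tav r v z - v z| ≤ η * F.Φ z.re := by
  exact abs_tav_sub_le h.plat.cont h.rpos fun ζ hζ => h.plat.md z (mem_univ _) ζ (hζ.trans h.rd)

theorem DH.le_uv (h : DH F μ K t w r η d u v) (z : ℂ) : tav r u z ≤ tav r v z := by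
  exact tav_le h.clean.cont h.plat.cont h.rpos fun ζ _ => h.plat.ge ζ

theorem DH.top (h : DH F μ K t w r η d u v) {z : ℂ} (hz : 1 / 1000 ≤ F.ht z) :
    tav r v z = tav r u z := by
  obtain ⟨p6, a1, p8, a4, p18, a5, e1, e2, m1⟩ := d2_num h
  refine le_antisymm (tav_le h.plat.cont h.clean.cont h.rpos fun ζ hζ => ?_) (h.le_uv z)
  have b := (abs_le.1 (h.good.ht_sub (by linarith only [a1, p8, a4, m1]) z ζ)).1
  exact (h.plat.top ζ (by linarith only [hz, a1, p8, a4, a5, hζ, b, h, h.rle])).le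

theorem DH.den_u (h : DH F μ K t w r η d u v) (z : ℂ) : 0 ≤ den r u z := by
  have := h.rpos
  exact mul_nonneg (by positivity)
    (sub_nonneg.2 (h.clean.sub.2 z r h.rpos (subset_univ _)))

theorem DH.den_v (h : DH F μ K t w r η d u v) (z : ℂ) : 0 ≤ den r v z := by
  have := h.rpos
  exact mul_nonneg (by positivity) (sub_nonneg.2 (h.plat.sub z))

theorem DH.sub_u (h : DH F μ K t w r η d u v) : SubOn (tav r u) univ := by
  refine ⟨(continuous_tav h.clean.cont h.rpos).continuousOn, fun z s hs _ => ?_⟩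
  rw [ca_tav h.clean.cont h.rpos hs]
  linarith [pot_nonneg (ρ := den r u) (z := z) hs fun ζ _ => h.den_u ζ]

theorem DH.per_u (h : DH F μ K t w r η d u v) (z : ℂ) :
    tav r u (z + 2 * π * Complex.I) = tav r u z := by
  rw [← tav_shift]
  congr 1
  funext ζ
  exact h.clean.per ζ

theorem DH.v_ge (h : DH F μ K t w r η d u v) {z : ℂ} (hz : F.ht z ≤ 1 / 10) :
    9 / 10 * F.Φ z.re ≤ v z := by
  obtain ⟨p6, a1, p8, a4, p18, a5, e1, e2, m1⟩ := d2_num h
  have hΦ := F.Φ_pos z.re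
  rcases le_total (F.ht z) (t ^ 8) with h1 | h1
  · refine le_trans (mul_le_mul_of_nonneg_right ?_ hΦ.le) (h.plat.low z h1)
    (refine le_of_not_gt fun h_nl => ?_; linarith only [h_nl, a1, p6, p8, a4, mul_nonneg_of_nonpos_of_nonpos (Mathlib.Tactic.Linarith.sub_nonpos_of_le (sq_nonneg ((1 : ℝ) * ((1 : ℝ) * t) ^ (8 : ℕ)))) (Mathlib.Tactic.Linarith.sub_nonpos_of_le a1), mul_nonneg_of_nonpos_of_nonpos (le_of_lt (Mathlib.Tactic.Linarith.sub_neg_of_lt p6)) (Mathlib.Tactic.Linarith.sub_nonpos_of_le a1), mul_pos_of_neg_of_neg (Mathlib.Tactic.Linarith.sub_neg_of_lt p6) (Mathlib.Tactic.Linarith.sub_neg_of_lt p8), mul_nonneg_of_nonpos_of_nonpos (le_of_lt (Mathlib.Tactic.Linarith.sub_neg_of_lt p6)) (Mathlib.Tactic.Linarith.sub_nonpos_of_le a4), mul_pos_of_neg_of_neg (Mathlib.Tactic.Linarith.sub_neg_of_lt p6) (Mathlib.Tactic.Linarith.sub_neg_of_lt h_nl), mul_nonneg_of_nonpos_of_nonpos (le_of_lt (Mathlib.Tactic.Linarith.sub_neg_of_lt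 p8)) (Mathlib.Tactic.Linarith.sub_nonpos_of_le a4)])
  · have b := h.clean.near z h1 (by linarith only [hz, a1, p8, a4])
    have c := h.plat.ge z
    have e := Real.one_sub_sq_div_two_le_cos (x := F.ht z)
    have e3 : 9 / 10 + t ^ 18 ≤ cos (F.ht z) := by linarith only [hz, a1, p8, a4, a5, e, h1, mul_nonneg_of_nonpos_of_nonpos (Mathlib.Tactic.Linarith.sub_nonpos_of_le hz) (le_of_lt (Mathlib.Tactic.Linarith.sub_neg_of_lt p8)), mul_nonneg_of_nonpos_of_nonpos (Mathlib.Tactic.Linarith.sub_nonpos_of_le hz) (Mathlib.Tactic.Linarith.sub_nonpos_of_le h1)]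
    have e4 := mul_le_mul_of_nonneg_left e3 hΦ.le
    rw [Frame.M] at b
    linarith only [b, c, e4]

theorem d2_near (h : DH F μ K t w r η d u v) {z ζ : ℂ} (hz : ‖ζ - z‖ ≤ 1 / 4)
    (h1 : t ^ 8 ≤ F.ht ζ) (h2 : F.ht ζ ≤ 1 / 10) :
    -(54 * t ^ 18 * F.Φ z.re) ≤ tav r v ζ - F.M0 z.re ζ ∧
      tav r v ζ - F.M0 z.re ζ ≤ 92 * t ^ 18 * F.Φ z.re := by
  obtain ⟨p6, a1, p8, a4, p18, a5, e1, e2, m1⟩ := d2_num h
  have hΦ := F.Φ_pos z.re
  have hΦ' := F.Φ_pos ζ.re
  have b1 := abs_le.1 (h.close_v ζ)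
  have b2 := h.clean.near ζ h1 (by linarith only [h2, a1, p8, a4])
  have b3 := h.plat.ge ζ
  have b4 := h.plat.up ζ (by linarith only [h1, p8])
  have b5 := abs_le.1 (h.good.M_sub_M0 (by linarith only [a1, p8, a4, m1]) (x0 := z.re) (z := ζ)
    ((Frame.f1_re z ζ).trans (by linarith only [hz, a1, p8, a4])))
  have b6 := d2_Φ h.good (by linarith only [a1, p8, a4, m1]) hz
  have c1 := mul_le_mul_of_nonneg_right e1 hΦ'.le
  have c2 := mul_le_mul_of_nonneg_left b6 p18.le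
  have c3 := mul_le_mul_of_nonneg_right h.mu hΦ.le
  constructor <;> linarith only [b1, b2, b3, b5, c1, c2, c3, b4]

theorem DH.seam (h : DH F μ K t w r η d u v) {z : ℂ} (h1 : t ^ 6 / 4 ≤ F.ht z)
    (h2 : F.ht z ≤ 2 * t ^ 6) :
    w * t ^ 6 / 16 * F.Φ z.re ≤ tav r v z - tav r v (z + w * Complex.I) ∧
      tav r v z - tav r v (z + w * Complex.I) ≤ 4 * w * t ^ 6 * F.Φ z.re := by
  obtain ⟨p6, a1, p8, a4, p18, a5, e1, e2, m1⟩ := d2_num h
  have hΦ := F.Φ_pos z.re
  have w0 := h.wpos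
  have w1 := h.wle
  have ct := continuous_tav h.plat.cont h.rpos
  have cm := F.continuous_M0 z.re
  have hm : MV (fun ζ => tav r v ζ - F.M0 z.re ζ) {ζ | t ^ 8 ≤ F.ht ζ ∧ F.ht ζ ≤ 1 / 4000} := by
    intro ζ s hs hb
    have e := Real.circleAverage_fun_sub (i6_ci ct ζ s) (i6_ci cm ζ s)
    have e3 := ca_tav h.plat.cont h.rpos hs ζ
    have e4 := Frame.ca_M0 F z.re ζ s
    have e5 : pot (den r v) s ζ = 0 := d2_pot0 hs fun ξ hξ => by
      have hξ' := hb (Metric.mem_closedBall.2 (by rw [dist_eq_norm]; exact hξ.le))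
      exact d2_den0 h hξ'.1 (hξ'.2.trans (by norm_num)) (Or.inl hξ'.2)
    simp only [ca] at e3 e4 ⊢
    rw [e, e3, e4, e5, add_zero]
  have hb : ∀ ζ ∈ Metric.closedBall z (2 * (t ^ 6 / 32)),
      ‖ζ - z‖ ≤ 1 / 4 ∧ t ^ 8 ≤ F.ht ζ ∧ F.ht ζ ≤ 1 / 4000 := fun ζ hζ => by
    rw [Metric.mem_closedBall, dist_eq_norm] at hζ
    have b := abs_le.1 (h.good.ht_sub (by linarith only [a1, p8, a4, m1]) z ζ)
    refine ⟨by linarith only [a1, p8, a4, hζ], by linarith only [h1, p8, a4, hζ, b], by linarith only [h2, a1, p8, a4, hζ, b]⟩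
  have hn : ‖z + w * Complex.I - z‖ = w := by
    simp [abs_of_pos w0]
  have key := mv_lip (f := fun ζ => tav r v ζ - F.M0 z.re ζ) (z := z) (z' := z + w * Complex.I) (ρ := t ^ 6 / 32)
    (m := 100 * t ^ 18 * F.Φ z.re) (ct.sub cm).continuousOn hm (by positivity)
    (fun ζ hζ => (hb ζ hζ).2)
    (fun ζ hζ => by
      obtain ⟨q1, q2, q3⟩ := hb ζ hζ
      obtain ⟨q4, q5⟩ := d2_near h q1 q2 (by linarith only [a1, p8, a4, q3])
      have := mul_pos p18 hΦ
      exact abs_le.2 ⟨by linarith only [q4, this], by linarith only [q5, this]⟩)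
    (by rw [hn]; linarith only [p8, a4, w1])
  rw [hn] at key
  have e6 : 4 * (100 * t ^ 18 * F.Φ z.re) * w / (t ^ 6 / 32)
      = 12800 * t ^ 6 * (w * t ^ 6 * F.Φ z.re) := by
    have := h.tpos.ne'
    field_simp
    ring
  rw [e6] at key
  have q0 : 0 < w * t ^ 6 * F.Φ z.re := by positivity
  have key2 : 12800 * t ^ 6 * (w * t ^ 6 * F.Φ z.re) ≤ 1 / 16 * (w * t ^ 6 * F.Φ z.re) :=
    mul_le_mul_of_nonneg_right (by linarith only [a1, p8, a4]) q0.le
  have k3 := abs_le.1 (key.trans key2)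
  have m2 : F.M0 z.re z = F.Φ z.re * cos (F.ht z) := by rw [Frame.M0_self, Frame.M]
  have m3 : F.M0 z.re (z + w * Complex.I) = F.Φ z.re * cos (F.ht z + w) := by
    have : (z + w * Complex.I).re = z.re := by simp
    rw [← this, Frame.M0_self, Frame.M, Frame.ht_add_I]
  obtain ⟨c1, c2⟩ := d2_cos (a := F.ht z) (w := w) (by linarith only [h1, p8, a4]) w0 (by linarith only [h2, a1, p8, a4, w1])
  have c3 : w * (t ^ 6 / 4) / 2 ≤ cos (F.ht z) - cos (F.ht z + w) :=
    le_trans (by linarith only [h1, w0, mul_nonneg_of_nonpos_of_nonpos (Mathlib.Tactic.Linarith.sub_nonpos_of_le h1) (le_of_lt (Mathlib.Tactic.Linarith.sub_neg_of_lt w0))]) c1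
  have c4 : cos (F.ht z) - cos (F.ht z + w) ≤ w * (3 * t ^ 6) :=
    c2.trans (mul_le_mul_of_nonneg_left (by linarith only [h2, p8, a4, w1]) w0.le)
  have c5 := mul_le_mul_of_nonneg_left c3 hΦ.le
  have c6 := mul_le_mul_of_nonneg_left c4 hΦ.le
  simp only [m2, m3] at k3
  constructor <;> linarith only [c5, k3, q0, c6, k3.1, k3.2]

theorem DH.slide (h : DH F μ K t w r η d u v) {z : ℂ} (hz : F.ht z ≤ t ^ 6 / 2) :
    tav r v z - tav r v (z + w * Complex.I) ≤ 25 * w * t ^ 6 * F.Φ z.re := by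
  obtain ⟨p6, a1, p8, a4, p18, a5, e1, e2, m1⟩ := d2_num h
  have w0 := h.wpos
  have w1 := h.wle
  have r1 := h.rle
  have hc0 : 0 ≤ 12 * t ^ 6 * w := by positivity
  have hc1 : 0 ≤ 1 - 12 * t ^ 6 * w := by linarith only [a1, p6, p8, a4, w1, mul_nonneg_of_nonpos_of_nonpos (le_of_lt (Mathlib.Tactic.Linarith.sub_neg_of_lt p6)) (Mathlib.Tactic.Linarith.sub_nonpos_of_le a1), mul_pos_of_neg_of_neg (Mathlib.Tactic.Linarith.sub_neg_of_lt p6) (Mathlib.Tactic.Linarith.sub_neg_of_lt p8), mul_nonneg_of_nonpos_of_nonpos (le_of_lt (Mathlib.Tactic.Linarith.sub_neg_of_lt p6)) (Mathlib.Tactic.Linarith.sub_nonpos_of_le a4), mul_nonneg_of_nonpos_of_nonpos (le_of_lt (Mathlib.Tactic.Linarith.sub_neg_of_lt p6)) (Mathlib.Tactic.Linarith.sub_nonpos_of_le w1)]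
  have hre : ∀ (ζ : ℂ) (s : ℝ), (ζ + s * Complex.I).re = ζ.re := fun ζ s => by simp
  have cf : Continuous fun ζ : ℂ => (1 - 12 * t ^ 6 * w) * v (ζ + (-w : ℝ) * Complex.I) :=
    continuous_const.mul (h.plat.cont.comp (continuous_id.add continuous_const))
  have key := h.plat.maxi (fun ζ => (1 - 12 * t ^ 6 * w) * v (ζ + (-w : ℝ) * Complex.I)) (t ^ 6)
    (by linarith only [a1, p8, a4])
    (fun ζ hζ => by
      refine ⟨i6_ci cf ζ r, ?_, ?_⟩
      · have b1 := h.plat.le (ζ + (-w : ℝ) * Complex.I)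
        have b2 := h.v_ge (z := ζ + (-w : ℝ) * Complex.I) (by rw [Frame.ht_add_I]; linarith only [a1, p8, a4, w0, hζ])
        have b3 := F.Φ_pos (ζ + (-w : ℝ) * Complex.I).re
        rw [hre] at b1
        linarith only [b1, hc0, b2, b3, mul_nonneg hc0 (show 0 ≤ v (ζ + (-w : ℝ) * Complex.I) by linarith)]
      · rw [Frame.f2_ca_mul, ca_shift]
        exact mul_le_mul_of_nonneg_left (h.plat.sub _) hc1)
    (fun ζ q1 q2 => by
      have b0 : ζ + (-w : ℝ) * Complex.I + w * Complex.I = ζ := by push_cast; ring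
      have b1 := (h.seam (z := ζ + (-w : ℝ) * Complex.I) (by rw [Frame.ht_add_I]; linarith only [p8, a4, w1, q1])
        (by rw [Frame.ht_add_I]; linarith only [p8, a4, a5, w0, r1, q2])).2
      have b2 := h.v_ge (z := ζ + (-w : ℝ) * Complex.I) (by rw [Frame.ht_add_I]; linarith only [a1, p8, a4, a5, w0, r1, q2])
      have b3 := (abs_le.1 (h.close_v (ζ + (-w : ℝ) * Complex.I))).1
      have b4 := (abs_le.1 (h.close_v ζ)).2
      rw [b0] at b1
      rw [hre] at b1 b2 b3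
      have b5 := F.Φ_pos ζ.re
      have b6 := mul_le_mul_of_nonneg_right e2 b5.le
      have b7 := mul_le_mul_of_nonneg_left b2 hc0
      have b8 : 0 < w * t ^ 6 * F.Φ ζ.re := by positivity
      linarith only [b1, b3, b4, b6, b7, b8])
    (z + w * Complex.I) (by rw [Frame.ht_add_I]; linarith only [hz, p8, a4, w1])
  have b0 : z + w * Complex.I + (-w : ℝ) * Complex.I = z := by push_cast; ring
  simp only [b0] at key
  have b1 := (h.plat.le z).trans (h.clean.toSubD.Ble z.re)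
  have b3 := (abs_le.1 (h.close_v (z + w * Complex.I))).1
  have b4 := (abs_le.1 (h.close_v z)).2
  rw [hre] at b3
  have b5 := F.Φ_pos z.re
  have b6 := mul_le_mul_of_nonneg_right e2 b5.le
  have b7 : v z ≤ 2 * F.Φ z.re := b1.trans (mul_le_mul_of_nonneg_right (by linarith only [a1, p8, a4, a5]) b5.le)
  have b8 := mul_le_mul_of_nonneg_left b7 hc0
  have b9 : 0 < w * t ^ 6 * F.Φ z.re := by positivity
  linarith only [key, b3, b4, b6, b8, b9]

theorem DH.exists_S (h : DH F μ K t w r η d u v) : ∃ (S : ℂ → ℝ) (K' : ℝ), Continuous S ∧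
    (∀ z, 0 ≤ S z) ∧ (∀ z, S z ≤ K' * F.Φ z.re) ∧
    (∀ z, S z ≠ 0 → 1 / 4000 ≤ F.ht z ∧ F.ht z ≤ 1 / 1000) ∧ (∀ z, S z ≤ den r v z) ∧
    (∀ z, t ^ 8 ≤ F.ht z → F.ht z ≤ 1 / 10 → S z = den r v z) ∧
    ∀ z, pot S (1 / 20000) z ≤ 100 * t ^ 18 * F.Φ z.re := by
  obtain ⟨p6, a1, p8, a4, p18, a5, e1, e2, m1⟩ := d2_num h
  have r0 := h.rpos
  obtain ⟨χ, cχ, χ0, χ1, χ2, χ3⟩ : ∃ χ : ℝ → ℝ, Continuous χ ∧ (∀ x, 0 ≤ χ x) ∧ (∀ x, χ x ≤ 1) ∧
      (∀ x, χ x ≠ 0 → 1 / 16000 ≤ x ∧ x ≤ 1 / 250) ∧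
      ∀ x, 1 / 4000 ≤ x → x ≤ 1 / 1000 → χ x = 1 := by
    refine ⟨fun x => max 0 (min 1 (min (16000 * x - 1) (2 - 500 * x))), by fun_prop,
      fun x => le_max_left _ _, fun x => max_le zero_le_one (min_le_left _ _), fun x hx => ?_,
      fun x q1 q2 => ?_⟩
    · have q : 0 ≤ min 1 (min (16000 * x - 1) (2 - 500 * x)) := by
        by_contra hq
        exact hx (max_eq_left (not_le.1 hq).le)
      have q1 := (le_min_iff.1 (le_min_iff.1 q).2).1
      have q2 := (le_min_iff.1 (le_min_iff.1 q).2).2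
      constructor <;> linarith only [q1, q2]
    · have : min 1 (min (16000 * x - 1) (2 - 500 * x)) = 1 :=
        min_eq_left (le_min (by linarith only [a1, p8, a4, q1]) (by linarith only [a1, p8, a4, q2]))
      simp only [this]
      exact max_eq_right zero_le_one
  have hle : ∀ z, den r v z * χ (F.ht z) ≤ den r v z := fun z =>
    mul_le_of_le_one_right (h.den_v z) (χ1 _)
  have hsupp : ∀ z, den r v z * χ (F.ht z) ≠ 0 → 1 / 4000 ≤ F.ht z ∧ F.ht z ≤ 1 / 1000 := by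
    intro z hz
    obtain ⟨q1, q2⟩ := χ2 _ (right_ne_zero_of_mul hz)
    have q3 := left_ne_zero_of_mul hz
    constructor
    · by_contra hq
      exact q3 (d2_den0 h (by linarith only [a1, p8, a4, q1]) (by linarith only [a1, p8, a4, q2]) (Or.inl (not_le.1 hq).le))
    · by_contra hq
      exact q3 (d2_den0 h (by linarith only [a1, p8, a4, hq]) (by linarith only [a1, p8, a4, q2]) (Or.inr (not_le.1 hq).le))
  have heq : ∀ z, t ^ 8 ≤ F.ht z → F.ht z ≤ 1 / 10 → den r v z * χ (F.ht z) = den r v z := by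
    intro z q1 q2
    by_cases q3 : F.ht z ≤ 1 / 4000 ∨ 1 / 1000 ≤ F.ht z
    · rw [d2_den0 h q1 q2 q3, zero_mul]
    · rw [not_or, not_le, not_le] at q3
      rw [χ3 _ q3.1.le q3.2.le, mul_one]
  refine ⟨fun z => den r v z * χ (F.ht z), (π * r ^ 2 / 2)⁻¹ * η,
    (continuous_den h.plat.cont r).mul (cχ.comp F.continuous_ht),
    fun z => mul_nonneg (h.den_v z) (χ0 _), fun z => (hle z).trans ?_, hsupp, hle, heq,
    fun z => ?_⟩
  · rw [den, mul_assoc _ η]
    refine mul_le_mul_of_nonneg_left ?_ (by positivity)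
    have b := ca_le_of_le (g := fun _ => v z + η * F.Φ z.re) r0.le (i6_ci h.plat.cont z r)
      (i6_ci continuous_const z r) fun ζ hζ => by
        have := (abs_le.1 (h.plat.md z (mem_univ _) ζ (hζ.le.trans h.rd))).2
        linarith only [this]
    simp only [ca, Real.circleAverage_const] at b ⊢
    linarith only [b]
  · have hΦ := F.Φ_pos z.re
    have hs : (0 : ℝ) < 1 / 20000 := by norm_num
    have hht : ∀ ζ : ℂ, ‖ζ - z‖ ≤ 1 / 20000 →
        F.ht z - 1 / 10000 ≤ F.ht ζ ∧ F.ht ζ ≤ F.ht z + 1 / 10000 := fun ζ hζ => by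
      have b := abs_le.1 (h.good.ht_sub (by linarith only [a1, p8, a4, m1]) z ζ)
      constructor <;> linarith only [hζ, b]
    by_cases q : 1 / 8000 ≤ F.ht z ∧ F.ht z ≤ 1 / 500
    · rw [pot_congr (ρ' := den r v) hs fun ζ hζ => heq ζ (by linarith only [a1, p8, a4, q, hht, hζ, (hht ζ hζ.le).1])
        (by linarith only [a1, p8, a4, q, hht, hζ, (hht ζ hζ.le).2])]
      have e3 := ca_tav h.plat.cont r0 hs z
      have ct := continuous_tav h.plat.cont r0
      have cm := F.continuous_M0 z.re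
      have b := ca_le_of_le (g := fun ζ => F.M0 z.re ζ + 92 * t ^ 18 * F.Φ z.re) hs.le
        (i6_ci ct z _) (i6_ci (cm.add continuous_const) z _) fun ζ hζ => by
          have := (d2_near h (z := z) (ζ := ζ) (by rw [hζ]; norm_num)
            (by linarith only [a1, p8, a4, q, hht, hζ, (hht ζ hζ.le).1]) (by linarith only [a1, p8, a4, q, hht, hζ, (hht ζ hζ.le).2])).2
          linarith only [this]
      have e := Real.circleAverage_fun_add (i6_ci cm z (1 / 20000))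
        (i6_ci (continuous_const (y := 92 * t ^ 18 * F.Φ z.re)) z (1 / 20000))
      have e4 := Frame.ca_M0 F z.re z (1 / 20000)
      simp only [ca] at e3 e4 b
      rw [e, e4, Real.circleAverage_const, Frame.M0_self] at b
      have b1 := (abs_le.1 (h.close_v z)).1
      have b2 := h.clean.near z (by linarith only [a1, p8, a4, q]) (by linarith only [a1, p8, a4, q])
      have b3 := h.plat.ge z
      have c1 := mul_le_mul_of_nonneg_right e1 hΦ.le
      have c2 := mul_pos p18 hΦ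
      linarith only [e3, b, b1, b2, b3, c1, c2]
    · rw [d2_pot0 hs fun ζ hζ => ?_]
      · positivity
      · by_contra hne
        obtain ⟨q1, q2⟩ := hsupp ζ hne
        obtain ⟨q3, q4⟩ := hht ζ hζ.le
        exact q ⟨by linarith only [a1, p8, a4, q1, q4], by linarith only [a1, p8, a4, q2, q3]⟩

end

end Pool.Agent.MinMod.Mo
end

-- merged part: Pool.Agent.Work.MP_f62247_an.Mo.K4
section
/-!
# Jensen inequality for the kernel
Continuity on the open set `Ω' = {ht > -t²} \ {p, p - w I}`: `ContinuousOn.if` (or `continuous_if_le` style gluing) twice, the pieces agree on the seams by `seam1`, `seam2`.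
`LocSub (-Hk)` at `z ∈ Ω'`: `LocSub.of_le`. If `|sg| ≤ 1`: `Hk z = Fk z` and `Hk ≤ Fk` near `z`. If `|sg| > 1`: `Hk ≤ Hc` near `z`; either `Hk z = Hc z`, or `|sg| < -2 log t` (`seam2`), `Hk z = Fk z < Hc z`, `Hk ≤ Fk` near `z`, and `al < π` (otherwise `ta < 0` by `geo` and both vanish).
`jen`: `s0 = 1/40000`. If `‖z - p‖ ≤ 1/20000`, on the ball of radius `1/10000` around `p` one has `|sg| < 1`, `0 < al < π` and `Hk` is the explicit sum of four terms `lg (κ (re ζ - re q)) (κ (im ζ - im q))` (`q = p`, `p - w I` and the two mirror points, which are at distance `≥ 1/4000` from `p`) and an affine function; `ca_lg`, `ci_lg`, `gk_eq_zero`; equality holds.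
Otherwise the closed disc misses both poles, the `gk` terms vanish, `subOn_of_loc`.
-/

open Real MeasureTheory Set Filter Topology

namespace Pool.Agent.MinMod.Mo

noncomputable section

theorem k4_sg (t : ℝ) (p : ℂ) : Continuous fun z => |sg t p z| := by
  unfold sg
  fun_prop

theorem k4_L {t : ℝ} (h0 : 0 < t) (h1 : t ≤ 1 / 10000) : 1 < -2 * Real.log t := by
  have := Real.log_le_sub_one_of_pos h0
  linarith only [h0, h1, this]

theorem k4_open (F : Frame) (t w : ℝ) (p : ℂ) :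
    IsOpen {z | -t ^ 2 < F.ht z ∧ z ≠ p ∧ z ≠ p - w * Complex.I} :=
  (isOpen_lt continuous_const F.continuous_ht).inter (isOpen_ne.inter isOpen_ne)

theorem k4_w {F : Frame} {μ t w : ℝ} {p : ℂ} (h : KH F μ t w p) :
    t ^ 2 ≤ 1 / 10000 ∧ w ≤ 1 / 40000 := by
  have h0 := h.tpos
  have h1 : t ^ 2 ≤ (1 / 10000) ^ 2 := pow_le_pow_left₀ h0.le h.tle 2
  have h2 : t ^ 8 ≤ t ^ 2 := pow_le_pow_of_le_one h0.le (h.tle.trans (by norm_num)) (by norm_num)
  have h3 := h.wle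
  constructor <;> linarith only [h1, h2, h3]

theorem KH.continuousOn_Hk : ∃ t0 : ℝ, 0 < t0 ∧ ∀ (F : Frame) (μ t w : ℝ) (p : ℂ), KH F μ t w p →
    t ≤ t0 → ContinuousOn (Hk F t w p) {z | -t ^ 2 < F.ht z ∧ z ≠ p ∧ z ≠ p - w * Complex.I} := by
  obtain ⟨t0, h0, H⟩ := KH.seam2
  refine ⟨t0, h0, fun F μ t w p h ht => ?_⟩
  have cF : ContinuousOn (Fk F t w p) {z | -t ^ 2 < F.ht z ∧ z ≠ p ∧ z ≠ p - w * Complex.I} :=
    fun z hz => (h.continuousAt_Fk hz.1 hz.2.1 hz.2.2).continuousWithinAt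
  have cH := continuous_Hc F t w p
  refine ContinuousOn.if (fun z hz => ?_) (cF.mono inter_subset_left)
    ((ContinuousOn.if (fun z hz => ?_) ((cF.inf cH.continuousOn).mono inter_subset_left)
      cH.continuousOn).mono inter_subset_left)
  · have h1 : |sg t p z| = 1 := frontier_le_subset_eq (k4_sg t p) continuous_const hz.2
    rw [if_pos (h1.trans_le (k4_L h.tpos h.tle).le), min_eq_left (h.seam1 hz.1.1 h1)]
  · exact min_eq_right (H F μ t w p z h ht hz.1.1
      (frontier_le_subset_eq (k4_sg t p) continuous_const hz.2))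

theorem KH.Hk_loc : ∃ t0 : ℝ, 0 < t0 ∧ ∀ (F : Frame) (μ t w : ℝ) (p z : ℂ), KH F μ t w p → t ≤ t0 →
    -t ^ 2 < F.ht z → z ≠ p → z ≠ p - w * Complex.I → LocSub (fun ζ => -Hk F t w p ζ) z := by
  obtain ⟨t0, h0, H⟩ := KH.seam2
  obtain ⟨t1, h1, H1⟩ := KH.continuousOn_Hk
  refine ⟨min t0 t1, lt_min h0 h1, fun F μ t w p z h ht hz z1 z2 => ?_⟩
  have ho := (k4_open F t w p).eventually_mem (x := z) ⟨hz, z1, z2⟩
  have cK : ∀ᶠ ζ in 𝓝 z, ContinuousAt (fun ζ => -Hk F t w p ζ) ζ := ho.mono fun ζ hζ =>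
    ((H1 F μ t w p h (ht.trans (min_le_right _ _))).continuousAt
      ((k4_open F t w p).mem_nhds hζ)).neg
  have hL := k4_L h.tpos h.tle
  have kF : |sg t p z| < -2 * Real.log t → (|sg t p z| < 2 ∨ al F t p z < π) →
      Fk F t w p z ≤ Hk F t w p z → LocSub (fun ζ => -Hk F t w p ζ) z := fun a1 a2 a3 => by
    refine (h.Fk_loc hz z1 z2 a2).of_le (neg_le_neg a3) ?_
      (ho.mono fun ζ hζ => (h.continuousAt_Fk hζ.1 hζ.2.1 hζ.2.2).neg) cK
    filter_upwards [(k4_sg t p).continuousAt.eventually (gt_mem_nhds a1)] with ζ hζ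
    rw [neg_le_neg_iff, Hk, if_pos hζ.le]
    split_ifs
    exacts [le_rfl, min_le_left _ _]
  by_cases c1 : |sg t p z| ≤ 1
  · exact kF (c1.trans_lt hL) (Or.inl (by linarith)) (by rw [Hk, if_pos c1])
  by_cases c2 : Hc F t w p z ≤ Hk F t w p z
  · refine (h.Hc_loc hz fun h2 => c1 (by rw [h2, abs_zero]; exact zero_le_one)).of_le
      (neg_le_neg c2) ?_ (Eventually.of_forall fun ζ => (continuous_Hc F t w p).neg.continuousAt) cK
    filter_upwards [(k4_sg t p).continuousAt.eventually (lt_mem_nhds (not_le.1 c1))] with ζ hζ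
    rw [neg_le_neg_iff, Hk, if_neg (not_le.2 hζ)]
    split_ifs
    exacts [min_le_right _ _, le_rfl]
  have c3 : |sg t p z| ≤ -2 * Real.log t := by
    by_contra c3
    exact c2 (by rw [Hk, if_neg c1, if_neg c3])
  have c4 : Fk F t w p z < Hc F t w p z := by
    by_contra c4
    exact c2 (by rw [Hk, if_neg c1, if_pos c3, min_eq_right (not_lt.1 c4)])
  refine kF (lt_of_le_of_ne c3 fun h2 => c4.not_ge
    (H F μ t w p z h (ht.trans (min_le_left _ _)) hz h2)) (Or.inr (not_le.1 fun h2 => ?_))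
    (by rw [Hk, if_neg c1, if_pos c3, min_eq_left c4.le])
  have g := (abs_le.1 (h.geo (z := z) (by linarith)).2).2
  have k1 := (kp_mem h.tpos h.tle).1
  rw [Fk_eq_zero h2, Hc_eq_zero (by linarith only [h2, g, k1, sq_nonneg t, sq_nonneg t, mul_nonneg_of_nonpos_of_nonpos (Mathlib.Tactic.Linarith.sub_nonpos_of_le (sq_nonneg t)) (Mathlib.Tactic.Linarith.sub_nonpos_of_le k1)])] at c4
  exact lt_irrefl _ c4

/-- one logarithmic term of the near kernel -/
def k4_l (κ : ℝ) (q ζ : ℂ) : ℝ := lg (κ * (ζ.re - q.re)) (κ * (ζ.im - q.im))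

theorem k4_norm (c : ℝ) : ‖(c : ℂ) * Complex.I‖ = |c| := by simp

theorem k4_ca {κ s c : ℝ} {p z : ℂ} (h0 : 0 < κ) (h1 : κ ≤ 63) (hs : 0 < s) (hs' : s ≤ 1 / 40000)
    (hz : ‖z - p‖ ≤ 1 / 20000) (hc : |c| ≤ 1 / 100) (hne : z ≠ p - c * Complex.I) :
    ca (k4_l κ (p - c * Complex.I)) z s =
      k4_l κ (p - c * Complex.I) z + gk s (p - c * Complex.I - z) := by
  refine ca_lg h0 hs hne ?_
  have h2 : ‖z - (p - c * Complex.I)‖ ≤ ‖z - p‖ + |c| := by
    rw [← k4_norm, show z - (p - c * Complex.I) = z - p + c * Complex.I by ring]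
    exact norm_add_le _ _
  have h3 : κ * (‖z - (p - c * Complex.I)‖ + s) ≤ 63 * (1 / 50) :=
    mul_le_mul h1 (by linarith only [hs, hs', hz, hc, h2]) (by positivity) (by norm_num)
  linarith only [hs, hs', h3, Real.pi_gt_three]

theorem k4_far {κ s c : ℝ} {p z : ℂ} (h0 : 0 < κ) (h1 : κ ≤ 63) (hs : 0 < s) (hs' : s ≤ 1 / 40000)
    (hz : ‖z - p‖ ≤ 1 / 20000) (hc : 1 / 4000 ≤ c) (hc' : c ≤ 1 / 100) :
    ca (k4_l κ (p - c * Complex.I)) z s = k4_l κ (p - c * Complex.I) z := by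
  have h2 : |c| = c := abs_of_nonneg (by linarith only [hs, hs', hc])
  have h3 := norm_add_le (z - p) (p - c * Complex.I - z)
  rw [show z - p + (p - c * Complex.I - z) = -(c * Complex.I) by ring, norm_neg, k4_norm] at h3
  have h4 : z ≠ p - c * Complex.I := fun h => by
    rw [sub_eq_zero.2 h.symm, norm_zero] at h3
    linarith only [hs, hs', hz, hc, h2, h3]
  rw [k4_ca h0 h1 hs hs' hz (h2.trans_le hc') h4, gk_eq_zero hs.le (by linarith only [hs, hs', hz, hc, h2, h3]), add_zero]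

theorem k4_lin {f0 f1 f2 f3 g : ℂ → ℝ} {z : ℂ} {s : ℝ} (a : ℝ) (h0 : CircleIntegrable f0 z s)
    (h1 : CircleIntegrable f1 z s) (h2 : CircleIntegrable f2 z s) (h3 : CircleIntegrable f3 z s)
    (hg : CircleIntegrable g z s) :
    CircleIntegrable (fun ζ => f0 ζ - f1 ζ + a • (f2 ζ - f3 ζ) + g ζ) z s ∧
      ca (fun ζ => f0 ζ - f1 ζ + a • (f2 ζ - f3 ζ) + g ζ) z s =
        ca f0 z s - ca f1 z s + a • (ca f2 z s - ca f3 z s) + ca g z s := by
  have c1 := h0.sub h1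
  have c2 := (h2.sub h3).const_smul (a := a)
  refine ⟨(c1.add c2).add hg, (circleAverage_add (c1.add c2) hg).trans ?_⟩
  rw [circleAverage_add c1 c2, circleAverage_sub h0 h1, circleAverage_smul, circleAverage_sub h2 h3]

theorem k4_near {F : Frame} {μ t w : ℝ} {p ζ : ℂ} (h : KH F μ t w p) (hζ : ‖ζ - p‖ ≤ 1 / 10000) :
    Hk F t w p ζ = k4_l (kp t) (p - (0 : ℝ) * Complex.I) ζ -
      k4_l (kp t) (p - (2 * (F.ht p + 2 * t ^ 2) : ℝ) * Complex.I) ζ +
      (1 + w) • (k4_l (kp t) (p - (2 * (F.ht p + 2 * t ^ 2) - w : ℝ) * Complex.I) ζ -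
        k4_l (kp t) (p - w * Complex.I) ζ) +
      ((((w * kp t * t * kp t : ℝ) : ℂ) * (Complex.I * ζ)).re +
        w * kp t * t * (π - kp t * (2 * t ^ 2 - F.φ p.re))) := by
  obtain ⟨k1, k2⟩ := kp_mem h.tpos h.tle
  have h1 : |sg t p ζ| ≤ 1 := by
    rw [sg, abs_mul, abs_of_nonneg (by linarith only [k1])]
    have := mul_le_mul k2 ((Frame.f1_re p ζ).trans hζ) (abs_nonneg _) (by norm_num)
    linarith only [this]
  have h2 : al F t p ζ ≤ π := by
    have a1 := h.a0.2.1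
    have a2 := mul_le_mul k2 ((Frame.f1_im p ζ).trans hζ) (abs_nonneg _) (by norm_num)
    have a3 := mul_le_mul_of_nonneg_left (le_abs_self (ζ.im - p.im)) (by linarith only [k1] : 0 ≤ kp t)
    have a4 : al F t p ζ = al F t p p + kp t * (ζ.im - p.im) := by
      rw [al, al]
      ring
    linarith only [a1, a2, a3, a4, Real.pi_gt_three]
  have re : ∀ c : ℝ, (p - c * Complex.I).re = p.re := fun c => by simp
  have im : ∀ c : ℝ, (p - c * Complex.I).im = p.im - c := fun c => by simp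
  rw [Hk, if_pos h1, Fk, min_eq_left h2, Ha, Gs, Gs]
  simp only [k4_l, re, im, smul_eq_mul]
  rw [show al F t p ζ + al F t p p = kp t * (ζ.im - (p.im - 2 * (F.ht p + 2 * t ^ 2))) by
      simp only [al, Frame.ht]; ring,
    show al F t p ζ - al F t p p = kp t * (ζ.im - (p.im - 0)) by simp only [al]; ring,
    show al F t p ζ + (al F t p p - kp t * w) =
      kp t * (ζ.im - (p.im - (2 * (F.ht p + 2 * t ^ 2) - w))) by simp only [al, Frame.ht]; ring,
    show al F t p ζ - (al F t p p - kp t * w) = kp t * (ζ.im - (p.im - w)) by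
      simp only [al]; ring, Complex.re_ofReal_mul, Complex.I_mul_re, al, sg]
  ring

theorem KH.jen : ∃ t0 : ℝ, 0 < t0 ∧ ∀ (F : Frame) (μ t w s : ℝ) (p z : ℂ), KH F μ t w p → t ≤ t0 →
    0 < s → s ≤ 1 / 40000 → Metric.closedBall z s ⊆ {ζ | -t ^ 2 < F.ht ζ} → z ≠ p →
    z ≠ p - w * Complex.I → CircleIntegrable (Hk F t w p) z s ∧
      ca (Hk F t w p) z s - Hk F t w p z ≤
        gk s (p - z) - (1 + w) * gk s (p - (z + w * Complex.I)) := by
  obtain ⟨t0, h0, H⟩ := KH.Hk_loc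
  obtain ⟨t1, h1, H1⟩ := KH.continuousOn_Hk
  refine ⟨min t0 t1, lt_min h0 h1, fun F μ t w s p z h ht s0 s1 hb z1 z2 => ?_⟩
  obtain ⟨w1, w2⟩ := k4_w h
  have w0 := h.wpos
  by_cases hz : ‖z - p‖ ≤ 1 / 20000
  · obtain ⟨k1, k2⟩ := kp_mem h.tpos h.tle
    have k0 : 0 < kp t := by linarith only [s0, s1, k1]
    have lo := h.lo
    have hi := h.hi
    have t2 := sq_nonneg t
    have hP : Differentiable ℂ fun ζ : ℂ => ((w * kp t * t * kp t : ℝ) : ℂ) * (Complex.I * ζ) := by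
      fun_prop
    have ci : ∀ q, CircleIntegrable (k4_l (kp t) q) z s := fun q => ci_lg _ q z s
    have he : EqOn (Hk F t w p) _ (Metric.sphere z |s|) := fun ζ hζ => k4_near h (by
      have a1 : ‖ζ - z‖ = |s| := mem_sphere_iff_norm.1 hζ
      have a2 := norm_sub_le_norm_sub_add_norm_sub ζ z p
      rw [abs_of_pos s0] at a1
      linarith only [s0, s1, hz, a1, a2])
    obtain ⟨c1, c2⟩ := k4_lin (1 + w) (ci (p - (0 : ℝ) * Complex.I))
      (ci (p - (2 * (F.ht p + 2 * t ^ 2) : ℝ) * Complex.I))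
      (ci (p - (2 * (F.ht p + 2 * t ^ 2) - w : ℝ) * Complex.I)) (ci (p - w * Complex.I))
      (i1_ci hP (w * kp t * t * (π - kp t * (2 * t ^ 2 - F.φ p.re))) z s)
    refine ⟨(circleIntegrable_congr he).2 c1, le_of_eq ?_⟩
    have e0 := k4_ca (c := 0) k0 k2 s0 s1 hz (by norm_num) (by simpa using z1)
    have e1 := k4_far (c := 2 * (F.ht p + 2 * t ^ 2)) k0 k2 s0 s1 hz (by linarith only [s0, s1, lo, t2]) (by linarith only [s0, s1, w1, hi])
    have e2 := k4_far (c := 2 * (F.ht p + 2 * t ^ 2) - w) k0 k2 s0 s1 hz (by linarith only [s0, s1, w2, lo, t2]) (by linarith only [s0, s1, w1, w0, hi])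
    have e3 := k4_ca (c := w) k0 k2 s0 s1 hz (by rw [abs_of_pos w0]; linarith only [s0, s1, w2]) z2
    have e4 := i1_mv hP (w * kp t * t * (π - kp t * (2 * t ^ 2 - F.φ p.re))) z s
    rw [show p - (0 : ℝ) * Complex.I - z = p - z by simp] at e0
    rw [show p - w * Complex.I - z = p - (z + w * Complex.I) by ring] at e3
    rw [e0, e1, e2, e3, e4] at c2
    rw [k4_near h (ζ := z) (by linarith only [s0, s1, hz]), ca, (circleAverage_congr_sphere he).trans c2]
    simp only [smul_eq_mul]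
    ring
  · have hz' := not_le.1 hz
    have hw : ‖(w : ℂ) * Complex.I‖ = w := by rw [k4_norm, abs_of_pos w0]
    have hsub : Metric.closedBall z s ⊆ {z | -t ^ 2 < F.ht z ∧ z ≠ p ∧ z ≠ p - w * Complex.I} :=
      fun ζ hζ => by
        have a1 : ‖z - ζ‖ ≤ s := by rwa [norm_sub_rev, ← mem_closedBall_iff_norm]
        have a2 := norm_sub_le_norm_sub_add_norm_sub z ζ p
        refine ⟨hb hζ, fun e => ?_, fun e => ?_⟩
        · rw [e] at a1
          linarith only [s0, s1, hz, a1]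
        · rw [e, sub_sub_cancel_left, norm_neg, hw, ← e] at a2
          linarith only [s1, w2, hz, a1, a2]
    have hc := H1 F μ t w p h (ht.trans (min_le_right _ _))
    have h2 := (subOn_of_loc hc.neg fun ζ hζ =>
      H F μ t w p ζ h (ht.trans (min_le_left _ _)) hζ.1 hζ.2.1 hζ.2.2).2 z s s0 hsub
    have h3 : ca (-Hk F t w p) z s = -ca (Hk F t w p) z s := by
      rw [← neg_one_smul ℝ (Hk F t w p), ca, circleAverage_smul, neg_one_smul]
    have h4 := norm_add_le (p - (z + w * Complex.I)) (w * Complex.I)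
    rw [show p - (z + w * Complex.I) + w * Complex.I = -(z - p) by ring, norm_neg, hw] at h4
    refine ⟨ci_of_cont hc s0.le hsub, ?_⟩
    rw [gk_eq_zero s0.le (v := p - z) (by rw [norm_sub_rev]; linarith only [s0, s1, hz]),
      gk_eq_zero s0.le (by linarith only [s1, w2, hz, h4])]
    rw [h3, Pi.neg_apply] at h2
    linarith only [h2]

end

end Pool.Agent.MinMod.Mo
end

-- merged part: Pool.Agent.Work.MP_f62247_an.Mo.K6
section
/-!
# The repair function
`H z = ∫ p, S p * Hk p z`. For `z` with `ht z > -t²` and `p ∉ {z, z + w I}` (a.e. `p`): `S p * |Hk p z| ≤ S p (gk 1 (p - z) + 2 gk 1 (p - (z + w I)) + C exp (-3 |re p - re z|))` (`KH.bound` when `S p ≠ 0`); `integrable_pot`, `mass_exp`.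
Continuity: `H = ∫ S R - pot S 1 z + (1+w) pot S 1 (z + w I)` with the bounded remainder `R` of `KH.bound`; `continuousAt_of_dominated` (for a.e. `p` the remainder is continuous at `z0`; for the bound near `z0` note that for each `z` it holds for a.e. `p`), `continuous_pot`.
Jensen: Fubini on circle × plane (`measurable_Hk`; the majorant above has a `p`-integral that is continuous, hence bounded, on the circle), then `KH.jen` for a.e. `p`. Finally `t0` is so small that `C * 100 * t ≤ 1`.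
-/

open Real MeasureTheory Set Filter Topology

namespace Pool.Agent.MinMod.Mo

noncomputable section

structure HH (F : Frame) (t w : ℝ) (S H : ℂ → ℝ) : Prop where
  cont : ContinuousOn H {z | -t ^ 2 < F.ht z}
  jen : ∀ z s, 0 < s → s ≤ 1 / 40000 → Metric.closedBall z s ⊆ {ζ | -t ^ 2 < F.ht ζ} →
    ca H z s - H z ≤ pot S s z - (1 + w) * pot S s (z + w * Complex.I)
  ridge : ∀ z, -t ^ 2 < F.ht z → F.ht z ≤ t ^ 6 → 0 ≤ H z ∧ H z ≤ w * t ^ 17 * F.Φ z.re
  top : ∀ z, 1 / 15 ≤ F.ht z → H z = 0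
  bd : ∀ z, -t ^ 2 < F.ht z → |H z| ≤ t ^ 17 * F.Φ z.re

/-- the bounded remainder of the kernel -/
def k6_R (F : Frame) (t w : ℝ) (p z : ℂ) : ℝ :=
  Hk F t w p z + gk 1 (p - z) - (1 + w) * gk 1 (p - (z + w * Complex.I))

/-- the facts on the density that are used below -/
structure k6_ctx (F : Frame) (t w C : ℝ) (S : ℂ → ℝ) : Prop where
  cS : Continuous S
  pos : ∀ z, 0 ≤ S z
  w0 : 0 < w
  C0 : 0 < C
  bound : ∀ p z, S p ≠ 0 → -t ^ 2 < F.ht z → z ≠ p → z ≠ p - w * Complex.I →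
    |k6_R F t w p z| ≤ C * exp (-3 * |p.re - z.re|)
  int : ∀ x : ℝ, Integrable fun p => S p * exp (-3 * |p.re - x|)

theorem k6_ae (z c : ℂ) : ∀ᵐ p : ℂ, z ≠ p ∧ z ≠ p - c := by
  have h1 : ∀ᵐ p : ℂ, p ∉ ({z, z + c} : Set ℂ) := (Set.toFinite _).countable.ae_notMem _
  filter_upwards [h1] with p hp
  refine ⟨fun h => hp (Or.inl h.symm), fun h => hp (Or.inr ?_)⟩
  rw [h, sub_add_cancel]
  rfl

theorem k6_open (F : Frame) (t : ℝ) : IsOpen {z : ℂ | -t ^ 2 < F.ht z} :=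
  isOpen_lt continuous_const F.continuous_ht

theorem k6_gk {v : ℂ} (hv : v ≠ 0) : ContinuousAt (gk 1) v :=
  continuous_posLog.continuousAt.comp
    (continuousAt_const.div continuous_norm.continuousAt (norm_ne_zero_iff.2 hv))

theorem k6_fub {G : ℂ → ℂ → ℝ} (hm : Measurable fun q : ℂ × ℂ => G q.1 q.2) (z : ℂ) (s B : ℝ)
    (h1 : ∀ θ, Integrable (G (circleMap z s θ))) (h2 : ∀ θ, ∫ p, ‖G (circleMap z s θ) p‖ ≤ B) :
    Integrable (fun p => ca (fun ζ => G ζ p) z s) ∧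
      ca (fun ζ => ∫ p, G ζ p) z s = ∫ p, ca (fun ζ => G ζ p) z s := by
  have hm' : Measurable (Function.uncurry fun θ p => G (circleMap z s θ) p) :=
    hm.comp ((continuous_circleMap z s).measurable.prodMap measurable_id)
  have hfin : IsFiniteMeasure (volume.restrict (uIoc (0 : ℝ) (2 * π))) :=
    isFiniteMeasure_restrict.2 measure_Ioc_lt_top.ne
  have hi : Integrable (Function.uncurry fun θ p => G (circleMap z s θ) p)
      ((volume.restrict (uIoc 0 (2 * π))).prod volume) := by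
    refine (integrable_prod_iff hm'.aestronglyMeasurable).2
      ⟨Eventually.of_forall fun θ => h1 θ, ?_⟩
    refine Integrable.of_bound
      (hm'.norm.stronglyMeasurable.integral_prod_right').aestronglyMeasurable B
      (Eventually.of_forall fun θ => ?_)
    rw [Real.norm_of_nonneg (integral_nonneg fun p => norm_nonneg _)]
    exact h2 θ
  simp only [circleAverage_def, smul_eq_mul, integral_const_mul]
  refine ⟨Integrable.const_mul ?_ _, congrArg _ (intervalIntegral_integral_swap hi)⟩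
  simpa only [intervalIntegral.integral_of_le two_pi_pos.le, uIoc_of_le two_pi_pos.le,
    Function.uncurry_apply_pair] using hi.integral_prod_right

section
variable {F : Frame} {t w C : ℝ} {S : ℂ → ℝ}

theorem k6_ctx.meas (h : k6_ctx F t w C S) (z : ℂ) :
    AEStronglyMeasurable (fun p => S p * k6_R F t w p z) volume :=
  (h.cS.measurable.mul ((((measurable_Hk F t w).comp (measurable_id.prodMk measurable_const)).add
    ((measurable_gk 1).comp (measurable_id.sub measurable_const))).sub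
    (measurable_const.mul
      ((measurable_gk 1).comp (measurable_id.sub measurable_const))))).aestronglyMeasurable

theorem k6_ctx.bd (h : k6_ctx F t w C S) {z : ℂ} (hz : -t ^ 2 < F.ht z) :
    ∀ᵐ p, ‖S p * k6_R F t w p z‖ ≤ C * (S p * exp (-3 * |p.re - z.re|)) := by
  filter_upwards [k6_ae z (w * Complex.I)] with p hp
  by_cases h0 : S p = 0
  · simp [h0]
  · rw [Real.norm_eq_abs, abs_mul, abs_of_nonneg (h.pos p), mul_left_comm]
    exact mul_le_mul_of_nonneg_left (h.bound p z h0 hz hp.1 hp.2) (h.pos p)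

theorem k6_ctx.intR (h : k6_ctx F t w C S) {z : ℂ} (hz : -t ^ 2 < F.ht z) :
    Integrable fun p => S p * k6_R F t w p z :=
  ((h.int z.re).const_mul C).mono' (h.meas z) (h.bd hz)

theorem k6_split (F : Frame) (t w : ℝ) (S : ℂ → ℝ) (z : ℂ) : (fun p => S p * Hk F t w p z) =
    fun p => S p * k6_R F t w p z - S p * gk 1 (p - z) +
      (1 + w) * (S p * gk 1 (p - (z + w * Complex.I))) := by
  funext p
  unfold k6_R
  ring

theorem k6_ctx.intH (h : k6_ctx F t w C S) {z : ℂ} (hz : -t ^ 2 < F.ht z) :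
    Integrable fun p => S p * Hk F t w p z := by
  rw [k6_split]
  exact ((h.intR hz).sub (integrable_pot h.cS 1 z)).add ((integrable_pot h.cS 1 _).const_mul _)

theorem k6_ctx.eq (h : k6_ctx F t w C S) {z : ℂ} (hz : -t ^ 2 < F.ht z) :
    ∫ p, S p * Hk F t w p z = (∫ p, S p * k6_R F t w p z) - pot S 1 z +
      (1 + w) * pot S 1 (z + w * Complex.I) := by
  have h1 : Integrable fun p => S p * k6_R F t w p z - S p * gk 1 (p - z) :=
    (h.intR hz).sub (integrable_pot h.cS 1 z)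
  rw [k6_split, integral_add h1 ((integrable_pot h.cS 1 _).const_mul _),
    integral_sub (h.intR hz) (integrable_pot h.cS 1 z), integral_const_mul]
  rfl

theorem k6_ctx.norm (h : k6_ctx F t w C S) {z : ℂ} (hz : -t ^ 2 < F.ht z) :
    ∫ p, ‖S p * Hk F t w p z‖ ≤ C * (∫ p, S p * exp (-3 * |p.re - z.re|)) + pot S 1 z +
      (1 + w) * pot S 1 (z + w * Complex.I) := by
  have h0 := (h.int z.re).const_mul C
  have h1 : Integrable fun p => C * (S p * exp (-3 * |p.re - z.re|)) + S p * gk 1 (p - z) :=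
    h0.add (integrable_pot h.cS 1 z)
  have h2 := (integrable_pot h.cS 1 (z + w * Complex.I)).const_mul (1 + w)
  have h3 : ∫ p, ‖S p * Hk F t w p z‖ ≤ ∫ p, (C * (S p * exp (-3 * |p.re - z.re|)) +
      S p * gk 1 (p - z) + (1 + w) * (S p * gk 1 (p - (z + w * Complex.I)))) := by
    refine integral_mono_ae (h.intH hz).norm (h1.add h2) ?_
    filter_upwards [h.bd hz] with p hp
    have e := congrFun (k6_split F t w S z) p
    have a1 : 0 ≤ S p * gk 1 (p - z) := mul_nonneg (h.pos p) (gk_nonneg _ _)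
    have a2 : 0 ≤ (1 + w) * (S p * gk 1 (p - (z + w * Complex.I))) :=
      mul_nonneg (by linarith [h.w0]) (mul_nonneg (h.pos p) (gk_nonneg _ _))
    rw [Real.norm_eq_abs] at hp ⊢
    rw [e]
    have a3 := abs_le.1 hp
    exact abs_le.2 ⟨by linarith [a3.1], by linarith [a3.2]⟩
  rw [integral_add h1 h2, integral_add h0 (integrable_pot h.cS 1 z), integral_const_mul,
    integral_const_mul] at h3
  exact h3

theorem k6_ctx.cont (h : k6_ctx F t w C S) (hc : ∀ p, S p ≠ 0 →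
    ContinuousOn (Hk F t w p) {z | -t ^ 2 < F.ht z ∧ z ≠ p ∧ z ≠ p - w * Complex.I}) :
    ContinuousOn (fun z => ∫ p, S p * Hk F t w p z) {z | -t ^ 2 < F.ht z} := by
  have h1 : ContinuousOn (fun z => ∫ p, S p * k6_R F t w p z) {z | -t ^ 2 < F.ht z} := by
    intro z0 hz0
    refine ContinuousAt.continuousWithinAt ?_
    refine continuousAt_of_dominated
      (bound := fun p => C * exp 3 * (S p * exp (-3 * |p.re - z0.re|)))
      (Eventually.of_forall fun z => h.meas z) ?_ ((h.int z0.re).const_mul _) ?_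
    · filter_upwards [(k6_open F t).mem_nhds hz0, Metric.closedBall_mem_nhds z0 one_pos]
        with z hz hz1
      filter_upwards [h.bd hz] with p hp
      refine hp.trans ?_
      have a1 : |z.re - z0.re| ≤ 1 := (Frame.f1_re z0 z).trans (mem_closedBall_iff_norm.1 hz1)
      have a2 := abs_sub_le p.re z.re z0.re
      have a3 : exp (-3 * |p.re - z.re|) ≤ exp 3 * exp (-3 * |p.re - z0.re|) := by
        rw [← exp_add]
        exact exp_le_exp.2 (by linarith only [a1, a2])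
      rw [mul_assoc C, mul_left_comm (exp 3)]
      exact mul_le_mul_of_nonneg_left (mul_le_mul_of_nonneg_left a3 (h.pos p)) h.C0.le
    · filter_upwards [k6_ae z0 (w * Complex.I)] with p hp
      by_cases h0 : S p = 0
      · simp only [h0, zero_mul]
        exact continuousAt_const
      · have a0 : IsOpen {z : ℂ | -t ^ 2 < F.ht z ∧ z ≠ p ∧ z ≠ p - w * Complex.I} :=
          (k6_open F t).inter (isOpen_ne.inter isOpen_ne)
        have a1 := (hc p h0).continuousAt (a0.mem_nhds ⟨hz0, hp⟩)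
        have a2 : ContinuousAt (fun z => gk 1 (p - z)) z0 :=
          ContinuousAt.comp (f := fun z => p - z) (k6_gk (sub_ne_zero.2 hp.1.symm)) (by fun_prop)
        have a3 : ContinuousAt (fun z => gk 1 (p - (z + w * Complex.I))) z0 := by
          refine ContinuousAt.comp (f := fun z => p - (z + w * Complex.I)) (k6_gk fun e => hp.2 ?_)
            (by fun_prop)
          linear_combination -e
        exact continuousAt_const.mul ((a1.add a2).sub (continuousAt_const.mul a3))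
  have h2 := continuous_pot h.cS one_pos
  have h3 : Continuous fun z : ℂ => (1 + w) * pot S 1 (z + w * Complex.I) :=
    continuous_const.mul (h2.comp (continuous_id.add continuous_const))
  exact ((h1.sub h2.continuousOn).add h3.continuousOn).congr fun z hz => h.eq hz

theorem k6_ctx.jen (h : k6_ctx F t w C S) {z : ℂ} {s B : ℝ} (hs : 0 < s)
    (hb : Metric.closedBall z s ⊆ {ζ | -t ^ 2 < F.ht ζ})
    (hB : ∀ ζ ∈ Metric.closedBall z s, ∫ p, ‖S p * Hk F t w p ζ‖ ≤ B)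
    (hj : ∀ p, S p ≠ 0 → z ≠ p → z ≠ p - w * Complex.I →
      ca (Hk F t w p) z s - Hk F t w p z ≤
        gk s (p - z) - (1 + w) * gk s (p - (z + w * Complex.I))) :
    ca (fun ζ => ∫ p, S p * Hk F t w p ζ) z s - ∫ p, S p * Hk F t w p z ≤
      pot S s z - (1 + w) * pot S s (z + w * Complex.I) := by
  have hz : -t ^ 2 < F.ht z := hb (Metric.mem_closedBall_self hs.le)
  obtain ⟨f1, f2⟩ := k6_fub (G := fun ζ p => S p * Hk F t w p ζ)
    ((h.cS.measurable.comp measurable_snd).mul ((measurable_Hk F t w).comp measurable_swap)) z s B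
    (fun θ => h.intH (hb (circleMap_mem_closedBall z hs.le θ)))
    (fun θ => hB _ (circleMap_mem_closedBall z hs.le θ))
  have g1 := integrable_pot h.cS s z
  have g2 := (integrable_pot h.cS s (z + w * Complex.I)).const_mul (1 + w)
  have e : pot S s z - (1 + w) * pot S s (z + w * Complex.I) =
      ∫ p, (S p * gk s (p - z) - (1 + w) * (S p * gk s (p - (z + w * Complex.I)))) := by
    rw [integral_sub g1 g2, integral_const_mul]
    rfl
  rw [f2, e, ← integral_sub f1 (h.intH hz)]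
  refine integral_mono_ae (f1.sub (h.intH hz)) (g1.sub g2) ?_
  filter_upwards [k6_ae z (w * Complex.I)] with p hp
  have e2 : ca (fun ζ => S p * Hk F t w p ζ) z s = S p * ca (Hk F t w p) z s :=
    circleAverage_fun_smul (a := S p)
  rw [e2]
  by_cases h0 : S p = 0
  · simp [h0]
  · have a1 := mul_le_mul_of_nonneg_left (hj p h0 hp.1 hp.2) (h.pos p)
    linarith

end

theorem exists_H : ∃ t0 : ℝ, 0 < t0 ∧ ∀ (F : Frame) (μ K t w : ℝ) (S : ℂ → ℝ), 0 < t → t ≤ t0 → 0 < w →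
    w ≤ t ^ 8 → μ ≤ t ^ 18 → F.Good μ → Continuous S → (∀ z, 0 ≤ S z) → (∀ z, S z ≤ K * F.Φ z.re) →
    (∀ z, S z ≠ 0 → 1 / 4000 ≤ F.ht z ∧ F.ht z ≤ 1 / 1000) →
    (∀ z, pot S (1 / 20000) z ≤ 100 * t ^ 18 * F.Φ z.re) → ∃ H : ℂ → ℝ, HH F t w S H := by
  obtain ⟨t1, p1, h1⟩ := KH.continuousOn_Hk
  obtain ⟨t2, p2, h2⟩ := KH.jen
  obtain ⟨t3, p3, h3⟩ := KH.ridge
  obtain ⟨Cb, pb, hb⟩ := KH.bound
  obtain ⟨Cm, pm, hm⟩ := mass_exp
  have pA : 0 < (10000 + 100 * (3 + Cb)) * Cm := by positivity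
  refine ⟨min (min (1 / 10000) (1 / ((10000 + 100 * (3 + Cb)) * Cm))) (min t1 (min t2 t3)),
    lt_min (lt_min (by norm_num) (one_div_pos.2 pA)) (lt_min p1 (lt_min p2 p3)), ?_⟩
  intro F μ K t w S t0 ht w0 hw hμ hG cS S0 SK Sb Sp
  simp only [le_min_iff] at ht
  obtain ⟨⟨ta, tb⟩, tc, td, te⟩ := ht
  rw [le_div_iff₀ pA] at tb
  have t1' : t ≤ 1 := by linarith only [t0, ta]
  have w1 : w ≤ 1 := hw.trans (pow_le_one₀ t0.le t1')
  have μ1 : μ ≤ 1 / 100 := by
    have a1 : t ^ 18 ≤ t := pow_le_of_le_one t0.le t1' (by norm_num)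
    linarith only [t0, hμ, ta, a1]
  have kh : ∀ p, S p ≠ 0 → KH F μ t w p := fun p hp =>
    ⟨t0, ta, w0, hw, hμ, hG, (Sb p hp).1, (Sb p hp).2⟩
  have ms := fun x => hm F μ K (100 * t ^ 18) x S hG μ1 cS S0 SK
    (fun z hz => ⟨by linarith only [t0, ta, Sb, hz, (Sb z hz).1], by linarith only [t0, ta, Sb, hz, (Sb z hz).2]⟩) Sp
  have cx : k6_ctx F t w Cb S :=
    ⟨cS, S0, w0, pb, fun p z hp => hb F μ t w p z (kh p hp), fun x => (ms x).1⟩
  have t17 : 0 < t ^ 17 := pow_pos t0 17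
  have hn : ∀ z, -t ^ 2 < F.ht z → ∫ p, ‖S p * Hk F t w p z‖ ≤ t ^ 17 * F.Φ z.re := by
    intro z hz
    obtain ⟨-, m1, m2⟩ := ms z.re
    have a1 := m2 z rfl
    have a2 := m2 (z + w * Complex.I) (by simp)
    have a3 : 0 < t ^ 17 * F.Φ z.re := mul_pos t17 (F.Φ_pos _)
    have e : Cm * (100 * t ^ 18) * F.Φ z.re = 100 * (t * Cm) * (t ^ 17 * F.Φ z.re) := by ring
    rw [e] at m1 a1 a2
    have a4 : 0 < 100 * (t * Cm) * (t ^ 17 * F.Φ z.re) := by positivity
    have a5 := mul_le_mul_of_nonneg_left m1 pb.le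
    have a6 := mul_le_mul (show 1 + w ≤ 2 by linarith only [w1]) a2
      (pot_nonneg one_pos fun ζ _ => S0 ζ) zero_le_two
    have a7 : (3 + Cb) * (100 * (t * Cm)) ≤ 1 := by
      have a8 : 0 < t * Cm := mul_pos t0 pm
      linarith only [tb, a8]
    have a8 := mul_le_mul_of_nonneg_right a7 a3.le
    refine (cx.norm hz).trans ?_
    linarith only [a1, a5, a6, a8]
  refine ⟨fun z => ∫ p, S p * Hk F t w p z, cx.cont fun p hp => h1 F μ t w p (kh p hp) tc,
    fun z s s0 s1 hs => ?_, fun z z0 z1 => ⟨?_, ?_⟩, fun z hz => ?_, fun z hz => ?_⟩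
  · refine cx.jen (B := t ^ 17 * (exp (2 * s) * F.Φ z.re)) s0 hs (fun ζ hζ => ?_)
      fun p hp n1 n2 => (h2 F μ t w s p z (kh p hp) td s0 s1 hs n1 n2).2
    refine (hn ζ (hs hζ)).trans (mul_le_mul_of_nonneg_left ?_ t17.le)
    exact hG.Φ_le (by linarith only [μ1, s0, s1]) ((Frame.f1_re z ζ).trans (mem_closedBall_iff_norm.1 hζ))
  · refine integral_nonneg fun p => ?_
    by_cases hp : S p = 0
    · simp [hp]
    · exact mul_nonneg (S0 p) (h3 F μ t w p z (kh p hp) te z0 z1).1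
  · obtain ⟨m0, m1, -⟩ := ms z.re
    have a1 : ∫ p, S p * Hk F t w p z ≤ ∫ p, 100 * w * (S p * exp (-3 * |p.re - z.re|)) := by
      refine integral_mono (cx.intH z0) (m0.const_mul _) fun p => ?_
      by_cases hp : S p = 0
      · simp [hp]
      · have a2 := mul_le_mul_of_nonneg_left (h3 F μ t w p z (kh p hp) te z0 z1).2 (S0 p)
        simp only
        linarith only [a2]
    rw [integral_const_mul] at a1
    have a2 := mul_le_mul_of_nonneg_left m1 (show 0 ≤ 100 * w by linarith only [w0])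
    have a3 : 0 < w * t ^ 17 * F.Φ z.re := mul_pos (mul_pos w0 t17) (F.Φ_pos _)
    have a4 : 10000 * (t * Cm) ≤ 1 := by
      have a8 : 0 < t * Cm := mul_pos t0 pm
      have a9 : 0 < Cb * (t * Cm) := mul_pos pb a8
      linarith only [tb, a8, a9]
    have a5 := mul_le_mul_of_nonneg_right a4 a3.le
    have e : 100 * w * (Cm * (100 * t ^ 18) * F.Φ z.re) =
        10000 * (t * Cm) * (w * t ^ 17 * F.Φ z.re) := by ring
    linarith only [a1, a2, a5]
  · have e : (fun p => S p * Hk F t w p z) = fun _ => 0 := by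
      funext p
      by_cases hp : S p = 0
      · rw [hp, zero_mul]
      · rw [(kh p hp).top hz, mul_zero]
    simp only [e, integral_zero]
  · exact (norm_integral_le_integral_norm fun p => S p * Hk F t w p z).trans (hn z hz)

end

end Pool.Agent.MinMod.Mo
end

-- merged part: Pool.Agent.Work.MP_f62247_an.Mo.D3
section
/-!
# The upper piece of the widened function
Write `a = tav r u`, `b = tav r v`, `f_w z = f (z + w I)`; `g2 - a_w = (b - b_w) - w (b_w - a_w) - H - ε Xi`.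
`low_seam`: `b - b_w ≤ 25 w t^6 Φ` (`slide`), `b_w - a_w ≥ t^4 Φ/100` (`Plat.low`, `up`, `cos h ≤ 1 - h²/5`), `H ≥ 0`. `up_seam`: `seam`, `b_w - a_w ≤ 23 t^18 Φ`, `H ≤ w t^17 Φ`, `Xi ≤ Φ/64000`. `dip`: `b_w ≥ Φ/2`.
`le`: `g2 ≤ b - H`; for `ht ≤ t^6` use `H ≥ 0`, for `t^6 ≤ ht ≤ 1/10` use `Plat.up`, `Bge`, above use `top`.
`locSub`: by `ca_tav` (and `ca_shift`) for small `s`: `ca g2 - g2 = pot (den v) s z - (1+w) pot (den v) s (z + w I) + (1+w) pot (den u) s (z + w I) - (ca H - H) - ε (ca Xi - Xi)`; `pot (den v) s z ≥ pot S s z`, `HH.jen`, `sub_Xi`. It remains to see `den v = S` near `z + w I`.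
If `ht z ≥ t^6/2` this is the hypothesis on `S`. Otherwise `S = 0` near `z + w I`, and if some `ζ` with `‖ζ - (z + w I)‖ ≤ d`, `ht ζ ≤ 1/4000` had `v ζ = Bx u ζ.re`, then `b_w z ≥ B - 3 η Φ` (`md`, `md_Bx`), `b z ≤ B + η Φ`, `ε Xi ≥ ε Φ / 10^5`, so `g2 z ≤ a_w z`; hence `Plat.free` gives `den v = 0`.
-/

open Real MeasureTheory Set Filter Topology

namespace Pool.Agent.MinMod.Mo

noncomputable section

def g2 (F : Frame) (w ε r : ℝ) (u v H : ℂ → ℝ) (z : ℂ) : ℝ :=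
  tav r v z - (1 + w) * (tav r v (z + w * Complex.I) - tav r u (z + w * Complex.I)) - H z - ε * F.Xi z

structure GH (F : Frame) (μ K t w r η d ε : ℝ) (u v S H : ℂ → ℝ) : Prop where
  dh : DH F μ K t w r η d u v
  cS : Continuous S
  S0 : ∀ z, 0 ≤ S z
  supp : ∀ z, S z ≠ 0 → 1 / 4000 ≤ F.ht z ∧ F.ht z ≤ 1 / 1000
  Sle : ∀ z, S z ≤ den r v z
  Seq : ∀ z, t ^ 8 ≤ F.ht z → F.ht z ≤ 1 / 10 → S z = den r v z
  hh : HH F t w S H
  ele : ε ≤ w * t ^ 6
  eta : 10 ^ 6 * η ≤ ε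

variable {F : Frame} {μ K t w r η d ε : ℝ} {u v S H : ℂ → ℝ} {z : ℂ}

theorem d3_pow (h0 : 0 < t) (h1 : t ≤ 1 / 1000) (m n : ℕ) (hmn : m + 1 ≤ n) :
    t ^ n ≤ t ^ m / 1000 := by
  have h2 : t ^ n ≤ t ^ (m + 1) := pow_le_pow_of_le_one h0.le (by linarith only [h0, h1]) hmn
  have h3 : t ^ m * t ≤ t ^ m * (1 / 1000) := mul_le_mul_of_nonneg_left h1 (pow_pos h0 m).le
  rw [pow_succ] at h2
  linarith only [h2, h3]

theorem d3_one (h0 : 0 < t) (h1 : t ≤ 1 / 1000) (n : ℕ) (hn : 1 ≤ n) : t ^ n ≤ 1 / 1000 := by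
  have := d3_pow h0 h1 0 n (by omega)
  simpa using this

theorem d3_cos {x : ℝ} (hx : |x| ≤ 1) : cos x ≤ 1 - x ^ 2 / 5 := by
  have h1 := Real.cos_le_one_sub_mul_cos_sq (x := x) (hx.trans (by linarith [pi_gt_three]))
  have h2 : π ^ 2 ≤ 10 := by linarith only [pi_lt_d2, pi_pos, mul_pos_of_neg_of_neg (Mathlib.Tactic.Linarith.sub_neg_of_lt pi_lt_d2) (Mathlib.Tactic.Linarith.sub_neg_of_lt pi_pos)]
  have h3 : 1 / 5 ≤ 2 / π ^ 2 := by
    rw [div_le_div_iff₀ (by norm_num) (by positivity)]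
    linarith
  linarith only [h1, h3, sq_nonneg x, mul_nonneg_of_nonpos_of_nonpos (Mathlib.Tactic.Linarith.sub_nonpos_of_le (sq_nonneg x)) (Mathlib.Tactic.Linarith.sub_nonpos_of_le h3)]

theorem d3_re (z : ℂ) (w : ℝ) : (z + w * Complex.I).re = z.re := by simp

theorem d3_Xi0 (F : Frame) (z : ℂ) : 0 ≤ F.Xi z :=
  mul_nonneg (F.Φ_pos _).le (pow_nonneg (le_max_left _ _) 3)

theorem d3_Xi_le (F : Frame) {c : ℝ} (hc : 0 ≤ c) (h : 1 / 40 - F.ht z ≤ c) :
    F.Xi z ≤ c ^ 3 * F.Φ z.re := by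
  have h1 : max 0 (1 / 40 - F.ht z) ^ 3 ≤ c ^ 3 :=
    pow_le_pow_left₀ (le_max_left _ _) (max_le hc h) 3
  rw [Frame.Xi, mul_comm]
  exact mul_le_mul_of_nonneg_right h1 (F.Φ_pos _).le

theorem d3_Xi_ge (F : Frame) {c : ℝ} (hc : 0 ≤ c) (h : c ≤ 1 / 40 - F.ht z) :
    c ^ 3 * F.Φ z.re ≤ F.Xi z := by
  have h1 : c ^ 3 ≤ max 0 (1 / 40 - F.ht z) ^ 3 :=
    pow_le_pow_left₀ hc (h.trans (le_max_right _ _)) 3
  rw [Frame.Xi, mul_comm (F.Φ z.re)]
  exact mul_le_mul_of_nonneg_right h1 (F.Φ_pos _).le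

theorem GH.d3_eps (h : GH F μ K t w r η d ε u v S H) : 0 < ε := by
  have := h.eta
  have := h.dh.epos
  linarith

theorem GH.d3_w (h : GH F μ K t w r η d ε u v S H) : w ≤ 1 / 1000 :=
  h.dh.wle.trans (d3_one h.dh.tpos h.dh.tle 8 (by omega))

theorem GH.d3_eta (h : GH F μ K t w r η d ε u v S H) : η ≤ t ^ 18 := by
  have h1 := h.dh.ele
  have h2 := h.d3_w
  have h3 := pow_pos h.dh.tpos 18
  linarith only [h1, h3, h2, mul_nonneg_of_nonpos_of_nonpos (Mathlib.Tactic.Linarith.sub_nonpos_of_le h2) (le_of_lt (Mathlib.Tactic.Linarith.sub_neg_of_lt h3))]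

theorem GH.d3_mu (h : GH F μ K t w r η d ε u v S H) : μ ≤ 1 / 100 := by
  have h1 := h.dh.mu
  have h2 := d3_one h.dh.tpos h.dh.tle 18 (by omega)
  linarith only [h1, h2]

theorem GH.d3_u (h : GH F μ K t w r η d ε u v S H) (z : ℂ) (c : ℝ) :
    u (z + c * Complex.I) - η * F.Φ z.re ≤ tav r u (z + c * Complex.I) ∧
      tav r u (z + c * Complex.I) ≤ u (z + c * Complex.I) + η * F.Φ z.re := by
  have h1 := abs_le.1 (h.dh.close_u (z + c * Complex.I))
  rw [d3_re] at h1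
  constructor <;> linarith only [h1, h1.1, h1.2]

theorem GH.d3_v (h : GH F μ K t w r η d ε u v S H) (z : ℂ) (c : ℝ) :
    v (z + c * Complex.I) - η * F.Φ z.re ≤ tav r v (z + c * Complex.I) ∧
      tav r v (z + c * Complex.I) ≤ v (z + c * Complex.I) + η * F.Φ z.re := by
  have h1 := abs_le.1 (h.dh.close_v (z + c * Complex.I))
  rw [d3_re] at h1
  constructor <;> linarith only [h1, h1.1, h1.2]

/-- the common end of `low_seam` and `dip` -/
theorem GH.d3_low (h : GH F μ K t w r η d ε u v S H) (h1 : -t ^ 2 < F.ht z) (h2 : F.ht z ≤ t ^ 6 / 2)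
    (h3 : 25 * t ^ 6 * F.Φ z.re ≤ tav r v (z + w * Complex.I) - tav r u (z + w * Complex.I)) :
    g2 F w ε r u v H z ≤ tav r u (z + w * Complex.I) := by
  have a1 := h.dh.slide h2
  have a2 := (h.hh.ridge z h1 (by linarith only [h2, h, pow_pos h.dh.tpos 6])).1
  have a3 := mul_nonneg h.d3_eps.le (d3_Xi0 F z)
  have a4 := mul_le_mul_of_nonneg_left h3 h.dh.wpos.le
  unfold g2
  linarith only [a1, a2, a3, a4]

theorem d3_ca {f1 f2 f3 f4 f5 : ℂ → ℝ} {s : ℝ} (c e : ℝ) (h1 : Continuous f1) (h2 : Continuous f2)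
    (h3 : Continuous f3) (h4 : CircleIntegrable f4 z s) (h5 : Continuous f5) :
    ca (fun ζ => (f1 ζ - c * (f2 ζ - f3 ζ) + e * f5 ζ) - f4 ζ) z s =
      ca f1 z s - c * (ca f2 z s - ca f3 z s) + e * ca f5 z s - ca f4 z s := by
  have e1 := Frame.f2_ca_mul (fun ζ => f2 ζ - f3 ζ) c z s
  have e2 := Frame.f2_ca_mul f5 e z s
  simp only [ca] at e1 e2 ⊢
  rw [Real.circleAverage_fun_sub (Frame.f2_ci (by fun_prop) z s) h4,
    Real.circleAverage_fun_add (Frame.f2_ci (by fun_prop) z s) (Frame.f2_ci (by fun_prop) z s),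
    Real.circleAverage_fun_sub (Frame.f2_ci h1 z s) (Frame.f2_ci (by fun_prop) z s), e1, e2,
    Real.circleAverage_fun_sub (Frame.f2_ci h2 z s) (Frame.f2_ci h3 z s)]

/-- near `z + w I` the density of `v` is `S` -/
theorem GH.d3_den (h : GH F μ K t w r η d ε u v S H) (h1 : -t ^ 2 < F.ht z) (h2 : F.ht z < 1 / 12)
    (h3 : tav r u (z + w * Complex.I) < g2 F w ε r u v H z ∨ t ^ 6 / 2 ≤ F.ht z) {ζ : ℂ}
    (hd : ‖ζ - (z + w * Complex.I)‖ ≤ d) (hs : ‖ζ - (z + w * Complex.I)‖ ≤ t ^ 6 / 8) :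
    den r v ζ = S ζ := by
  have t0 := h.dh.tpos
  have t1 := h.dh.tle
  have b1 := abs_le.1 (h.dh.good.ht_sub (h.d3_mu.trans (by norm_num)) (z + w * Complex.I) ζ)
  rw [Frame.ht_add_I] at b1
  have p6 := pow_pos t0 6
  have p68 := d3_pow t0 t1 6 8 (by omega)
  have p16 := d3_pow t0 t1 1 6 (by omega)
  rw [pow_one] at p16
  have w0 := h.dh.wpos
  have w1 := h.dh.wle
  by_cases hc : t ^ 6 / 2 ≤ F.ht z
  · exact (h.Seq ζ (by linarith only [hs, b1, p68, w0, w1, hc, b1.1]) (by linarith only [h2, hs, t1, b1, p68, p16, w0, w1, b1.2])).symm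
  · have h4 := h3.resolve_right hc
    rw [not_le] at hc
    have hζ : F.ht ζ < 1 / 4000 := by linarith only [hs, t1, b1, p68, p16, w0, w1, hc, b1.2]
    have hS : S ζ = 0 := by
      by_contra hne
      linarith only [hs, t1, b1, p68, p16, w0, w1, hc, h, hne, (h.supp ζ hne).1]
    have hv : v ζ < Bx u ζ.re := by
      by_contra hne
      rw [not_lt] at hne
      have m1 := abs_le.1 (h.dh.plat.md (z + w * Complex.I) (mem_univ _) ζ hd)
      have m2 := abs_le.1 (md_Bx h.dh.clean.cont h.dh.clean.per h.dh.mdu (z + w * Complex.I)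
        (mem_univ _) ζ hd)
      simp only [d3_re] at m1 m2
      have m3 := (h.d3_v z w).1
      have m4 := (abs_le.1 (h.dh.close_v z)).2
      have m5 := h.dh.plat.le z
      have m6 := (h.hh.ridge z h1 (by linarith only [p68, w0, w1, hc])).1
      have m7 := mul_nonneg w0.le (sub_nonneg.2 (h.dh.le_uv (z + w * Complex.I)))
      have m8 := d3_Xi_ge F (z := z) (c := 1 / 50) (by norm_num) (by linarith only [t1, p68, p16, w0, w1, hc])
      have m9 := mul_le_mul_of_nonneg_left m8 h.d3_eps.le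
      have m10 := mul_le_mul_of_nonneg_right h.eta (F.Φ_pos z.re).le
      have m11 := mul_pos h.dh.epos (F.Φ_pos z.re)
      unfold g2 at h4
      linarith only [h4, hne, m1, m2, m3, m4, m5, m6, m7, m9, m10, m1.1, m1.2, m2.1, m2.2]
    rw [hS, den, h.dh.plat.free ζ hζ.le hv, sub_self, mul_zero]

theorem GH.cont (h : GH F μ K t w r η d ε u v S H) :
    ContinuousOn (g2 F w ε r u v H) {z | -t ^ 2 < F.ht z} := by
  have c1 := continuous_tav h.dh.plat.cont h.dh.rpos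
  have c2 := continuous_tav h.dh.clean.cont h.dh.rpos
  have c3 := F.continuous_Xi
  have c4 : Continuous fun z : ℂ => tav r v z - (1 + w) *
      (tav r v (z + w * Complex.I) - tav r u (z + w * Complex.I)) := by fun_prop
  exact (c4.continuousOn.sub h.hh.cont).sub (continuous_const.mul c3).continuousOn

theorem GH.low_seam (h : GH F μ K t w r η d ε u v S H) (h1 : -t ^ 2 < F.ht z)
    (h2 : F.ht z ≤ -t ^ 2 / 2) : g2 F w ε r u v H z ≤ tav r u (z + w * Complex.I) := by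
  have t0 := h.dh.tpos
  have t1 := h.dh.tle
  have p2 := pow_pos t0 2
  have p4 := pow_pos t0 4
  have p6 := pow_pos t0 6
  have p8 := pow_pos t0 8
  have q2 := d3_one t0 t1 2 (by omega)
  have q28 := d3_pow t0 t1 2 8 (by omega)
  have q45 := d3_pow t0 t1 4 5 (by omega)
  have q56 := d3_pow t0 t1 5 6 (by omega)
  have q416 := d3_pow t0 t1 4 16 (by omega)
  have q418 := d3_pow t0 t1 4 18 (by omega)
  have w0 := h.dh.wpos
  have w1 := h.dh.wle
  have e1 := h.d3_eta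
  refine h.d3_low h1 (by linarith only [h2, p6, p8, q28]) ?_
  have a1 := h.dh.plat.low (z + w * Complex.I) (by rw [Frame.ht_add_I]; linarith only [h2, p8, q28, w1])
  have a2 := h.dh.clean.up (z + w * Complex.I)
  rw [Frame.M, Frame.ht_add_I] at a2
  rw [d3_re] at a1 a2
  have a3 := d3_cos (x := F.ht z + w) (abs_le.2 ⟨by linarith only [h1, p8, q2, q28, w0], by linarith only [h2, p8, q2, q28, w1]⟩)
  have a4 : (t ^ 2 * (49 / 100)) ^ 2 ≤ (-(F.ht z + w)) ^ 2 :=
    pow_le_pow_left₀ (by positivity) (by linarith only [h2, p8, q28, w1]) 2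
  have a5 : cos (F.ht z + w) ≤ 1 - t ^ 4 / 25 := by
    have : (t ^ 2 * (49 / 100)) ^ 2 = t ^ 4 * (2401 / 10000) := by ring
    rw [this, neg_sq] at a4
    linarith only [p6, q45, q56, a3, a4]
  have a6 := (h.d3_u z w).2
  have a7 := (h.d3_v z w).1
  have a8 : 25 * t ^ 6 ≤ (1 - 3 * (t ^ 8) ^ 2) - η - (cos (F.ht z + w) + t ^ 18 + η) := by
    have : (t ^ 8) ^ 2 = t ^ 16 := by ring
    rw [this]
    linarith only [p6, q45, q56, q416, q418, e1, a3, a4]
  have a9 := mul_le_mul_of_nonneg_right a8 (F.Φ_pos z.re).le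
  linarith only [a1, a2, a6, a7, a9]

theorem GH.up_seam (h : GH F μ K t w r η d ε u v S H) (h1 : t ^ 6 / 2 ≤ F.ht z)
    (h2 : F.ht z ≤ t ^ 6) : tav r u (z + w * Complex.I) ≤ g2 F w ε r u v H z := by
  have t0 := h.dh.tpos
  have t1 := h.dh.tle
  have p2 := pow_pos t0 2
  have p6 := pow_pos t0 6
  have q6 := d3_one t0 t1 6 (by omega)
  have q68 := d3_pow t0 t1 6 8 (by omega)
  have q617 := d3_pow t0 t1 6 17 (by omega)
  have q618 := d3_pow t0 t1 6 18 (by omega)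
  have w0 := h.dh.wpos
  have w1 := h.dh.wle
  have e1 := h.d3_eta
  have a1 := (h.dh.seam (z := z) (by linarith only [h1, q68, w0, w1]) (by linarith only [h2, q68, w0, w1])).1
  have a2 := h.dh.plat.up (z + w * Complex.I) (by rw [Frame.ht_add_I]; linarith only [h1, q68, w0, w1])
  have a3 := h.dh.clean.near (z + w * Complex.I) (by rw [Frame.ht_add_I]; linarith only [h1, q68, w0, w1])
    (by rw [Frame.ht_add_I]; linarith only [h2, q6, q68, w0, w1])
  rw [d3_re] at a2 a3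
  have a4 := (h.d3_u z w).1
  have a5 := (h.d3_v z w).2
  have a6 := (h.hh.ridge z (by linarith only [h1, p2, q68, w0, w1]) h2).2
  have a7 := d3_Xi_le F (z := z) (c := 1 / 40) (by norm_num) (by linarith only [h1, q68, w0, w1])
  have a8 := mul_le_mul h.ele a7 (d3_Xi0 F z) (by positivity)
  have a9 : tav r v (z + w * Complex.I) - tav r u (z + w * Complex.I) ≤
      (21 * t ^ 18 + 2 * η) * F.Φ z.re := by linarith only [a2, a3, a4, a5]
  have a10 := mul_le_mul_of_nonneg_left a9 w0.le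
  have a11 : (21 * t ^ 18 + 2 * η) + t ^ 17 + t ^ 6 * (1 / 40) ^ 3 ≤ t ^ 6 / 16 := by linarith only [q68, q617, q618, w0, w1, e1]
  have a12 := mul_le_mul_of_nonneg_left a11 (mul_pos w0 (F.Φ_pos z.re)).le
  unfold g2
  linarith only [a1, a6, a8, a10, a12]

theorem GH.dip (h : GH F μ K t w r η d ε u v S H) (h1 : -t ^ 2 < F.ht z) (h2 : F.ht z ≤ t ^ 6 / 2)
    (h3 : tav r u (z + w * Complex.I) ≤ 0) : g2 F w ε r u v H z ≤ tav r u (z + w * Complex.I) := by
  have t0 := h.dh.tpos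
  have t1 := h.dh.tle
  have q6 := d3_one t0 t1 6 (by omega)
  have q18 := d3_one t0 t1 18 (by omega)
  have w1 := h.d3_w
  have e1 := h.d3_eta
  refine h.d3_low h1 h2 ?_
  have a1 := h.dh.v_ge (z := z + w * Complex.I) (by rw [Frame.ht_add_I]; linarith only [h2, t0, t1, q6, w1])
  rw [d3_re] at a1
  have a2 := (h.d3_v z w).1
  have a3 : 25 * t ^ 6 ≤ 9 / 10 - η := by linarith only [t0, t1, q6, q18, e1]
  have a4 := mul_le_mul_of_nonneg_right a3 (F.Φ_pos z.re).le
  linarith only [h3, a1, a2, a4]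

theorem GH.top (h : GH F μ K t w r η d ε u v S H) (h1 : 1 / 15 ≤ F.ht z) :
    g2 F w ε r u v H z = tav r u z := by
  have w0 := h.dh.wpos
  have a1 := h.dh.top (z := z) (by linarith only [h1])
  have a2 := h.dh.top (z := z + w * Complex.I) (by rw [Frame.ht_add_I]; linarith only [h1, w0])
  have a3 := h.hh.top z h1
  have a4 : F.Xi z = 0 := by
    rw [Frame.Xi, max_eq_left (by linarith only [h1])]
    simp
  rw [g2, a1, a2, a3, a4]
  ring

theorem GH.le (h : GH F μ K t w r η d ε u v S H) (h1 : -t ^ 2 < F.ht z) :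
    g2 F w ε r u v H z ≤ Bx u z.re + η * F.Φ z.re := by
  have t0 := h.dh.tpos
  have t1 := h.dh.tle
  have w0 := h.dh.wpos
  have a1 := mul_nonneg (by linarith only [t0, t1, w0] : 0 ≤ 1 + w) (sub_nonneg.2 (h.dh.le_uv (z + w * Complex.I)))
  have a2 := mul_nonneg h.d3_eps.le (d3_Xi0 F z)
  have a3 := (abs_le.1 (h.dh.close_v z)).2
  have a4 : v z - H z ≤ Bx u z.re := by
    have b1 := h.dh.plat.le z
    by_cases c1 : F.ht z ≤ t ^ 6
    · linarith only [b1, h, h1, c1, (h.hh.ridge z h1 c1).1]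
    by_cases c2 : 1 / 15 ≤ F.ht z
    · rw [h.hh.top z c2]
      linarith only [b1]
    rw [not_le] at c1 c2
    have p6 := pow_pos t0 6
    have p12 := pow_pos t0 12
    have q17 := d3_pow t0 t1 12 17 (by omega)
    have q18 := d3_pow t0 t1 12 18 (by omega)
    have b2 := h.dh.plat.up z (by linarith only [c1, p6])
    have b3 := (abs_le.1 (h.hh.bd z h1)).1
    have b4 := h.dh.clean.Bge z.re
    have b5 := d3_cos (x := F.ht z) (abs_le.2 ⟨by linarith only [t0, t1, c1, p6], by linarith only [t0, t1, c2]⟩)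
    have b6 : (t ^ 6) ^ 2 ≤ F.ht z ^ 2 := pow_le_pow_left₀ p6.le c1.le 2
    have b7 : cos (F.ht z) + 20 * t ^ 18 + t ^ 17 ≤ 1 - t ^ 18 := by
      have : (t ^ 6) ^ 2 = t ^ 12 := by ring
      rw [this] at b6
      linarith only [p12, q17, q18, b5, b6]
    have b8 := mul_le_mul_of_nonneg_right b7 (F.Φ_pos z.re).le
    rw [Frame.M] at b2
    linarith only [b2, b3, b4, b8]
  unfold g2
  linarith only [a1, a2, a3, a4]

theorem GH.bd (h : GH F μ K t w r η d ε u v S H) :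
    ∃ K' : ℝ, ∀ z, -t ^ 2 < F.ht z → |g2 F w ε r u v H z| ≤ K' * F.Φ z.re := by
  have t0 := h.dh.tpos
  have t1 := h.dh.tle
  have w0 := h.dh.wpos
  have w1 := h.d3_w
  have e1 := h.d3_eta
  have q2 := d3_one t0 t1 2 (by omega)
  have q6 := d3_one t0 t1 6 (by omega)
  have q17 := d3_one t0 t1 17 (by omega)
  have q18 := d3_one t0 t1 18 (by omega)
  have key : ∀ z, -((|K| + 3) * F.Φ z.re) ≤ tav r u z ∧ tav r v z ≤ (|K| + 3) * F.Φ z.re := by
    intro z
    have b0 := (F.Φ_pos z.re).le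
    have b1 := h.dh.clean.low z
    have b2 := h.dh.plat.le z
    have b3 := h.dh.clean.toSubD.Ble z.re
    have b4 := (abs_le.1 (h.dh.close_u z)).1
    have b5 := (abs_le.1 (h.dh.close_v z)).2
    have b6 := mul_le_mul_of_nonneg_right (le_abs_self K) b0
    have b7 := mul_le_mul_of_nonneg_right (e1.trans q18) b0
    have b8 := mul_le_mul_of_nonneg_right q18 b0
    have b9 := mul_nonneg (abs_nonneg K) b0
    constructor <;> linarith only [b0, b1, b4, b6, b7, b2, b3, b5, b8, b9]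
  refine ⟨5 * (|K| + 3) + 2, fun z hz => ?_⟩
  have b0 := (F.Φ_pos z.re).le
  have k1 := key z
  have k2 := key (z + w * Complex.I)
  rw [d3_re] at k2
  have k3 := h.dh.le_uv z
  have k4 := sub_nonneg.2 (h.dh.le_uv (z + w * Complex.I))
  have k5 := mul_nonneg (by linarith only [t0, t1, w0] : 0 ≤ 1 + w) k4
  have k6 := mul_le_mul_of_nonneg_right (by linarith only [t0, t1, w1] : 1 + w ≤ 2) k4
  have k7 := abs_le.1 (h.hh.bd z hz)
  have k8 := mul_le_mul_of_nonneg_right q17 b0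
  have k9 := mul_nonneg h.d3_eps.le (d3_Xi0 F z)
  have k10 := d3_Xi_le F (z := z) (c := 1) (by norm_num) (by linarith only [t0, t1, q2, hz])
  have k11 : ε ≤ 1 := by
    have := h.ele
    have := mul_le_mul w1 q6 (pow_pos t0 6).le (by norm_num)
    linarith
  have k12 := mul_le_mul k11 k10 (d3_Xi0 F z) (by norm_num)
  have k13 := mul_nonneg (abs_nonneg K) b0
  unfold g2
  rw [abs_le]
  constructor <;> linarith only [b0, k1, k2, k3, k6, k7, k8, k12, k5, k9, k1.1, k1.2, k2.1, k2.2, k7.1, k7.2]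

theorem GH.locSub (h : GH F μ K t w r η d ε u v S H) (h1 : -t ^ 2 < F.ht z) (h2 : F.ht z < 1 / 12)
    (h3 : tav r u (z + w * Complex.I) < g2 F w ε r u v H z ∨ t ^ 6 / 2 ≤ F.ht z) :
    LocSub (fun ζ => g2 F w ε r u v H ζ + 10 * ε * F.Φ ζ.re) z := by
  have t0 := h.dh.tpos
  have t1 := h.dh.tle
  have d0 : 0 < d := h.dh.rpos.trans_le h.dh.rd
  have p6 := pow_pos t0 6
  have q2 := d3_one t0 t1 2 (by omega)
  have p16 := d3_pow t0 t1 1 6 (by omega)
  rw [pow_one] at p16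
  refine ⟨min (min d (t ^ 6 / 8)) ((F.ht z + t ^ 2) / 2),
    lt_min (lt_min d0 (by linarith only [p6])) (by linarith only [h1]), fun s s0 hs => ?_⟩
  have s1 : s < d := hs.trans_le ((min_le_left _ _).trans (min_le_left _ _))
  have s2 : s < t ^ 6 / 8 := hs.trans_le ((min_le_left _ _).trans (min_le_right _ _))
  have s3 : s < (F.ht z + t ^ 2) / 2 := hs.trans_le (min_le_right _ _)
  have hb : Metric.closedBall z s ⊆ {ζ | -t ^ 2 < F.ht ζ} := by
    intro ζ hζ
    rw [Metric.mem_closedBall, dist_eq_norm] at hζ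
    have b1 := (abs_le.1 (h.dh.good.ht_sub (h.d3_mu.trans (by norm_num)) z ζ)).1
    show -t ^ 2 < F.ht ζ
    linarith only [s3, hζ, b1]
  have hb' : Metric.closedBall z s ⊆ {ζ | -(1 / 2) < F.ht ζ} := by
    intro ζ hζ
    have b1 : -t ^ 2 < F.ht ζ := hb hζ
    show -(1 / 2) < F.ht ζ
    linarith only [t1, q2, p16, s0, s2, b1]
  have cv := h.dh.plat.cont
  have cu := h.dh.clean.cont
  have c1 := continuous_tav cv h.dh.rpos
  have c2 := continuous_tav cu h.dh.rpos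
  have c3 := F.continuous_Xi
  have c4 := F.continuous_Φ
  have e0 : (fun ζ => g2 F w ε r u v H ζ + 10 * ε * F.Φ ζ.re) = fun ζ =>
      (tav r v ζ - (1 + w) * (tav r v (ζ + w * Complex.I) - tav r u (ζ + w * Complex.I)) +
        ε * (10 * F.Φ ζ.re - F.Xi ζ)) - H ζ := by
    funext ζ
    unfold g2
    ring
  have e1 := d3_ca (z := z) (s := s) (f1 := tav r v) (f2 := fun ζ => tav r v (ζ + w * Complex.I))
    (f3 := fun ζ => tav r u (ζ + w * Complex.I)) (f4 := H)
    (f5 := fun ζ => 10 * F.Φ ζ.re - F.Xi ζ) (1 + w) ε c1 (by fun_prop) (by fun_prop)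
    (ci_of_cont h.hh.cont s0.le hb) (by fun_prop)
  rw [ca_shift, ca_shift, ca_tav cv h.dh.rpos s0, ca_tav cv h.dh.rpos s0,
    ca_tav cu h.dh.rpos s0] at e1
  have a1 := h.hh.jen z s s0 (by linarith only [t1, p16, s0, s2]) hb
  have a2 := (h.dh.good.sub_Xi h.d3_mu).2 z s s0 hb'
  have a3 := mul_le_mul_of_nonneg_left a2 h.d3_eps.le
  have a4 : pot (den r v) s (z + w * Complex.I) = pot S s (z + w * Complex.I) :=
    pot_congr s0 fun ζ hζ => h.d3_den h1 h2 h3 (by linarith only [s1, hζ]) (by linarith only [s2, hζ])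
  have a5 : 0 ≤ pot (den r u) s (z + w * Complex.I) := pot_nonneg s0 fun ζ _ => h.dh.den_u ζ
  have a6 := mul_nonneg (by linarith only [t1, p16, s0, s2, h, h.dh.wpos] : 0 ≤ 1 + w) a5
  have a7 : 0 ≤ pot (fun ζ => den r v ζ - S ζ) s z :=
    pot_nonneg s0 fun ζ _ => sub_nonneg.2 (h.Sle ζ)
  rw [i5_sub (continuous_den cv r) h.cS] at a7
  rw [e0, e1, a4]
  beta_reduce at a3 ⊢
  linarith only [a1, a3, a6, a7]

end

end Pool.Agent.MinMod.Mo
end

-- merged part: Pool.Agent.Work.MP_f62247_an.Mo.D4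
section
/-!
# Insertion of a strip
Choose `e > 0` with `e ≤ w t^6`, `30 e ≤ ε'`, then `η ≤ min (e / 10^6) (w t^18)`, `d` from `plateau`, `r = min d (t^18)`, `v`, `S` (`exists_S`), `H` (`exists_H`). With `a_w z = tav r u (z + w I)`:
`G0 z = if ht z ≤ -3t²/4 then a_w z else if ht z ≤ 3 t^6/4 then max (a_w z) (g2 z) else g2 z`, `G = G0 + 10 e Φ`. On the open sets `{ht < -t²/2}`, `{-t² < ht < t^6}`, `{t^6/2 < ht}` it equals `a_w`, `max a_w g2`, `g2` (`low_seam`, `up_seam`), and `tav r u` on `{1/15 ≤ ht}`.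
So `G` is continuous and `LocSub` everywhere (`LocSub.of_le`, `LocSub.congr`, `GH.locSub`, `sub_u`, `sub_Φ`). `periodise` with `h0 = -π`, `L = 2π + w`, `d = 1`. `Bt = Bx u`.
Upper bound: translate the point to height in `[-π, π + w)` (`per_int`), `G0 ≤ Bx u + η Φ` (`close_u`, `le_Bx`, `GH.le`), `md_Bx`. Cover point `q` of `u`: if `ht q ≥ -π + w` take `p = q - w I` (near `p`: `a_w ≤ u q + 3 η Φ ≤ 0`, `dip`), otherwise `p = q + 2π I`.
-/

open Real MeasureTheory Set Filter Topology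

namespace Pool.Agent.MinMod.Mo

noncomputable section

/-- the glued function -/
def d4_G0 (F : Frame) (t w e r : ℝ) (u v H : ℂ → ℝ) (z : ℂ) : ℝ :=
  if F.ht z ≤ -3 * t ^ 2 / 4 then tav r u (z + w * Complex.I)
  else if F.ht z ≤ 3 * t ^ 6 / 4 then max (tav r u (z + w * Complex.I)) (g2 F w e r u v H z)
  else g2 F w e r u v H z

theorem d4_t {t : ℝ} (h0 : 0 < t) (h1 : t ≤ 1 / 1000) : 0 < t ^ 2 ∧ t ^ 2 ≤ 1 / 1000 ∧ 0 < t ^ 6 ∧
    t ^ 6 ≤ 1 / 1000 ∧ t ^ 8 ≤ t ^ 6 / 4 ∧ t ^ 18 ≤ 1 / 1000 := by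
  have h (n : ℕ) (hn : n ≠ 0) : t ^ n ≤ 1 / 1000 := (pow_le_of_le_one h0.le (by linarith only [h0, h1]) hn).trans h1
  have h6 : 0 < t ^ 6 := by positivity
  refine ⟨by positivity, h 2 (by norm_num), h6, h 6 (by norm_num), ?_, h 18 (by norm_num)⟩
  have : t ^ 8 = t ^ 6 * t ^ 2 := by ring
  nlinarith only [h0, h6, h1, h, h 2 (by norm_num)]

theorem d4_re (z : ℂ) (s : ℝ) : (z + s * Complex.I).re = z.re := by simp

section
variable {F : Frame} {μ K t w r η d e : ℝ} {u v S H : ℂ → ℝ} {z : ℂ}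

theorem d4_A (h : GH F μ K t w r η d e u v S H) (h1 : F.ht z ≤ -t ^ 2 / 2) :
    d4_G0 F t w e r u v H z = tav r u (z + w * Complex.I) := by
  obtain ⟨t1, -, t3, -⟩ := d4_t h.dh.tpos h.dh.tle
  unfold d4_G0
  split_ifs with a b
  · rfl
  · exact max_eq_left (h.low_seam (by linarith only [t1, a]) h1)
  · linarith only [h1, t1, t3, b]

theorem d4_B (h : GH F μ K t w r η d e u v S H) (h1 : -t ^ 2 < F.ht z) (h2 : F.ht z ≤ t ^ 6) :
    d4_G0 F t w e r u v H z = max (tav r u (z + w * Complex.I)) (g2 F w e r u v H z) := by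
  obtain ⟨t1, -, t3, -⟩ := d4_t h.dh.tpos h.dh.tle
  unfold d4_G0
  split_ifs with a b
  · exact (max_eq_left (h.low_seam h1 (by linarith only [h1, a]))).symm
  · rfl
  · exact (max_eq_right (h.up_seam (by linarith only [t3, b]) h2)).symm

theorem d4_C (h : GH F μ K t w r η d e u v S H) (h1 : t ^ 6 / 2 ≤ F.ht z) :
    d4_G0 F t w e r u v H z = g2 F w e r u v H z := by
  obtain ⟨t1, -, t3, -⟩ := d4_t h.dh.tpos h.dh.tle
  unfold d4_G0
  split_ifs with a b
  · linarith only [h1, t1, t3, a]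
  · exact max_eq_right (h.up_seam h1 (by linarith only [t3, b]))
  · rfl

theorem d4_D (h : GH F μ K t w r η d e u v S H) (h1 : 1 / 15 ≤ F.ht z) :
    d4_G0 F t w e r u v H z = tav r u z := by
  obtain ⟨-, -, -, t4, -⟩ := d4_t h.dh.tpos h.dh.tle
  rw [d4_C h (by linarith only [h1, t4]), h.top h1]

theorem d4_or (h : GH F μ K t w r η d e u v S H) (z : ℂ) :
    d4_G0 F t w e r u v H z = tav r u (z + w * Complex.I) ∨
      (-t ^ 2 < F.ht z ∧ d4_G0 F t w e r u v H z = g2 F w e r u v H z) := by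
  obtain ⟨t1, -, t3, -⟩ := d4_t h.dh.tpos h.dh.tle
  unfold d4_G0
  split_ifs with a b
  · exact Or.inl rfl
  · exact (max_choice _ _).imp id fun h' => ⟨by linarith only [t1, a], h'⟩
  · exact Or.inr ⟨by linarith only [t1, t3, b], rfl⟩

theorem d4_lt (F : Frame) {a : ℝ} (h : F.ht z < a) : ∀ᶠ ζ in 𝓝 z, F.ht ζ < a :=
  F.continuous_ht.continuousAt.eventually_lt continuousAt_const h

theorem d4_gt (F : Frame) {a : ℝ} (h : a < F.ht z) : ∀ᶠ ζ in 𝓝 z, a < F.ht ζ :=
  continuousAt_const.eventually_lt F.continuous_ht.continuousAt h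

theorem d4_ca (h : GH F μ K t w r η d e u v S H) :
    Continuous fun z : ℂ => tav r u (z + w * Complex.I) :=
  (continuous_tav h.dh.clean.cont h.dh.rpos).comp (continuous_id.add continuous_const)

theorem d4_cg (h : GH F μ K t w r η d e u v S H) (h1 : -t ^ 2 < F.ht z) :
    ContinuousAt (g2 F w e r u v H) z := h.cont.continuousAt (d4_gt F h1)

theorem d4_cont (h : GH F μ K t w r η d e u v S H) : Continuous (d4_G0 F t w e r u v H) := by
  obtain ⟨t1, -, t3, -⟩ := d4_t h.dh.tpos h.dh.tle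
  refine continuous_iff_continuousAt.2 fun z => ?_
  by_cases a : F.ht z < -t ^ 2 / 2
  · exact (d4_ca h).continuousAt.congr ((d4_lt F a).mono fun ζ h1 => (d4_A h h1.le).symm)
  have a' : -t ^ 2 < F.ht z := by linarith only [t1, a]
  by_cases b : F.ht z < t ^ 6
  · exact ContinuousAt.congr ((d4_ca h).continuousAt.max (d4_cg h a'))
      (((d4_gt F a').and (d4_lt F b)).mono fun ζ h1 => (d4_B h h1.1 h1.2.le).symm)
  · exact (d4_cg h a').congr
      ((d4_gt F (a := t ^ 6 / 2) (by linarith only [t3, b])).mono fun ζ h1 => (d4_C h h1.le).symm)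

theorem d4_small (h : GH F μ K t w r η d e u v S H) :
    μ ≤ 1 / 100 ∧ 0 < e ∧ η ≤ 1 / 1000 ∧ w ≤ 1 / 1000 := by
  obtain ⟨-, -, t3, t4, t5, t6⟩ := d4_t h.dh.tpos h.dh.tle
  have h1 := h.dh.wle
  have h2 := h.dh.wpos
  have h3 : 0 < t ^ 18 := pow_pos h.dh.tpos _
  refine ⟨by linarith only [t4, t5, t6, h1, h2, h, h.dh.mu], by linarith only [h, h.eta, h.dh.epos], ?_, by linarith only [t4, t5, h1, h2]⟩
  (refine le_of_not_gt fun h_nl => ?_; linarith only [h_nl, t4, t5, h1, h, t3, h2, t6, h.dh.ele, mul_nonneg_of_nonpos_of_nonpos (le_of_lt (Mathlib.Tactic.Linarith.sub_neg_of_lt t3)) (Mathlib.Tactic.Linarith.sub_nonpos_of_le t4), mul_nonneg_of_nonpos_of_nonpos (le_of_lt (Mathlib.Tactic.Linarith.sub_neg_of_lt t3)) (Mathlib.Tactic.Linarith.sub_nonpos_of_le t5), mul_nonneg_of_nonpos_of_nonpos (le_of_lt (Mathlib.Tactic.Linarith.sub_neg_of_lt t3)) (Mathlib.Tactic.Linarith.sub_nonpos_of_le h1), mul_pos_of_neg_of_neg (Mathlib.Tactic.Linarith.sub_neg_of_lt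 t3) (Mathlib.Tactic.Linarith.sub_neg_of_lt h2), mul_pos_of_neg_of_neg (Mathlib.Tactic.Linarith.sub_neg_of_lt t3) (Mathlib.Tactic.Linarith.sub_neg_of_lt h_nl), mul_nonneg_of_nonpos_of_nonpos (Mathlib.Tactic.Linarith.sub_nonpos_of_le t4) (le_of_lt (Mathlib.Tactic.Linarith.sub_neg_of_lt h_nl)), mul_nonneg_of_nonpos_of_nonpos (Mathlib.Tactic.Linarith.sub_nonpos_of_le t6) (le_of_lt (Mathlib.Tactic.Linarith.sub_neg_of_lt h2))])

theorem d4_loc (h : GH F μ K t w r η d e u v S H) (z : ℂ) :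
    LocSub (fun ζ => d4_G0 F t w e r u v H ζ + 10 * e * F.Φ ζ.re) z := by
  obtain ⟨t1, -, t3, t4, -⟩ := d4_t h.dh.tpos h.dh.tle
  obtain ⟨s1, s2, -⟩ := d4_small h
  have hΦ := (h.dh.good.sub_Φ s1).smul (c := 10 * e) (by linarith only [s2])
  have cΦ : Continuous fun ζ : ℂ => 10 * e * F.Φ ζ.re :=
    continuous_const.mul (F.continuous_Φ.comp Complex.continuous_re)
  have cG : ∀ᶠ ζ in 𝓝 z, ContinuousAt (fun ζ => d4_G0 F t w e r u v H ζ + 10 * e * F.Φ ζ.re) ζ :=
    Eventually.of_forall fun ζ => ((d4_cont h).add cΦ).continuousAt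
  have hw : LocSub (fun ζ => tav r u (ζ + w * Complex.I) + 10 * e * F.Φ ζ.re) z :=
    (((h.dh.sub_u.shift (w * Complex.I)).mono fun _ _ => mem_univ _).add hΦ).locSub univ_mem
  by_cases a : F.ht z < -t ^ 2 / 2
  · exact hw.congr ((d4_lt F a).mono fun ζ h1 => by simp only [d4_A h h1.le])
  have a' : -t ^ 2 < F.ht z := by linarith only [t1, a]
  by_cases b : F.ht z < t ^ 6
  · have hB := ((d4_gt F a').and (d4_lt F b)).mono fun ζ h1 => d4_B h h1.1 h1.2.le
    rcases le_or_gt (g2 F w e r u v H z) (tav r u (z + w * Complex.I)) with c | c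
    · refine hw.of_le (by rw [hB.self_of_nhds, max_eq_left c]) (hB.mono fun ζ h1 => ?_)
        (Eventually.of_forall fun ζ => ((d4_ca h).add cΦ).continuousAt) cG
      rw [h1]
      exact add_le_add_left (le_max_left _ _) _
    · refine (h.locSub a' (by linarith only [t3, t4, b]) (Or.inl c)).of_le
        (by rw [hB.self_of_nhds, max_eq_right c.le]) (hB.mono fun ζ h1 => ?_)
        ((d4_gt F a').mono fun ζ h1 => (d4_cg h h1).add cΦ.continuousAt) cG
      rw [h1]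
      exact add_le_add_left (le_max_right _ _) _
  by_cases c : F.ht z < 1 / 12
  · exact (h.locSub a' c (Or.inr (by linarith only [t3, b]))).congr
      ((d4_gt F (a := t ^ 6 / 2) (by linarith only [t3, b])).mono fun ζ h1 => by simp only [d4_C h h1.le])
  · exact ((h.dh.sub_u.add hΦ).locSub univ_mem).congr
      ((d4_gt F (a := 1 / 15) (by linarith only [t3, t4, c])).mono fun ζ h1 => by simp only [d4_D h h1.le])

theorem d4_le (h : GH F μ K t w r η d e u v S H) (z : ℂ) :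
    d4_G0 F t w e r u v H z ≤ Bx u z.re + η * F.Φ z.re := by
  rcases d4_or h z with a | ⟨a, b⟩
  · have h1 := (abs_le.1 (h.dh.close_u (z + w * Complex.I))).2
    have h2 := le_Bx h.dh.clean.cont h.dh.clean.per (z + w * Complex.I)
    rw [d4_re] at h1 h2
    linarith only [a, h1, h2]
  · rw [b]
    exact h.le a

theorem d4_bd (h : GH F μ K t w r η d e u v S H) :
    ∃ K' : ℝ, ∀ z, |d4_G0 F t w e r u v H z| ≤ K' * F.Φ z.re := by
  obtain ⟨-, -, -, -, -, t6⟩ := d4_t h.dh.tpos h.dh.tle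
  obtain ⟨-, -, s3, -⟩ := d4_small h
  obtain ⟨K', hK⟩ := h.bd
  refine ⟨|K| + |K'| + 3, fun z => ?_⟩
  have p := F.Φ_pos z.re
  have k1 := mul_le_mul_of_nonneg_right (le_abs_self K) p.le
  have k2 := mul_le_mul_of_nonneg_right (le_abs_self K') p.le
  have k3 := mul_nonneg (abs_nonneg K) p.le
  have k4 := mul_nonneg (abs_nonneg K') p.le
  rcases d4_or h z with a | ⟨a, b⟩
  · have h1 := abs_le.1 (h.dh.close_u (z + w * Complex.I))
    have h2 := le_Bx h.dh.clean.cont h.dh.clean.per (z + w * Complex.I)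
    have h3 := h.dh.clean.low (z + w * Complex.I)
    have h4 := h.dh.clean.toSubD.Ble z.re
    rw [d4_re] at h1 h2 h3
    have k5 := mul_le_mul_of_nonneg_right s3 p.le
    have k6 := mul_le_mul_of_nonneg_right t6 p.le
    rw [a, abs_le]
    constructor <;> linarith only [p, k1, k4, h1, h3, k5, k3, h2, h4, k6, h1.1, h1.2]
  · rw [b]
    linarith only [p, k2, k3, hK, a, hK z a]

theorem d4_Φ (h : GH F μ K t w r η d e u v S H) {x x' : ℝ} (hx : |x' - x| ≤ d) :
    F.Φ x' ≤ 2 * F.Φ x := by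
  have h1 : |x' - x| ≤ 1 / 4 := by linarith only [hx, h, h.dh.dle]
  have h2 := (abs_le.1 (h.dh.good.Φ_close (by linarith only [h, (d4_small h).1]) h1)).2
  linarith only [h2, h1, F.Φ_pos x, mul_nonneg_of_nonpos_of_nonpos (Mathlib.Tactic.Linarith.sub_nonpos_of_le h1) (le_of_lt (Mathlib.Tactic.Linarith.sub_neg_of_lt (Frame.Φ_pos F x)))]

theorem d4_near (h : GH F μ K t w r η d e u v S H) {q ξ : ℂ} (hq : ‖ξ - q‖ ≤ d) :
    tav r u ξ ≤ u q + 3 * η * F.Φ q.re := by
  have h1 := (abs_le.1 (h.dh.close_u ξ)).2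
  have h2 := (abs_le.1 (h.dh.mdu q (mem_univ _) ξ hq)).2
  have h3 := mul_le_mul_of_nonneg_left (d4_Φ h ((Frame.f1_re q ξ).trans hq)) h.dh.epos.le
  linarith

theorem d4_red (F : Frame) {L : ℝ} (hL : 0 < L) (a : ℝ) (z : ℂ) :
    ∃ n : ℤ, a ≤ F.ht (z + (n * L : ℝ) * Complex.I) ∧ F.ht (z + (n * L : ℝ) * Complex.I) < a + L := by
  refine ⟨-⌊(F.ht z - a) / L⌋, ?_⟩
  have h1 := (le_div_iff₀ hL).1 (Int.floor_le ((F.ht z - a) / L))
  have h2 := (div_lt_iff₀ hL).1 (Int.lt_floor_add_one ((F.ht z - a) / L))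
  rw [F.ht_add_I]
  push_cast
  constructor <;> linarith only [h1, h2]

theorem d4_wide (h : GH F μ K t w r η d e u v S H) (hd : 0 < d) {k ε ε' x0 : ℝ} (hk : 1 ≤ k)
    (h0 : 0 ≤ ε) (h1 : ε ≤ 1 / 100) (he : 30 * e ≤ ε') (hc : CovS F k ε (t ^ 8) x0 u) :
    ∃ G : ℂ → ℝ, Wide F k (ε + ε') (2 * π + w) x0 G := by
  obtain ⟨t1, t2, t3, t4, t5, t6⟩ := d4_t h.dh.tpos h.dh.tle
  obtain ⟨s1, s2, s3, s4⟩ := d4_small h
  have pi3 := Real.pi_gt_three
  have w0 := h.dh.wpos
  have η0 := h.dh.epos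
  have hη : 3 * η ≤ e := by linarith only [s2, h, h.eta]
  have cΦ : Continuous fun ζ : ℂ => 10 * e * F.Φ ζ.re :=
    continuous_const.mul (F.continuous_Φ.comp Complex.continuous_re)
  obtain ⟨P, P1, P2, P3, P4⟩ := periodise F
    (G := fun ζ => d4_G0 F t w e r u v H ζ + 10 * e * F.Φ ζ.re) (L := 2 * π + w) (h0 := -π) (d := 1)
    one_pos (by linarith only [t1, t2, pi3, w0]) ((d4_cont h).add cΦ).continuousOn (fun z _ _ => d4_loc h z) (fun z hz => by
      obtain ⟨a, b⟩ := abs_lt.1 hz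
      have e1 : z + ((2 * π + w : ℝ) : ℂ) * Complex.I = z + w * Complex.I + 2 * π * Complex.I := by
        push_cast
        ring
      simp only [d4_re]
      rw [d4_D h (by rw [F.ht_add_I]; linarith only [t1, t2, pi3, w0, a]), d4_A h (by linarith only [t1, t2, pi3, b]), e1, h.dh.per_u])
  have hred : ∀ ζ : ℂ, ∃ ζ' : ℂ, ζ'.re = ζ.re ∧
      P ζ = d4_G0 F t w e r u v H ζ' + 10 * e * F.Φ ζ.re := by
    intro ζ
    obtain ⟨n, a, b⟩ := d4_red F (L := 2 * π + w) (by linarith only [t1, t2, pi3, w0]) (-π) ζ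
    refine ⟨_, d4_re ζ (n * (2 * π + w)), ?_⟩
    rw [← per_int P3 n ζ, P4 _ (by linarith only [t1, t2, a]) (by linarith only [t1, t2, b]), d4_re]
  refine ⟨P, P1, P2, P3, ?_, Bx u, min d (t ^ 6 / 8), lt_min hd (by linarith only [t3]), fun x hx => ?_⟩
  · obtain ⟨K', hK⟩ := d4_bd h
    refine ⟨K' + 10 * e, fun z => ?_⟩
    obtain ⟨ζ, a, b⟩ := hred z
    have h2 := hK ζ
    have h3 : 0 ≤ 10 * e * F.Φ z.re := by have := F.Φ_pos z.re; positivity
    rw [a] at h2
    rw [b]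
    refine (abs_add_le _ _).trans ?_
    rw [abs_of_nonneg h3]
    linarith only [h2]
  have p := F.Φ_pos x
  have B1 := h.dh.clean.Bge x
  have B2 := h.dh.clean.toSubD.Ble x
  have k1 := mul_le_mul_of_nonneg_right t6 p.le
  have k2 := mul_le_mul_of_nonneg_right hη p.le
  have k3 := mul_le_mul_of_nonneg_right he p.le
  have k4 := mul_nonneg h0 p.le
  have k5 := mul_nonneg s2.le p.le
  have k6 := mul_le_mul_of_nonneg_right s3 p.le
  have k7 := mul_le_mul_of_nonneg_right h1 p.le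
  have hΦ : ∀ ζ : ℂ, |ζ.re - x| ≤ d → 10 * e * F.Φ ζ.re ≤ 20 * (e * F.Φ x) := fun ζ hζ => by
    have := mul_le_mul_of_nonneg_left (d4_Φ h hζ) s2.le
    linarith only [this]
  refine ⟨by linarith only [p, B1, k1], by linarith only [p, B2, k1], fun ζ hζ => ?_, ?_⟩
  · have hζ' := hζ.trans (min_le_left _ _)
    obtain ⟨ζ', a, b⟩ := hred ζ
    have h2 := d4_le h ζ'
    have h3 := (abs_le.1 (md_Bx h.dh.clean.cont h.dh.clean.per h.dh.mdu (x : ℂ) (mem_univ _)
      (ζ.re : ℂ) (by rw [← Complex.ofReal_sub, Complex.norm_real]; exact hζ'))).2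
    have h4 := mul_le_mul_of_nonneg_left (d4_Φ h hζ') η0.le
    simp only [Complex.ofReal_re] at h3
    rw [a] at h2
    rw [b]
    linarith only [k2, k3, k4, k5, h2, h3, h4, hΦ, hζ', hΦ ζ hζ']
  obtain ⟨y, y1, y2, y3⟩ := hc x hx
  have k8 : Bx u x ≤ k * Bx u x := le_mul_of_one_le_left (by linarith only [p, B1, k1]) hk
  have hht : ∀ p ζ : ℂ, ‖ζ - p‖ ≤ min d (t ^ 6 / 8) → |F.ht ζ - F.ht p| ≤ t ^ 6 / 4 := fun p ζ hζ => by
    linarith only [h, t1, t2, s1, hζ, h.dh.good.ht_sub (by linarith) p ζ, hζ.trans (min_le_right _ _)]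
  rcases le_or_gt (-π + w) (y - F.φ x) with c | c
  · refine ⟨x + (y - w : ℝ) * Complex.I, by simp, fun ζ hζ => ?_⟩
    obtain ⟨a, b⟩ := abs_le.1 (hht _ ζ hζ)
    rw [F.ht_mk] at a b
    have hζ' := hζ.trans (min_le_left _ _)
    have h2 := d4_near h (q := x + y * Complex.I) (ξ := ζ + w * Complex.I) (by
      refine le_of_eq_of_le ?_ hζ'
      congr 1
      push_cast
      ring)
    have h3 := hΦ ζ (by simpa using (Frame.f1_re _ ζ).trans hζ')
    rw [d4_re, Complex.ofReal_re] at h2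
    have h4 : d4_G0 F t w e r u v H ζ = tav r u (ζ + w * Complex.I) := by
      rcases le_or_gt (F.ht ζ) (-t ^ 2 / 2) with c' | c'
      · exact d4_A h c'
      · rw [d4_B h (by linarith only [t1, c']) (by linarith only [t3, t5, w0, y2, b]),
          max_eq_left (h.dip (by linarith only [t1, c']) (by linarith only [t5, w0, y2, b]) (by linarith only [p, B1, k1, k6, k7, y3, k8, h2]))]
    rw [P4 ζ (by linarith only [t1, t2, t4, c, a]) (by linarith only [t1, t2, t4, t5, pi3, w0, y2, b]), h4]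
    linarith only [k2, k3, k5, y3, h2, h3]
  · refine ⟨x + (y + 2 * π : ℝ) * Complex.I, by simp, fun ζ hζ => ?_⟩
    obtain ⟨a, b⟩ := abs_le.1 (hht _ ζ hζ)
    rw [F.ht_mk] at a b
    have hζ' := hζ.trans (min_le_left _ _)
    have h2 := d4_near h hζ'
    have h3 := hΦ ζ (by simpa using (Frame.f1_re _ ζ).trans hζ')
    have e1 : (x : ℂ) + (y + 2 * π : ℝ) * Complex.I = x + y * Complex.I + 2 * π * Complex.I := by
      push_cast
      ring
    rw [d4_re, Complex.ofReal_re, e1, h.dh.clean.per] at h2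
    rw [P4 ζ (by linarith only [t1, t2, t4, pi3, y1, a]) (by linarith only [t1, t2, t4, c, b]), d4_D h (by linarith only [t1, t2, t4, y1, a])]
    linarith only [k2, k3, k5, y3, h2, h3]

end
theorem insert_strip : ∃ t0 : ℝ, 0 < t0 ∧ ∀ (F : Frame) (μ K t w k ε ε' x0 : ℝ) (u : ℂ → ℝ), 0 < t →
    t ≤ t0 → μ ≤ t ^ 18 → F.Good μ → Clean F (t ^ 18) K (t ^ 8) u → 1 ≤ k → k ≤ 2 → 0 < w → w ≤ t ^ 8 →
    ε ≤ 1 / 100 → 0 < ε' → CovS F k ε (t ^ 8) x0 u → 0 ≤ ε →
    ∃ G : ℂ → ℝ, Wide F k (ε + ε') (2 * π + w) x0 G := by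
  obtain ⟨t0, ht0, hH⟩ := exists_H
  refine ⟨min t0 (1 / 1000), lt_min ht0 (by norm_num),
    fun F μ K t w k ε ε' x0 u ht ht' hμ hF hu hk _ hw hw' h1 hε' hc h0 => ?_⟩
  have t1 := ht'.trans (min_le_right _ _)
  have e0 : 0 < min (w * t ^ 6) (ε' / 30) := lt_min (by positivity) (by positivity)
  have η0 : 0 < min (min (w * t ^ 6) (ε' / 30) / 10 ^ 6) (w * t ^ 18) :=
    lt_min (by positivity) (by positivity)
  obtain ⟨d, d0, d1, d2, d3⟩ := plateau ht (by linarith only [ht, t1]) hμ hF hu η0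
  have r0 : 0 < min d (t ^ 18) := lt_min d0 (by positivity)
  obtain ⟨v, hv⟩ := d3 _ r0 (min_le_right _ _)
  have hD : DH F μ K t w _ _ d u v :=
    ⟨ht, t1, hw, hw', hμ, hF, hu, d2, hv, r0, min_le_right _ _, min_le_left _ _, d1, η0,
      min_le_right _ _⟩
  obtain ⟨S, K', S1, S2, S3, S4, S5, S6, S7⟩ := hD.exists_S
  obtain ⟨H, hH⟩ := hH F μ K' t w S ht (ht'.trans (min_le_left _ _)) hw hw' hμ hF S1 S2 S3 S4 S7
  have hG : GH F μ K t w _ _ d (min (w * t ^ 6) (ε' / 30)) u v S H :=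
    ⟨hD, S1, S2, S4, S5, S6, hH, min_le_left _ _, by
      linarith only [min_le_left (min (w * t ^ 6) (ε' / 30) / 10 ^ 6) (w * t ^ 18)]⟩
  exact d4_wide hG d0 hk h0 h1 (by linarith only [min_le_right (w * t ^ 6) (ε' / 30)]) hc

end

end Pool.Agent.MinMod.Mo
end
end

-- merged part: Pool.Agent.Work.MP_f62247_an.St.RB
section
-- merged part: Pool.Agent.Work.MP_f62247_an.St.Defs
section
/-!
Definitions for the strict monotonicity of the minimum modulus constant (see St/PROOF.md).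
-/

open Real MeasureTheory Set Filter Topology

namespace Pool.Agent.MinMod.St

open Pool.Agent.MinMod.Mo

noncomputable section

/-- cover by points near the ridge or the valley -/
def CovT (F : Frame) (k ε a x0 : ℝ) (u : ℂ → ℝ) : Prop :=
  ∀ x, x0 ≤ x → ∃ y : ℝ, 1 / 2 - 2 * π ≤ y - F.φ x ∧ y - F.φ x ≤ a ∧
    (|y - F.φ x| ≤ 1 / 50 ∨ |y - F.φ x + π| ≤ 1 / 50) ∧
    u (x + y * Complex.I) ≤ -k * Bx u x + ε * F.Φ x

/-- truncated logarithm -/
def lm (p : ℂ) (r : ℝ) (z : ℂ) : ℝ := Real.log (max ‖z - p‖ r)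

/-- a vertical column -/
def col (x y1 y2 ρ : ℝ) : Set ℂ :=
  {z | |z.re - x| ≤ 2 * ρ ∧ min y1 y2 - 2 * ρ ≤ z.im ∧ z.im ≤ max y1 y2 + 2 * ρ}

/-- the smoothed plateau -/
def Bt (r : ℝ) (u : ℂ → ℝ) (x : ℝ) : ℝ := tav r (fun z => Bx u z.re) x

/-- distance of the obstacle solution to the plateau -/
def psi (r : ℝ) (u v : ℂ → ℝ) (z : ℂ) : ℝ := Bt r u z.re - tav r v z

/-- weight of the repair kernel -/
def eK (t X : ℝ) (p : ℂ) : ℝ := exp (-(11 / 10) * (kp t * |X - p.re|))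

/-- local size of the mass `S` -/
def SS (t : ℝ) (S : ℂ → ℝ) (X : ℝ) : ℝ := ∫ p, S p * eK t X p

/-- two-sided bounds for the repair function -/
structure HT (F : Frame) (t w c C : ℝ) (S H : ℂ → ℝ) : Prop where
  int : ∀ X, Integrable fun p => S p * eK t X p
  lo : ∀ (X : ℝ) (z : ℂ), |z.re - X| ≤ 1 / 1000 → -t ^ 2 < F.ht z → F.ht z ≤ t ^ 6 →
    c * w * t * SS t S X ≤ H z
  hi : ∀ (X : ℝ) (z : ℂ), |z.re - X| ≤ 1 / 1000 → -t ^ 2 < F.ht z → F.ht z ≤ 1 / 100000 →
    H z ≤ C * w * SS t S X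

/-- the widened function of Mo/D4 -/
def GG (F : Frame) (t w e r : ℝ) (u v H : ℂ → ℝ) (z : ℂ) : ℝ :=
  d4_G0 F t w e r u v H z + 10 * e * F.Φ z.re

/-- its upper bound -/
def UU (F : Frame) (η e : ℝ) (u : ℂ → ℝ) (z : ℂ) : ℝ := Bx u z.re + (η + 10 * e) * F.Φ z.re

/-- a local modification with a truncated pole -/
structure Dip (F : Frame) (G0 U : ℂ → ℝ) (K h X θ c : ℝ) (G : ℂ → ℝ) (p : ℂ) (r : ℝ) : Prop where
  cont : Continuous G
  loc : ∀ z, LocSub G z
  out : ∀ z : ℂ, 1 / 10 ≤ |z.re - X| ∨ 1 / 1000 ≤ |F.ht z| → G z = G0 z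
  up : ∀ z, G z ≤ U z + c * F.Φ X
  cov : ∀ z, F.ht z ≤ h → G0 z ≤ 0 → G z ≤ G0 z + c * F.Φ X
  low : ∀ z, -K * F.Φ z.re ≤ G z
  px : |p.re - X| ≤ 1 / 20
  ph : |F.ht p| ≤ 1 / 2000
  r1 : θ ≤ r
  r2 : r ≤ 1 / 1000
  pole : SubOn (fun z => G z - θ * F.Φ X * lm p r z) (Metric.ball p (2 * r))

/-- the function on the band before periodisation -/
structure Base (F : Frame) (k ε L x0 K h d : ℝ) (G0 U : ℂ → ℝ) (B : ℝ → ℝ) : Prop where
  cont : Continuous G0
  loc : ∀ z, LocSub G0 z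
  seam : ∀ z, |F.ht z - -π| < 1 → G0 (z + L * Complex.I) = G0 z
  bd : ∀ z, |G0 z| ≤ K * F.Φ z.re
  dpos : 0 < d
  Blo : ∀ x, F.Φ x / 2 ≤ B x
  Bhi : ∀ x, B x ≤ 3 / 2 * F.Φ x
  le : ∀ z, G0 z ≤ U z
  env : ∀ (x : ℝ) (ζ : ℂ), |ζ.re - x| ≤ d → U ζ ≤ B x + ε * F.Φ x
  slope : ∀ (x : ℝ) (ζ : ℂ), |ζ.re - x| ≤ d → -π ≤ F.ht ζ → F.ht ζ ≤ -π + L →
    cos (4 * π / L * F.ht ζ) ≤ 3 / 4 → G0 ζ ≤ B x - F.Φ x / 50
  cov : ∀ x, x0 ≤ x → ∃ p : ℂ, p.re = x ∧ ∀ ζ : ℂ, ‖ζ - p‖ ≤ d →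
    -π - 1 < F.ht ζ ∧ F.ht ζ < -π + L + 1 ∧ 3 / 4 ≤ cos (4 * π / L * F.ht ζ) ∧
      (F.ht ζ ≤ h ∨ 1 / 1000 ≤ F.ht ζ) ∧ G0 ζ ≤ -k * B x + ε * F.Φ x

/-- width of the slab -/
def sig (θ : ℝ) : ℝ := θ * exp (-30 / θ) / 2

/-- amplitude of the gain -/
def om (θ : ℝ) : ℝ := θ * exp (-11 / sig θ) / 8

/-- angular factor of the gain -/
def ang (F : Frame) (L : ℝ) (z : ℂ) : ℝ := cos (4 * π / L * F.ht z) - 1 / 8

/-- the function that is subtracted -/
def Pk (F : Frame) (L A a : ℝ) (z : ℂ) : ℝ := A * exp (-(4 * π / L) * |z.re - a|) * ang F L z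

/-- the function on the slab -/
def g0 (L A σ : ℝ) (p z : ℂ) : ℝ :=
  A * cos (π * min |z.re - p.re| (σ / 2) / σ) * cosh (π * (|z.im - p.im| - L / 2) / σ)

end

end Pool.Agent.MinMod.St
end

-- merged part: Pool.Agent.Work.MP_f62247_an.St.G1
section
/-!
# Convexity, harmonic examples, gluing
`convex_of_sub`: for `a < b` let `l` be the chord; if `f - l` has a positive maximum on `[a, b]` take the largest maximum point `x1` (compactness), it is interior; on a small circle around `x1` the function `f - l` is `≤` the maximum with strict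
inequality at the rightmost point (`i1_lt` in Mo/I1), and the affine function `l ∘ re` has the mean value property (`mv_lin`). `exists_support`: `ConvexOn.slope_le_leftDeriv`-type lemmas of `Mathlib/Analysis/Convex/Deriv.lean`, or `sSup` of the left slopes with `ConvexOn.slope_mono_adjacent`.
`sub_lm`: for `‖z - p‖ < r` locally constant, for `‖z - p‖ > r` locally `log ‖· - p‖` (`ca_log`), on the circle touch from above by the constant (`LocSub.of_le`); `subOn_of_loc`. Polynomials: `ca_re`.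
-/

open Real MeasureTheory Set Filter Topology

namespace Pool.Agent.MinMod.St

open Pool.Agent.MinMod.Mo

noncomputable section

theorem sub_of_mv {f : ℂ → ℝ} (hc : Continuous f) (hm : MV f univ) :
    SubOn f univ ∧ SubOn (fun z => -f z) univ := by
  refine ⟨⟨hc.continuousOn, fun z s h0 hb => (hm z s h0 hb).ge⟩,
    hc.neg.continuousOn, fun z s h0 hb => ?_⟩
  have e : ca (fun z => -f z) z s = -ca f z s := by
    have := circleAverage_fun_smul (f := f) (a := (-1 : ℝ)) (c := z) (R := s)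
    simpa using this
  rw [e, hm z s h0 hb]

theorem mv_lin (a s x0 : ℝ) : MV (fun z => a + s * (z.re - x0)) univ := by
  intro z t h0 _
  have := ca_re (G := fun w : ℂ => (a : ℂ) + s * (w - x0)) (z := z) h0.le
    fun w _ => by fun_prop
  simpa using this

theorem mv_poly (a k k' x0 y0 : ℝ) :
    MV (fun z => a + k * ((z.re - x0) ^ 2 - (z.im - y0) ^ 2) + k' * (z.im - y0)) univ := by
  intro z t h0 _
  have e : ∀ w : ℂ, a + k * ((w.re - x0) ^ 2 - (w.im - y0) ^ 2) + k' * (w.im - y0) =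
      ((a : ℂ) + k * ((w - (x0 + y0 * Complex.I)) * (w - (x0 + y0 * Complex.I))) -
        k' * (Complex.I * (w - (x0 + y0 * Complex.I)))).re := by
    intro w
    simp
    ring
  simp only [e]
  exact ca_re h0.le fun w _ => by fun_prop

theorem convex_of_sub {f : ℝ → ℝ} (h : SubOn (fun z => f z.re) univ) : ConvexOn ℝ univ f := by
  have hc : Continuous fun z : ℂ => f z.re := continuousOn_univ.1 h.1
  have cf : Continuous f := hc.comp Complex.continuous_ofReal
  refine LinearOrder.convexOn_of_lt convex_univ fun x _ y _ hxy a b ha hb hab => ?_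
  set s := (f y - f x) / (y - x) with hs
  have hsy : s * (y - x) = f y - f x := div_mul_cancel₀ _ (sub_pos.2 hxy).ne'
  set g : ℝ → ℝ := fun t => f t - (f x + s * (t - x)) with hg
  have cg : Continuous g := by fun_prop
  have key : ∀ t ∈ Icc x y, g t ≤ 0 := by
    obtain ⟨t0, h0, h1⟩ := (isCompact_Icc (a := x) (b := y)).exists_isMaxOn
      (nonempty_Icc.2 hxy.le) cg.continuousOn
    obtain ⟨t1, ⟨h2, h3⟩, h4⟩ := ((isCompact_Icc (a := x) (b := y)).of_isClosed_subset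
      (cg.continuousOn.preimage_isClosed_of_isClosed isClosed_Icc
        (isClosed_singleton (x := g t0))) inter_subset_left).exists_isMaxOn ⟨t0, h0, rfl⟩
        continuous_id.continuousOn
    replace h3 : g t1 = g t0 := h3
    rcases h2.1.eq_or_lt with h5 | h5
    · intro t ht
      have : g t1 = 0 := by simp [hg, ← h5]
      exact (h1 ht).trans (h3 ▸ this.le)
    rcases h2.2.eq_or_lt with h6 | h6
    · intro t ht
      have : g t1 = 0 := by
        rw [h6]
        simp only [hg]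
        linarith only [hsy]
      exact (h1 ht).trans (h3 ▸ this.le)
    exfalso
    set ρ := min (t1 - x) (y - t1) with hρ
    have ρ0 : 0 < ρ := lt_min (sub_pos.2 h5) (sub_pos.2 h6)
    have ρ1 : ρ ≤ t1 - x := min_le_left _ _
    have ρ2 : ρ ≤ y - t1 := min_le_right _ _
    have cl : Continuous fun z : ℂ => f x + s * (z.re - x) := by fun_prop
    have e : ca (fun z : ℂ => g z.re) t1 ρ =
        ca (fun z : ℂ => f z.re) t1 ρ - ca (fun z : ℂ => f x + s * (z.re - x)) t1 ρ :=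
      circleAverage_fun_sub (ci_of_cont h.1 ρ0.le (subset_univ _))
        (ci_of_cont cl.continuousOn ρ0.le (subset_univ _))
    have l1 := h.2 t1 ρ ρ0 (subset_univ _)
    have l2 := mv_lin (f x) s x t1 ρ ρ0 (subset_univ _)
    have l3 : ca (fun z : ℂ => g z.re) t1 ρ < g t0 := by
      refine i1_lt ρ0 (cg.comp Complex.continuous_re).continuousOn (fun w hw => h1 ?_) ?_
      · rw [mem_sphere_iff_norm] at hw
        have := (Complex.abs_re_le_norm (w - t1)).trans_eq hw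
        rw [Complex.sub_re, Complex.ofReal_re, abs_le] at this
        exact ⟨by linarith only [ρ1, this, this.1], by linarith only [ρ2, this, this.2]⟩
      · have m : t1 + ρ ∈ Icc x y := ⟨by linarith, by linarith⟩
        rw [Complex.add_re, Complex.ofReal_re, Complex.ofReal_re]
        refine lt_of_le_of_ne (h1 m) fun e => ?_
        have : t1 + ρ ≤ t1 := h4 ⟨m, e⟩
        linarith
    rw [e, l2, ← h3] at l3
    simp only [hg, Complex.ofReal_re] at l1 l3
    linarith only [l1, l3]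
  obtain rfl : a = 1 - b := by linarith only [hab]
  have m : (1 - b) * x + b * y ∈ Icc x y :=
    ⟨by linarith only [hb, hxy, mul_pos hb (sub_pos.2 hxy)], by linarith only [ha, hxy, mul_pos ha (sub_pos.2 hxy)]⟩
  have k := key _ m
  simp only [hg, smul_eq_mul] at k ⊢
  have : s * ((1 - b) * x + b * y - x) = b * (f y - f x) := by rw [← hsy]; ring
  linarith only [k, this]

theorem exists_support {f : ℝ → ℝ} (hf : ConvexOn ℝ univ f) (x0 : ℝ) :
    ∃ s : ℝ, ∀ x, f x0 + s * (x - x0) ≤ f x := by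
  obtain ⟨s, h1, h2⟩ := exists_between_of_forall_le
    (s := (fun x => (f x0 - f x) / (x0 - x)) '' Iio x0)
    (t := (fun y => (f y - f x0) / (y - x0)) '' Ioi x0)
    (nonempty_Iio.image _) (nonempty_Ioi.image _) (by
      rintro _ ⟨x, hx, rfl⟩ _ ⟨y, hy, rfl⟩
      exact hf.slope_mono_adjacent trivial trivial hx hy)
  refine ⟨s, fun x => ?_⟩
  rcases lt_trichotomy x x0 with h | rfl | h
  · have := h1 ⟨x, h, rfl⟩
    rw [div_le_iff₀ (sub_pos.2 h)] at this
    linarith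
  · simp
  · have := h2 ⟨x, h, rfl⟩
    rw [le_div_iff₀ (sub_pos.2 h)] at this
    linarith

/-- the distance to a supporting line increases away from the point of contact -/
theorem support_mono {f : ℝ → ℝ} (hf : ConvexOn ℝ univ f) {x0 s : ℝ}
    (hs : ∀ x, f x0 + s * (x - x0) ≤ f x) {x x' : ℝ} (h : (x0 ≤ x ∧ x ≤ x') ∨ (x' ≤ x ∧ x ≤ x0)) :
    f x - (f x0 + s * (x - x0)) ≤ f x' - (f x0 + s * (x' - x0)) := by
  have m : x ∈ segment ℝ x0 x' := by
    rw [segment_eq_uIcc]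
    exact mem_uIcc.2 h
  obtain ⟨a, b, ha, hb, hab, rfl⟩ := m
  have h1 := hf.2 (mem_univ x0) (mem_univ x') ha hb hab
  have h2 := hs x'
  simp only [smul_eq_mul] at h1 ⊢
  obtain rfl : b = 1 - a := by linarith
  linarith only [h1, ha, h2, mul_nonneg ha (sub_nonneg.2 h2)]

theorem sg1_lip {f : ℝ → ℝ} (hf : ConvexOn ℝ univ f) {X A : ℝ}
    (h : ∀ x, |x - X| ≤ 1 → 0 ≤ f x ∧ f x ≤ A) {x x' : ℝ} (hx : |x - X| ≤ 1 / 2)
    (hx' : |x' - X| ≤ 1 / 2) (l : x < x') : |f x' - f x| ≤ 2 * A * |x' - x| := by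
  have a1 := h x (by linarith only [hx])
  have a2 := h x' (by linarith only [hx'])
  have a3 := h (X + 1) (by simp)
  have a4 := h (X - 1) (by simp)
  rw [abs_le] at hx hx'
  have A0 : 0 ≤ A := a1.1.trans a1.2
  have d : 0 < x' - x := sub_pos.2 l
  have s1 := hf.slope_mono_adjacent (mem_univ x) (mem_univ (X + 1)) l (by linarith only [hx'])
  have s2 := hf.slope_mono_adjacent (mem_univ (X - 1)) (mem_univ x') (by linarith only [hx]) l
  have t1 : (f (X + 1) - f x') / (X + 1 - x') ≤ 2 * A := by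
    rw [div_le_iff₀ (by linarith only [hx'])]
    linarith only [a2, a3, hx', a1, mul_nonneg_of_nonpos_of_nonpos (Mathlib.Tactic.Linarith.sub_nonpos_of_le hx'.right) (Mathlib.Tactic.Linarith.sub_nonpos_of_le a1.left), mul_nonneg_of_nonpos_of_nonpos (Mathlib.Tactic.Linarith.sub_nonpos_of_le hx'.right) (Mathlib.Tactic.Linarith.sub_nonpos_of_le a1.right)]
  have t2 : -(2 * A) ≤ (f x - f (X - 1)) / (x - (X - 1)) := by
    rw [le_div_iff₀ (by linarith only [hx])]
    linarith only [a1, a4, hx, mul_nonneg_of_nonpos_of_nonpos (Mathlib.Tactic.Linarith.sub_nonpos_of_le hx.left) (Mathlib.Tactic.Linarith.sub_nonpos_of_le a1.left), mul_nonneg_of_nonpos_of_nonpos (Mathlib.Tactic.Linarith.sub_nonpos_of_le hx.left) (Mathlib.Tactic.Linarith.sub_nonpos_of_le a1.right)]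
  have u1 := s1.trans t1
  have u2 := t2.trans s2
  rw [div_le_iff₀ d] at u1
  rw [le_div_iff₀ d] at u2
  rw [abs_of_pos d, abs_le]
  exact ⟨by linarith only [u2], u1⟩

theorem convex_lip {f : ℝ → ℝ} (hf : ConvexOn ℝ univ f) {X A : ℝ}
    (h : ∀ x, |x - X| ≤ 1 → 0 ≤ f x ∧ f x ≤ A) {x x' : ℝ} (hx : |x - X| ≤ 1 / 2)
    (hx' : |x' - X| ≤ 1 / 2) : |f x' - f x| ≤ 2 * A * |x' - x| := by
  rcases lt_trichotomy x x' with l | rfl | l
  · exact sg1_lip hf h hx hx' l
  · simp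
  · rw [abs_sub_comm (f x'), abs_sub_comm x']
    exact sg1_lip hf h hx' hx l

theorem continuous_lm (p : ℂ) {r : ℝ} (hr : 0 < r) : Continuous (lm p r) := by
  unfold lm
  exact Continuous.log (by fun_prop) fun z => (hr.trans_le (le_max_right _ _)).ne'

theorem sub_lm (p : ℂ) {r : ℝ} (hr : 0 < r) : SubOn (lm p r) univ := by
  have c := continuous_lm p hr
  refine subOn_of_loc c.continuousOn fun z _ => ?_
  rcases le_or_gt ‖z - p‖ r with h | h
  · refine LocSub.of_le (f := fun _ => Real.log r)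
      ⟨1, one_pos, fun s _ _ => (circleAverage_const _ _ _).ge⟩ ?_
      (Eventually.of_forall fun w => Real.log_le_log hr (le_max_right _ _))
      (Eventually.of_forall fun w => continuousAt_const)
      (Eventually.of_forall fun w => c.continuousAt)
    rw [lm, max_eq_right h]
  · refine LocSub.congr (f := fun w => Real.log ‖w - p‖) ⟨‖z - p‖, hr.trans h, fun s h0 hs => ?_⟩ ?_
    · rw [ca_log p z h0, norm_sub_rev p z, max_eq_right hs.le]
    · have : ∀ᶠ w in 𝓝 z, r < ‖w - p‖ :=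
        (isOpen_lt continuous_const (by fun_prop : Continuous fun w : ℂ => ‖w - p‖)).mem_nhds h
      filter_upwards [this] with w hw
      rw [lm, max_eq_left hw.le]

theorem lm_ge (p : ℂ) {r : ℝ} (hr : 0 < r) (z : ℂ) : Real.log r ≤ lm p r z := by
  exact Real.log_le_log hr (le_max_right _ _)

theorem lm_nonpos {p z : ℂ} {r : ℝ} (hr : 0 < r) (hr1 : r ≤ 1) (hz : ‖z - p‖ ≤ 1) : lm p r z ≤ 0 := by
  exact Real.log_nonpos (hr.le.trans (le_max_right _ _)) (max_le hz hr1)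

theorem lm_mono (p : ℂ) {r r' : ℝ} (hr : 0 < r) (h : r ≤ r') (z : ℂ) : lm p r z ≤ lm p r' z := by
  exact Real.log_le_log (hr.trans_le (le_max_right _ _)) (max_le_max le_rfl h)

theorem lm_in {p z : ℂ} {r : ℝ} (hz : ‖z - p‖ ≤ r) : lm p r z = Real.log r := by
  rw [lm, max_eq_right hz]

theorem lm_out {p z : ℂ} {r : ℝ} (hz : r ≤ ‖z - p‖) : lm p r z = Real.log ‖z - p‖ := by
  rw [lm, max_eq_left hz]

/-- reflection in a horizontal line -/
theorem sub_refl {b : ℂ → ℝ} (h : SubOn b univ) (c : ℝ) :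
    SubOn (fun z => b (z.re + (c - z.im : ℝ) * Complex.I)) univ := by
  have e : (fun z : ℂ => b (z.re + (c - z.im : ℝ) * Complex.I)) =
      fun z => (fun w => b (w + c * Complex.I)) (starRingEnd ℂ z) := by
    funext z
    congr 1
    apply Complex.ext <;> simp
    ring
  have h1 := h.shift (c * Complex.I)
  simp only [mem_univ, ofPred_true] at h1
  rw [e]
  refine ⟨h1.1.comp Complex.continuous_conj.continuousOn fun _ _ => trivial, fun z s h0 _ => ?_⟩
  rw [ca_conj (fun w => b (w + c * Complex.I))]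
  exact h1.2 _ _ h0 (subset_univ _)

theorem sub_vshift {b : ℂ → ℝ} (h : SubOn b univ) (c : ℝ) :
    SubOn (fun z => b (z + c * Complex.I)) univ := by
  have h1 := h.shift (c * Complex.I)
  simpa only [mem_univ, ofPred_true] using h1

theorem locSub_max {f g : ℂ → ℝ} {z : ℂ} (hf : g z ≤ f z → LocSub f z) (hg : f z < g z → LocSub g z)
    (cf : ∀ᶠ w in 𝓝 z, ContinuousAt f w) (cg : ∀ᶠ w in 𝓝 z, ContinuousAt g w) :
    LocSub (fun w => max (f w) (g w)) z := by
  have cm : ∀ᶠ w in 𝓝 z, ContinuousAt (fun w => max (f w) (g w)) w := by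
    filter_upwards [cf, cg] with w h1 h2 using h1.max h2
  rcases le_or_gt (g z) (f z) with h | h
  · exact (hf h).of_le (max_le le_rfl h) (Eventually.of_forall fun w => le_max_left _ _) cf cm
  · exact (hg h).of_le (max_le h.le le_rfl) (Eventually.of_forall fun w => le_max_right _ _) cg cm

theorem ite_lt {τ f g : ℂ → ℝ} (hτ : Continuous τ) {c : ℝ} {z : ℂ} (h : τ z < c) :
    (fun ζ => if τ ζ ≤ c then f ζ else g ζ) =ᶠ[𝓝 z] f := by
  filter_upwards [(isOpen_lt hτ continuous_const).mem_nhds h] with w hw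
  exact if_pos (le_of_lt hw)

theorem ite_gt {τ f g : ℂ → ℝ} (hτ : Continuous τ) {c : ℝ} {z : ℂ} (h : c < τ z) :
    (fun ζ => if τ ζ ≤ c then f ζ else g ζ) =ᶠ[𝓝 z] g := by
  filter_upwards [(isOpen_lt continuous_const hτ).mem_nhds h] with w hw
  exact if_neg (not_le.2 hw)

theorem ite_left {τ f g : ℂ → ℝ} {c : ℝ} {z : ℂ} (h : ∀ᶠ ζ in 𝓝 z, c < τ ζ → g ζ = f ζ) :
    (fun ζ => if τ ζ ≤ c then f ζ else g ζ) =ᶠ[𝓝 z] f := by
  filter_upwards [h] with w hw
  split_ifs with l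
  · rfl
  · exact hw (not_le.1 l)

theorem ite_right {τ f g : ℂ → ℝ} {c : ℝ} {z : ℂ} (h : ∀ᶠ ζ in 𝓝 z, τ ζ ≤ c → f ζ = g ζ) :
    (fun ζ => if τ ζ ≤ c then f ζ else g ζ) =ᶠ[𝓝 z] g := by
  filter_upwards [h] with w hw
  split_ifs with l
  · exact hw l
  · rfl

end

end Pool.Agent.MinMod.St
end

-- merged part: Pool.Agent.Work.MP_f62247_an.St.H2
section
/-!
# The pieces of the widened function
`D_top`: `D = tav r v - tav r u ≥ 0` (`le_uv`), `z1 = x + (φ x + 1/500) I`, `s = 1/500 - t^6/8`; `D z1 = 0` (`DH.top`). On `ball z1 s` heights lie in `[t^8, 1/10]` (use `φ_sub`, not `ht_sub`), so `den r v = S` there, and `ca D z1 s' ≤ pot S s' z1` for `s' < s` (`ca_tav`, `den_u`).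
Where `S ζ ≠ 0` one has `‖ζ - z1‖ ≥ 1/2000` (`ht_sub`), so `gk s' (ζ - z1) ≤ log 4 ≤ 2` and it vanishes unless `‖ζ - z1‖ < 1/500`, where `eK t X ζ ≥ 1/2` (`kp t ≤ 63` for `t ≤ 1/1000`: `π / (1/20) ≤ 63`). So `da D z1 s ≤ 4 SS` (`da_le_of_ca`), then `da_step` with `R = s`, `l = s - ρ`.
`R0_loc`, `P2_loc`: as `GH.locSub`, `GH.d3_den` (Mo/D3) without `H` and `S`. `negH_loc`: `HH.jen`, `S = 0` near `z` and near `z + w I`. `P2_low`, `P2_dip`: as `GH.d3_low`, `GH.low_seam`, `GH.dip`.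
-/

open Real MeasureTheory Set Filter Topology

namespace Pool.Agent.MinMod.St

open Pool.Agent.MinMod.Mo

noncomputable section

/-- `g2 + H + 10 e Φ - tav r v` -/
def R0 (F : Frame) (w e r : ℝ) (u v : ℂ → ℝ) (z : ℂ) : ℝ :=
  -(1 + w) * (tav r v (z + w * Complex.I) - tav r u (z + w * Complex.I)) +
    e * (10 * F.Φ z.re - F.Xi z)

variable {F : Frame} {μ K t w r η d e : ℝ} {u v S H : ℂ → ℝ} {z : ℂ}

theorem g2_eq (F : Frame) (w e r : ℝ) (u v H : ℂ → ℝ) (z : ℂ) :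
    g2 F w e r u v H z + 10 * e * F.Φ z.re = tav r v z + R0 F w e r u v z - H z := by
  unfold g2 R0
  ring

theorem continuous_R0 (h : GH F μ K t w r η d e u v S H) : Continuous (R0 F w e r u v) := by
  have c1 := continuous_tav h.dh.plat.cont h.dh.rpos
  have c2 := continuous_tav h.dh.clean.cont h.dh.rpos
  have c3 := F.continuous_Xi
  have c4 := F.continuous_Φ
  unfold R0
  fun_prop

theorem R0_loc (h : GH F μ K t w r η d e u v S H) (hz : -(1 / 2) < F.ht z)
    (h0 : ∀ᶠ ζ in 𝓝 (z + w * Complex.I), den r v ζ = 0) : LocSub (R0 F w e r u v) z := by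
  obtain ⟨δ, δ0, hδ⟩ := Metric.eventually_nhds_iff.1 h0
  refine ⟨min δ ((F.ht z + 1 / 2) / 2), lt_min δ0 (by linarith only [hz]), fun s s0 hs => ?_⟩
  have s1 : s < δ := hs.trans_le (min_le_left _ _)
  have s3 : s < (F.ht z + 1 / 2) / 2 := hs.trans_le (min_le_right _ _)
  have hb : Metric.closedBall z s ⊆ {ζ | -(1 / 2) < F.ht ζ} := by
    intro ζ hζ
    rw [Metric.mem_closedBall, dist_eq_norm] at hζ
    have b1 := (abs_le.1 (h.dh.good.ht_sub (h.d3_mu.trans (by norm_num)) z ζ)).1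
    show -(1 / 2) < F.ht ζ
    linarith only [s3, hζ, b1]
  have cv := h.dh.plat.cont
  have cu := h.dh.clean.cont
  have c1 := continuous_tav cv h.dh.rpos
  have c2 := continuous_tav cu h.dh.rpos
  have c3 := F.continuous_Xi
  have c4 := F.continuous_Φ
  have e0 : R0 F w e r u v = fun ζ =>
      ((0 : ℝ) - (1 + w) * (tav r v (ζ + w * Complex.I) - tav r u (ζ + w * Complex.I)) +
        e * (10 * F.Φ ζ.re - F.Xi ζ)) - 0 := by
    funext ζ
    unfold R0
    ring
  have e1 := d3_ca (z := z) (s := s) (f1 := fun _ => 0)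
    (f2 := fun ζ => tav r v (ζ + w * Complex.I))
    (f3 := fun ζ => tav r u (ζ + w * Complex.I)) (f4 := fun _ => 0)
    (f5 := fun ζ => 10 * F.Φ ζ.re - F.Xi ζ) (1 + w) e continuous_const (by fun_prop) (by fun_prop)
    (Frame.f2_ci continuous_const z s) (by fun_prop)
  have e2 : ca (fun _ => (0 : ℝ)) z s = 0 := circleAverage_const _ _ _
  rw [ca_shift, ca_shift, ca_tav cv h.dh.rpos s0, ca_tav cu h.dh.rpos s0, e2] at e1
  have a2 := (h.dh.good.sub_Xi h.d3_mu).2 z s s0 hb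
  have a3 := mul_le_mul_of_nonneg_left a2 h.d3_eps.le
  have a4 : pot (den r v) s (z + w * Complex.I) = 0 :=
    d2_pot0 s0 fun ζ hζ => hδ (by rw [dist_eq_norm]; linarith only [s1, hζ])
  have a5 : 0 ≤ pot (den r u) s (z + w * Complex.I) := pot_nonneg s0 fun ζ _ => h.dh.den_u ζ
  have a6 := mul_nonneg (by linarith only [h, h.dh.wpos] : 0 ≤ 1 + w) a5
  rw [e0, e1, a4]
  beta_reduce at a3 ⊢
  linarith only [a3, a6]

theorem negH_loc (h : GH F μ K t w r η d e u v S H) (h1 : -t ^ 2 < F.ht z) (h2 : F.ht z ≤ 1 / 8000) :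
    LocSub (fun ζ => -H ζ) z := by
  refine ⟨min (1 / 40000) ((F.ht z + t ^ 2) / 2), lt_min (by norm_num) (by linarith only [h1]),
    fun s s0 hs => ?_⟩
  have s1 : s < 1 / 40000 := hs.trans_le (min_le_left _ _)
  have s3 : s < (F.ht z + t ^ 2) / 2 := hs.trans_le (min_le_right _ _)
  have b0 := fun ζ => abs_le.1 (h.dh.good.ht_sub (h.d3_mu.trans (by norm_num)) z ζ)
  have hb : Metric.closedBall z s ⊆ {ζ | -t ^ 2 < F.ht ζ} := by
    intro ζ hζ
    rw [Metric.mem_closedBall, dist_eq_norm] at hζ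
    show -t ^ 2 < F.ht ζ
    linarith only [s3, hζ, b0, (b0 ζ).1]
  have a1 := h.hh.jen z s s0 s1.le hb
  have a2 : pot S s z = 0 := d2_pot0 s0 fun ζ hζ => by
    by_contra hne
    linarith only [h2, s0, s1, hζ, h, hne, b0, (h.supp ζ hne).1, (b0 ζ).2]
  have a5 : 0 ≤ pot S s (z + w * Complex.I) := pot_nonneg s0 fun ζ _ => h.S0 ζ
  have a6 := mul_nonneg (by linarith only [s0, s1, h, h.dh.wpos] : 0 ≤ 1 + w) a5
  have a7 := Frame.f2_ca_mul H (-1) z s
  simp only [neg_mul, one_mul] at a7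
  rw [a7]
  linarith only [a1, a2, a6]

theorem sh2_den (h : GH F μ K t w r η d e u v S H) (h1 : -t ^ 2 < F.ht z) (h2 : F.ht z ≤ 1 / 8000)
    (h3 : tav r u (z + w * Complex.I) < g2 F w e r u v H z + H z ∨ t ^ 6 / 2 ≤ F.ht z) {ζ : ℂ}
    (hd : ‖ζ - (z + w * Complex.I)‖ ≤ d) (hs : ‖ζ - (z + w * Complex.I)‖ ≤ t ^ 6 / 8) :
    den r v ζ = 0 := by
  obtain ⟨p6, p16, -, p68, -⟩ := d2_num h.dh
  have b1 := abs_le.1 (h.dh.good.ht_sub (h.d3_mu.trans (by norm_num)) (z + w * Complex.I) ζ)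
  rw [Frame.ht_add_I] at b1
  have w0 := h.dh.wpos
  have w1 := h.dh.wle
  have hζ : F.ht ζ < 1 / 4000 := by linarith only [h2, hs, p16, p68, b1, w0, w1, b1.2]
  by_cases hc : t ^ 6 / 2 ≤ F.ht z
  · exact d2_den0 h.dh (by linarith only [hs, p68, b1, w0, w1, hc, b1.1]) (by linarith only [h2, hs, p16, p68, b1, w0, w1]) (Or.inl hζ.le)
  · have h4 := h3.resolve_right hc
    rw [not_le] at hc
    have hv : v ζ < Bx u ζ.re := by
      by_contra hne
      rw [not_lt] at hne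
      have m1 := abs_le.1 (h.dh.plat.md (z + w * Complex.I) (mem_univ _) ζ hd)
      have m2 := abs_le.1 (md_Bx h.dh.clean.cont h.dh.clean.per h.dh.mdu (z + w * Complex.I)
        (mem_univ _) ζ hd)
      simp only [d3_re] at m1 m2
      have m3 := (h.d3_v z w).1
      have m4 := (abs_le.1 (h.dh.close_v z)).2
      have m5 := h.dh.plat.le z
      have m7 := mul_nonneg w0.le (sub_nonneg.2 (h.dh.le_uv (z + w * Complex.I)))
      have m8 := d3_Xi_ge F (z := z) (c := 1 / 50) (by norm_num) (by linarith only [p16, p68, w0, w1, hc])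
      have m9 := mul_le_mul_of_nonneg_left m8 h.d3_eps.le
      have m10 := mul_le_mul_of_nonneg_right h.eta (F.Φ_pos z.re).le
      have m11 := mul_pos h.dh.epos (F.Φ_pos z.re)
      unfold g2 at h4
      linarith only [h4, hne, m1, m2, m3, m4, m5, m7, m9, m10, m1.1, m1.2, m2.1, m2.2]
    rw [den, h.dh.plat.free ζ hζ.le hv, sub_self, mul_zero]

theorem P2_loc (h : GH F μ K t w r η d e u v S H) (h1 : -t ^ 2 < F.ht z) (h2 : F.ht z ≤ 1 / 8000)
    (h3 : tav r u (z + w * Complex.I) < g2 F w e r u v H z + H z ∨ t ^ 6 / 2 ≤ F.ht z) :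
    LocSub (fun ζ => tav r v ζ + R0 F w e r u v ζ) z := by
  obtain ⟨-, q2, p6, -⟩ := d4_t h.dh.tpos h.dh.tle
  have d0 : 0 < d := h.dh.rpos.trans_le h.dh.rd
  have a1 : LocSub (tav r v) z := ⟨1, one_pos, fun s s0 _ => by
    rw [ca_tav h.dh.plat.cont h.dh.rpos s0]
    exact le_add_of_nonneg_right (pot_nonneg s0 fun ζ _ => h.dh.den_v ζ)⟩
  have a2 := R0_loc h (z := z) (by linarith only [h1, h2, q2]) (Metric.eventually_nhds_iff.2
    ⟨min d (t ^ 6 / 8), lt_min d0 (by linarith only [p6]), fun ζ hζ => by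
      rw [dist_eq_norm] at hζ
      exact sh2_den h h1 h2 h3 (hζ.le.trans (min_le_left _ _)) (hζ.le.trans (min_le_right _ _))⟩)
  exact a1.add a2
    (Eventually.of_forall fun _ => (continuous_tav h.dh.plat.cont h.dh.rpos).continuousAt)
    (Eventually.of_forall fun _ => (continuous_R0 h).continuousAt)

theorem sh2_low (h : GH F μ K t w r η d e u v S H) (h2 : F.ht z ≤ t ^ 6 / 2)
    (h3 : 25 * t ^ 6 * F.Φ z.re ≤ tav r v (z + w * Complex.I) - tav r u (z + w * Complex.I)) :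
    g2 F w e r u v H z + H z ≤ tav r u (z + w * Complex.I) := by
  have a1 := h.dh.slide h2
  have a3 := mul_nonneg h.d3_eps.le (d3_Xi0 F z)
  have a4 := mul_le_mul_of_nonneg_left h3 h.dh.wpos.le
  unfold g2
  linarith only [a1, a3, a4]

theorem P2_low (h : GH F μ K t w r η d e u v S H) (h1 : -t ^ 2 < F.ht z) (h2 : F.ht z ≤ -t ^ 2 / 2) :
    g2 F w e r u v H z + H z ≤ tav r u (z + w * Complex.I) := by
  have t0 := h.dh.tpos
  have t1 := h.dh.tle
  have p2 := pow_pos t0 2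
  have p4 := pow_pos t0 4
  have p6 := pow_pos t0 6
  have p8 := pow_pos t0 8
  have q2 := d3_one t0 t1 2 (by omega)
  have q28 := d3_pow t0 t1 2 8 (by omega)
  have q45 := d3_pow t0 t1 4 5 (by omega)
  have q56 := d3_pow t0 t1 5 6 (by omega)
  have q416 := d3_pow t0 t1 4 16 (by omega)
  have q418 := d3_pow t0 t1 4 18 (by omega)
  have w0 := h.dh.wpos
  have w1 := h.dh.wle
  have e1 := h.d3_eta
  refine sh2_low h (by linarith only [h2, p6, p8, q28]) ?_
  have a1 := h.dh.plat.low (z + w * Complex.I) (by rw [Frame.ht_add_I]; linarith only [h2, p8, q28, w1])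
  have a2 := h.dh.clean.up (z + w * Complex.I)
  rw [Frame.M, Frame.ht_add_I] at a2
  rw [d3_re] at a1 a2
  have a3 := d3_cos (x := F.ht z + w) (abs_le.2 ⟨by linarith only [h1, p8, q2, q28, w0], by linarith only [h2, p8, q2, q28, w1]⟩)
  have a4 : (t ^ 2 * (49 / 100)) ^ 2 ≤ (-(F.ht z + w)) ^ 2 :=
    pow_le_pow_left₀ (by positivity) (by linarith only [h2, p8, q28, w1]) 2
  have a5 : cos (F.ht z + w) ≤ 1 - t ^ 4 / 25 := by
    have : (t ^ 2 * (49 / 100)) ^ 2 = t ^ 4 * (2401 / 10000) := by ring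
    rw [this, neg_sq] at a4
    linarith only [p6, q45, q56, a3, a4]
  have a6 := (h.d3_u z w).2
  have a7 := (h.d3_v z w).1
  have a8 : 25 * t ^ 6 ≤ (1 - 3 * (t ^ 8) ^ 2) - η - (cos (F.ht z + w) + t ^ 18 + η) := by
    have : (t ^ 8) ^ 2 = t ^ 16 := by ring
    rw [this]
    linarith only [p6, q45, q56, q416, q418, e1, a3, a4]
  have a9 := mul_le_mul_of_nonneg_right a8 (F.Φ_pos z.re).le
  linarith only [a1, a2, a6, a7, a9]

theorem P2_dip (h : GH F μ K t w r η d e u v S H) (h1 : -t ^ 2 < F.ht z) (h2 : F.ht z ≤ t ^ 6 / 2)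
    (h3 : tav r u (z + w * Complex.I) ≤ 0) :
    g2 F w e r u v H z + H z ≤ tav r u (z + w * Complex.I) := by
  have t0 := h.dh.tpos
  have t1 := h.dh.tle
  have q6 := d3_one t0 t1 6 (by omega)
  have q18 := d3_one t0 t1 18 (by omega)
  have w1 := h.d3_w
  have e1 := h.d3_eta
  refine sh2_low h h2 ?_
  have a1 := h.dh.v_ge (z := z + w * Complex.I) (by rw [Frame.ht_add_I]; linarith only [h2, t0, t1, q6, w1])
  rw [d3_re] at a1
  have a2 := (h.d3_v z w).1
  have a3 : 25 * t ^ 6 ≤ 9 / 10 - η := by linarith only [t0, t1, q6, q18, e1]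
  have a4 := mul_le_mul_of_nonneg_right a3 (F.Φ_pos z.re).le
  linarith only [h3, a1, a2, a4]

theorem P2_le (h : GH F μ K t w r η d e u v S H) (z : ℂ) :
    g2 F w e r u v H z + H z ≤ Bx u z.re + η * F.Φ z.re := by
  have w0 := h.dh.wpos
  have a1 := mul_nonneg (by linarith : 0 ≤ 1 + w) (sub_nonneg.2 (h.dh.le_uv (z + w * Complex.I)))
  have a2 := mul_nonneg h.d3_eps.le (d3_Xi0 F z)
  have a3 := (abs_le.1 (h.dh.close_v z)).2
  have a4 := h.dh.plat.le z
  unfold g2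
  linarith only [a1, a2, a3, a4]

theorem GG_cont (h : GH F μ K t w r η d e u v S H) : Continuous (GG F t w e r u v H) :=
  (d4_cont h).add (continuous_const.mul (F.continuous_Φ.comp Complex.continuous_re))

theorem GG_le (h : GH F μ K t w r η d e u v S H) (z : ℂ) : GG F t w e r u v H z ≤ UU F η e u z := by
  have := d4_le h z
  unfold GG UU
  linarith only [this]

theorem g2_le_GG (h : GH F μ K t w r η d e u v S H) (h1 : -t ^ 2 < F.ht z) :
    g2 F w e r u v H z + 10 * e * F.Φ z.re ≤ GG F t w e r u v H z := by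
  obtain ⟨-, -, p6, -⟩ := d4_t h.dh.tpos h.dh.tle
  unfold GG
  rcases le_total (F.ht z) (t ^ 6) with a | a
  · rw [d4_B h h1 a]
    exact add_le_add_left (le_max_right _ _) _
  · rw [d4_C h (by linarith only [p6, a])]

theorem a_le_GG (h : GH F μ K t w r η d e u v S H) (h1 : F.ht z ≤ t ^ 6) :
    tav r u (z + w * Complex.I) + 10 * e * F.Φ z.re ≤ GG F t w e r u v H z := by
  obtain ⟨p2, -⟩ := d4_t h.dh.tpos h.dh.tle
  unfold GG
  rcases le_total (F.ht z) (-t ^ 2 / 2) with a | a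
  · rw [d4_A h a]
  · rw [d4_B h (by linarith only [p2, a]) h1]
    exact add_le_add_left (le_max_left _ _) _

theorem GG_bd (h : GH F μ K t w r η d e u v S H) : ∃ K' : ℝ, (∀ z, |GG F t w e r u v H z| ≤ K' * F.Φ z.re) ∧
    ∀ z, -t ^ 2 < F.ht z → |g2 F w e r u v H z| ≤ K' * F.Φ z.re := by
  obtain ⟨K1, hK1⟩ := d4_bd h
  obtain ⟨K2, hK2⟩ := h.bd
  have e0 := h.d3_eps
  refine ⟨max (K1 + 10 * e) K2, fun z => ?_, fun z hz => (hK2 z hz).trans
    (mul_le_mul_of_nonneg_right (le_max_right _ _) (F.Φ_pos _).le)⟩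
  have p := F.Φ_pos z.re
  refine le_trans ?_ (mul_le_mul_of_nonneg_right (le_max_left _ _) p.le)
  refine (abs_add_le _ _).trans ?_
  rw [abs_of_nonneg (by positivity : 0 ≤ 10 * e * F.Φ z.re)]
  linarith [hK1 z]

theorem SS_nonneg (h : GH F μ K t w r η d e u v S H) (X : ℝ) : 0 ≤ SS t S X :=
  integral_nonneg fun p => mul_nonneg (h.S0 p) (exp_pos _).le

theorem sh2_gk (h : GH F μ K t w r η d e u v S H) {X s : ℝ} (s0 : 0 < s) (s1 : s ≤ 1 / 500)
    (hx : |z.re - X| ≤ 1 / 1000) (hz : F.ht z = 1 / 500) (ζ : ℂ) :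
    S ζ * gk s (ζ - z) ≤ 4 * (S ζ * eK t X ζ) := by
  by_cases hS : S ζ = 0
  · simp [hS]
  rw [mul_left_comm]
  refine mul_le_mul_of_nonneg_left ?_ (h.S0 ζ)
  rcases le_total s ‖ζ - z‖ with a | a
  · rw [gk_eq_zero s0.le a]
    exact mul_nonneg (by norm_num) (exp_pos _).le
  have b1 := (abs_le.1 (h.dh.good.ht_sub (h.d3_mu.trans (by norm_num)) z ζ)).1
  have b2 : 1 / 2000 ≤ ‖ζ - z‖ := by linarith only [hz, b1, h, hS, (h.supp ζ hS).2]
  have b3 : s / ‖ζ - z‖ ≤ 4 := by rw [div_le_iff₀ (by linarith only [s0, s1, b2])]; linarith only [s1, b2]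
  have b4 : gk s (ζ - z) ≤ 3 :=
    max_le (by norm_num) ((Real.log_le_sub_one_of_pos (by positivity)).trans (by linarith only [b3]))
  have b5 : kp t ≤ 63 := by
    unfold kp
    rw [div_le_iff₀ (by positivity)]
    linarith only [pi_lt_d2, sq_nonneg t]
  have b6 : |X - ζ.re| ≤ 3 / 1000 := by
    have := abs_sub_le X z.re ζ.re
    rw [abs_sub_comm X z.re, abs_sub_comm z.re ζ.re] at this
    linarith only [s1, hx, a, this, Frame.f1_re z ζ]
  have b7 := mul_le_mul b5 b6 (abs_nonneg _) (by norm_num)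
  have b8 := add_one_le_exp (-(11 / 10) * (kp t * |X - ζ.re|))
  unfold eK
  linarith only [s0, s1, b4, b7, b8]

theorem D_top (h : GH F μ K t w r η d e u v S H) {X x ρ : ℝ}
    (hi : Integrable fun p => S p * eK t X p) (hx : |x - X| ≤ 1 / 1000) (hρ : 0 < ρ)
    (hρ1 : ρ ≤ t ^ 6 / 4) :
    da (fun ζ => tav r v ζ - tav r u ζ) (x + (F.φ x + t ^ 6 / 2 : ℝ) * Complex.I) ρ ≤
      SS t S X / ρ ^ 2 := by
  obtain ⟨p6, q6, p8, q8, p18, q18, -, -, m1⟩ := d2_num h.dh
  have cv := h.dh.plat.cont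
  have cu := h.dh.clean.cont
  have c1 := continuous_tav cv h.dh.rpos
  have c2 := continuous_tav cu h.dh.rpos
  obtain ⟨s, hs⟩ : ∃ s : ℝ, s = 1 / 500 - t ^ 6 / 8 := ⟨_, rfl⟩
  obtain ⟨z, hz⟩ : ∃ z : ℂ, z = x + (F.φ x + 1 / 500 : ℝ) * Complex.I := ⟨_, rfl⟩
  have z1 : z.re = x := by simp [hz]
  have z2 : F.ht z = 1 / 500 := by rw [hz, Frame.ht_mk]; ring
  have s0 : 0 < s := by linarith only [q6, p8, q8, hs]
  have iD : IntegrableOn (fun ζ => tav r v ζ - tav r u ζ) (Metric.ball z s) :=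
    i4_io (Ω := univ) (c1.sub c2).continuousOn (subset_univ _)
  have a1 : da (fun ζ => tav r v ζ - tav r u ζ) z s ≤ 4 * SS t S X := by
    refine da_le_of_ca s0 iD fun s' a b => ?_
    have e1 : ca (fun ζ => tav r v ζ - tav r u ζ) z s' = ca (tav r v) z s' - ca (tav r u) z s' :=
      Real.circleAverage_fun_sub (Frame.f2_ci c1 z s') (Frame.f2_ci c2 z s')
    have a2 : pot (den r v) s' z = pot S s' z := pot_congr a fun ζ hζ => by
      have b1 := abs_le.1 (Frame.f1_im z ζ)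
      have b2 := abs_le.1 ((h.dh.good.φ_sub z.re ζ.re).trans (mul_le_mul h.dh.mu
        ((Frame.f1_re z ζ).trans (by linarith only [p8, q8, hs, b, hζ] : ‖ζ - z‖ ≤ 1 / 500)) (abs_nonneg _) p18.le))
      unfold Frame.ht at z2
      exact (h.Seq ζ (by unfold Frame.ht; linarith only [p8, q8, q18, hs, z2, b, hζ, b1, b2]) (by unfold Frame.ht; linarith only [q6, p8, q8, q18, hs, z2, b, hζ, b1, b2])).symm
    have a3 : 0 ≤ pot (den r u) s' z := pot_nonneg a fun ζ _ => h.dh.den_u ζ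
    have a4 : pot S s' z ≤ 4 * SS t S X := by
      unfold SS
      rw [← integral_const_mul]
      exact integral_mono (integrable_pot h.cS s' z) (hi.const_mul 4)
        (sh2_gk h a (by linarith only [p8, q8, hs, b]) (z1 ▸ hx) z2)
    rw [e1, ca_tav cv h.dh.rpos a, ca_tav cu h.dh.rpos a, h.dh.top (by linarith only [q6, p8, q8, z2]), a2]
    linarith only [a3, a4]
  have a5 := da_step (V := fun ζ => tav r v ζ - tav r u ζ) (z' := z) (R := s) (l := s - ρ)
    (z := x + (F.φ x + t ^ 6 / 2 : ℝ) * Complex.I) (by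
      have : z - (x + (F.φ x + t ^ 6 / 2 : ℝ) * Complex.I) =
          ((1 / 500 - t ^ 6 / 2 : ℝ) : ℂ) * Complex.I := by
        rw [hz]; push_cast; ring
      rw [this, norm_mul, Complex.norm_I, Complex.norm_real, mul_one,
        Real.norm_of_nonneg (by linarith only [q6, p8, q8])]
      linarith only [hρ1, p8, q8, hs]) (by linarith only [hρ]) iD
    (Eventually.of_forall fun ζ _ => sub_nonneg.2 (h.dh.le_uv ζ))
  have e2 : (1 - (s - ρ) / s) ^ 2 = ρ ^ 2 / s ^ 2 := by field_simp; ring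
  rw [sub_sub_cancel, e2, div_mul_eq_mul_div, div_le_iff₀ (by positivity)] at a5
  rw [le_div_iff₀ (by positivity), mul_comm]
  have a6 : s ^ 2 ≤ 1 / 4 := by (refine le_of_not_gt fun h_nl => ?_; linarith only [h_nl, q6, hs, q8, hρ, hρ1, p8, mul_nonneg_of_nonpos_of_nonpos (Mathlib.Tactic.Linarith.sub_nonpos_of_le (sq_nonneg s)) (Mathlib.Tactic.Linarith.sub_nonpos_of_le q8), mul_nonneg_of_nonpos_of_nonpos (le_of_lt (Mathlib.Tactic.Linarith.sub_neg_of_lt hρ)) (Mathlib.Tactic.Linarith.sub_nonpos_of_le q6), Mathlib.Tactic.Linarith.mul_zero_eq (Mathlib.Tactic.Linarith.sub_neg_of_lt hρ) (sub_eq_zero_of_eq hs), mul_nonneg_of_nonpos_of_nonpos (Mathlib.Tactic.Linarith.sub_nonpos_of_le hρ1) (Mathlib.Tactic.Linarith.sub_nonpos_of_le q6), Mathlib.Tactic.Linarith.mul_zero_eq (Mathlib.Tactic.Linarith.sub_nonpos_of_le hρ1) (sub_eq_zero_of_eq hs), mul_nonneg_of_nonpos_of_nonpos (Mathlib.Tactic.Linarith.sub_nonpos_of_le q6) (le_of_lt (Mathlib.Tactic.Linarith.sub_neg_of_lt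 p8)), mul_nonneg_of_nonpos_of_nonpos (Mathlib.Tactic.Linarith.sub_nonpos_of_le q6) (le_of_lt (Mathlib.Tactic.Linarith.sub_neg_of_lt h_nl)), mul_pos_of_neg_of_neg (Mathlib.Tactic.Linarith.sub_neg_of_lt p8) (Mathlib.Tactic.Linarith.sub_neg_of_lt p8), mul_nonneg_of_nonpos_of_nonpos (le_of_lt (Mathlib.Tactic.Linarith.sub_neg_of_lt p8)) (Mathlib.Tactic.Linarith.sub_nonpos_of_le q8), mul_pos_of_neg_of_neg (Mathlib.Tactic.Linarith.sub_neg_of_lt p8) (Mathlib.Tactic.Linarith.sub_neg_of_lt h_nl), mul_nonneg_of_nonpos_of_nonpos (Mathlib.Tactic.Linarith.sub_nonpos_of_le q8) (le_of_lt (Mathlib.Tactic.Linarith.sub_neg_of_lt h_nl)), Mathlib.Tactic.Linarith.zero_mul_eq (sub_eq_zero_of_eq hs) (sub_eq_zero_of_eq hs)])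
  have a7 := SS_nonneg h X
  linarith only [a5, a1, a6, a7, mul_le_mul_of_nonneg_right a1 (sq_nonneg s), mul_le_mul_of_nonneg_left a6 a7, sq_nonneg s]

end

end Pool.Agent.MinMod.St
end

-- merged part: Pool.Agent.Work.MP_f62247_an.St.P1
section
/-!
# The obstacle solution is monotone and touches the plateau
`mono_v`: for `w/16 ≤ s ≤ w/8` the structure `DH F μ K t s r η d u v` holds, `DH.seam` (for `s`) and `close_v` give `v (z + s I) ≤ v z` on the layer `t^6 ≤ ht z ≤ t^6 + 2r`; `Plat.maxi` with `y = t^6`, `f z = v (z + s I)` (`ca_shift`, `Plat.sub`, `Plat.le`).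
For larger `s` induction on `n` with `s ≤ n w / 16` (peel off `w/16`). `contact`: `exists_Bx` with `a = φ x - π`; `up`, `Bge` give `cos h ≥ 1 - 2 t^18`, `Real.cos_le_one_sub_mul_cos_sq` gives `|h| ≤ 4 t^9`; there `u = v = Bx u`; then `mono_v`.
`tav_Bx`: `tav_shift` with the shift `z.im I`. `sub_*`: `ca_tav`, `pot_nonneg`, `i5_sub`; `den r (Bx u ∘ re) ζ ≥ den r v ζ` for `ht ζ ≤ 1/4000`: if `v ζ < Bx u ζ.re` by `Plat.free` and `sub_Bx`, otherwise by `ca_le_of_le`, `Plat.le`.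
`psi_top`: `Plat.up`, `Bge`, `d3_cos`. `Bt_lip`: `convex_of_sub`, `convex_lip` with `A = 16 Φ X` (`Φ_le`, `s1_e2`).
-/

open Real MeasureTheory Set Filter Topology

namespace Pool.Agent.MinMod.St

open Pool.Agent.MinMod.Mo

noncomputable section

variable {F : Frame} {μ K t w r η d : ℝ} {u v : ℂ → ℝ}

theorem sp1_base (h : DH F μ K t w r η d u v) {z : ℂ} (hz : F.ht z ≤ t ^ 6) :
    v (z + w * Complex.I) ≤ v z := by
  obtain ⟨p6, a1, p8, a4, p18, a5, e1, e2, m1⟩ := d2_num h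
  have hc : Continuous fun ζ : ℂ => v (ζ + w * Complex.I) :=
    h.plat.cont.comp (continuous_id.add continuous_const)
  refine h.plat.maxi (fun ζ => v (ζ + w * Complex.I)) (t ^ 6) (by linarith only [a1, p8, a4])
    (fun ζ _ => ⟨i6_ci hc ζ r, ?_, ?_⟩) (fun ζ h1 h2 => ?_) z hz
  · simpa using h.plat.le (ζ + w * Complex.I)
  · rw [ca_shift]
    exact h.plat.sub _
  · have b1 := (h.seam (z := ζ) (by linarith only [p8, a4, h1]) (by linarith only [p8, a4, a5, h2, h, h.rle])).1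
    have b2 := (abs_le.1 (h.close_v ζ)).2
    have b3 := (abs_le.1 (h.close_v (ζ + w * Complex.I))).1
    rw [d3_re] at b3
    have b4 := mul_le_mul_of_nonneg_right e2 (F.Φ_pos ζ.re).le
    have b5 := mul_pos (mul_pos h.wpos p6) (F.Φ_pos ζ.re)
    linarith only [b1, b2, b3, b4, b5]

theorem sp1_cB (h : DH F μ K t w r η d u v) : Continuous fun z : ℂ => Bx u z.re :=
  (continuous_Bx h.clean.cont h.clean.per).comp Complex.continuous_re

theorem sp1_ht (h : DH F μ K t w r η d u v) {z ζ : ℂ} (hζ : ‖ζ - z‖ ≤ r) :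
    F.ht ζ ≤ F.ht z + 2 * t ^ 18 := by
  obtain ⟨p6, a1, p8, a4, p18, a5, e1, e2, m1⟩ := d2_num h
  linarith only [h, a1, p8, a4, m1, hζ, (d1_circ h.good (by linarith) hζ).2, h.rle]

theorem mono_v (h : DH F μ K t w r η d u v) (hη : η ≤ w * t ^ 18 / 16) {s : ℝ} (hs : w / 16 ≤ s) {z : ℂ}
    (hz : F.ht z + s ≤ t ^ 6) : v (z + s * Complex.I) ≤ v z := by
  have w0 := h.wpos
  have p18 : 0 < t ^ 18 := pow_pos h.tpos 18
  have base : ∀ s : ℝ, w / 16 ≤ s → s ≤ w / 8 → ∀ z : ℂ, F.ht z ≤ t ^ 6 →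
      v (z + s * Complex.I) ≤ v z := fun s h1 h2 z hz =>
    sp1_base (K := K) (μ := μ) (r := r) (η := η) (d := d) (u := u)
      { h with
        wpos := by linarith only [w0, h1]
        wle := by linarith only [w0, h2, h, h.wle]
        ele := by linarith only [hη, p18, h1, mul_nonneg_of_nonpos_of_nonpos (le_of_lt (Mathlib.Tactic.Linarith.sub_neg_of_lt p18)) (Mathlib.Tactic.Linarith.sub_nonpos_of_le h1)] } hz
  obtain ⟨n, hn⟩ := exists_nat_ge (s / (w / 16))
  rw [div_le_iff₀ (by linarith only [w0])] at hn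
  induction n generalizing s with
  | zero => simp only [Nat.cast_zero, zero_mul] at hn; linarith only [w0, hs, hn]
  | succ n ih =>
    rcases le_or_gt s (w / 8) with h1 | h1
    · exact base s hs h1 z (by linarith only [w0, hs, hz])
    · have b1 := ih (s := s - w / 16) (by linarith only [h1]) (by linarith only [w0, hz]) (by push_cast at hn; linarith only [hn])
      have b2 := base (w / 16) le_rfl (by linarith only [w0]) (z + (s - w / 16 : ℝ) * Complex.I)
        (by rw [Frame.ht_add_I]; linarith only [w0, hz])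
      have e : z + (s - w / 16 : ℝ) * Complex.I + (w / 16 : ℝ) * Complex.I =
          z + s * Complex.I := by
        push_cast
        ring
      rw [e] at b2
      exact b2.trans b1

theorem contact (h : DH F μ K t w r η d u v) (hη : η ≤ w * t ^ 18 / 16) {z : ℂ}
    (hz : F.ht z ≤ -t ^ 8 / 2) : v z = Bx u z.re := by
  obtain ⟨p6, a1, p8, a4, p18, a5, e1, e2, m1⟩ := d2_num h
  refine le_antisymm (h.plat.le z) ?_
  obtain ⟨y, y1, y2, hy⟩ := exists_Bx h.clean.cont h.clean.per z.re (F.φ z.re - π)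
  have hΦ := F.Φ_pos z.re
  have b1 := h.clean.up (z.re + y * Complex.I)
  have b2 := h.clean.Bge z.re
  rw [Frame.M, Frame.ht_mk, d3_re, Complex.ofReal_re, ← hy] at b1
  have b3 : 1 - 2 * t ^ 18 ≤ cos (y - F.φ z.re) :=
    le_of_mul_le_mul_left (by linarith only [b1, b2]) hΦ
  have b4 := Real.cos_le_one_sub_mul_cos_sq (x := y - F.φ z.re)
    (abs_le.2 ⟨by linarith only [y1], by linarith only [y2]⟩)
  have b5 : (y - F.φ z.re) ^ 2 ≤ (4 * t ^ 9) ^ 2 := by
    have c1 : 1 / 8 ≤ 2 / π ^ 2 := by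
      rw [le_div_iff₀ (by positivity)]
      (refine le_of_not_gt fun h_nl => ?_; linarith only [h_nl, a1, p8, a4, y1, y2, pi_le_four, pi_pos, mul_nonneg_of_nonpos_of_nonpos (Mathlib.Tactic.Linarith.sub_nonpos_of_le a1) (le_of_lt (Mathlib.Tactic.Linarith.sub_neg_of_lt h_nl)), mul_pos_of_neg_of_neg (Mathlib.Tactic.Linarith.sub_neg_of_lt p8) (Mathlib.Tactic.Linarith.sub_neg_of_lt h_nl), mul_nonneg_of_nonpos_of_nonpos (Mathlib.Tactic.Linarith.sub_nonpos_of_le a4) (le_of_lt (Mathlib.Tactic.Linarith.sub_neg_of_lt h_nl)), mul_nonneg_of_nonpos_of_nonpos (Mathlib.Tactic.Linarith.sub_nonpos_of_le y1) (Mathlib.Tactic.Linarith.sub_nonpos_of_le pi_le_four), mul_nonneg_of_nonpos_of_nonpos (le_of_lt (Mathlib.Tactic.Linarith.sub_neg_of_lt y2)) (Mathlib.Tactic.Linarith.sub_nonpos_of_le pi_le_four)])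
    have c2 := mul_le_mul_of_nonneg_right c1 (sq_nonneg (y - F.φ z.re))
    have c3 : (4 * t ^ 9) ^ 2 = 16 * t ^ 18 := by ring
    linarith only [b3, b4, c2]
  have p9 : 0 < t ^ 9 := pow_pos h.tpos 9
  have b6 := abs_le_of_sq_le_sq' b5 (by linarith only [p9])
  have b7 := d3_pow h.tpos h.tle 8 9 le_rfl
  have b8 := mono_v h hη (s := y - F.φ z.re - F.ht z) (z := z) (by linarith only [hz, p9, b6, b7, h, h.wle, b6.1])
    (by linarith only [a4, p9, b6, b7, b6.2])
  have e : z + (y - F.φ z.re - F.ht z : ℝ) * Complex.I = z.re + y * Complex.I := by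
    apply Complex.ext <;> simp [Frame.ht]
  rw [e] at b8
  rw [hy]
  exact (h.plat.ge _).trans b8

theorem tav_Bx (r : ℝ) (u : ℂ → ℝ) (z : ℂ) : tav r (fun ζ => Bx u ζ.re) z = Bt r u z.re := by
  simp only [Bt, tav, Complex.add_re, Complex.ofReal_re]

theorem sub_b (h : DH F μ K t w r η d u v) : SubOn (tav r v) univ := by
  refine ⟨(continuous_tav h.plat.cont h.rpos).continuousOn, fun z s hs _ => ?_⟩
  rw [ca_tav h.plat.cont h.rpos hs]
  linarith [pot_nonneg (ρ := den r v) (z := z) hs fun ζ _ => h.den_v ζ]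

theorem continuous_Bt (h : DH F μ K t w r η d u v) : Continuous (Bt r u) := by
  exact (continuous_tav (sp1_cB h) h.rpos).comp Complex.continuous_ofReal

theorem sub_Bt (h : DH F μ K t w r η d u v) : SubOn (fun z => Bt r u z.re) univ := by
  rw [← funext (tav_Bx r u)]
  refine ⟨(continuous_tav (sp1_cB h) h.rpos).continuousOn, fun z s hs _ => ?_⟩
  rw [ca_tav (sp1_cB h) h.rpos hs]
  have := h.rpos
  linarith only [hs, this, h, pot_nonneg (ρ := den r fun ζ => Bx u ζ.re) (z := z) hs fun ζ _ => mul_nonneg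
    (by positivity) (sub_nonneg.2 ((sub_Bx h.clean.sub h.clean.per).2 ζ r h.rpos (subset_univ _)))]

theorem Bt_close (h : DH F μ K t w r η d u v) (x : ℝ) : |Bt r u x - Bx u x| ≤ η * F.Φ x := by
  exact abs_tav_sub_le (sp1_cB h) h.rpos (z := x) fun ζ hζ =>
    md_Bx h.clean.cont h.clean.per h.mdu x (mem_univ _) ζ (hζ.trans h.rd)

theorem b_le_Bt (h : DH F μ K t w r η d u v) (z : ℂ) : tav r v z ≤ Bt r u z.re := by
  rw [← tav_Bx]
  exact tav_le h.plat.cont (sp1_cB h) h.rpos fun ζ _ => h.plat.le ζ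

theorem sub_psi (h : DH F μ K t w r η d u v) : SubOn (psi r u v) {z | F.ht z ≤ 1 / 4000} := by
  have c1 := continuous_tav (sp1_cB h) h.rpos
  have c2 := continuous_tav h.plat.cont h.rpos
  have e : psi r u v = fun z => tav r (fun ζ => Bx u ζ.re) z - tav r v z :=
    funext fun z => by rw [psi, tav_Bx]
  rw [e]
  refine ⟨(c1.sub c2).continuousOn, fun z s hs hb => ?_⟩
  have e1 := Real.circleAverage_fun_sub (i6_ci c1 z s) (i6_ci c2 z s)
  have e2 := ca_tav (sp1_cB h) h.rpos hs z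
  have e3 := ca_tav h.plat.cont h.rpos hs z
  have e4 := pot_nonneg (ρ := fun ζ => den r (fun ζ => Bx u ζ.re) ζ - den r v ζ) (z := z) hs
    fun ζ hζ => by
      have hζ' : F.ht ζ ≤ 1 / 4000 :=
        hb (Metric.mem_closedBall.2 (by rw [dist_eq_norm]; exact hζ.le))
      have := h.rpos
      refine sub_nonneg.2 (mul_le_mul_of_nonneg_left ?_ (by positivity))
      rcases (h.plat.le ζ).lt_or_eq with h1 | h1
      · rw [h.plat.free ζ hζ' h1, sub_self]
        exact sub_nonneg.2 ((sub_Bx h.clean.sub h.clean.per).2 ζ r h.rpos (subset_univ _))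
      · rw [h1]
        exact sub_le_sub_right (ca_le_of_le h.rpos.le (i6_ci h.plat.cont ζ r)
          (i6_ci (sp1_cB h) ζ r) fun ξ _ => h.plat.le ξ) _
  rw [i5_sub (continuous_den (sp1_cB h) r) (continuous_den h.plat.cont r)] at e4
  simp only [ca] at e2 e3 ⊢
  rw [e1, e2, e3]
  linarith

theorem psi_mono (h : DH F μ K t w r η d u v) (hη : η ≤ w * t ^ 18 / 16) {s : ℝ} (hs : w / 16 ≤ s)
    {z : ℂ} (hz : F.ht z + s ≤ 3 * t ^ 6 / 4) : psi r u v z ≤ psi r u v (z + s * Complex.I) := by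
  obtain ⟨p6, a1, p8, a4, p18, a5, e1, e2, m1⟩ := d2_num h
  rw [psi, psi, d3_re, ← tav_shift r v z]
  refine sub_le_sub_left (tav_le (h.plat.cont.comp (continuous_id.add continuous_const))
    h.plat.cont h.rpos fun ζ hζ => mono_v h hη hs (z := ζ) ?_) _
  linarith only [hz, p8, a4, a5, h, hζ, sp1_ht h hζ]

theorem psi_zero (h : DH F μ K t w r η d u v) (hη : η ≤ w * t ^ 18 / 16) {z : ℂ}
    (hz : F.ht z ≤ -t ^ 8) : psi r u v z = 0 := by
  have p8 : 0 < t ^ 8 := pow_pos h.tpos 8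
  have a := d3_pow h.tpos h.tle 8 18 (by norm_num)
  refine le_antisymm ?_ (sub_nonneg.2 (b_le_Bt h z))
  rw [psi, ← tav_Bx, sub_nonpos]
  refine tav_le (sp1_cB h) h.plat.cont h.rpos fun ζ hζ => (contact h hη ?_).ge
  linarith only [hz, p8, a, h, hζ, sp1_ht h hζ]

theorem psi_top (h : DH F μ K t w r η d u v) {z : ℂ} (hz : F.ht z = t ^ 6 / 4) :
    t ^ 12 / 200 * F.Φ z.re ≤ psi r u v z := by
  obtain ⟨p6, a1, p8, a4, p18, a5, e1, e2, m1⟩ := d2_num h
  have hΦ := F.Φ_pos z.re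
  have b1 := h.plat.up z (by linarith only [hz, p8, a4])
  have b2 := h.clean.Bge z.re
  have b3 := (abs_le.1 (Bt_close h z.re)).1
  have b4 := (abs_le.1 (h.close_v z)).2
  have b5 := d3_cos (x := t ^ 6 / 4) (abs_le.2 ⟨by linarith only [a1, p8, a4], by linarith only [a1, p8, a4]⟩)
  rw [Frame.M, hz] at b1
  have b6 := mul_le_mul_of_nonneg_left b5 hΦ.le
  have b7 := mul_le_mul_of_nonneg_right e1 hΦ.le
  have b8 : t ^ 18 ≤ t ^ 12 / 1000000 := by
    have := d3_pow h.tpos h.tle 12 13 le_rfl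
    have := d3_pow h.tpos h.tle 13 18 (by norm_num)
    linarith
  have b9 := mul_le_mul_of_nonneg_right b8 hΦ.le
  have b10 := mul_pos (pow_pos h.tpos 12) hΦ
  rw [show (t ^ 6 / 4) ^ 2 = t ^ 12 / 16 by ring] at b6
  rw [psi]
  linarith only [b1, b2, b3, b4, b6, b7, b9, b10]

theorem den_zero (h : DH F μ K t w r η d u v) {z : ℂ} (hz : F.ht z ≤ 1 / 4000)
    (hp : 2 * η * F.Φ z.re < psi r u v z) : den r v z = 0 := by
  have b3 := (abs_le.1 (Bt_close h z.re)).2
  have b4 := (abs_le.1 (h.close_v z)).1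
  rw [psi] at hp
  rw [den, h.plat.free z hz (by linarith only [hp, b3, b4]), sub_self, mul_zero]

theorem Bt_lip (h : DH F μ K t w r η d u v) {X x x' : ℝ} (hx : |x - X| ≤ 1 / 2)
    (hx' : |x' - X| ≤ 1 / 2) : |Bt r u x' - Bt r u x| ≤ 40 * F.Φ X * |x' - x| := by
  obtain ⟨p6, a1, p8, a4, p18, a5, e1, e2, m1⟩ := d2_num h
  have key := convex_lip (convex_of_sub (sub_Bt h)) (X := X) (A := 20 * F.Φ X)
    (fun y hy => ?_) hx hx'
  · linarith only [key]
  have hΦ := F.Φ_pos y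
  have b1 := abs_le.1 (Bt_close h y)
  have b2 := h.clean.Bge y
  have b3 := h.clean.toSubD.Ble y
  have b4 := (h.good.Φ_le (by linarith only [a1, p8, a4, m1]) hy).trans
    (mul_le_mul_of_nonneg_right s1_e2 (F.Φ_pos X).le)
  have b5 := mul_le_mul_of_nonneg_right (show η ≤ 1 / 4 by linarith only [a1, p8, a4, a5, e1]) hΦ.le
  have b6 := mul_le_mul_of_nonneg_right (show t ^ 18 ≤ 1 / 4 by linarith only [a1, p8, a4, a5]) hΦ.le
  constructor <;> linarith only [hΦ, b1, b2, b5, b6, b3, b4, b1.1, b1.2]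

end

end Pool.Agent.MinMod.St
end

-- merged part: Pool.Agent.Work.MP_f62247_an.St.RB
section
/-!
# A pole at no cost when the mass `S` is not small
Put `s = SS t S X > 0`, `h2 = 1/200000`, `yb = φ X - 7 t²/8`, `k = 4 C w s / h2²`, `W0 z = k ((re z - X)² - (im z - yb)²) + 2 k h2 (im z - yb)` (`mv_poly`, `sub_of_mv`), `p = X + (φ X + 3 t^6/4) I`, `r' = t^6/32`, `m = θ Φ X`,
`θ = min (t^6/32) (c w0 t s0 / (2 log (32/t^6)))`. Box `τ z ≤ 1`, `τ z = max (|re z - X| / h2) (|im z - yb - h2/2| / (h2/2))`; in it `|φ (re z) - φ X| ≤ t^18`, heights lie in `(-t², 1/100000)`, `W0 ≥ 0`, `‖z - p‖ ≤ 1`.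
`Q z = tav r v z + R0 z - W0 z + m lm p r' z`, `G z = if τ z ≤ 1 then max (GG z) (Q z) else GG z`. For `τ z = 1` and `ζ` near `z` in the box `Q ζ ≤ GG ζ`: near the bottom by `P2_low`, `a_le_GG`; near the sides and the top `W0 ≥ k h2²/2 ≥ C w s ≥ H` (`HT.hi`), `g2_le_GG`; `ite_right`.
For `τ z < 1`: `locSub_max`; if `GG z < Q z` then `a_w z < g2 z + H z` or `t^6/2 ≤ ht z` (`a_le_GG`), `P2_loc`, `LocSub.add`, `sub_lm`. On `ball p (2 r')` heights lie in `[t^6/2, t^6]`, `GG = g2 + 10 e Φ` (`d4_C`), `W0 ≤ k t² ≤ c w t s/4` for `t ≤ t0`,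
`m log (1/r') ≤ c w t s / 2`, `HT.lo`; so `G = Q` there and the pole condition follows with `subOn_of_loc`. `up`: `P2_le`, `cov`: `P2_dip`.
-/

open Real MeasureTheory Set Filter Topology

namespace Pool.Agent.MinMod.St

open Pool.Agent.MinMod.Mo

noncomputable section

/-- the harmonic polynomial -/
def srb_W (k X yb : ℝ) (z : ℂ) : ℝ :=
  0 + k * ((z.re - X) ^ 2 - (z.im - yb) ^ 2) + k / 100000 * (z.im - yb)

/-- the box -/
def srb_T (X yb : ℝ) (z : ℂ) : ℝ := max |z.re - X| (2 * |z.im - yb - 1 / 400000|)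

theorem srb_box {X yb : ℝ} {z : ℂ} : srb_T X yb z ≤ 1 / 200000 ↔
    |z.re - X| ≤ 1 / 200000 ∧ 0 ≤ z.im - yb ∧ z.im - yb ≤ 1 / 200000 := by
  rw [srb_T, max_le_iff]
  refine and_congr_right fun _ => ⟨fun h => ?_, fun h => ?_⟩
  · have := abs_le.1 (show |z.im - yb - 1 / 400000| ≤ 1 / 400000 by linarith only [h])
    constructor <;> linarith only [this, this.1, this.2]
  · have : |z.im - yb - 1 / 400000| ≤ 1 / 400000 := abs_le.2 ⟨by linarith only [h, h.1], by linarith only [h, h.2]⟩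
    linarith only [this]

theorem srb_edge {X yb a : ℝ} {z : ℂ} (ha : 0 < a) (h : srb_T X yb z = 1 / 200000) :
    ∀ᶠ ζ in 𝓝 z, ζ.im - yb < a ∨ 3 / 800000 < |ζ.re - X| ∨ 3 / 800000 < ζ.im - yb := by
  have c1 : Continuous fun ζ : ℂ => ζ.im - yb := by fun_prop
  have c2 : Continuous fun ζ : ℂ => |ζ.re - X| := by fun_prop
  rcases max_choice |z.re - X| (2 * |z.im - yb - 1 / 400000|) with k | k <;> rw [srb_T, k] at h
  · exact (continuousAt_const.eventually_lt c2.continuousAt (by linarith only [h])).mono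
      fun _ k => Or.inr (Or.inl k)
  · rcases abs_choice (z.im - yb - 1 / 400000) with k | k <;> rw [k] at h
    · exact (continuousAt_const.eventually_lt c1.continuousAt (by linarith only [h])).mono
        fun _ k => Or.inr (Or.inr k)
    · exact (c1.continuousAt.eventually_lt continuousAt_const (by linarith only [ha, h])).mono
        fun _ k => Or.inl k

theorem srb_W0 {k X yb : ℝ} {z : ℂ} (hk : 0 ≤ k) (h : srb_T X yb z ≤ 1 / 200000) :
    0 ≤ srb_W k X yb z ∧ (3 / 800000 < |z.re - X| ∨ 3 / 800000 < z.im - yb →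
      k / (8 * 10 ^ 10) ≤ srb_W k X yb z) := by
  obtain ⟨-, h2, h3⟩ := srb_box.1 h
  have e : srb_W k X yb z = k * (|z.re - X| ^ 2 + (z.im - yb) * (1 / 100000 - (z.im - yb))) := by
    rw [srb_W, sq_abs]
    ring
  have h4 : 0 ≤ (z.im - yb) * (1 / 100000 - (z.im - yb)) := mul_nonneg h2 (by linarith only [h3])
  rw [e]
  refine ⟨by positivity, fun h5 => ?_⟩
  rw [div_eq_mul_one_div]
  refine mul_le_mul_of_nonneg_left ?_ hk
  rcases h5 with h5 | h5
  · linarith only [h4, h5, mul_pos_of_neg_of_neg (Mathlib.Tactic.Linarith.sub_neg_of_lt h5) (Mathlib.Tactic.Linarith.sub_neg_of_lt h5)]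
  · linarith only [h5, h2, h3, sq_nonneg |z.re - X|, sq_nonneg |z.re - X|, mul_nonneg_of_nonpos_of_nonpos (Mathlib.Tactic.Linarith.sub_nonpos_of_le h2) (Mathlib.Tactic.Linarith.sub_nonpos_of_le h3)]

theorem srb_W1 {k X yb a : ℝ} {z : ℂ} (hk : 0 ≤ k) (h1 : |z.re - X| ≤ a) (h2 : z.im - yb ≤ a)
    (ha : a ≤ 1 / 2) : srb_W k X yb z ≤ k * a := by
  have e : srb_W k X yb z = k * (|z.re - X| ^ 2 - (z.im - yb) ^ 2 + (z.im - yb) / 100000) := by
    rw [srb_W, sq_abs]
    ring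
  rw [e]
  refine mul_le_mul_of_nonneg_left ?_ hk
  linarith only [h1, h2, ha, abs_nonneg (z.re - X), sq_nonneg (z.im - yb), sq_nonneg (z.im - yb), mul_nonneg_of_nonpos_of_nonpos (Mathlib.Tactic.Linarith.sub_nonpos_of_le h1) (Mathlib.Tactic.Linarith.sub_nonpos_of_le (abs_nonneg (z.re - X))), mul_nonneg_of_nonpos_of_nonpos (Mathlib.Tactic.Linarith.sub_nonpos_of_le ha) (Mathlib.Tactic.Linarith.sub_nonpos_of_le (abs_nonneg (z.re - X)))]

section
variable {F : Frame} {μ K t w r η d e K' X : ℝ} {u v S H : ℂ → ℝ}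

theorem srb_num (h : GH F μ K t w r η d e u v S H) : 0 < t ^ 2 ∧ t ^ 2 ≤ 1 / 1000000 ∧ 0 < t ^ 6 ∧
    t ^ 6 ≤ t ^ 2 / 1000 ∧ μ ≤ t ^ 2 / 1000 := by
  have h0 := h.dh.tpos
  have h1 := h.dh.tle
  exact ⟨by positivity, by linarith only [h1, h0, mul_nonneg_of_nonpos_of_nonpos (le_of_lt (Mathlib.Tactic.Linarith.sub_neg_of_lt h0)) (Mathlib.Tactic.Linarith.sub_nonpos_of_le h1)], by positivity, d3_pow h0 h1 2 6 (by norm_num),
    h.dh.mu.trans (d3_pow h0 h1 2 18 (by norm_num))⟩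

theorem srb_ht (h : GH F μ K t w r η d e u v S H) {z : ℂ}
    (hz : srb_T X (F.φ X - 7 * t ^ 2 / 8) z ≤ 1 / 200000) :
    -t ^ 2 < F.ht z ∧ F.ht z ≤ 1 / 100000 ∧
      F.ht z ≤ z.im - (F.φ X - 7 * t ^ 2 / 8) - 3 * t ^ 2 / 4 ∧
      ‖z - (X + (F.φ X + 3 * t ^ 6 / 4 : ℝ) * Complex.I)‖ ≤ 1 := by
  obtain ⟨t1, t2, t3, t4, t5⟩ := srb_num h
  obtain ⟨h1, h2, h3⟩ := srb_box.1 hz
  have h4 := (h.dh.good.φ_sub X z.re).trans
    (mul_le_of_le_one_right h.dh.good.nonneg (by linarith only [t2, t3, t4, h1]))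
  obtain ⟨h5, h6⟩ := abs_le.1 h4
  unfold Frame.ht
  refine ⟨by linarith only [t3, t4, t5, h2, h6], by linarith only [t2, t3, t4, t5, h3, h5], by linarith only [t3, t4, t5, h5],
    (Complex.norm_le_abs_re_add_abs_im _).trans ?_⟩
  have h7 : |z.im - (F.φ X + 3 * t ^ 6 / 4)| ≤ 1 / 2 := abs_le.2 ⟨by linarith only [t2, t3, t4, h2], by linarith only [t2, t3, t4, h3]⟩
  simp only [Complex.sub_re, Complex.sub_im, d4_re, Complex.ofReal_re, Complex.add_im,
    Complex.ofReal_im, Complex.mul_im, Complex.I_im, Complex.I_re, mul_one, mul_zero, add_zero,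
    zero_add]
  linarith only [t2, t3, t4, h1, h7]

theorem srb_ball (h : GH F μ K t w r η d e u v S H) {z : ℂ}
    (hz : z ∈ Metric.ball (X + (F.φ X + 3 * t ^ 6 / 4 : ℝ) * Complex.I) (2 * (t ^ 6 / 32))) :
    srb_T X (F.φ X - 7 * t ^ 2 / 8) z ≤ 1 / 200000 ∧ |z.re - X| ≤ t ^ 2 ∧
      z.im - (F.φ X - 7 * t ^ 2 / 8) ≤ t ^ 2 ∧ t ^ 6 / 2 ≤ F.ht z ∧ F.ht z ≤ t ^ 6 := by
  obtain ⟨t1, t2, t3, t4, t5⟩ := srb_num h
  rw [mem_ball_iff_norm] at hz
  have h1 := (Frame.f1_re _ z).trans hz.le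
  have h2 := (Frame.f1_im _ z).trans hz.le
  have h3 := h.dh.good.ht_sub (by linarith only [t2, t3, t4, t5]) (X + (F.φ X + 3 * t ^ 6 / 4 : ℝ) * Complex.I) z
  rw [F.ht_mk] at h3
  simp only [d4_re, Complex.ofReal_re, Complex.add_im,
    Complex.ofReal_im, Complex.mul_im, Complex.I_im, Complex.I_re, mul_one, mul_zero, add_zero,
    zero_add] at h1 h2
  obtain ⟨h4, h5⟩ := abs_le.1 h2
  obtain ⟨h6, h7⟩ := abs_le.1 h3
  exact ⟨srb_box.2 ⟨by linarith only [t2, t3, t4, h1], by linarith only [t3, t4, h4], by linarith only [t2, t3, t4, h5]⟩, by linarith only [t3, t4, h1], by linarith only [t3, t4, h5],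
    by linarith only [hz, t3, h6], by linarith only [hz, t3, h7]⟩

theorem srb_core (h : GH F μ K t w r η d e u v S H) {k θ : ℝ} (hk : 0 ≤ k) (hθ : 0 ≤ θ)
    (hθ1 : θ ≤ t ^ 6 / 32)
    (hi : ∀ z : ℂ, |z.re - X| ≤ 1 / 1000 → -t ^ 2 < F.ht z → F.ht z ≤ 1 / 100000 →
      H z ≤ k / (8 * 10 ^ 10))
    (lo : ∀ z : ℂ, |z.re - X| ≤ 1 / 1000 → -t ^ 2 < F.ht z → F.ht z ≤ t ^ 6 →
      k * t ^ 2 - θ * F.Φ X * Real.log (t ^ 6 / 32) ≤ H z)
    (hK : ∀ z, |GG F t w e r u v H z| ≤ K' * F.Φ z.re) :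
    ∃ (G : ℂ → ℝ) (p : ℂ) (r' : ℝ),
      Dip F (GG F t w e r u v H) (UU F η e u) K' (t ^ 6 / 2) X θ 0 G p r' := by
  obtain ⟨t1, t2, t3, t4, t5⟩ := srb_num h
  obtain ⟨yb, hyb⟩ : ∃ yb, yb = F.φ X - 7 * t ^ 2 / 8 := ⟨_, rfl⟩
  obtain ⟨p, hp⟩ : ∃ p : ℂ, p = X + (F.φ X + 3 * t ^ 6 / 4 : ℝ) * Complex.I := ⟨_, rfl⟩
  have hht := fun z => srb_ht (X := X) h (z := z)
  have hball := fun z => srb_ball (X := X) h (z := z)
  rw [← hyb, ← hp] at hht hball
  have r0 : 0 < t ^ 6 / 32 := by linarith only [t3]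
  have m0 : 0 ≤ θ * F.Φ X := mul_nonneg hθ (F.Φ_pos X).le
  have cT : Continuous (srb_T X yb) := by unfold srb_T; fun_prop
  have cW : Continuous (srb_W k X yb) := by unfold srb_W; fun_prop
  have cP : Continuous fun z => tav r v z + R0 F w e r u v z :=
    (continuous_tav h.dh.plat.cont h.dh.rpos).add (continuous_R0 h)
  have cL : Continuous fun z => θ * F.Φ X * lm p (t ^ 6 / 32) z :=
    continuous_const.mul (continuous_lm p r0)
  have lW : ∀ z : ℂ, -t ^ 2 < F.ht z → F.ht z ≤ 1 / 100000 →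
      (tav r u (z + w * Complex.I) < g2 F w e r u v H z + H z ∨ t ^ 6 / 2 ≤ F.ht z) →
      LocSub (fun ζ => tav r v ζ + R0 F w e r u v ζ + -srb_W k X yb ζ) z := fun z a1 a2 a3 =>
    (P2_loc h a1 (by linarith only [t2, t3, t4, a2]) a3).add
      ((sub_of_mv cW (mv_poly 0 k (k / 100000) X yb)).2.locSub univ_mem)
      (Eventually.of_forall fun _ => cP.continuousAt)
      (Eventually.of_forall fun _ => cW.neg.continuousAt)
  obtain ⟨Q, hQ⟩ : ∃ Q : ℂ → ℝ, Q = fun z => tav r v z + R0 F w e r u v z + -srb_W k X yb z +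
    θ * F.Φ X * lm p (t ^ 6 / 32) z := ⟨_, rfl⟩
  have cQ : Continuous Q := hQ ▸ (cP.add cW.neg).add cL
  have eQ : ∀ z, Q z = g2 F w e r u v H z + H z + 10 * e * F.Φ z.re - srb_W k X yb z +
      θ * F.Φ X * lm p (t ^ 6 / 32) z := fun z => by
    rw [hQ]
    linarith only [g2_eq F w e r u v H z]
  have Q1 : ∀ z, srb_T X yb z ≤ 1 / 200000 →
      Q z ≤ g2 F w e r u v H z + H z + 10 * e * F.Φ z.re - srb_W k X yb z := fun z hz => by
    linarith only [eQ, m0, r0, t2, t3, t4, hht, hz, eQ z, mul_nonpos_of_nonneg_of_nonpos m0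
      (lm_nonpos r0 (by linarith) (hht z hz).2.2.2)]
  have Q2 : ∀ z, srb_T X yb z ≤ 1 / 200000 →
      Q z ≤ g2 F w e r u v H z + H z + 10 * e * F.Φ z.re := fun z hz => by
    linarith only [Q1, hz, hk, Q1 z hz, (srb_W0 hk hz).1]
  obtain ⟨G, hG⟩ : ∃ G : ℂ → ℝ, G = fun z => if srb_T X yb z ≤ 1 / 200000 then
    max (GG F t w e r u v H z) (Q z) else GG F t w e r u v H z := ⟨_, rfl⟩
  have G1 : ∀ z, srb_T X yb z ≤ 1 / 200000 → G z = max (GG F t w e r u v H z) (Q z) :=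
    fun z hz => by rw [hG]; exact if_pos hz
  have G2 : ∀ z, ¬srb_T X yb z ≤ 1 / 200000 → G z = GG F t w e r u v H z :=
    fun z hz => by rw [hG]; exact if_neg hz
  have G3 : ∀ z, srb_T X yb z < 1 / 200000 →
      G =ᶠ[𝓝 z] fun z => max (GG F t w e r u v H z) (Q z) := fun z hz => hG ▸ ite_lt cT hz
  have G4 : ∀ z, ¬srb_T X yb z < 1 / 200000 → G =ᶠ[𝓝 z] GG F t w e r u v H := fun z hz => by
    rw [hG]
    rcases (not_lt.1 hz).eq_or_lt with k1 | k1
    · refine ite_right ((srb_edge (a := t ^ 2 / 4) (by linarith only [t3, t4]) k1.symm).mono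
        fun ζ k2 k3 => max_eq_left ?_)
      obtain ⟨a1, a2, a3, -⟩ := hht ζ k3
      rcases k2 with k2 | k2
      · linarith only [Q2, k3, h, a1, a3, k2, t3, t4, Q2 ζ k3, P2_low h a1 (by linarith), a_le_GG h (z := ζ) (by linarith)]
      · linarith only [Q1, k3, hk, k2, h, a1, hi, t2, t3, t4, a2, Q1 ζ k3, (srb_W0 hk k3).2 k2, g2_le_GG h a1,
          hi ζ (by linarith [(srb_box.1 k3).1]) a1 a2]
    · exact ite_gt cT k1
  have cG : Continuous G := continuous_iff_continuousAt.2 fun z => by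
    by_cases hz : srb_T X yb z < 1 / 200000
    · exact ((GG_cont h).max cQ).continuousAt.congr (G3 z hz).symm
    · exact (GG_cont h).continuousAt.congr (G4 z hz).symm
  have GQ : ∀ z ∈ Metric.ball p (2 * (t ^ 6 / 32)), G z = Q z := fun z hz => by
    obtain ⟨a1, a2, a3, a4, a5⟩ := hball z hz
    rw [G1 z a1]
    refine max_eq_right ?_
    have a6 := mul_le_mul_of_nonneg_left (lm_ge p r0 z) m0
    rw [GG, d4_C h a4, eQ]
    linarith only [a6, lo, t2, t3, t4, a2, a4, a5, hk, a3, lo z (by linarith) (by linarith) a5, srb_W1 hk a2 a3 (by linarith)]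
  refine ⟨G, p, t ^ 6 / 32, cG, fun z => ?_, fun z hz => G2 z fun k1 => ?_, fun z => ?_,
    fun z a1 a2 => ?_, fun z => ?_, ?_, ?_, hθ1, by linarith only [t2, t3, t4],
    subOn_of_loc (cG.sub cL).continuousOn fun z hz => ?_⟩
  · by_cases hz : srb_T X yb z < 1 / 200000
    · refine (locSub_max (fun _ => d4_loc h z) (fun k1 => ?_)
        (Eventually.of_forall fun _ => (GG_cont h).continuousAt)
        (Eventually.of_forall fun _ => cQ.continuousAt)).congr (G3 z hz).symm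
      obtain ⟨a1, a2, -, -⟩ := hht z hz.le
      have k2 : GG F t w e r u v H z < Q z := k1
      have k3 := Q2 z hz.le
      rw [hQ]
      refine (lW z a1 a2 ?_).add (((sub_lm p r0).smul m0).locSub univ_mem)
        (Eventually.of_forall fun _ => (cP.add cW.neg).continuousAt)
        (Eventually.of_forall fun _ => cL.continuousAt)
      rcases le_or_gt (t ^ 6 / 2) (F.ht z) with k4 | k4
      · exact Or.inr k4
      · exact Or.inl (by linarith only [k2, k3, h, t3, k4, a_le_GG h (z := z) (by linarith)])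
    · exact LocSub.congr (d4_loc h z) (G4 z hz).symm
  · obtain ⟨a1, a2, -, -⟩ := hht z k1
    rcases hz with hz | hz
    · linarith only [t2, t3, t4, hz, k1, (srb_box.1 k1).1]
    · linarith only [t2, t3, t4, hz, a1, a2, abs_le.2 (⟨by linarith, a2⟩ : -(1 / 100000) ≤ F.ht z ∧ F.ht z ≤ 1 / 100000)]
  · rw [zero_mul, add_zero]
    by_cases hz : srb_T X yb z ≤ 1 / 200000
    · rw [G1 z hz]
      refine max_le (GG_le h z) ?_
      rw [UU]
      linarith only [Q2, hz, h, Q2 z hz, P2_le h z]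
    · rw [G2 z hz]
      exact GG_le h z
  · rw [zero_mul, add_zero]
    by_cases hz : srb_T X yb z ≤ 1 / 200000
    · rw [G1 z hz]
      refine max_le le_rfl ?_
      have k1 := a_le_GG h (z := z) (by linarith only [t3, a1])
      have k2 := mul_pos (d4_small h).2.1 (F.Φ_pos z.re)
      linarith only [k1, Q2, hz, h, hht, a1, a2, k2, Q2 z hz, P2_dip h (hht z hz).1 a1 (by linarith)]
    · exact (G2 z hz).le
  · have k1 := (abs_le.1 (hK z)).1
    by_cases hz : srb_T X yb z ≤ 1 / 200000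
    · rw [G1 z hz]
      exact le_max_of_le_left (by linarith only [k1])
    · rw [G2 z hz]
      linarith only [k1]
  · rw [hp, d4_re, Complex.ofReal_re, sub_self, abs_zero]
    norm_num
  · rw [hp, F.ht_mk, add_sub_cancel_left, abs_of_pos (by linarith only [t3])]
    linarith only [t2, t3, t4]
  · obtain ⟨a1, -, -, a4, a5⟩ := hball z hz
    refine (lW z (by linarith only [t3, t4, a4]) (by linarith only [t2, t3, t4, a5]) (Or.inr a4)).congr ?_
    filter_upwards [Metric.isOpen_ball.mem_nhds hz] with ζ hζ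
    rw [GQ ζ hζ, hQ]
    ring

end

theorem dipB {c C : ℝ} (hc : 0 < c) (hC : 0 < C) : ∃ t0 : ℝ, 0 < t0 ∧ ∀ t w0 s0 : ℝ, 0 < t → t ≤ t0 →
    0 < w0 → 0 < s0 → ∃ θ : ℝ, 0 < θ ∧ θ ≤ 1 / 1000 ∧
    ∀ (F : Frame) (μ K w r η d e K' X : ℝ) (u v S H : ℂ → ℝ), GH F μ K t w r η d e u v S H →
      HT F t w c C S H → w0 ≤ w → s0 * F.Φ X ≤ SS t S X →
      (∀ z, |GG F t w e r u v H z| ≤ K' * F.Φ z.re) →
      ∃ (G : ℂ → ℝ) (p : ℂ) (r' : ℝ),
        Dip F (GG F t w e r u v H) (UU F η e u) K' (t ^ 6 / 2) X θ 0 G p r' := by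
  refine ⟨min (1 / 1000) (c / (32 * 10 ^ 10 * C)), by positivity, fun t w0 s0 ht ht0 hw0 hs0 => ?_⟩
  have t1 : t ≤ 1 / 1000 := ht0.trans (min_le_left _ _)
  have t2 : t * (32 * 10 ^ 10 * C) ≤ c := (le_div_iff₀ (by positivity)).1 (ht0.trans (min_le_right _ _))
  obtain ⟨-, -, t3, t4, -⟩ := d4_t ht t1
  have hl : 0 < -Real.log (t ^ 6 / 32) := neg_pos.2 (Real.log_neg (by linarith only [t3]) (by linarith only [ht, t1, t4]))
  refine ⟨min (t ^ 6 / 32) (c * w0 * t * s0 / 2 / -Real.log (t ^ 6 / 32)), by positivity,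
    (min_le_left _ _).trans (by linarith only [ht, t1, t4]),
    fun F μ K w r η d e K' X u v S H h hT hw hs hK => ?_⟩
  have p0 := F.Φ_pos X
  have w1 := h.dh.wpos
  have s1 : 0 < SS t S X := lt_of_lt_of_le (by positivity) hs
  refine srb_core h (k := 8 * 10 ^ 10 * (C * w * SS t S X)) (by positivity) (by positivity)
    (min_le_left _ _) (fun z a1 a2 a3 => (hT.hi X z a1 a2 a3).trans_eq (by ring))
    (fun z a1 a2 a3 => le_trans ?_ (hT.lo X z a1 a2 a3)) hK
  have k1 := (le_div_iff₀ hl).1 (min_le_right (t ^ 6 / 32)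
    (c * w0 * t * s0 / 2 / -Real.log (t ^ 6 / 32)))
  have k2 := mul_le_mul_of_nonneg_right k1 p0.le
  have k3 : c * t * (w0 * (s0 * F.Φ X)) ≤ c * t * (w * SS t S X) := by gcongr
  have k4 := mul_le_mul_of_nonneg_right t2 (show 0 ≤ w * t * SS t S X by positivity)
  have k5 : 0 ≤ c * w * t * SS t S X := by positivity
  linarith only [k2, k3, k4, k5]

end

end Pool.Agent.MinMod.St
end
end
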