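import Pool.Agent.Work.MP_f62247_an.Mo.K3
import Pool.Agent.Work.MP_f62247_an.Mo.J6
import Pool.Agent.Work.MP_f62247_an.Mo.E5
import Pool.Agent.Work.MP_f62247_an.FinB
import Pool.Agent.Work.MP_f62247_an.BadB
import Pool.Agent.Work.MP_f62247_an.Mo.B4
import Pool.Agent.Work.MP_f62247_an.Mo.C6
import Pool.Agent.Work.MP_f62247_an.St.RB
import Pool.Agent.Work.MP_f62247_an.FinC
import Pool.Agent.Work.MP_f62247_an.St.RA3
import Pool.Agent.Work.MP_f62247_an.St.W5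

-- merged part: Pool.Agent.Work.MP_f62247_an.Mo.A4
section
/-!
# Choice of the tooth: a lemma on two sequences
A time `j ≤ N` is a storm if `μ c j < l j`, calm otherwise, deep if `l j ≤ μ2 c j`, `μ2 = c2 μ / (8Γ)`; `μ1' = μ/Γ`. Assume there is no tooth.
`stretch`: if no time in `[j, m)` is deep then `log (l m) - log (l j) ≥ 2 e (m - j) - 1` (blocks of length `T2`, `2 e T2 ≤ log (1 + min c0 1) ≤ 1`).
`descent`: `a` a storm, `b > a` the first time with `l b ≤ μ1' c b`, calm on `(a, b]`. `c (a+1) ≤ 2 l a / μ`. From a time `j ∈ (a, b)` to the first `j' > j` with `2 l j ≤ l j'` or `j' = b` there are at most `n0 c j / l j + 2` steps (`dbl`), so `c j' ≤ D c j`, `D = 1 + 2 C n0 + 4 C`. Hence `l k < 2^m l (a+1)` implies `c k ≤ D^(m) c (a+1)`-type bound for `a < k ≤ b`; since `c b ≥ Γ l a / μ`, `l b ≥ 2^m l a` as soon as `Γ > 2 D^(m+1)`.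
`excursion`: `a` a storm, `t > a` deep, calm on `(a, t]`. With `n* = ⌊1/(4 C μ)⌋₊`, on `[b, b + n*]` the value of `c` stays within a factor 2 and `l ≥ l b ≥ μ1' c b / 2`, so no time there is deep and `b + n* < t`. Some window `[s - R, s + R] ⊆ [b, b + n*]` is slow, otherwise `l (b + n*) ≥ (1+θ)^⌊n*/(2R)⌋ l b ≥ 8 Γ l b` is a storm.
`c t ≥ 2 c s` forces `t - s ≥ 1/(2 C μ) ≥ Tb`. No tooth: `log (c t / c s) + 1 > e (t - s)`. With `e n* ≤ 1`, the mean of `stretch` and `descent` on `[a, b]`: `log (μ2 c t) ≥ log (l a) + e (t - a) + 5`.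
Strong induction: every storm `a` has `log (l a) ≥ log (l 0) + e a - 1` (last deep time `t < a`, last storm before `t`, `l (t+1) > μ2 c (t+1) ≥ μ2 c t / 2`, `stretch`); the same argument at `N`.
-/

open Real MeasureTheory Set Filter Topology

namespace Pool.Agent.MinMod.Mo

noncomputable section

structure TSeq (C n0 Γ μ μ2 c0 : ℝ) (T2 N : ℕ) (l c : ℕ → ℝ) : Prop where
  c_nonneg : ∀ j, 0 ≤ c j
  mono : ∀ i j, i ≤ j → j ≤ N → l i ≤ l j
  step : ∀ j, |c (j + 1) - c j| ≤ C * l j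
  grow : ∀ j, j + T2 ≤ N → μ2 * c j ≤ l j → (1 + c0) * l j ≤ l (j + T2)
  dbl : ∀ j n : ℕ, j + n ≤ N → 0 < c j → μ / Γ * c j ≤ l j → (∀ k ≤ n, l (j + k) ≤ μ * c (j + k)) →
    n0 * c j ≤ n * l j → 2 * l j ≤ l (j + n)
  pos : 0 < l 0
  storm : μ * c 0 < l 0

structure IsTooth (Γ μ c2 θ e : ℝ) (R Tb N : ℕ) (l c : ℕ → ℝ) (s t : ℕ) : Prop where
  Rs : R ≤ s
  sR : s + R ≤ t
  sT : s + Tb ≤ t
  tN : t ≤ N
  calm : ∀ k, s ≤ k → k ≤ t → 0 < c k ∧ l k ≤ μ * c k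
  slow : l (s + R) ≤ (1 + θ) * l (s - R)
  start : μ / (8 * Γ) * c s ≤ l s
  fin : l t * c s ≤ c2 * l s * c t
  rate : Real.log (c t / c s) + 1 ≤ e * ((t : ℝ) - s)

section

variable {C n0 Γ μ μ2 c0 : ℝ} {T2 N : ℕ} {l c : ℕ → ℝ}

theorem a4_pos (h : TSeq C n0 Γ μ μ2 c0 T2 N l c) {j : ℕ} (hj : j ≤ N) : 0 < l j :=
  h.pos.trans_le (h.mono 0 j j.zero_le hj)

theorem a4_drift (h : TSeq C n0 Γ μ μ2 c0 T2 N l c) (hC : 0 ≤ C) {A : ℝ} (j n : ℕ)
    (hA : ∀ i, j ≤ i → i < j + n → l i ≤ A) : |c (j + n) - c j| ≤ n * (C * A) := by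
  induction n with
  | zero => simp
  | succ n ih =>
    have h1 := ih fun i h1 h2 => hA i h1 (by omega)
    have h2 := (h.step (j + n)).trans
      (mul_le_mul_of_nonneg_left (hA (j + n) (by omega) (by omega)) hC)
    have h3 := abs_sub_le (c (j + n + 1)) (c (j + n)) (c j)
    rw [← add_assoc]
    push_cast
    linarith only [h1, h2, h3]

theorem a4_slow (h : TSeq C n0 Γ μ μ2 c0 T2 N l c) (hC : 0 ≤ C) (hμ : 0 ≤ μ) (j n : ℕ)
    (hn : 4 * C * μ * n ≤ 1) (hc : ∀ i, j ≤ i → i < j + n → l i ≤ μ * c i) :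
    |c (j + n) - c j| ≤ c j / 2 := by
  induction n using Nat.strong_induction_on with
  | _ n ih =>
    have c0 := h.c_nonneg j
    have h1 := a4_drift h hC (A := μ * (2 * c j)) j n fun i h1 h2 => by
      obtain ⟨k, rfl⟩ := Nat.exists_eq_add_of_le h1
      have hk : (k : ℝ) ≤ n := by exact_mod_cast (by omega : k ≤ n)
      have h3 := ih k (by omega)
        (le_trans (mul_le_mul_of_nonneg_left hk (by positivity)) hn) fun i h1 h2 =>
          hc i h1 (by omega)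
      exact (hc _ h1 h2).trans
        (mul_le_mul_of_nonneg_left (by linarith only [c0, h3, (abs_le.1 h3).2]) hμ)
    linarith only [h1, hn, c0, mul_le_mul_of_nonneg_right hn c0]

theorem a4_stretch (h : TSeq C n0 Γ μ μ2 c0 T2 N l c) {e : ℝ} (he : 0 ≤ e) (hT : 1 ≤ T2)
    (h1 : 2 * e * T2 ≤ 1) (h2 : exp (2 * e * T2) ≤ 1 + c0) (n : ℕ) : ∀ j, j + n ≤ N →
    (∀ i, j ≤ i → i < j + n → μ2 * c i ≤ l i) → l j * exp (2 * e * n - 1) ≤ l (j + n) := by
  induction n using Nat.strong_induction_on with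
  | _ n ih =>
    intro j hj hd
    have p := a4_pos h (by omega : j ≤ N)
    rcases lt_or_ge n T2 with hn | hn
    · have h3 : (n : ℝ) ≤ T2 := by exact_mod_cast hn.le
      have h4 : exp (2 * e * n - 1) ≤ 1 := exp_le_one_iff.2 (by linarith only [h1, he, h3, mul_nonneg_of_nonpos_of_nonpos (Mathlib.Tactic.Linarith.sub_nonpos_of_le he) (Mathlib.Tactic.Linarith.sub_nonpos_of_le h3)])
      exact (mul_le_of_le_one_right p.le h4).trans (h.mono _ _ (by omega) hj)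
    · obtain ⟨k, rfl⟩ := Nat.exists_eq_add_of_le hn
      have h3 := ih k (by omega) (j + T2) (by omega) fun i h1 h2 => hd i (by omega) (by omega)
      have h4 := h.grow j (by omega) (hd j le_rfl (by omega))
      have h5 := (mul_le_mul_of_nonneg_right h2 p.le).trans h4
      rw [← add_assoc]
      refine le_trans ?_ h3
      refine le_trans (le_of_eq ?_) (mul_le_mul_of_nonneg_right h5 (exp_pos _).le)
      rw [mul_comm _ (l j), mul_assoc (l j), ← exp_add]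
      congr 2
      push_cast
      ring

theorem a4_step (h : TSeq C n0 Γ μ μ2 c0 T2 N l c) (hC : 0 ≤ C) (hn : 0 ≤ n0) (hμ : 0 < μ)
    (hμ1 : μ ≤ 1) {j j' : ℕ} (hj : j ≤ j') (hN : j' ≤ N) (hs : j < j' → μ / Γ * c j ≤ l j)
    (hc : ∀ i, j ≤ i → i ≤ j' → l i ≤ μ * c i) (hl : ∀ i, j ≤ i → i < j' → l i < 2 * l j) :
    c j' ≤ (1 + 2 * C * n0 + 2 * C) * c j := by
  have p := a4_pos h (hj.trans hN)
  have c1 := hc j le_rfl hj
  have c0 : 0 < c j := (mul_pos_iff_of_pos_left hμ).1 (p.trans_le c1)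
  obtain ⟨k, rfl⟩ := Nat.exists_eq_add_of_le hj
  have hk : k ≤ ⌈n0 * c j / l j⌉₊ := by
    by_contra hk
    have := h.dbl j ⌈n0 * c j / l j⌉₊ (by omega) c0 (hs (by omega))
      (fun i hi => hc _ (by omega) (by omega)) ((div_le_iff₀ p).1 (Nat.le_ceil _))
    exact absurd (hl _ (by omega) (by omega)) (not_lt.2 this)
  have h1 : (k : ℝ) ≤ n0 * c j / l j + 1 :=
    (Nat.cast_le.2 hk).trans (Nat.ceil_lt_add_one (by positivity)).le
  have h2 : (k : ℝ) * l j ≤ n0 * c j + l j := by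
    have := mul_le_mul_of_nonneg_right h1 p.le
    rwa [add_mul, div_mul_cancel₀ _ p.ne', one_mul] at this
  have h3 := (abs_le.1 (a4_drift h hC j k fun i h1 h2 => (hl i h1 h2).le)).2
  have h4 : l j ≤ c j := c1.trans (mul_le_of_le_one_left c0.le hμ1)
  linarith only [h3, h2, hC, h4, mul_le_mul_of_nonneg_left h2 hC, mul_le_mul_of_nonneg_left h4 hC]

theorem a4_desc (h : TSeq C n0 Γ μ μ2 c0 T2 N l c) (hC : 0 ≤ C) (hn : 0 ≤ n0) (hμ : 0 < μ)
    (hμ1 : μ ≤ 1) {k : ℕ} (hN : k ≤ N) (m : ℕ) : ∀ j, j ≤ k →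
    (∀ i, j ≤ i → i < k → μ / Γ * c i ≤ l i) → (∀ i, j ≤ i → i ≤ k → l i ≤ μ * c i) →
    l k < 2 ^ m * l j → c k ≤ (1 + 2 * C * n0 + 2 * C) ^ m * c j := by
  have D1 : 1 ≤ 1 + 2 * C * n0 + 2 * C := by linarith only [hC, hn, mul_nonneg hC hn]
  induction m with
  | zero =>
    intro j hj _ _ hl
    have := h.mono j k hj hN
    linarith
  | succ m ih =>
    intro j hj hs hc hl
    by_cases hx : ∃ i, j ≤ i ∧ i ≤ k ∧ 2 * l j ≤ l i
    · classical
      obtain ⟨h1, h2, h3⟩ := Nat.find_spec hx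
      have h4 := a4_step h hC hn hμ hμ1 h1 (h2.trans hN) (fun h => hs j le_rfl (by omega))
        (fun i a b => hc i a (by omega)) fun i a b =>
          not_le.1 fun h => Nat.find_min hx b ⟨a, by omega, h⟩
      have h5 := ih _ h2 (fun i a b => hs i (by omega) b) (fun i a b => hc i (by omega) b)
        (hl.trans_le (by
          rw [pow_succ, mul_assoc]
          exact mul_le_mul_of_nonneg_left h3 (by positivity)))
      rw [pow_succ, mul_assoc]
      exact h5.trans (mul_le_mul_of_nonneg_left h4 (by positivity))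
    · have h4 := a4_step h hC hn hμ hμ1 hj hN (fun h => hs j le_rfl h) hc fun i a b =>
        not_le.1 fun h => hx ⟨i, a, b.le, h⟩
      refine h4.trans (mul_le_mul_of_nonneg_right ?_ (h.c_nonneg j))
      exact le_self_pow₀ D1 (by omega)

theorem a4_descent (h : TSeq C n0 Γ μ μ2 c0 T2 N l c) (hC : 1 ≤ C) (hn : 0 ≤ n0) (hμ : 0 < μ)
    (hμ1 : C * μ ≤ 1) {m : ℕ} (hΓ : 2 * (1 + 2 * C * n0 + 2 * C) ^ m < Γ) {a b : ℕ} (hab : a < b)
    (hN : b ≤ N) (ha : μ * c a < l a) (hb : l b ≤ μ / Γ * c b)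
    (hs : ∀ i, a < i → i < b → μ / Γ * c i ≤ l i) (hc : ∀ i, a < i → i ≤ b → l i ≤ μ * c i) :
    2 ^ m * l a ≤ l b := by
  by_contra hx
  have p := a4_pos h (hab.le.trans hN)
  have D0 : 0 < (1 + 2 * C * n0 + 2 * C) ^ m := by positivity
  have h1 := a4_desc h (by linarith only [hC]) hn hμ (by linarith only [hμ1, hC, hμ, mul_nonneg_of_nonpos_of_nonpos (Mathlib.Tactic.Linarith.sub_nonpos_of_le hC) (le_of_lt (Mathlib.Tactic.Linarith.sub_neg_of_lt hμ))]) hN m (a + 1) hab hs hc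
    ((not_le.1 hx).trans_le
      (mul_le_mul_of_nonneg_left (h.mono a (a + 1) (by omega) (by omega)) (by positivity)))
  have h2 := (abs_le.1 (h.step a)).2
  have h3 : μ * c (a + 1) ≤ 2 * l a := by
    linarith only [ha, h2, hμ, hμ1, p, mul_le_mul_of_nonneg_left h2 hμ.le, mul_le_mul_of_nonneg_right hμ1 p.le]
  have h4 := (h.mono a b hab.le hN).trans hb
  rw [div_mul_eq_mul_div, le_div_iff₀ (by linarith only [hΓ, D0])] at h4
  generalize (1 + 2 * C * n0 + 2 * C) ^ m = D at *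
  linarith only [h4, h1, hμ, h3, D0, hΓ, p, mul_le_mul_of_nonneg_left h1 hμ.le, mul_le_mul_of_nonneg_left h3 D0.le,
    mul_lt_mul_of_pos_left hΓ p]

theorem a4_window {θ : ℝ} (hθ : 0 < θ) (f : ℕ → ℝ) (Q : ℕ) :
    (∃ q < Q, f (q + 1) ≤ (1 + θ) * f q) ∨ (1 + θ) ^ Q * f 0 ≤ f Q := by
  induction Q with
  | zero => simp
  | succ Q ih =>
    rcases ih with ⟨q, h1, h2⟩ | h
    · exact Or.inl ⟨q, by omega, h2⟩
    · rcases le_total (f (Q + 1)) ((1 + θ) * f Q) with h1 | h1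
      · exact Or.inl ⟨Q, by omega, h1⟩
      · refine Or.inr (le_trans ?_ h1)
        rw [pow_succ', mul_assoc]
        exact mul_le_mul_of_nonneg_left h (by linarith)

/-- from the first shallow time to a deep time -/
theorem a4_tooth {c2 θ e ν : ℝ} {R Tb Q : ℕ} (h : TSeq C n0 Γ μ μ2 c0 T2 N l c)
    (hC : 1 ≤ C) (hc : 0 < c2) (hc1 : c2 ≤ 1 / 2) (hθ : 0 < θ) (ν0 : 0 < ν) (ν1 : μ = ν * Γ)
    (hμ1 : 4 * C * μ * ((2 * R * Q : ℕ) + Tb + 1) ≤ 1) (hΓ1 : 1 ≤ Γ)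
    (hQ : 4 * Γ ≤ (1 + θ) ^ Q) (he : 0 ≤ e) (e3 : e * (2 * R * Q : ℕ) ≤ 1)
    (no : ¬∃ s t, IsTooth Γ μ c2 θ e R Tb N l c s t) {b t : ℕ} (hbt : b ≤ t) (hN : t ≤ N)
    (b1 : ν * c b ≤ 2 * l b) (ht : l t ≤ c2 * ν / 8 * c t)
    (calm : ∀ i, b ≤ i → i ≤ t → l i ≤ μ * c i) :
    exp (e * ((t : ℝ) - b) - 2) * c b ≤ 2 * c t := by
  have hμ : 0 < μ := by rw [ν1]; positivity
  have ν3 : μ / (8 * Γ) = ν / 8 := by rw [ν1]; field_simp
  have ν5 : c2 * ν / 8 ≤ ν / 16 := by linarith only [hc1, ν0, mul_nonneg_of_nonpos_of_nonpos (Mathlib.Tactic.Linarith.sub_nonpos_of_le hc1) (le_of_lt (Mathlib.Tactic.Linarith.sub_neg_of_lt ν0))]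
  have cp : ∀ i, b ≤ i → i ≤ t → 0 < c i := fun i h1 h2 =>
    (mul_pos_iff_of_pos_left hμ).1 ((a4_pos h (h2.trans hN)).trans_le (calm i h1 h2))
  have C0 : 0 ≤ 4 * C * μ := by positivity
  have sl : ∀ j n : ℕ, b ≤ j → j + n ≤ t → n ≤ 2 * R * Q + Tb + 1 → |c (j + n) - c j| ≤ c j / 2 := by
    intro j n h1 h2 h3
    have h4 : (n : ℝ) ≤ (2 * R * Q : ℕ) + Tb + 1 := by exact_mod_cast h3
    exact a4_slow h (by linarith only [hC, hc, hc1]) hμ.le j n ((mul_le_mul_of_nonneg_left h4 C0).trans hμ1)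
      fun i h5 h6 => calm i (by omega) (by omega)
  have pb := a4_pos h (hbt.trans hN)
  have cb := cp b le_rfl hbt
  have ct := cp t hbt le_rfl
  have b2 : ∀ n : ℕ, b + n ≤ t → n ≤ 2 * R * Q → ν * c (b + n) ≤ 3 * l (b + n) := by
    intro n h1 h2
    have h3 := (abs_le.1 (sl b n le_rfl h1 (by omega))).2
    have h4 := h.mono b (b + n) (by omega) (by omega)
    linarith only [b1, h4, h3, ν0, mul_le_mul_of_nonneg_left h3 ν0.le]
  have b3 : b + 2 * R * Q < t := by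
    by_contra hx
    obtain ⟨n, rfl⟩ := Nat.exists_eq_add_of_le hbt
    have h1 := b2 n le_rfl (by omega)
    linarith only [ht, h1, ν5, ct, ν0, mul_le_mul_of_nonneg_right ν5 ct.le, mul_pos ν0 ct]
  obtain ⟨q, hq, slow⟩ : ∃ q < Q, l (b + 2 * R * (q + 1)) ≤ (1 + θ) * l (b + 2 * R * q) := by
    refine (a4_window hθ (fun q => l (b + 2 * R * q)) Q).resolve_right fun h1 => ?_
    have h2 := calm (b + 2 * R * Q) (by omega) b3.le
    have h3 := (abs_le.1 (sl b (2 * R * Q) le_rfl b3.le (by omega))).2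
    have h4 := mul_le_mul_of_nonneg_right hQ pb.le
    simp only [mul_zero, add_zero] at h1
    have h5 : μ * c b ≤ 2 * Γ * l b := by
      rw [ν1]; linarith only [b1, hc, hc1, hΓ1, mul_le_mul_of_nonneg_left b1 (by linarith : 0 ≤ Γ)]
    linarith only [h2, h4, h1, h5, h3, hμ, cb, mul_le_mul_of_nonneg_left h3 hμ.le, mul_pos hμ cb]
  have q1 : 2 * R * (q + 1) ≤ 2 * R * Q := Nat.mul_le_mul_left _ hq
  obtain ⟨n, hn1, hn2, hn3⟩ : ∃ n, n = 2 * R * q + R ∧ 2 * R * (q + 1) = n + R ∧ n + R ≤ 2 * R * Q :=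
    ⟨_, rfl, by ring, le_trans (le_of_eq (by ring)) q1⟩
  have cs := cp (b + n) (by omega) (by omega)
  have ps := a4_pos h (by omega : b + n ≤ N)
  have s1 := b2 n (by omega) (by omega)
  have s0 : ν / 8 * c (b + n) ≤ l (b + n) := by linarith only [ps, s1]
  have s2 : l t * c (b + n) ≤ c2 * l (b + n) * c t := by
    linarith only [ht, cs, s0, hc, ct, mul_le_mul_of_nonneg_right ht cs.le,
      mul_le_mul_of_nonneg_left s0 (mul_pos hc ct).le]
  have s3 : b + n + Tb ≤ t := by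
    by_contra hx
    obtain ⟨k, rfl⟩ := Nat.exists_eq_add_of_le (by omega : b + n ≤ t)
    have h1 := (abs_le.1 (sl (b + n) k (by omega) le_rfl (by omega))).2
    have h2 := mul_le_mul_of_nonneg_right (h.mono (b + n) (b + n + k) (by omega) hN) cs.le
    have h3 : c (b + n) ≤ c2 * c (b + n + k) := le_of_mul_le_mul_left (by linarith only [s2, h2]) ps
    linarith only [cs, h1, h3, hc1, ct, mul_le_mul_of_nonneg_right hc1 ct.le]
  have s4 : e * ((t : ℝ) - (b + n : ℕ)) - 1 ≤ Real.log (c t / c (b + n)) := by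
    by_contra hx
    refine no ⟨b + n, t, by omega, by omega, s3, hN, fun k h1 h2 =>
      ⟨cp k (by omega) h2, calm k (by omega) h2⟩, ?_, ν3 ▸ s0, s2, by linarith only [hx]⟩
    rwa [hn2, ← add_assoc, show b + 2 * R * q = b + n - R by omega] at slow
  rw [Real.le_log_iff_exp_le (by positivity), le_div_iff₀ cs] at s4
  have s5 : c b ≤ 2 * c (b + n) := by
    linarith only [sl, b3, q1, hn1, hn2, (abs_le.1 (sl b n le_rfl (by omega) (by omega))).1]
  have s9 : exp (e * ((t : ℝ) - b) - 2) ≤ exp (e * ((t : ℝ) - (b + n : ℕ)) - 1) := by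
    have h1 : (n : ℝ) ≤ (2 * R * Q : ℕ) := by exact_mod_cast (by omega : n ≤ 2 * R * Q)
    have h2 := mul_le_mul_of_nonneg_left h1 he
    rw [exp_le_exp, Nat.cast_add]
    linarith only [e3, h2]
  linarith only [s4, s9, s5, cb, mul_le_mul s9 s5 cb.le (exp_pos _).le]

/-- from a storm to a deep time -/
theorem a4_exc {c2 θ e : ℝ} {R Tb m Q : ℕ} (h : TSeq C n0 Γ μ (c2 * μ / (8 * Γ)) c0 T2 N l c)
    (hC : 1 ≤ C) (hn : 0 ≤ n0) (hc : 0 < c2) (hc1 : c2 ≤ 1 / 2) (hθ : 0 < θ) (hμ : 0 < μ)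
    (hμ1 : 4 * C * μ * ((2 * R * Q : ℕ) + Tb + 1) ≤ 1) (Cμ : 4 * C * μ ≤ 1) (hΓ1 : 1 ≤ Γ)
    (hΓ : 2 * (1 + 2 * C * n0 + 2 * C) ^ m < Γ) (hm : (32 * exp 4 / c2) ^ 2 * exp 1 ≤ 2 ^ m)
    (hQ : 4 * Γ ≤ (1 + θ) ^ Q) (he : 0 ≤ e) (hT : 1 ≤ T2) (e1 : 2 * e * T2 ≤ 1)
    (e2 : exp (2 * e * T2) ≤ 1 + c0) (e3 : e * (2 * R * Q : ℕ) ≤ 1)
    (no : ¬∃ s t, IsTooth Γ μ c2 θ e R Tb N l c s t) {a t : ℕ} (hat : a < t) (hN : t ≤ N)
    (ha : μ * c a < l a) (ht : l t ≤ c2 * μ / (8 * Γ) * c t)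
    (calm : ∀ i, a < i → i ≤ t → l i ≤ μ * c i) :
    2 * exp 2 * (l a * exp (e * ((t : ℝ) - a))) ≤ c2 * μ / (8 * Γ) * c t := by
  classical
  obtain ⟨ν, hν⟩ : ∃ ν, ν = μ / Γ := ⟨_, rfl⟩
  have ν0 : 0 < ν := by rw [hν]; positivity
  have ν1 : μ = ν * Γ := by rw [hν]; field_simp
  have ν2 : c2 * μ / (8 * Γ) = c2 * ν / 8 := by rw [hν]; field_simp
  have ν4 : ν ≤ μ := ν1 ▸ le_mul_of_one_le_right ν0.le hΓ1
  have ν5 : c2 * ν / 8 ≤ ν := by linarith only [ν0, hc1, mul_le_mul_of_nonneg_right hc1 ν0.le]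
  have cn := h.c_nonneg
  have ν6 : ∀ i, c2 * ν / 8 * c i ≤ ν * c i := fun i => mul_le_mul_of_nonneg_right ν5 (cn i)
  rw [ν2] at ht ⊢
  have hx : ∃ b, a < b ∧ l b ≤ ν * c b := ⟨t, hat, ht.trans (ν6 t)⟩
  obtain ⟨b, hab, hb, hbt, hs⟩ : ∃ b, a < b ∧ l b ≤ ν * c b ∧ b ≤ t ∧
      ∀ i, a ≤ i → i < b → ν * c i ≤ l i := by
    refine ⟨Nat.find hx, (Nat.find_spec hx).1, (Nat.find_spec hx).2,
      Nat.find_min' hx ⟨hat, ht.trans (ν6 t)⟩, fun i h1 h2 => ?_⟩
    rcases h1.eq_or_lt with rfl | h1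
    · exact (mul_le_mul_of_nonneg_right ν4 (cn a)).trans ha.le
    · exact (not_le.1 fun h => Nat.find_min hx h2 ⟨h1, h⟩).le
  have pa := a4_pos h (hat.le.trans hN)
  have pb := a4_pos h (hbt.trans hN)
  have b1 : ν * c b ≤ 2 * l b := by
    obtain ⟨k, rfl⟩ : ∃ k, b = k + 1 := ⟨b - 1, by omega⟩
    have h1 := (abs_le.1 (h.step k)).2
    have h2 := hs k (by omega) (by omega)
    have h3 := h.mono k (k + 1) (by omega) (by omega)
    have h4 := a4_pos h (by omega : k ≤ N)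
    have h5 : C * ν ≤ 1 := by linarith only [hc, hc1, Cμ, ν4, hC, mul_le_mul_of_nonneg_left ν4 (by linarith : 0 ≤ C)]
    linarith only [h2, h3, h1, ν0, h5, h4, mul_le_mul_of_nonneg_left h1 ν0.le, mul_le_mul_of_nonneg_right h5 h4.le]
  have s4 := a4_tooth h hC hc hc1 hθ ν0 ν1 hμ1 hΓ1 hQ he e3 no hbt hN b1 ht
    fun i h1 h2 => calm i (by omega) h2
  have s6 := a4_descent h hC hn hμ (by linarith only [hc, hc1, Cμ]) hΓ hab (hbt.trans hN) ha (hν ▸ hb)
    (fun i h1 h2 => hν ▸ hs i h1.le h2) fun i h1 h2 => calm i h1 (h2.trans hbt)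
  obtain ⟨d, rfl⟩ := Nat.exists_eq_add_of_le hab.le
  have s7 := a4_stretch h he hT e1 e2 d a (hbt.trans hN) fun i h1 h2 => by
    rw [ν2]
    exact (ν6 i).trans (hs i h1 h2)
  have s8 : 32 * exp 4 / c2 * (l a * exp (e * d)) ≤ l (a + d) := by
    refine le_of_sq_le_sq ?_ pb.le
    have h1 : exp (e * d) ^ 2 = exp 1 * exp (2 * e * d - 1) := by
      rw [sq, ← exp_add, ← exp_add]; congr 1; ring
    calc _ = (32 * exp 4 / c2) ^ 2 * exp 1 * l a * (l a * exp (2 * e * d - 1)) := by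
          rw [mul_pow, mul_pow, h1]; ring
      _ ≤ 2 ^ m * l a * l (a + d) := by gcongr
      _ ≤ _ := by rw [sq]; exact mul_le_mul_of_nonneg_right s6 pb.le
  have s9 : exp (e * ((t : ℝ) - a)) =
      exp 2 * (exp (e * d) * exp (e * ((t : ℝ) - (a + d : ℕ)) - 2)) := by
    rw [← exp_add, ← exp_add]
    congr 1
    push_cast
    ring
  have s10 : exp (4 : ℝ) = exp 2 * exp 2 := by rw [← exp_add]; norm_num
  rw [div_mul_eq_mul_div, div_le_iff₀ hc, s10] at s8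
  have E0 := exp_pos (e * ((t : ℝ) - (a + d : ℕ)) - 2)
  rw [s9]
  generalize exp (e * ((t : ℝ) - (a + d : ℕ)) - 2) = E at *
  calc _ = 32 * (exp 2 * exp 2) * (l a * exp (e * d)) * E / 16 := by ring
    _ ≤ ν * c (a + d) * c2 * E / 16 := by
        linarith only [s8, hb, hc, E0, mul_le_mul_of_nonneg_right
          (s8.trans (mul_le_mul_of_nonneg_right hb hc.le)) E0.le]
    _ = c2 * ν / 16 * (E * c (a + d)) := by ring
    _ ≤ c2 * ν / 16 * (2 * c t) := by gcongr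
    _ = _ := by ring

end

theorem tooth_seq {C n0 c2 θ : ℝ} (hC : 1 ≤ C) (hn : 1 ≤ n0) (hc : 0 < c2) (hc1 : c2 ≤ 1 / 2)
    (hθ : 0 < θ) {R : ℕ} (hR : 1 ≤ R) (Tb : ℕ) : ∃ Γ μ1 : ℝ, 1 ≤ Γ ∧ 0 < μ1 ∧ ∀ μ : ℝ, 0 < μ → μ ≤ μ1 →
    ∀ (c0 : ℝ) (T2 : ℕ), 0 < c0 → ∃ e0 : ℝ, 0 < e0 ∧ ∀ e : ℝ, 0 < e → e ≤ e0 →
      ∀ (N : ℕ) (l c : ℕ → ℝ), TSeq C n0 Γ μ (c2 * μ / (8 * Γ)) c0 T2 N l c →
        (∃ s t, IsTooth Γ μ c2 θ e R Tb N l c s t) ∨ l 0 * exp (e * N - 1) ≤ l N + c N := by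
  classical
  obtain ⟨m, hm⟩ := pow_unbounded_of_one_lt ((32 * exp 4 / c2) ^ 2 * exp 1) (one_lt_two (α := ℝ))
  obtain ⟨Γ, hΓ, hΓ1⟩ : ∃ Γ, 2 * (1 + 2 * C * n0 + 2 * C) ^ m < Γ ∧ 1 ≤ Γ :=
    ⟨2 * (1 + 2 * C * n0 + 2 * C) ^ m + 1, by linarith only [hc, hc1], le_add_of_nonneg_left (by positivity)⟩
  obtain ⟨Q, hQ⟩ := pow_unbounded_of_one_lt (4 * Γ) (by linarith only [hθ] : 1 < 1 + θ)
  refine ⟨Γ, 1 / (4 * C * ((2 * R * Q : ℕ) + Tb + 1)), hΓ1, by positivity, fun μ hμ hμ1 c0 T2 hc0 => ?_⟩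
  have lg : 0 < Real.log (1 + c0) := Real.log_pos (by linarith only [hc0])
  refine ⟨min (Real.log (1 + c0)) 1 / (2 * T2 + (2 * R * Q : ℕ) + 1), by positivity,
    fun e he he0 N l c h => ?_⟩
  rw [le_div_iff₀ (by positivity)] at hμ1 he0
  have m1 := he0.trans (min_le_left _ _)
  have m2 := he0.trans (min_le_right _ _)
  have p1 : 0 ≤ e * T2 := by positivity
  have p2 : 0 ≤ e * (2 * R * Q : ℕ) := by positivity
  have e1 : 2 * e * T2 ≤ 1 := by linarith only [he, m2, p2]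
  have e2 : exp (2 * e * T2) ≤ 1 + c0 := by
    rw [← Real.le_log_iff_exp_le (by linarith only [hc, hc1, hc0])]; linarith only [he, m1, p2]
  have e3 : e * (2 * R * Q : ℕ) ≤ 1 := by linarith only [he, m2, p1]
  have e4 : e ≤ 1 := by linarith only [m2, p1, p2]
  have μ1 : 4 * C * μ * ((2 * R * Q : ℕ) + Tb + 1) ≤ 1 := by linarith only [hμ1]
  have Cμ : 4 * C * μ ≤ 1 := le_trans (le_mul_of_one_le_right (by positivity) (by
    have : (0 : ℝ) ≤ (2 * R * Q : ℕ) + Tb := by positivity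
    linarith only [])) μ1
  have μ2 : c2 * μ / (8 * Γ) ≤ μ := by
    rw [div_le_iff₀ (by positivity)]; (refine le_of_not_gt fun h_nl => ?_; linarith only [h_nl, hc, hμ, hc1, hΓ1, mul_pos_of_neg_of_neg (Mathlib.Tactic.Linarith.sub_neg_of_lt hc) (Mathlib.Tactic.Linarith.sub_neg_of_lt hμ), mul_pos_of_neg_of_neg (Mathlib.Tactic.Linarith.sub_neg_of_lt hc) (Mathlib.Tactic.Linarith.sub_neg_of_lt h_nl), mul_nonneg_of_nonpos_of_nonpos (Mathlib.Tactic.Linarith.sub_nonpos_of_le hc1) (le_of_lt (Mathlib.Tactic.Linarith.sub_neg_of_lt hμ)), mul_nonneg_of_nonpos_of_nonpos (Mathlib.Tactic.Linarith.sub_nonpos_of_le hc1) (le_of_lt (Mathlib.Tactic.Linarith.sub_neg_of_lt h_nl)), mul_nonneg_of_nonpos_of_nonpos (Mathlib.Tactic.Linarith.sub_nonpos_of_le hΓ1) (le_of_lt (Mathlib.Tactic.Linarith.sub_neg_of_lt hμ))])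
  have μ3 : 0 < c2 * μ / (8 * Γ) := by positivity
  have cn := h.c_nonneg
  have μ4 : ∀ i, c2 * μ / (8 * Γ) * c i ≤ μ * c i := fun i => mul_le_mul_of_nonneg_right μ2 (cn i)
  have hT : 1 ≤ T2 := by
    by_contra hT
    obtain rfl : T2 = 0 := by omega
    have := h.grow 0 (by omega) ((μ4 0).trans h.storm.le)
    linarith only [this, hc0, h, h.pos, mul_pos_of_neg_of_neg (Mathlib.Tactic.Linarith.sub_neg_of_lt hc0) (Mathlib.Tactic.Linarith.sub_neg_of_lt h.pos)]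
  refine or_iff_not_imp_left.2 fun no => ?_
  have p0 := h.pos
  have deep : ∀ t ≤ N, l t ≤ c2 * μ / (8 * Γ) * c t →
      (∀ a < t, μ * c a < l a → l 0 * exp (e * a - 1) ≤ l a) →
      2 * exp 2 * (l 0 * exp (e * t - 1)) ≤ c2 * μ / (8 * Γ) * c t := by
    intro t hN ht ih
    have h1 : μ * c (Nat.findGreatest (fun a => μ * c a < l a) t) < l _ :=
      Nat.findGreatest_spec (P := fun a => μ * c a < l a) t.zero_le h.storm
    have h2 : ∀ i, Nat.findGreatest (fun a => μ * c a < l a) t < i → i ≤ t → l i ≤ μ * c i :=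
      fun i a b => not_lt.1 (Nat.findGreatest_is_greatest (P := fun a => μ * c a < l a) a b)
    have h3 := Nat.findGreatest_le (P := fun a => μ * c a < l a) t
    generalize Nat.findGreatest (fun a => μ * c a < l a) t = a at h1 h2 h3
    have h4 : a < t := h3.lt_of_ne (by
      rintro rfl
      linarith only [h1, ht, μ4, μ4 a])
    refine le_trans ?_ (a4_exc h hC (by linarith only [hn, hc, hc1]) hc hc1 hθ hμ μ1 Cμ hΓ1 hΓ hm.le hQ.le he.le hT e1 e2
      e3 no h4 hN h1 ht h2)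
    have h5 : exp (e * t - 1) = exp (e * a - 1) * exp (e * ((t : ℝ) - a)) := by
      rw [← exp_add]; congr 1; ring
    rw [h5, ← mul_assoc (l 0)]
    gcongr
    exact ih a h4 h1
  have main : ∀ a ≤ N, c2 * μ / (8 * Γ) * c a < l a → l 0 * exp (e * a - 1) ≤ l a := by
    intro a
    induction a using Nat.strong_induction_on with
    | _ a ih =>
      intro hN ha
      by_cases hx : ∃ t ≤ a, l t ≤ c2 * μ / (8 * Γ) * c t
      · obtain ⟨t0, h0, h0'⟩ := hx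
        have h1 := Nat.findGreatest_spec (P := fun t => l t ≤ c2 * μ / (8 * Γ) * c t) h0 h0'
        have h2 : ∀ i, Nat.findGreatest (fun t => l t ≤ c2 * μ / (8 * Γ) * c t) a < i → i ≤ a →
            c2 * μ / (8 * Γ) * c i < l i := fun i a b => not_le.1
          (Nat.findGreatest_is_greatest (P := fun t => l t ≤ c2 * μ / (8 * Γ) * c t) a b)
        have h3 := Nat.findGreatest_le (P := fun t => l t ≤ c2 * μ / (8 * Γ) * c t) a
        generalize Nat.findGreatest (fun t => l t ≤ c2 * μ / (8 * Γ) * c t) a = t at h1 h2 h3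
        have h4 : t + 1 ≤ a := h3.lt_of_ne (by
          rintro rfl
          linarith only [h1, ha])
        have h5 := deep t (by omega) h1 fun i a b => ih i (by omega) (by omega) ((μ4 i).trans_lt b)
        have h6 := (abs_le.1 (a4_slow h (by linarith only [hC, hc, hc1]) hμ.le t 1 (by simpa using Cμ) fun i a b => by
          obtain rfl : i = t := by omega
          exact h1.trans (μ4 _))).1
        have h7 := h2 (t + 1) (by omega) h4
        obtain ⟨d, rfl⟩ := Nat.exists_eq_add_of_le h4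
        have h8 := a4_stretch h he.le hT e1 e2 d (t + 1) hN fun i a b =>
          (h2 i (by omega) b.le).le
        have h9 : exp 2 * (l 0 * exp (e * t - 1)) ≤ l (t + 1) := by
          linarith only [h5, h7, h6, μ3, mul_le_mul_of_nonneg_left h6 μ3.le]
        refine le_trans ?_ ((mul_le_mul_of_nonneg_right h9 (exp_pos _).le).trans h8)
        rw [mul_left_comm, mul_assoc, ← exp_add, ← exp_add]
        refine mul_le_mul_of_nonneg_left (exp_le_exp.2 ?_) p0.le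
        have : 0 ≤ e * d := by positivity
        push_cast
        linarith only [m2, p1, p2, this]
      · have h8 := a4_stretch h he.le hT e1 e2 a 0 (by omega) fun i _ b =>
          (not_le.1 fun h => hx ⟨i, by omega, h⟩).le
        rw [zero_add] at h8
        refine le_trans (mul_le_mul_of_nonneg_left (exp_le_exp.2 ?_) p0.le) h8
        have : 0 ≤ e * a := by positivity
        linarith only [this]
  rcases lt_or_ge (c2 * μ / (8 * Γ) * c N) (l N) with h1 | h1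
  · linarith only [main, h1, cn, main N le_rfl h1, cn N]
  · have h2 := deep N le_rfl h1 fun a b d => main a b.le ((μ4 a).trans_lt d)
    have h3 : μ * c N ≤ c N := mul_le_of_le_one_left (cn N) (by linarith only [hc, hc1, Cμ, hC, hμ, mul_nonneg_of_nonpos_of_nonpos (Mathlib.Tactic.Linarith.sub_nonpos_of_le hC) (le_of_lt (Mathlib.Tactic.Linarith.sub_neg_of_lt hμ))])
    have h4 : 0 < l 0 * exp (e * N - 1) := by positivity
    have h5 := one_le_exp (zero_le_two (α := ℝ))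
    (refine le_of_not_gt fun h_nl => ?_; linarith only [h_nl, h1, h2, h3, μ4, hc, h, hc1, h4, h5, μ4 N, a4_pos h (le_refl N), mul_pos_of_neg_of_neg (Mathlib.Tactic.Linarith.sub_neg_of_lt hc) (Mathlib.Tactic.Linarith.sub_neg_of_lt h_nl), mul_pos_of_neg_of_neg (Mathlib.Tactic.Linarith.sub_neg_of_lt hc) (Mathlib.Tactic.Linarith.sub_neg_of_lt (a4_pos h (le_refl N))), mul_nonneg_of_nonpos_of_nonpos (Mathlib.Tactic.Linarith.sub_nonpos_of_le hc1) (le_of_lt (Mathlib.Tactic.Linarith.sub_neg_of_lt h_nl)), mul_nonneg_of_nonpos_of_nonpos (Mathlib.Tactic.Linarith.sub_nonpos_of_le hc1) (le_of_lt (Mathlib.Tactic.Linarith.sub_neg_of_lt (a4_pos h (le_refl N)))), mul_nonneg_of_nonpos_of_nonpos (le_of_lt (Mathlib.Tactic.Linarith.sub_neg_of_lt h4)) (Mathlib.Tactic.Linarith.sub_nonpos_of_le h5)])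

end

end Pool.Agent.MinMod.Mo
end

-- merged part: Pool.Agent.Work.MP_f62247_an.Mo.A7
section
-- merged part: Pool.Agent.Work.MP_f62247_an.Mo.J7
section
/-!
# A tooth gives a calm periodic configuration
Constants: `near_sum` gives `c, φ1, θ0, R`; `facts` gives `C`; `σ0 = min 1 (c / (10000 + 32 C))`; `N ≥ 20000`, `σ0 N ≥ 2000 C`; then `near`, `far`, `per_calm` (for `ν1` and for `ν`). A point `x ≥ T` is `n T + x'`, `n ≥ 1`, `0 ≤ x' < T`: `x' ≤ 1` is near, `1 ≤ x' ≤ T - 2N` is far, otherwise it is `(n+1) T + (x' - T)`, near. `Cell.loType`, `BF.lq`.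
-/

open Real MeasureTheory Set Filter Topology

namespace Pool.Agent.MinMod.Mo

noncomputable section

theorem tooth_cfg {ν : ℝ} (hν : 0 < ν) : ∃ (θ c2 μ1 η1 : ℝ) (R Tb : ℕ), 0 < θ ∧ 0 < c2 ∧ c2 ≤ 1 / 2 ∧
    0 < μ1 ∧ 0 < η1 ∧ 1 ≤ R ∧ ∀ (Z : Cfg) (η μ δ e : ℝ) (T : ℕ), Tooth Z η μ δ θ c2 R T → μ ≤ μ1 →
      Tb ≤ T → 0 ≤ η → η ≤ η1 * δ → Real.log (‖Z.cc T‖ / ‖Z.cc 0‖) + 1 ≤ e * T →
      ∃ (Y : ICfg (ℕ × (ℕ ⊕ ℕ))) (lam x0 : ℝ), Y.Valid 0 ∧ Y.Calm ν ∧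
        Y.Cov (1 + η) 0 ν (1 / 100) x0 ∧ LoType Y.A lam ∧ lam ≤ 1 + e := by
  obtain ⟨c, φ1, θ0, μa, R, hc, hφ, hθ, -, hμa, hR, hsum⟩ := near_sum
  obtain ⟨C, hC, hfacts⟩ := facts
  have hden : 0 < 10000 + 32 * C := by linarith only [hC]
  obtain ⟨σ0, hσ, hσ1, hσc⟩ : ∃ σ0 : ℝ, 0 < σ0 ∧ σ0 ≤ 1 ∧ σ0 * (10000 + 32 * C) ≤ c :=
    ⟨min 1 (c / (10000 + 32 * C)), lt_min one_pos (div_pos hc hden), min_le_left _ _,
      (le_div_iff₀ hden).1 (min_le_right _ _)⟩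
  have hσC : 0 ≤ σ0 * C := mul_nonneg hσ.le (by linarith only [hC])
  obtain ⟨N, hN, hN2⟩ : ∃ N : ℕ, 20000 ≤ N ∧ 2000 * C ≤ σ0 * N := by
    obtain ⟨M, hM⟩ := exists_nat_ge (2000 * C / σ0)
    refine ⟨max 20000 M, le_max_left _ _, ?_⟩
    have h1 : (M : ℝ) ≤ (max 20000 M : ℕ) := by exact_mod_cast le_max_right _ _
    have h2 := (div_le_iff₀ hσ).1 (hM.trans h1)
    linarith only [h2]
  have hN' : 2 ≤ N := by omega
  obtain ⟨ν1, c21, η1, Tb, hν1, hc21, hη1, hnear⟩ :=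
    near (c := c) hC hφ hσ hσ1 (by linarith only [hσc, hσC]) hN'
  obtain ⟨μf, hμf, hfar⟩ := far (c := c) hC hσ hσ1 (by linarith only [hσ, hσc]) hν hN hN2
  obtain ⟨μp, hμp, hp⟩ := per_calm hC hν1 N
  obtain ⟨μq, hμq, hq⟩ := per_calm hC hν N
  refine ⟨θ0, min (min c21 σ0) (1 / 2), min (min (min μa ν1) (min μf μp)) (min μq (1 / 200)), η1, R,
    max Tb (max (4 * N) 10), hθ, by positivity, min_le_right _ _, by positivity, hη1, by omega, ?_⟩
  intro Z η μ δ e T hZ hμ hT hη hηδ he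
  simp only [le_min_iff] at hμ
  obtain ⟨⟨⟨m1, m2⟩, m3, m4⟩, m5, m6⟩ := hμ
  have hTb : Tb ≤ T := (le_max_left _ _).trans hT
  have hT4 : 4 * N ≤ T := ((le_max_left _ _).trans (le_max_right _ _)).trans hT
  have hT10 : 10 ≤ T := ((le_max_right _ _).trans (le_max_right _ _)).trans hT
  have hδ := hZ.dpos
  have hs0 : 0 ≤ σ0 * δ := by positivity
  have hs1 : σ0 * δ ≤ δ := mul_le_of_le_one_left hδ.le hσ1
  have hc20 : 0 ≤ min (min c21 σ0) (1 / 2) := by positivity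
  have hc21' : min (min c21 σ0) (1 / 2) ≤ c21 := (min_le_left _ _).trans (min_le_left _ _)
  have hc2σ : min (min c21 σ0) (1 / 2) ≤ σ0 := (min_le_left _ _).trans (min_le_right _ _)
  have hB := hfacts Z η μ δ θ0 _ (σ0 * δ) R T N hZ m6 hs0 hs1 hN' hT4 hT10
  obtain ⟨hmass, hn⟩ := hsum Z μ T (hZ.toSlow hη (by omega)) m1 (by exact_mod_cast hZ.RT)
  obtain ⟨hcalm1, -⟩ := hp Z η μ δ θ0 _ (σ0 * δ) R T hZ hB m4 hs0 hs1 (hc2σ.trans hσ1) hN'
  obtain ⟨hcalm, hcc⟩ := hq Z η μ δ θ0 _ (σ0 * δ) R T hZ hB m5 hs0 hs1 (hc2σ.trans hσ1) hN'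
  have hT0 : (0 : ℝ) < T := by exact_mod_cast (by omega : 0 < T)
  refine ⟨(base Z T N (σ0 * δ)).per T, Real.log ((base Z T N (σ0 * δ)).q T) / T, T,
    hB.cell.per_valid, hcalm, ?_, hB.cell.loType hcc, ?_⟩
  · intro x hx hreg
    obtain ⟨n, x', h0, h1, rfl⟩ := hB.cell.exists_cell (hT0.le.trans hx)
    have hn1 : 1 ≤ n := by
      rcases Nat.eq_zero_or_pos n with h | h
      · rw [h] at hx
        simp only [Nat.cast_zero, zero_mul, zero_add] at hx
        linarith only [h1, hx]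
      · exact h
    have hN0 : (0 : ℝ) ≤ N := Nat.cast_nonneg N
    by_cases ha : x' ≤ 1
    · exact hnear Z η μ δ θ0 _ ν R T n x' hZ hB m2 hcalm1 hc20 hc21' hη hηδ hTb hn hn1
        (by linarith only [h0]) ha hreg
    by_cases hb : x' ≤ T - 2 * N
    · exact hfar Z η μ δ θ0 _ R T n x' hZ hB m3 hc20 hc2σ hη hmass (not_le.1 ha).le hb hreg
    have e1 : (n : ℝ) * T + x' = ((n + 1 : ℕ) : ℝ) * T + (x' - T) := by push_cast; ring
    rw [e1] at hreg ⊢
    exact hnear Z η μ δ θ0 _ ν R T (n + 1) (x' - T) hZ hB m2 hcalm1 hc20 hc21' hη hηδ hTb hn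
      (by omega) (by linarith only [hb, not_le.1 hb]) (by linarith only [h1]) hreg
  · rw [div_le_iff₀ hT0]
    have := hB.lq
    linarith only [he, this]

end

end Pool.Agent.MinMod.Mo
end

-- merged part: Pool.Agent.Work.MP_f62247_an.Mo.A3
section
/-!
# On a calm stretch `L` doubles within `n0 ‖cc‖ / L` steps
Shift to `y = 0`, `l = L 0`, `c = ‖cc 0‖`, `r = l / c ∈ [μ/Γ, μ]`. By `L_mono` it is enough to treat `n = ⌈n0 / r⌉₊`. Suppose `L n < 2 l`; then `L k ≤ 2 l` and `‖cc k‖ ≤ c + 2 C l k ≤ D c` for `k ≤ n`, `D = 1 + 2 C (n0 + 1)` (`cc_step_L`); more precisely `‖cc n‖ ≤ c (1 + 2 C r n)`.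
Apply `calm_main` with `η = 0`, `lam = 1 + e`, `e = κ0 r` (adapt `Mlem_calm`, `calm_final` in Mlem.lean to this `lam`: `(K μ)^5 ≤ κ0 μ / Γ ≤ e ≤ K μ` for small `μ`):
`l / C' ≤ C' (2 l + e c (1 + 2 C r n)) exp (-e n) + C' e c + C' exp (-c0 / e²) n D c`. Choose `κ0 = 1/(4 C'²)`, then `n0` with `C'² (2 + κ0 (1 + 2 C (n0+1))) exp (-κ0 n0) ≤ 1/4`, then `μ1` so that the last term is `≤ l / (4 C')` for all `r ≤ μ1` (`exp (-c0/(κ0 r)²) / r² → 0`).
-/

open Real MeasureTheory Set Filter Topology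

namespace Pool.Agent.MinMod.Mo

noncomputable section

open Cfg in
theorem a3_calm : ∃ K μ0 : ℝ, 1 ≤ K ∧ 0 < μ0 ∧ ∀ (Z : Cfg) (μ e : ℝ) (n : ℕ),
    0 < μ → μ ≤ μ0 → 0 < e → e ≤ μ → (K * μ) ^ 5 ≤ e → 0 < ‖Z.cc 0‖ →
    (∀ k ≤ n, Z.L k ≤ μ * ‖Z.cc k‖) →
    (∀ x ∈ Icc (0 : ℝ) n, Z.Min 0 x) → ∃ (η' θ : ℕ → ℝ), (Z.relift η').cc = Z.cc ∧
      (Z.relift η').Calm (1 + e) (K * μ) 0 n θ := by
  obtain ⟨C0, c0, H0⟩ := W_L
  obtain ⟨C1, m1, c1, p1, H1⟩ := exists_frames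
  have hK : 1 ≤ C1 * C0 := one_le_mul_of_one_le_of_one_le c1 c0
  refine ⟨C1 * C0, min (m1 / C0) (1 / 10), hK, by positivity,
    fun Z μ e n h0 hμ e0 e1 e2 hc hL hM => ?_⟩
  obtain ⟨q1, q2⟩ := le_min_iff.1 hμ
  rw [le_div_iff₀' (by positivity)] at q1
  have hW : ∀ k ≤ n, Z.W k ≤ C0 * μ * Z.A k := fun k hk =>
    (H0 Z k).1.trans ((mul_le_mul_of_nonneg_left (mul_le_mul_of_nonneg_left (hL k hk)
      (exp_pos _).le) (by linarith only [c0, h0, q2])).trans_eq (by unfold A; ring))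
  obtain ⟨θ, t1, t2⟩ := H1 Z (1 + e) (C0 * μ) n (by linarith only [e0]) (by linarith only [e1, q2]) (by positivity) q1
    hc hW
  have hη : ∀ a ∈ Z.s, ∃ k : ℤ, θ (ki n (Z.ξ a)) + rp (Z.η a - θ (ki n (Z.ξ a))) =
      Z.η a + k * (2 * π) := fun a _ => by
    obtain ⟨k, hk⟩ := exists_rp (Z.η a - θ (ki n (Z.ξ a)))
    exact ⟨k, by rw [hk]; ring⟩
  have r1 := Z.relift_cc hη
  have r2 := Z.relift_Min hη
  have r3 := Z.relift_Nf hη
  refine ⟨_, θ, r1, by linarith only [e0], by linarith only [e1, q2], ?_, ?_, le_rfl, zero_le_one, fun k hk => ?_,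
    fun k hk => ?_, fun k hk => ?_, fun k hk => ?_, fun k hk => ?_, fun a _ => ?_, fun x hx => ?_⟩
  · rw [add_sub_cancel_left]
    exact e1.trans (le_mul_of_one_le_left h0.le hK)
  · rwa [add_sub_cancel_left]
  · rw [r1]
    exact (t1 k hk).1
  · have b1 : C0 * μ ≤ C1 * C0 * μ := by
      rw [mul_assoc]
      exact le_mul_of_one_le_left (by positivity) c1
    unfold A
    rw [r1]
    exact (hW k hk).trans (mul_le_mul_of_nonneg_right b1
      (mul_nonneg (norm_nonneg _) (exp_pos _).le))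
  · rw [r1, mul_assoc C1]
    exact (t1 k hk).2.2
  · rw [mul_assoc]
    exact t2 k hk
  · rw [r3]
    exact (t1 k hk).2.1
  · change |θ (ki n (Z.ξ a)) + rp (Z.η a - θ (ki n (Z.ξ a))) - θ (ki n (Z.ξ a))| ≤ π
    rw [add_sub_cancel_left]
    exact KerG_abs_le _
  · rw [r2]
    exact hM x hx

open Cfg in
theorem a3_final : ∃ κ c K μ0 : ℝ, 0 < κ ∧ κ ≤ 1 ∧ 0 < c ∧ 1 ≤ K ∧ 0 < μ0 ∧
    ∀ (Z : Cfg) (μ e y : ℝ) (n : ℕ), 0 < μ → μ ≤ μ0 → 0 < e → e ≤ μ → (K * μ) ^ 5 ≤ e →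
    0 < ‖Z.cc y‖ → (∀ k ≤ n, Z.L (y + k) ≤ μ * ‖Z.cc (y + k)‖) →
    (∀ x ∈ Icc y (y + n), Z.Min 0 x) →
    4 * κ * Z.L y ≤ exp (-c / e ^ 2) * ∑ k ∈ Finset.range n, ‖Z.cc (y + k)‖ +
      (Z.L (y + n) + e * ‖Z.cc (y + n)‖) * exp (-e * n) + e * ‖Z.cc y‖ := by
  obtain ⟨C, c, m1, c1, hc, p1, H1⟩ := calm_main
  obtain ⟨K, m2, c2, p2, H2⟩ := a3_calm
  obtain ⟨C0, c0, H0⟩ := W_L
  have hC : 1 ≤ C * C0 := one_le_mul_of_one_le_of_one_le c1 c0
  refine ⟨1 / (4 * (C * C0) ^ 2), c, K, min (m1 / K) m2, by positivity,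
    (div_le_one (by positivity)).2 (by linarith only [hC, mul_nonneg_of_nonpos_of_nonpos (Mathlib.Tactic.Linarith.sub_nonpos_of_le hC) (Mathlib.Tactic.Linarith.sub_nonpos_of_le hC)]), hc, c2, by positivity,
    fun Z μ e y n h0 hμ e0 e1 e2 hc hL hM => ?_⟩
  obtain ⟨q1, q2⟩ := le_min_iff.1 hμ
  rw [le_div_iff₀' (by positivity)] at q1
  have hy := exp_pos y
  obtain ⟨η', θ, r1, hZ⟩ := H2 (Z.shift y) μ e n h0 q2 e0 e1 e2
    (by rw [shift_cc, zero_add]; positivity)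
    (fun k hk => by
      rw [shift_L, shift_cc, add_comm, mul_left_comm]
      exact mul_le_mul_of_nonneg_left (hL k hk) hy.le)
    fun x hx => (Z.shift_Min y 0 x).2 (hM _ ⟨by linarith [hx.1], by linarith [hx.2]⟩)
  have H := H1 _ _ _ _ _ _ hZ q1
  have hg : ∀ k : ℕ, ((Z.shift y).relift η').g (1 + e) k =
      exp y * (‖Z.cc (y + k)‖ * exp (-e * k)) := fun k => by
    unfold g
    rw [r1, shift_cc, add_comm, add_sub_cancel_left, mul_assoc]
  have w0 : exp y * (Z.L y / (C * C0)) ≤ ((Z.shift y).relift η').W 0 / C := by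
    have := (H0 (Z.shift y) 0).2
    rw [exp_zero, one_mul, shift_L, zero_add] at this
    rw [← mul_div_assoc, mul_comm C, ← div_div]
    exact div_le_div_of_nonneg_right ((div_le_iff₀' (by linarith only [c0])).2 this) (by linarith only [c1])
  have w1 : ((Z.shift y).relift η').Wh (1 + e) n ≤
      exp y * (C0 * (Z.L (y + n) * exp (-e * n))) := by
    have := (H0 (Z.shift y) n).1
    rw [shift_L, add_comm] at this
    refine (mul_le_mul_of_nonneg_left this (exp_pos _).le).trans_eq ?_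
    rw [show -e * (n : ℝ) = -(1 + e) * n + n by ring, exp_add]
    ring
  simp only [EE, hg, add_sub_cancel_left, ← Finset.mul_sum, Nat.cast_zero, add_zero, mul_zero,
    exp_zero, mul_one] at H
  have s0 : ∑ k ∈ Finset.range n, ‖Z.cc (y + k)‖ * exp (-e * k) ≤
      ∑ k ∈ Finset.range n, ‖Z.cc (y + k)‖ :=
    Finset.sum_le_sum fun k _ => mul_le_of_le_one_right (norm_nonneg _)
      (exp_le_one_iff.2 (mul_nonpos_of_nonpos_of_nonneg (by linarith only [e0]) k.cast_nonneg))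
  have s1 : 0 ≤ ∑ k ∈ Finset.range n, ‖Z.cc (y + k)‖ := Finset.sum_nonneg fun k _ => norm_nonneg _
  generalize ∑ k ∈ Finset.range n, ‖Z.cc (y + k)‖ * exp (-e * k) = G at H s0
  generalize ∑ k ∈ Finset.range n, ‖Z.cc (y + k)‖ = G' at s0 s1 ⊢
  have s2 := mul_le_mul_of_nonneg_left s0 (show 0 ≤ exp y * (C * exp (-c / e ^ 2)) by positivity)
  have s3 : C * (exp (-c / e ^ 2) * G' + e * ‖Z.cc (y + n)‖ * exp (-e * n) + e * ‖Z.cc y‖) ≤
      C * C0 * (exp (-c / e ^ 2) * G' + e * ‖Z.cc (y + n)‖ * exp (-e * n) + e * ‖Z.cc y‖) :=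
    mul_le_mul_of_nonneg_right (le_mul_of_one_le_right (by linarith only [c1]) c0) (by positivity)
  have s4 := mul_le_mul_of_nonneg_left w1 (show 0 ≤ C by linarith only [c1])
  have s5 := mul_le_mul_of_nonneg_left s3 hy.le
  rw [show 4 * (1 / (4 * (C * C0) ^ 2)) * Z.L y = Z.L y / (C * C0) / (C * C0) by field_simp,
    div_le_iff₀' (by positivity)]
  refine le_of_mul_le_mul_left ?_ hy
  rw [zero_div] at H
  linarith only [w0, H, s2, s4, s5]

theorem a3_exp {t : ℝ} (ht : 0 ≤ t) : t ^ 2 * exp (-t) ≤ 2 := by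
  rw [exp_neg, ← div_eq_mul_inv, div_le_iff₀ (exp_pos t)]
  linarith only [ht, quadratic_le_exp_of_nonneg ht]

theorem a3_one {κ c D M N r : ℝ} (k0 : 0 < κ) (k1 : κ ≤ 1) (hc : 0 < c) (hD : 0 ≤ D) (hr : 0 < r)
    (r1 : r ≤ 1) (r2 : 2 * M * D * r ≤ κ * c ^ 2) (hN : 0 ≤ N) (hM : N * r ≤ M) :
    exp (-c / (κ * r) ^ 2) * (N * D) ≤ κ * r := by
  have h1 := a3_exp (t := c / (κ * r) ^ 2) (by positivity)
  rw [← neg_div, div_pow, div_mul_eq_mul_div, div_le_iff₀ (by positivity)] at h1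
  have h2 : ((κ * r) ^ 2) ^ 2 ≤ r ^ 3 := by
    rw [← pow_mul]
    exact (pow_le_pow_left₀ (by positivity) (mul_le_of_le_one_left hr.le k1) _).trans
      (pow_le_pow_of_le_one hr.le r1 (by norm_num))
  have h3 : c ^ 2 * exp (-c / (κ * r) ^ 2) * (N * r * D) ≤ 2 * r ^ 3 * (M * D) :=
    mul_le_mul (by linarith only [h1, h2]) (mul_le_mul_of_nonneg_right hM hD) (by positivity) (by positivity)
  have h4 := mul_le_mul_of_nonneg_right r2 (sq_nonneg r)
  refine le_of_mul_le_mul_left ?_ (show 0 < c ^ 2 * r by positivity)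
  linarith only [h3, h4]

theorem a3_two {κ C n0 t : ℝ} (k0 : 0 < κ) (k1 : κ ≤ 1) (hC : 1 ≤ C) (h0 : 1 ≤ n0)
    (hn : κ ^ 3 * n0 = 14 * C) (ht : κ * n0 ≤ t) :
    (2 + κ * (1 + 2 * C * (n0 + 1))) * exp (-t) ≤ κ := by
  have h1 := mul_le_mul_of_nonneg_left (a3_exp (t := κ * n0) (by positivity)) k0.le
  have h2 : κ * (1 + 2 * C * (n0 + 1)) ≤ 1 + 2 * C * (n0 + 1) :=
    mul_le_of_le_one_left (by positivity) k1
  have h3 : C ≤ C * n0 := le_mul_of_one_le_right (by linarith) h0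
  have h4 : (2 + κ * (1 + 2 * C * (n0 + 1))) * exp (-t) ≤ 7 * C * n0 * exp (-(κ * n0)) :=
    mul_le_mul (by linarith only [hC, h2, h3]) (exp_le_exp.2 (neg_le_neg ht)) (exp_pos _).le (by positivity)
  have h5 : κ * ((κ * n0) ^ 2 * exp (-(κ * n0))) = 14 * C * n0 * exp (-(κ * n0)) := by
    rw [← hn]
    ring
  linarith only [h1, h4, h5]

theorem doubling : ∃ n0 : ℝ, 1 ≤ n0 ∧ ∀ Γ : ℝ, 1 ≤ Γ → ∃ μ1 : ℝ, 0 < μ1 ∧
    ∀ (Z : Cfg) (μ y : ℝ) (n : ℕ), 0 < μ → μ ≤ μ1 → 0 < ‖Z.cc y‖ → μ / Γ * ‖Z.cc y‖ ≤ Z.L y →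
      (∀ k ≤ n, Z.L (y + k) ≤ μ * ‖Z.cc (y + k)‖) → (∀ x ∈ Icc y (y + n), Z.Min 0 x) →
      n0 * ‖Z.cc y‖ ≤ n * Z.L y → 2 * Z.L y ≤ Z.L (y + n) := by
  obtain ⟨κ, c0, K, m, k0, k1, hc0, hK, hm, H⟩ := a3_final
  obtain ⟨C, hC, HC⟩ := cc_step_L
  obtain ⟨n0, hn0⟩ : ∃ n0, κ ^ 3 * n0 = 14 * C := ⟨14 * C / κ ^ 3, by field_simp⟩
  have h0 : 1 ≤ n0 := by
    by_contra h
    have := mul_le_mul_of_nonneg_left (not_le.1 h).le (pow_pos k0 3).le
    linarith only [hC, hn0, this, k0, k1, pow_le_one₀ (n := 3) k0.le k1]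
  obtain ⟨D, hD⟩ : ∃ D, D = 1 + 2 * C * (n0 + 1) := ⟨_, rfl⟩
  have hD0 : 0 < D := by rw [hD]; positivity
  refine ⟨n0, h0, fun Γ hΓ => ⟨min (min m 1) (min (κ / Γ / K ^ 5) (κ * c0 ^ 2 / (2 * (n0 + 1) * D))),
    by positivity, fun Z μ y n p0 hμ hc h1 hL hM hn => ?_⟩⟩
  simp only [le_min_iff] at hμ
  obtain ⟨⟨q1, q2⟩, q3, q4⟩ := hμ
  rw [le_div_iff₀' (by positivity)] at q3 q4
  obtain ⟨r, hr⟩ : ∃ r, Z.L y = r * ‖Z.cc y‖ := ⟨Z.L y / ‖Z.cc y‖, by field_simp⟩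
  have r1 : μ / Γ ≤ r := le_of_mul_le_mul_right (h1.trans_eq hr) hc
  have r0 : 0 < r := lt_of_lt_of_le (by positivity) r1
  have r2 : r ≤ μ := le_of_mul_le_mul_right (hr.symm.trans_le (by simpa using hL 0 n.zero_le)) hc
  have n1 : n0 / r ≤ n := by
    rw [hr, ← mul_assoc] at hn
    exact (div_le_iff₀ r0).2 (le_of_mul_le_mul_right hn hc)
  obtain ⟨N, hN⟩ : ∃ N, N = ⌈n0 / r⌉₊ := ⟨_, rfl⟩
  have N1 : N ≤ n := hN ▸ Nat.ceil_le.2 n1
  have N2 : n0 ≤ N * r := (div_le_iff₀ r0).1 (hN ▸ Nat.le_ceil _)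
  have N3 : N * r ≤ n0 + 1 := by
    have := mul_le_mul_of_nonneg_right (Nat.ceil_lt_add_one (show 0 ≤ n0 / r by positivity)).le r0.le
    rw [← hN, add_mul, div_mul_cancel₀ _ r0.ne'] at this
    linarith only [q2, r2, this]
  by_contra hh
  have a1 : ∀ k ≤ n, Z.L (y + k) ≤ 2 * (r * ‖Z.cc y‖) := fun k hk => by
    have b1 : (k : ℝ) ≤ n := Nat.cast_le.2 hk
    have b2 := Z.L_mono (add_le_add_right b1 y) fun x hx =>
      hM x ⟨(le_add_of_nonneg_right k.cast_nonneg).trans hx.1, hx.2⟩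
    linarith only [hr, hh, b2]
  have a2 : ∀ k ≤ n, ‖Z.cc (y + k)‖ ≤ (1 + 2 * C * (k * r)) * ‖Z.cc y‖ := fun k hk => by
    induction k with
    | zero => simp
    | succ k ih =>
      have b1 := ih (Nat.le_of_succ_le hk)
      have b2 := (abs_le.1 (HC Z (y + k))).2
      have b3 := mul_le_mul_of_nonneg_left (a1 k (Nat.le_of_succ_le hk)) (zero_le_one.trans hC)
      rw [Nat.cast_succ, ← add_assoc]
      linarith only [b1, b2, b3]
  have a3 : ∀ k ≤ N, ‖Z.cc (y + k)‖ ≤ D * ‖Z.cc y‖ := fun k hk => by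
    refine (a2 k (hk.trans N1)).trans (mul_le_mul_of_nonneg_right ?_ hc.le)
    have b1 := (mul_le_mul_of_nonneg_right (Nat.cast_le.2 hk : (k : ℝ) ≤ N) r0.le).trans N3
    linarith only [hD, b1, hC, mul_le_mul_of_nonneg_left b1 (zero_le_one.trans hC)]
  have e1 : (K * μ) ^ 5 ≤ κ * r := by
    have b1 : μ ^ 4 ≤ μ := pow_le_of_le_one p0.le q2 (by norm_num)
    calc (K * μ) ^ 5 = K ^ 5 * μ ^ 4 * μ := by ring
      _ ≤ κ / Γ * μ := by
          refine mul_le_mul_of_nonneg_right (le_trans ?_ q3) p0.le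
          exact mul_le_mul_of_nonneg_left b1 (by positivity)
      _ = κ * (μ / Γ) := by ring
      _ ≤ κ * r := mul_le_mul_of_nonneg_left r1 k0.le
  have key := H Z μ (κ * r) y N p0 q1 (by positivity) ((mul_le_of_le_one_left r0.le k1).trans r2) e1
    hc (fun k hk => hL k (hk.trans N1))
    fun x hx => hM x ⟨hx.1, hx.2.trans (add_le_add_right (Nat.cast_le.2 N1) y)⟩
  have s1 : ∑ k ∈ Finset.range N, ‖Z.cc (y + k)‖ ≤ N * D * ‖Z.cc y‖ := by
    simpa [mul_assoc] using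
      Finset.sum_le_card_nsmul _ _ _ fun k hk => a3 k (Finset.mem_range.1 hk).le
  have s2 := mul_le_mul_of_nonneg_left s1 (exp_pos (-c0 / (κ * r) ^ 2)).le
  have s3 := mul_le_mul_of_nonneg_right (a3_one k0 k1 hc0 hD0.le r0 (r2.trans q2)
    ((mul_le_mul_of_nonneg_left r2 (by positivity)).trans q4) N.cast_nonneg N3) hc.le
  have s4 := mul_le_mul_of_nonneg_right (add_le_add (a1 N N1)
    (mul_le_mul_of_nonneg_left (a3 N le_rfl) (show 0 ≤ κ * r by positivity)))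
    (exp_pos (-(κ * r) * N)).le
  have s5 := mul_le_mul_of_nonneg_right (a3_two k0 k1 hC h0 hn0 (t := κ * r * N)
    (by linarith only [N2, k0, mul_le_mul_of_nonneg_left N2 k0.le])) (show 0 ≤ r * ‖Z.cc y‖ by positivity)
  have s6 : 0 < κ * r * ‖Z.cc y‖ := by positivity
  rw [← hD, ← neg_mul] at s5
  rw [hr] at key
  linarith only [key, s2, s3, s4, s5, s6]

end

end Pool.Agent.MinMod.Mo
end

-- merged part: Pool.Agent.Work.MP_f62247_an.Mo.A7
section
/-!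
# Reduction of an entire function to a configuration that is calm for ever
Constants: `tooth_cfg`, `doubling` (`n0`), `cc_step_L` (`C`), `tooth_seq` (`Γ`), `μ0` below all thresholds (`calm_real`: `C' μ0 ≤ μ1`; `calm_forever`), `growth` for `c2 μ0 / (8Γ)`, `e0`; `νk = min 1 (η1 μ0 / (8Γ))`, `δ = min e0 (1/10)`.
Take `lam1 - 1 < e < lam2 - 1`, `σ = (e - (lam1 - 1))/2`, `red_sharp`. If for every `X ≥ x0` some configuration is calm on `[x0, X]`: `calm_forever`, `type_of_order`. Otherwise there is `X0` such that every `Z` with `Rd .. x0 X0 Z` has a storm `a ∈ [x0, X0]`.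
Take `x1` huge, `Rd.mono`, `l j = L (a + j)`, `c j = ‖cc (a + j)‖`, `N = x1 - a`, `TSeq` as in the proof of `Cfg.core` (Core.lean). The second alternative of `tooth_seq` is absurd: `l 0 ≥ c' exp (-X0)` (`B_L`, `B a ≥ 1/2`), `l N + c N ≤ C exp ((lam1 - 1 + σ) x1)`.
A tooth `s, t`: `Z.shift (a + s)`, `T = t - s`, `δ = l s / c s` (`shift_L`, `shift_cc`, `shift_W`, `shift_Min`). A cover with error `0` is a cover with error `ε`.
-/

open Real MeasureTheory Set Filter Topology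

namespace Pool.Agent.MinMod.Mo

noncomputable section

theorem tooth_of_seq : ∃ C : ℝ, 1 ≤ C ∧ ∀ (Z : Cfg) (η Γ μ c2 θ e : ℝ) (R Tb N a s t : ℕ), 0 < μ →
    C * μ ≤ 1 → 1 ≤ Γ → (∀ x ∈ Icc (a : ℝ) (a + N), Z.Min η x) →
    IsTooth Γ μ c2 θ e R Tb N (fun j => Z.L (a + j)) (fun j => ‖Z.cc (a + j)‖) s t →
    ∃ δ : ℝ, μ / (8 * Γ) ≤ δ ∧ Tooth (Z.shift (a + s)) η (C * μ) δ θ c2 R (t - s) ∧
      Real.log (‖(Z.shift (a + s)).cc (t - s : ℕ)‖ / ‖(Z.shift (a + s)).cc 0‖) + 1 ≤ e * (t - s : ℕ) := by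
  obtain ⟨C, hC, H⟩ := calm_real
  refine ⟨C, hC, fun Z η Γ μ c2 θ e R Tb N a s t hμ hCμ hΓ hM h => ?_⟩
  obtain ⟨h1, h2, h3, h4, h5, h6, h7, h8, h9⟩ := h
  obtain ⟨T, rfl⟩ : ∃ T, t = s + T := ⟨t - s, by omega⟩
  rw [Nat.add_sub_cancel_left]
  have hE := exp_pos ((a : ℝ) + s)
  have eL : ∀ (x : ℝ) (j : ℕ), x + s = j →
      (Z.shift (a + s)).L x = exp (a + s) * Z.L (a + j) := fun x j k => by
    rw [Cfg.shift_L, ← k]
    congr 2
    ring
  have eC : ∀ (x : ℝ) (j : ℕ), x + s = j →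
      ‖(Z.shift (a + s)).cc x‖ = exp (a + s) * ‖Z.cc (a + j)‖ := fun x j k => by
    rw [Cfg.shift_cc, ← k]
    congr 3
    ring
  have eT : (T : ℝ) + s = (s + T : ℕ) := by push_cast; ring
  obtain ⟨c0, l0⟩ := h5 s le_rfl (Nat.le_add_right _ _)
  have d0 : μ / (8 * Γ) ≤ Z.L (a + s) / ‖Z.cc (a + s)‖ := (le_div_iff₀ c0).2 h7
  refine ⟨Z.L (a + s) / ‖Z.cc (a + s)‖, d0, ⟨by omega, fun x hx => ?_, fun x hx => ?_, ?_,
    lt_of_lt_of_le (by positivity) d0, ?_, ?_, ?_⟩, ?_⟩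
  · have k1 : (R : ℝ) ≤ s := by exact_mod_cast h1
    have k2 : (s : ℝ) + T ≤ N := by exact_mod_cast h4
    rw [Cfg.shift_Min]
    exact hM _ ⟨by linarith only [k1, hx, hx.1], by linarith only [k2, hx, hx.2]⟩
  · refine H _ μ 0 T hμ.le hCμ (fun k hk => ?_) x (by rwa [zero_add])
    have ek : 0 + (k : ℝ) + s = (s + k : ℕ) := by push_cast; ring
    obtain ⟨k1, k2⟩ := h5 (s + k) (Nat.le_add_right _ _) (by omega)
    rw [eL _ _ ek, eC _ _ ek, mul_left_comm]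
    exact ⟨mul_pos hE k1, mul_le_mul_of_nonneg_left k2 hE.le⟩
  · rw [eL 0 s (zero_add _), eC 0 s (zero_add _), mul_left_comm, div_mul_cancel₀ _ c0.ne']
  · exact ((div_le_iff₀ c0).2 l0).trans (le_mul_of_one_le_left hμ.le hC)
  · rw [eL R (s + R) (by push_cast; ring), eL (-R) (s - R) (by rw [Nat.cast_sub h1]; ring),
      mul_left_comm]
    exact mul_le_mul_of_nonneg_left h6 hE.le
  · rw [eL _ _ eT, eC _ _ eT, mul_left_comm]
    refine mul_le_mul_of_nonneg_left ?_ hE.le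
    rw [← mul_div_assoc, div_mul_eq_mul_div, le_div_iff₀ c0]
    exact h8
  · rw [eC _ _ eT, eC 0 s (zero_add _), mul_div_mul_left _ _ hE.ne']
    refine h9.trans (le_of_eq ?_)
    push_cast
    ring

theorem a7_cov {ι : Type} {Y : ICfg ι} {k ε μ a x0 : ℝ} (hε : 0 ≤ ε) (h : Y.Cov k 0 μ a x0) :
    Y.Cov k ε μ a x0 := fun x hx hr => (h x hx hr).imp fun _ hy => hy.imp_left fun k y' =>
  (k y').trans (mul_le_mul_of_nonneg_right hε (mul_nonneg (norm_nonneg _) (exp_pos _).le))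

theorem a7_abs {C μ e σ a X x l c l' c' : ℝ} (hC : 1 ≤ C) (hμ : 0 < μ) (he : 0 ≤ e) (he1 : e ≤ 1)
    (ha : 0 ≤ a) (haX : a ≤ X) (hl : 0 ≤ l) (hc : μ * c ≤ l) (h1 : 1 / 2 ≤ C * exp a * (c + l))
    (h2 : exp x * (c' + l') ≤ C * exp ((1 + e - σ) * x)) (h3 : l * exp (e * (x - a) - 1) ≤ l' + c') :
    σ * x ≤ 2 * C * exp X * (1 / μ + 1) * (C * exp (X + 1)) := by
  have k1 : c + l ≤ (1 / μ + 1) * l := by
    have : c ≤ 1 / μ * l := by rwa [one_div, le_inv_mul_iff₀ hμ]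
    linarith only [this]
  have k2 : 1 ≤ 2 * C * exp X * (1 / μ + 1) * l :=
    calc (1 : ℝ) ≤ 2 * (C * exp a * (c + l)) := by linarith only [h1]
      _ ≤ 2 * (C * exp a * ((1 / μ + 1) * l)) := by gcongr
      _ ≤ 2 * (C * exp X * ((1 / μ + 1) * l)) := by gcongr
      _ = _ := by ring
  have k3 : l * exp (σ * x) ≤ C * exp (X + 1) := by
    have k4 := (mul_le_mul_of_nonneg_left h3 (exp_pos x).le).trans (add_comm c' l' ▸ h2)
    have k5 := mul_le_mul_of_nonneg_right k4 (exp_pos (X + 1 - (1 + e - σ) * x)).le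
    rw [mul_assoc C, ← exp_add, add_sub_cancel, mul_left_comm, mul_assoc l, ← exp_add,
      ← exp_add] at k5
    refine le_trans (mul_le_mul_of_nonneg_left (exp_le_exp.2 ?_) hl) k5
    linarith only [haX, he1, ha, mul_le_mul_of_nonneg_right he1 ha]
  calc σ * x ≤ exp (σ * x) := by linarith only [add_one_le_exp (σ * x)]
    _ ≤ 2 * C * exp X * (1 / μ + 1) * l * exp (σ * x) := le_mul_of_one_le_left (exp_pos _).le k2
    _ ≤ _ := by
      rw [mul_assoc _ l]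
      gcongr

theorem reduce {μ : ℝ} (hμ : 0 < μ) : ∃ δ νk : ℝ, 0 < δ ∧ 0 < νk ∧ ∀ (f : ℂ → ℂ)
    (lam1 lam2 η η' ε : ℝ), Differentiable ℂ f → 1 < lam1 → lam1 < lam2 → lam2 < 1 + δ →
    lowerOrder f = (lam1 : EReal) → 0 < η' → η' < η → η ≤ νk → 0 < ε →
    (∀ᶠ r in atTop, modRatio f r ≤ ((-1 - η : ℝ) : EReal)) →
    ∃ (ι : Type) (Y : ICfg ι) (H lam x0 : ℝ), Y.Valid H ∧ Y.Calm μ ∧
      Y.Cov (1 + η') ε μ (1 / 100) x0 ∧ LoType Y.A lam ∧ lam < lam2 := by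
  obtain ⟨θ, c2, μ1, η1, R, Tb, hθ, hc2, hc2', hμ1, hη1, hR, Hc⟩ := tooth_cfg hμ
  obtain ⟨n0, hn0, Hd⟩ := doubling
  obtain ⟨C, hC, Hs⟩ := cc_step_L
  obtain ⟨Γ, μs, hΓ, hμs, Hq⟩ := tooth_seq hC hn0 hc2 hc2' hθ hR Tb
  obtain ⟨μd, hμd, Hd⟩ := Hd Γ hΓ
  obtain ⟨C', hC', Ht⟩ := tooth_of_seq
  obtain ⟨μf, hμf, Hf⟩ := calm_forever hμ
  obtain ⟨CB, hCB, HB⟩ := B_L
  have hC0 : 0 < C' := by linarith only [hc2, hc2', hC']
  obtain ⟨μ0, m0, m1, m2, m3, m4⟩ : ∃ μ0 : ℝ, 0 < μ0 ∧ μ0 ≤ μs ∧ μ0 ≤ μd ∧ μ0 ≤ μf ∧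
      μ0 ≤ min μ1 1 / C' :=
    ⟨min μs (min μd (min μf (min μ1 1 / C'))), by positivity, min_le_left _ _,
      (min_le_right _ _).trans (min_le_left _ _),
      (min_le_right _ _).trans ((min_le_right _ _).trans (min_le_left _ _)),
      (min_le_right _ _).trans ((min_le_right _ _).trans (min_le_right _ _))⟩
  rw [le_div_iff₀' hC0, le_min_iff] at m4
  obtain ⟨T2, c0, hc0, Hg⟩ := Cfg.growth (δ := c2 * μ0 / (8 * Γ)) (by positivity)
  obtain ⟨e0, he0, Hq⟩ := Hq μ0 m0 m1 c0 T2 hc0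
  refine ⟨min e0 (1 / 10), min 1 (η1 * (μ0 / (8 * Γ))), by positivity, by positivity, ?_⟩
  intro f lam1 lam2 η η' ε hf l1 l2 l3 ho n1 n2 n3 hε hm
  obtain ⟨n4, n5⟩ := le_min_iff.1 n3
  have l4 := min_le_left e0 (1 / 10)
  have l5 := min_le_right e0 (1 / 10)
  obtain ⟨σ, hσ, e, s1, s2⟩ : ∃ σ : ℝ, 0 < σ ∧ ∃ e, lam1 + σ = 1 + e - σ ∧ 1 + e < lam2 :=
    ⟨(lam2 - lam1) / 4, by linarith only [l2], (lam1 + lam2) / 2 - 1, by ring, by linarith only [l2]⟩
  obtain ⟨I, ξ, ηa, x0, hfin, hone, HZ⟩ := red_sharp hf l1 (by linarith only [l2, l3, l5]) ho n1 n2 n4 hm hσ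
  by_cases hcalm : ∀ X : ℕ, x0 ≤ X → ∃ Z : Cfg, Rd f I ξ ηa η' x0 X Z ∧
      ∀ k : ℕ, x0 ≤ k → k ≤ X → Z.L k ≤ μf * ‖Z.cc k‖
  · obtain ⟨Y, H, x1, y1, y2, y3, y4⟩ := Hf f I ξ ηa η' lam1 ε x0 n1.le (by linarith only [n2, n4]) l1.le hε
      (type_of_order hf l1 ho) hfin hone hcalm
    exact ⟨ℕ, Y, H, lam1, x1, y1, y2, y3, y4, l2⟩
  push Not at hcalm
  obtain ⟨X0, hX0, hst⟩ := hcalm
  obtain ⟨n, hn⟩ := exists_nat_gt (2 * CB * exp X0 * (1 / μ0 + 1) * (CB * exp (X0 + 1)) / σ)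
  obtain ⟨Z, x1, hx1, hZ, hB⟩ := HZ (X0 + n)
  obtain ⟨a, a1, a2, a3⟩ := hst Z (hZ.mono (by omega))
  obtain ⟨N, rfl⟩ : ∃ N, x1 = a + N := ⟨x1 - a, by omega⟩
  have a4 : (x0 : ℝ) ≤ a := by exact_mod_cast a1
  have a5 : μ0 * ‖Z.cc a‖ < Z.L a :=
    (mul_le_mul_of_nonneg_right m3 (norm_nonneg _)).trans_lt a3
  have hM : ∀ x ∈ Icc (a : ℝ) (a + N), Z.Min η' x := fun x hx =>
    hZ.min x ⟨a4.trans hx.1, by push_cast; exact hx.2⟩
  have hM0 : ∀ i j : ℕ, i + j ≤ N → ∀ x ∈ Icc ((a : ℝ) + i) (a + i + j), Z.Min 0 x := by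
    intro i j h2 x hx
    have h3 : (i : ℝ) + j ≤ N := by exact_mod_cast h2
    exact (hM x ⟨by linarith only [hx, hx.1, i.cast_nonneg (α := ℝ)], by linarith only [h3, hx, hx.2]⟩).mono n1.le
  have h := Hq e (by linarith only [l1, hσ, s1]) (by linarith only [l3, l4, s2]) N (fun j => Z.L (a + j)) (fun j => ‖Z.cc (a + j)‖)
    ⟨fun j => norm_nonneg _, fun i j hij hj => ?_, fun j => ?_, fun j h1 h2 => ?_,
      fun j k h1 h2 h3 h4 h5 => ?_, ?_, ?_⟩
  · rcases h with ⟨s, t, h⟩ | h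
    · obtain ⟨δ, d1, d2, d3⟩ := Ht Z η' Γ μ0 c2 θ e R Tb N a s t m0 m4.2 hΓ hM h
      obtain ⟨Y, lam, x2, y1, y2, y3, y4, y5⟩ := Hc _ η' _ δ e _ d2 m4.1
        (Nat.le_sub_of_add_le' h.sT) n1.le
        (n2.le.trans (n5.trans (mul_le_mul_of_nonneg_left d1 hη1.le))) d3
      exact ⟨_, Y, 0, lam, x2, y1, y2, a7_cov hε.le y3, y4, by linarith only [s2, y5]⟩
    · exfalso
      simp only [Nat.cast_zero, add_zero] at h
      have b1 := hZ.lo a ⟨a4, by push_cast; linarith only [N.cast_nonneg (α := ℝ)]⟩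
      have b2 := hone a a4
      have b3 := (HB Z (a + N : ℕ)).2.trans (mul_le_mul_of_nonneg_left hB (by linarith only [hCB]))
      rw [s1, Nat.cast_add] at b3
      have b4 := a7_abs (X := X0) hCB m0 (by linarith only [l1, hσ, s1]) (by linarith only [l3, l5, s2]) a.cast_nonneg
        (by exact_mod_cast a2) (Z.L_nonneg a) a5.le (le_trans (by linarith only [b1, b2]) (HB Z a).1) b3
        (by rwa [add_sub_cancel_left])
      have b5 : (n : ℝ) ≤ a + N := by exact_mod_cast (Nat.le_add_left n X0).trans hx1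
      rw [div_lt_iff₀' hσ] at hn
      linarith only [hn, b4, b5, hσ, mul_le_mul_of_nonneg_left b5 hσ.le]
  · obtain ⟨k, rfl⟩ := Nat.exists_eq_add_of_le hij
    rw [Nat.cast_add, ← add_assoc]
    exact Z.L_mono (le_add_of_nonneg_right k.cast_nonneg) (hM0 i k hj)
  · rw [Nat.cast_succ, ← add_assoc]
    exact Hs Z _
  · rw [Nat.cast_add, ← add_assoc]
    exact Hg Z _ (hM0 j _ h1) h2
  · simp only [Nat.cast_add, ← add_assoc] at h4 ⊢
    exact Hd Z μ0 _ k m0 m2 h2 h3 h4 (hM0 j k h1) h5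
  · rw [Nat.cast_zero, add_zero]
    exact lt_of_le_of_lt (by positivity) a5
  · rw [Nat.cast_zero, add_zero]
    exact a5

end

end Pool.Agent.MinMod.Mo
end
end

-- merged part: Pool.Agent.Work.MP_f62247_an.Mo.X4
section
-- merged part: Pool.Agent.Work.MP_f62247_an.Mo.X2
section
/-!
# A smooth frame that follows a slowly varying complex function
`d n = log (c (H + n + 1) / c (H + n))`, `‖d n‖ ≤ 2 μ` (`Complex.norm_log_one_add_half_le_self` or similar), `Λ x = log (c H) + ∑_n S (x - H - n) * d n` with `S = Real.smoothTransition` (`ContDiff`, `0` on `(-∞, 0]`, `1` on `[1, ∞)`; `S'` and `S''` vanish off `[0,1]`, are continuous, hence bounded).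
On `x < H + N` the sum is a finite sum over `range N`; define the derivatives by the corresponding sums (`∑ᶠ` or `∑'`), `HasDerivAt.congr_of_eventuallyEq`; at a point at most two terms of the derivative sums are nonzero.
`ψ x = x + re (Λ x)`, `φ x = - im (Λ x)`. For `H + n ≤ x ≤ H + n + 1`: `exp (Λ x) = c (H + n) * exp (S * d n)` is within `C μ` of `c x`.
-/

open Real MeasureTheory Set Filter Topology

namespace Pool.Agent.MinMod.Mo

noncomputable section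

theorem x2_const {g : ℝ → ℝ} {g' a x : ℝ} {s : Set ℝ} (hs : UniqueDiffOn ℝ s) (hx : x ∈ s)
    (h : HasDerivAt g g' x) (e : ∀ y ∈ s, g y = a) : g' = 0 :=
  (hs x hx).eq_deriv s h.hasDerivWithinAt
    ((hasDerivWithinAt_const x s a).congr e (e x hx))

theorem x2_bound {g : ℝ → ℝ} (hg : Continuous g) (l : ∀ x ≤ (0 : ℝ), g x = 0)
    (r : ∀ x, (1 : ℝ) ≤ x → g x = 0) : ∃ B, 0 ≤ B ∧ ∀ x, |g x| ≤ B := by
  obtain ⟨B, hB⟩ := (isCompact_Icc (a := (0 : ℝ)) (b := 1)).exists_bound_of_continuousOn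
    hg.continuousOn
  have h0 : 0 ≤ B := (norm_nonneg _).trans (hB 0 (by simp))
  refine ⟨B, h0, fun x => ?_⟩
  rcases le_total x 0 with h | h
  · rwa [l x h, abs_zero]
  rcases le_total x 1 with h' | h'
  · exact hB x ⟨h, h'⟩
  · rwa [r x h', abs_zero]

theorem x2_S : ∃ (S1 S2 : ℝ → ℝ) (B : ℝ), 0 ≤ B ∧ (∀ x, HasDerivAt smoothTransition (S1 x) x) ∧
    (∀ x, HasDerivAt S1 (S2 x) x) ∧ Continuous S2 ∧ (∀ x ≤ (0 : ℝ), S1 x = 0) ∧
    (∀ x ≤ (0 : ℝ), S2 x = 0) ∧ (∀ x, (1 : ℝ) ≤ x → S1 x = 0) ∧ (∀ x, (1 : ℝ) ≤ x → S2 x = 0) ∧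
    (∀ x, |S1 x| ≤ B) ∧ ∀ x, |S2 x| ≤ B := by
  have h2 : ContDiff ℝ 2 smoothTransition := smoothTransition.contDiff
  have h1 : ContDiff ℝ 1 (deriv smoothTransition) := h2.deriv'
  have d1 : ∀ x, HasDerivAt smoothTransition (deriv smoothTransition x) x := fun x =>
    (h2.differentiable (by norm_num) x).hasDerivAt
  have d2 : ∀ x, HasDerivAt (deriv smoothTransition) (deriv (deriv smoothTransition) x) x :=
    fun x => (h1.differentiable (by norm_num) x).hasDerivAt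
  have c2 : Continuous (deriv (deriv smoothTransition)) := h1.continuous_deriv le_rfl
  have l1 : ∀ x ≤ (0 : ℝ), deriv smoothTransition x = 0 := fun x hx =>
    x2_const (uniqueDiffOn_Iic 0) hx (d1 x) fun y => smoothTransition.zero_of_nonpos
  have l2 : ∀ x ≤ (0 : ℝ), deriv (deriv smoothTransition) x = 0 := fun x hx =>
    x2_const (uniqueDiffOn_Iic 0) hx (d2 x) l1
  have r1 : ∀ x, (1 : ℝ) ≤ x → deriv smoothTransition x = 0 := fun x hx =>
    x2_const (uniqueDiffOn_Ici 1) hx (d1 x) fun y => smoothTransition.one_of_one_le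
  have r2 : ∀ x, (1 : ℝ) ≤ x → deriv (deriv smoothTransition) x = 0 := fun x hx =>
    x2_const (uniqueDiffOn_Ici 1) hx (d2 x) r1
  obtain ⟨B1, p1, b1⟩ := x2_bound h1.continuous l1 r1
  obtain ⟨B2, p2, b2⟩ := x2_bound c2 l2 r2
  exact ⟨_, _, B1 + B2, by linarith, d1, d2, c2, l1, l2, r1, r2, fun x => by linarith [b1 x],
    fun x => by linarith [b2 x]⟩

/-- the sum of the translates -/
def x2_T (g : ℝ → ℝ) (d : ℕ → ℂ) (H x : ℝ) : ℂ := ∑' n : ℕ, g (x - H - n) • d n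

theorem x2_fin {g : ℝ → ℝ} (d : ℕ → ℂ) (H : ℝ) (l : ∀ x ≤ (0 : ℝ), g x = 0) {N : ℕ} {x : ℝ}
    (h : x ≤ H + N) : x2_T g d H x = ∑ n ∈ Finset.range N, g (x - H - n) • d n := by
  refine tsum_eq_sum fun n hn => ?_
  have : (N : ℝ) ≤ n := by exact_mod_cast not_lt.1 fun a => hn (Finset.mem_range.2 a)
  rw [l _ (by linarith), zero_smul]

theorem x2_ev {g : ℝ → ℝ} (d : ℕ → ℂ) (H : ℝ) (l : ∀ x ≤ (0 : ℝ), g x = 0) {N : ℕ} {x : ℝ}
    (h : x < H + N) : x2_T g d H =ᶠ[𝓝 x] fun x => ∑ n ∈ Finset.range N, g (x - H - n) • d n :=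
  (Iio_mem_nhds h : Iio (H + N) ∈ 𝓝 x) |> fun a => mem_of_superset a fun _ hy =>
    x2_fin d H l (le_of_lt hy)

theorem x2_deriv {g g' : ℝ → ℝ} (d : ℕ → ℂ) (H : ℝ) (h : ∀ x, HasDerivAt g (g' x) x)
    (l : ∀ x ≤ (0 : ℝ), g x = 0) (l' : ∀ x ≤ (0 : ℝ), g' x = 0) (x : ℝ) :
    HasDerivAt (x2_T g d H) (x2_T g' d H x) x := by
  obtain ⟨N, hN⟩ := exists_nat_gt (x - H)
  rw [x2_fin d H l' (N := N) (by linarith)]
  refine HasDerivAt.congr_of_eventuallyEq ?_ (x2_ev d H l (N := N) (by linarith))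
  refine HasDerivAt.fun_sum fun n _ => HasDerivAt.smul_const ?_ _
  exact ((h (x - H - n)).comp_sub_const (x - H) n).comp_sub_const x H

theorem x2_cont {g : ℝ → ℝ} (d : ℕ → ℂ) (H : ℝ) (h : Continuous g)
    (l : ∀ x ≤ (0 : ℝ), g x = 0) : Continuous (x2_T g d H) := by
  refine continuous_iff_continuousAt.2 fun x => ?_
  obtain ⟨N, hN⟩ := exists_nat_gt (x - H)
  refine ContinuousAt.congr ?_ (x2_ev d H l (N := N) (by linarith only [hN])).symm
  exact Continuous.continuousAt (by fun_prop)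

theorem x2_bd {g : ℝ → ℝ} (d : ℕ → ℂ) (H : ℝ) (l : ∀ x ≤ (0 : ℝ), g x = 0)
    (r : ∀ x, (1 : ℝ) ≤ x → g x = 0) {B δ : ℝ} (hB : ∀ x, |g x| ≤ B) (hd : ∀ n, ‖d n‖ ≤ δ)
    (x : ℝ) : ‖x2_T g d H x‖ ≤ B * δ := by
  have e : x2_T g d H x = g (x - H - ⌊x - H⌋₊) • d ⌊x - H⌋₊ := by
    refine tsum_eq_single _ fun n hn => ?_
    rcases le_or_gt (x - H - n) 0 with a | a
    · rw [l _ a, zero_smul]
    rcases le_or_gt 1 (x - H - n) with b | b
    · rw [r _ b, zero_smul]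
    refine absurd ((Nat.floor_eq_iff ?_).2 ⟨by linarith only [a], by linarith only [b]⟩).symm hn
    linarith only [a, (Nat.cast_nonneg n : (0 : ℝ) ≤ n)]
  rw [e, norm_smul]
  exact mul_le_mul (hB _) (hd _) (norm_nonneg _) ((abs_nonneg _).trans (hB 0))

theorem x2_close {a b z : ℂ} {μ : ℝ} (h0 : 0 ≤ μ) (h1 : μ ≤ 1 / 10) (h : ‖b - a‖ ≤ μ * ‖a‖)
    (hz : ‖z‖ ≤ 3 / 2 * μ) : ‖b - a * Complex.exp z‖ ≤ 6 * μ * ‖a * Complex.exp z‖ := by
  have a1 := Complex.norm_exp_sub_one_le (hz.trans (by linarith only [h1]))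
  have a2 : ‖a - a * Complex.exp z‖ ≤ 3 * (μ * ‖a‖) := by
    rw [← mul_one_sub, norm_mul, norm_sub_rev]
    linarith only [hz, a1, norm_nonneg a, mul_nonneg_of_nonpos_of_nonpos (Mathlib.Tactic.Linarith.sub_nonpos_of_le hz) (Mathlib.Tactic.Linarith.sub_nonpos_of_le (norm_nonneg a)), mul_nonneg_of_nonpos_of_nonpos (Mathlib.Tactic.Linarith.sub_nonpos_of_le a1) (Mathlib.Tactic.Linarith.sub_nonpos_of_le (norm_nonneg a))]
  have a3 := norm_sub_le_norm_sub_add_norm_sub b a (a * Complex.exp z)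
  have a4 := norm_sub_norm_le a (a * Complex.exp z)
  have a5 := mul_le_mul_of_nonneg_right h1 (norm_nonneg a)
  have a6 : 7 / 10 * ‖a‖ ≤ ‖a * Complex.exp z‖ := by linarith only [a2, a4, a5]
  have a7 := mul_le_mul_of_nonneg_left a6 h0
  have a8 := mul_nonneg h0 (norm_nonneg a)
  linarith only [h, a2, a3, a7, a8]

theorem exists_frame : ∃ C : ℝ, 1 ≤ C ∧ ∀ (c : ℝ → ℂ) (H μ : ℝ), 0 ≤ μ → μ ≤ 1 / 10 → (∀ x, c x ≠ 0) →
    (∀ x, x ≤ H → c x = c H) → (∀ x y, x ≤ y → y ≤ x + 1 → ‖c y - c x‖ ≤ μ * ‖c x‖) →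
    ∃ F : Frame, F.Good (C * μ) ∧ ∀ x : ℝ,
      ‖c x * (exp x : ℝ) - (F.Φ x : ℂ) * Complex.exp (-(F.φ x : ℂ) * Complex.I)‖ ≤ C * μ * F.Φ x := by
  obtain ⟨S1, S2, B, hB, d1, d2, c2, l1, l2, r1, r2, b1, b2⟩ := x2_S
  refine ⟨2 * B + 6, by linarith only [hB], fun c H μ h0 h1 hc hH hl => ?_⟩
  set d : ℕ → ℂ := fun n => Complex.log (c (H + n + 1) / c (H + n)) with hd
  have hdn : ∀ n, ‖d n‖ ≤ 3 / 2 * μ := fun n => by
    have a1 : ‖c (H + n + 1) / c (H + n) - 1‖ ≤ μ := by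
      rw [div_sub_one (hc _), norm_div, div_le_iff₀ (norm_pos_iff.2 (hc _))]
      exact hl _ _ (by linarith only []) le_rfl
    have a2 := Complex.norm_log_one_add_half_le_self (a1.trans (by linarith only [h1] : μ ≤ 1 / 2))
    rw [add_sub_cancel] at a2
    simp only [hd]
    linarith only [a1, a2]
  have hE : ∀ n : ℕ, Complex.exp (Complex.log (c H) + ∑ i ∈ Finset.range n, d i) = c (H + n) := by
    intro n
    induction n with
    | zero => simp [Complex.exp_log (hc H)]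
    | succ n ih =>
      rw [Finset.sum_range_succ, ← add_assoc, Complex.exp_add, ih, hd,
        Complex.exp_log (div_ne_zero (hc _) (hc _)), mul_div_cancel₀ _ (hc _), Nat.cast_succ,
        add_assoc]
  have l0 : ∀ x ≤ (0 : ℝ), smoothTransition x = 0 := fun x => smoothTransition.zero_of_nonpos
  have e1 := x2_deriv d H d1 l0 l1
  have e2 := x2_deriv d H d2 l1 l2
  have e3 := x2_cont d H c2 l2
  have key : ∀ x, ‖c x - Complex.exp (Complex.log (c H) + x2_T smoothTransition d H x)‖ ≤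
      6 * μ * ‖Complex.exp (Complex.log (c H) + x2_T smoothTransition d H x)‖ := fun x => by
    rcases le_total x H with hx | hx
    · rw [x2_fin d H l0 (N := 0) (by simpa using hx), hH x hx]
      simp only [Finset.range_zero, Finset.sum_empty, add_zero, Complex.exp_log (hc H), sub_self,
        norm_zero]
      positivity
    obtain ⟨n, a1, a2⟩ : ∃ n : ℕ, (n : ℝ) ≤ x - H ∧ x - H < n + 1 :=
      ⟨_, Nat.floor_le (sub_nonneg.2 hx), Nat.lt_floor_add_one _⟩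
    have a3 : ∑ i ∈ Finset.range n, smoothTransition (x - H - i) • d i =
        ∑ i ∈ Finset.range n, d i := Finset.sum_congr rfl fun i hi => by
      have : (i : ℝ) + 1 ≤ n := by exact_mod_cast Finset.mem_range.1 hi
      rw [smoothTransition.one_of_one_le (by linarith only [a1, this]), one_smul]
    rw [x2_fin d H l0 (N := n + 1) (by push_cast; linarith only [a2]), Finset.sum_range_succ, a3,
      ← add_assoc, Complex.exp_add, hE]
    have a4 : ‖smoothTransition (x - H - n) • d n‖ ≤ 3 / 2 * μ := by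
      rw [norm_smul, Real.norm_of_nonneg (smoothTransition.nonneg _)]
      exact (mul_le_of_le_one_left (norm_nonneg _) (smoothTransition.le_one _)).trans (hdn n)
    exact x2_close h0 h1 (hl (H + n) x (by linarith only [a1]) (by linarith only [a2])) a4
  have hb : ∀ z : ℂ, ‖z‖ ≤ B * (3 / 2 * μ) → |z.re| ≤ (2 * B + 6) * μ ∧
      |-z.im| ≤ (2 * B + 6) * μ := fun z hz => by
    have a : B * (3 / 2 * μ) ≤ (2 * B + 6) * μ := by linarith only [h0, hB, mul_nonneg hB h0]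
    rw [abs_neg]
    exact ⟨(Complex.abs_re_le_norm z).trans (hz.trans a), (Complex.abs_im_le_norm z).trans (hz.trans a)⟩
  refine ⟨⟨fun x => x + (Complex.log (c H) + x2_T smoothTransition d H x).re,
    fun x => 1 + (x2_T S1 d H x).re, fun x => (x2_T S2 d H x).re,
    fun x => -(Complex.log (c H) + x2_T smoothTransition d H x).im,
    fun x => -(x2_T S1 d H x).im, fun x => -(x2_T S2 d H x).im,
    fun x => (hasDerivAt_id x).add
      (Complex.reCLM.hasFDerivAt.comp_hasDerivAt x ((e1 x).const_add _)),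
    fun x => (Complex.reCLM.hasFDerivAt.comp_hasDerivAt x (e2 x)).const_add 1,
    Complex.continuous_re.comp e3,
    fun x => (Complex.imCLM.hasFDerivAt.comp_hasDerivAt x ((e1 x).const_add _)).neg,
    fun x => (Complex.imCLM.hasFDerivAt.comp_hasDerivAt x (e2 x)).neg,
    (Complex.continuous_im.comp e3).neg⟩, fun x => ?_, fun x => ?_⟩
  · have a1 := hb _ (x2_bd d H l1 r1 b1 hdn x)
    have a2 := hb _ (x2_bd d H l2 r2 b2 hdn x)
    exact ⟨by simpa using a1.1, a2.1, a1.2, a2.2⟩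
  · have a1 := key x
    simp only [Frame.Φ]
    generalize Complex.log (c H) + x2_T smoothTransition d H x = L at *
    have a2 : ((exp (x + L.re) : ℝ) : ℂ) * Complex.exp (-((-L.im : ℝ) : ℂ) * Complex.I) =
        Complex.exp L * (exp x : ℝ) := by
      conv_rhs => rw [← Complex.re_add_im L]
      rw [exp_add, Complex.exp_add]
      push_cast
      rw [neg_neg]
      ring
    rw [a2, ← sub_mul, norm_mul, Complex.norm_real, Real.norm_of_nonneg (exp_pos x).le, exp_add,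
      ← Complex.norm_exp]
    have a3 := mul_le_mul_of_nonneg_right a1 (exp_pos x).le
    have a4 : 0 ≤ B * μ * (exp x * ‖Complex.exp L‖) := by positivity
    linarith only [a3, a4]

end

end Pool.Agent.MinMod.Mo
end

-- merged part: Pool.Agent.Work.MP_f62247_an.Mo.X3
section
/-!
# The potential of an infinite configuration
`split`: `s` is the finite set of atoms with `ξ ≤ X + 1`; `T` is the linear term plus the sum over the other atoms, which converges uniformly on `{re < X}` (`abs_nk_le_far`, `continuousOn_tsum`); each term has the mean value property (`ca_nk_sum` with vanishing `gk`, or `ca_log_norm`), exchange sum and circle average (`intervalIntegral.hasSum_integral_of_summable_norm`, `integral_tsum`, or uniform convergence).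
The other statements follow by applying `split` with `X` large. In `jen` the `finsum` over `ι × ℤ` has finite support (`fin_w`); regroup it (`finsum_eq_sum_of_support_subset`, `Finset.sum_product`, or `finsum_curry`).
`mass`: at most three translates of an atom lie in a disc of radius 7 (`14 < 3 * 2π`), and `ξ < x + 7` gives `1 ≤ exp 14 * w0 (x - ξ)`. `calm`: average `U_split` at `y = re z` (finite part and tail as above), `abs_ca_lg`, `abs_ca_nk`.
-/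

open Real MeasureTheory Set Filter Topology

namespace Pool.Agent.MinMod.Mo

noncomputable section

namespace ICfg

variable {ι : Type} {Y : ICfg ι} {H : ℝ}

theorem x3_exch {κ : Type} {g : κ → ℂ → ℝ} {B : κ → ℝ} (hB : Summable B) {z : ℂ} {r : ℝ}
    (hc : ∀ a, ContinuousOn (g a) (Metric.sphere z |r|))
    (hb : ∀ a, ∀ w ∈ Metric.sphere z |r|, ‖g a w‖ ≤ B a) :
    HasSum (fun a => ca (g a) z r) (ca (fun w => ∑' a, g a w) z r) := by
  have hT : CircleIntegrable (fun w => ∑' a, g a w) z r :=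
    (continuousOn_tsum hc hB hb).circleIntegrable'
  have hi : ∀ a, CircleIntegrable (g a) z r := fun a => (hc a).circleIntegrable'
  have hu := Metric.tendstoUniformlyOn_iff.1 (tendstoUniformlyOn_tsum hB hb)
  refine Metric.tendsto_nhds.2 fun ε hε => ?_
  filter_upwards [hu (ε / 2) (half_pos hε)] with t ht
  have hs : CircleIntegrable (fun w => ∑ a ∈ t, g a w) z r :=
    CircleIntegrable.fun_sum t fun a _ => hi a
  rw [← circleAverage_fun_sum fun a _ => hi a, Real.dist_eq, ← circleAverage_fun_sub hs hT]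
  refine lt_of_le_of_lt (abs_circleAverage_le_circleAverage_abs.trans
    (circleAverage_mono_on_of_le_circle (a := ε / 2) (hs.fun_sub hT).abs fun w hw => ?_))
    (half_lt_self hε)
  have := ht w hw
  rw [Real.dist_eq, abs_sub_comm] at this
  exact this.le

theorem x3_gen {f : ι → ℂ → ℝ} {B : ι → ℝ} (hB : Summable B) (s : Finset ι) {z : ℂ} {r : ℝ}
    (hi : ∀ a ∈ s, CircleIntegrable (f a) z r)
    (hc : ∀ a, a ∉ s → ContinuousOn (f a) (Metric.sphere z |r|))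
    (hb : ∀ a, a ∉ s → ∀ w ∈ Metric.sphere z |r|, ‖f a w‖ ≤ B a) :
    CircleIntegrable (fun w => ∑' a, f a w) z r ∧
      HasSum (fun a => ca (f a) z r) (ca (fun w => ∑' a, f a w) z r) := by
  have hB' : Summable fun a : {a // a ∉ s} => B a := hB.subtype _
  have h1 := x3_exch (g := fun a : {a // a ∉ s} => f a) hB' (fun a => hc a a.2)
    fun a => hb a a.2
  have hT : CircleIntegrable (fun w => ∑' a : {a // a ∉ s}, f a w) z r :=
    (continuousOn_tsum (fun a : {a // a ∉ s} => hc a a.2) hB' fun a => hb a a.2).circleIntegrable'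
  have hs : CircleIntegrable (fun w => ∑ a ∈ s, f a w) z r := CircleIntegrable.fun_sum s hi
  have e : EqOn (fun w => ∑' a, f a w) (fun w => ∑ a ∈ s, f a w + ∑' a : {a // a ∉ s}, f a w)
      (Metric.sphere z |r|) := fun w hw => by
    have h2 : Summable fun a : {a // a ∉ s} => f a w :=
      Summable.of_norm_bounded hB' fun a => hb a a.2 w hw
    exact ((s.summable_compl_iff.1 h2).sum_add_tsum_subtype_compl s).symm
  refine ⟨(circleIntegrable_congr e).2 (hs.fun_add hT), ?_⟩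
  unfold ca at h1 ⊢
  rw [circleAverage_congr_sphere e, circleAverage_fun_add hs hT, circleAverage_fun_sum hi, add_comm]
  exact (s.hasSum_compl_iff (f := fun a => circleAverage (f a) z r)).1 h1

theorem x3_arg (w : ℂ) (ξ η : ℝ) :
    ((w.re - ξ : ℝ) : ℂ) + ((w.im - η : ℝ) : ℂ) * Complex.I = w - (ξ + η * Complex.I) := by
  apply Complex.ext <;> simp

theorem x3_nk (w : ℂ) (ξ η : ℝ) : nk (w.re - ξ) (w.im - η) =
    Real.log ‖1 - Complex.exp (w - (ξ + η * Complex.I))‖ +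
      (Complex.exp (w - (ξ + η * Complex.I))).re := by
  rw [nk, lg, ← KerA_re, x3_arg]

theorem x3_ne {w : ℂ} {ξ : ℝ} (η : ℝ) (h : w.re < ξ) :
    1 - Complex.exp (w - (ξ + η * Complex.I)) ≠ 0 := by
  rw [← x3_arg]
  exact sub_ne_zero.2 (exp_ne_one (sub_neg.2 h).ne _).symm

theorem x3_cont (ξ η : ℝ) : ContinuousOn (fun w : ℂ => nk (w.re - ξ) (w.im - η)) {w | w.re < ξ} := by
  simp only [x3_nk]
  exact (ContinuousOn.log (by fun_prop) fun w hw => norm_ne_zero_iff.2 (x3_ne η hw)).add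
    (by fun_prop)

theorem x3_mv (ξ η : ℝ) : MV (fun w : ℂ => nk (w.re - ξ) (w.im - η)) {w | w.re < ξ} := by
  intro z s hs hb
  simp only [x3_nk]
  have h1 : CircleIntegrable
      (fun w => Real.log ‖1 - Complex.exp (w - (ξ + η * Complex.I))‖) z s :=
    ci_of_cont (Ω := {w | w.re < ξ})
      (ContinuousOn.log (by fun_prop) fun w hw => norm_ne_zero_iff.2 (x3_ne η hw)) hs.le hb
  have h2 : CircleIntegrable (fun w => (Complex.exp (w - (ξ + η * Complex.I))).re) z s :=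
    Continuous.continuousOn (by fun_prop) |>.circleIntegrable'
  have h3 := ca_log_norm (G := fun w => 1 - Complex.exp (w - (ξ + η * Complex.I))) (z := z) hs.le
    fun w hw => ⟨by fun_prop, x3_ne η (hb hw)⟩
  have h4 := ca_re (G := fun w => Complex.exp (w - (ξ + η * Complex.I))) (z := z) hs.le
    fun w _ => by fun_prop
  unfold ca at h3 h4 ⊢
  rw [circleAverage_fun_add h1 h2, h3, h4]

theorem x3_smul (c : ℝ) (f : ℂ → ℝ) (z : ℂ) (s : ℝ) : ca (fun w => c * f w) z s = c * ca f z s :=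
  circleAverage_fun_smul (a := c) (f := f)

theorem x3_ci {f : ℂ → ℝ} {z : ℂ} {s : ℝ} (c : ℝ) (h : CircleIntegrable f z s) :
    CircleIntegrable (fun w => c * f w) z s := IntervalIntegrable.const_mul h c

theorem Valid.x3_far (h : Y.Valid H) {X : ℝ} {a : ι} (ha : Y.m a ≠ 0 → X + 1 < Y.ξ a) :
    ContinuousOn (fun w : ℂ => Y.m a * nk (w.re - Y.ξ a) (w.im - Y.η a)) {w | w.re < X} ∧
    MV (fun w : ℂ => Y.m a * nk (w.re - Y.ξ a) (w.im - Y.η a)) {w | w.re < X} ∧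
    ∀ w : ℂ, w.re < X → ‖Y.m a * nk (w.re - Y.ξ a) (w.im - Y.η a)‖ ≤
      2 * exp (2 * X) * (Y.m a * exp (-2 * Y.ξ a)) := by
  by_cases h0 : Y.m a = 0
  · simp only [h0, zero_mul, norm_zero, mul_zero, le_refl, implies_true, and_true]
    exact ⟨continuousOn_const, fun z s _ _ => circleAverage_const 0 z s⟩
  have h1 := ha h0
  have hsub : {w : ℂ | w.re < X} ⊆ {w | w.re < Y.ξ a} := fun w hw => by
    have : w.re < X := hw
    show w.re < Y.ξ a
    linarith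
  refine ⟨continuousOn_const.mul ((x3_cont _ _).mono hsub), fun z s hs hb => ?_, fun w hw => ?_⟩
  · rw [x3_smul, x3_mv _ _ z s hs (hb.trans hsub)]
  · have h2 := abs_nk_le_far (s := w.re - Y.ξ a) (by linarith) (w.im - Y.η a)
    have h3 : exp (2 * (w.re - Y.ξ a)) ≤ exp (2 * X) * exp (-2 * Y.ξ a) := by
      rw [← exp_add]
      exact exp_le_exp.2 (by linarith)
    rw [Real.norm_eq_abs, abs_mul, abs_of_nonneg (h.nonneg a)]
    have := mul_le_mul_of_nonneg_left (h2.trans (mul_le_mul_of_nonneg_left h3 zero_le_two))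
      (h.nonneg a)
    linarith

theorem x3_lin (c z : ℂ) {s : ℝ} (hs : 0 ≤ s) :
    ca (fun w => (c * Complex.exp w).re) z s = (c * Complex.exp z).re :=
  ca_re (G := fun w => c * Complex.exp w) hs fun w _ => by fun_prop

theorem x3_sph {z w : ℂ} {s : ℝ} (hw : w ∈ Metric.closedBall z s) : w.re ≤ z.re + s := by
  have h1 := Complex.re_le_norm (w - z)
  rw [Metric.mem_closedBall, dist_eq_norm] at hw
  rw [Complex.sub_re] at h1
  linarith

theorem x3_w_re (Y : ICfg ι) (b : ι × ℤ) : (Y.w b).re = Y.ξ b.1 := by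
  simp [w, ζ]

theorem x3_w_im (Y : ICfg ι) (b : ι × ℤ) : (Y.w b).im = Y.η b.1 + b.2 * (2 * π) := by
  simp [w, ζ]

theorem x3_ball {z w : ℂ} {R : ℝ} (h : w ∈ Metric.ball z R) :
    |w.re - z.re| < R ∧ |w.im - z.im| < R := by
  rw [Metric.mem_ball, dist_eq_norm] at h
  exact ⟨(Complex.abs_re_le_norm (w - z)).trans_lt h, (Complex.abs_im_le_norm (w - z)).trans_lt h⟩

theorem Valid.split (h : Y.Valid H) (X : ℝ) : ∃ (s : Finset ι) (T : ℂ → ℝ),
    (∀ a, Y.m a ≠ 0 → Y.ξ a ≤ X + 1 → a ∈ s) ∧ ContinuousOn T {z | z.re < X} ∧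
    MV T {z | z.re < X} ∧ ∀ z : ℂ, z.re < X →
      Y.u z = ∑ a ∈ s, Y.m a * nk (z.re - Y.ξ a) (z.im - Y.η a) + T z := by
  classical
  set s := (h.fin (X + 1)).toFinset with hs
  have hm : ∀ a, Y.m a ≠ 0 → Y.ξ a ≤ X + 1 → a ∈ s := fun a h1 h2 => by
    rw [hs, Set.Finite.mem_toFinset]
    exact ⟨h1, h2⟩
  have far := fun a : {a // a ∉ s} =>
    h.x3_far (X := X) (a := a) fun h0 => lt_of_not_ge fun h1 => a.2 (hm a h0 h1)
  have hB : Summable fun a : {a // a ∉ s} => 2 * exp (2 * X) * (Y.m a * exp (-2 * Y.ξ a)) :=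
    (h.sum.mul_left (2 * exp (2 * X))).subtype _
  have hT := continuousOn_tsum (fun a => (far a).1) hB fun a w hw => (far a).2.2 w hw
  have hl : Continuous fun w : ℂ => (Y.c * Complex.exp w).re := by fun_prop
  refine ⟨s, fun w => (Y.c * Complex.exp w).re +
    ∑' a : {a // a ∉ s}, Y.m a * nk (w.re - Y.ξ a) (w.im - Y.η a), hm,
    hl.continuousOn.add hT, fun z r hr hb => ?_, fun z _ => ?_⟩
  · have hsub : Metric.sphere z |r| ⊆ {w : ℂ | w.re < X} := by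
      rw [abs_of_pos hr]
      exact Metric.sphere_subset_closedBall.trans hb
    have h1 := x3_exch hB (fun a => (far a).1.mono hsub) fun a w hw => (far a).2.2 w (hsub hw)
    simp only [fun a => (far a).2.1 z r hr hb] at h1
    have h2 := x3_lin Y.c z hr.le
    unfold ca at h1 h2 ⊢
    rw [circleAverage_fun_add hl.continuousOn.circleIntegrable' (hT.mono hsub).circleIntegrable',
      h2, ← h1.tsum_eq]
  · rw [u, U, Complex.re_add_im, ← (h.summable_nk z.re z.im).sum_add_tsum_subtype_compl s]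
    ring

theorem Valid.measurable_u (h : Y.Valid H) : Measurable Y.u := by
  classical
  choose s T _ hc _ he using fun n : ℕ => h.split n
  have hm : ∀ a, Measurable fun z : ℂ => nk (z.re - Y.ξ a) (z.im - Y.η a) := fun a =>
    measurable_nk.comp (f := fun z : ℂ => (z.re - Y.ξ a, z.im - Y.η a)) (by fun_prop)
  refine measurable_of_tendsto_metrizable (f := fun n z =>
    ∑ a ∈ s n, Y.m a * nk (z.re - Y.ξ a) (z.im - Y.η a) +
      {z : ℂ | z.re < n}.piecewise (T n) (fun _ => 0) z) (fun n => ?_) ?_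
  · exact (Finset.measurable_sum _ fun a _ => (hm a).const_mul _).add
      ((hc n).measurable_piecewise continuousOn_const
        (measurableSet_lt Complex.measurable_re measurable_const))
  · refine tendsto_pi_nhds.2 fun z => tendsto_const_nhds.congr' ?_
    filter_upwards [tendsto_natCast_atTop_atTop.eventually_gt_atTop z.re] with n hn
    rw [he n z hn, Set.piecewise_eq_of_mem _ _ _ (show z ∈ {z : ℂ | z.re < n} from hn)]

theorem Valid.loc_u (h : Y.Valid H) : LocallyIntegrable Y.u := by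
  intro z
  obtain ⟨s, T, -, hc, -, he⟩ := h.split (z.re + 2)
  have hsub : Metric.closedBall z 1 ⊆ {w : ℂ | w.re < z.re + 2} := fun w hw => by
    have := x3_sph hw
    show w.re < z.re + 2
    linarith
  refine ⟨Metric.closedBall z 1, Metric.closedBall_mem_nhds z one_pos, ?_⟩
  have h1 : IntegrableOn (fun w : ℂ => ∑ a ∈ s, Y.m a * nk (w.re - Y.ξ a) (w.im - Y.η a))
      (Metric.closedBall z 1) := integrable_finsetSum _ fun a _ =>
    ((locallyIntegrable_nk (Y.ξ a) (Y.η a)).integrableOn_isCompact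
      (isCompact_closedBall z 1)).const_mul _
  exact (h1.add ((hc.mono hsub).integrableOn_compact (isCompact_closedBall z 1))).congr_fun
    (fun w hw => (he w (hsub hw)).symm) measurableSet_closedBall

theorem x3_ci_a (Y : ICfg ι) (a : ι) (z : ℂ) (s : ℝ) :
    CircleIntegrable (fun w : ℂ => Y.m a * nk (w.re - Y.ξ a) (w.im - Y.η a)) z s := by
  have := ci_nk (Y.ζ a) z s
  simp only [show (Y.ζ a).re = Y.ξ a by simp [ζ], show (Y.ζ a).im = Y.η a by simp [ζ]] at this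
  exact x3_ci _ this

theorem Valid.ci_u (h : Y.Valid H) (z : ℂ) (s : ℝ) : CircleIntegrable Y.u z s := by
  obtain ⟨t, T, -, hc, -, he⟩ := h.split (z.re + |s| + 1)
  have hsub : Metric.sphere z |s| ⊆ {w : ℂ | w.re < z.re + |s| + 1} := fun w hw => by
    have := x3_sph (Metric.sphere_subset_closedBall hw)
    show w.re < z.re + |s| + 1
    linarith
  exact (circleIntegrable_congr fun w hw => he w (hsub hw)).2
    ((CircleIntegrable.fun_sum t fun a _ => Y.x3_ci_a a z s).fun_add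
      (hc.mono hsub).circleIntegrable')

theorem per_u (Y : ICfg ι) (z : ℂ) : Y.u (z + 2 * π * Complex.I) = Y.u z := by
  have := Y.U_per z.re z.im 1
  simpa [u] using this

theorem Valid.fin_w (h : Y.Valid H) (z : ℂ) (R : ℝ) :
    {b | Y.mw b ≠ 0 ∧ Y.w b ∈ Metric.ball z R}.Finite := by
  refine ((h.fin (z.re + R)).biUnion (t := fun a => {a} ×ˢ
    Set.Icc (-⌈|Y.η a - z.im| + R⌉) ⌈|Y.η a - z.im| + R⌉)
    fun a _ => (Set.finite_singleton a).prod (Set.finite_Icc _ _)).subset ?_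
  rintro b ⟨h1, h2⟩
  obtain ⟨h3, h4⟩ := x3_ball h2
  rw [x3_w_re] at h3
  rw [x3_w_im] at h4
  refine Set.mem_biUnion (x := b.1) ⟨h1, by linarith only [h3, (abs_lt.1 h3).2]⟩ ⟨rfl, abs_le.1 ?_⟩
  have h5 : |(b.2 : ℝ)| * (2 * π) ≤ |Y.η b.1 - z.im| + R := by
    have := abs_sub (Y.η b.1 + b.2 * (2 * π) - z.im) (Y.η b.1 - z.im)
    rw [show Y.η b.1 + b.2 * (2 * π) - z.im - (Y.η b.1 - z.im) = b.2 * (2 * π) by ring, abs_mul,
      abs_of_pos two_pi_pos] at this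
    linarith
  have h6 : |(b.2 : ℝ)| ≤ (⌈|Y.η b.1 - z.im| + R⌉ : ℝ) := by
    refine le_trans ?_ (Int.le_ceil _)
    linarith only [h5, abs_nonneg (b.2 : ℝ), pi_gt_three, mul_nonneg_of_nonpos_of_nonpos (Mathlib.Tactic.Linarith.sub_nonpos_of_le (abs_nonneg ↑b.2)) (le_of_lt (Mathlib.Tactic.Linarith.sub_neg_of_lt pi_gt_three))]
  exact_mod_cast h6

theorem Valid.jen (h : Y.Valid H) {z : ℂ} (hz : ∀ b, Y.mw b ≠ 0 → Y.w b ≠ z) {s : ℝ} (hs : 0 < s)
    (hs1 : s ≤ 1) : ca Y.u z s = Y.u z + ∑ᶠ b, Y.mw b * gk s (Y.w b - z) := by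
  obtain ⟨t, T, hm, hc, hv, he⟩ := h.split (z.re + 2)
  have hsub : Metric.closedBall z s ⊆ {w : ℂ | w.re < z.re + 2} := fun w hw => by
    have := x3_sph hw
    show w.re < z.re + 2
    linarith
  have hsp : Metric.sphere z |s| ⊆ {w : ℂ | w.re < z.re + 2} := by
    rw [abs_of_pos hs]
    exact Metric.sphere_subset_closedBall.trans hsub
  have hg : ∀ b, Y.mw b * gk s (Y.w b - z) ≠ 0 → Y.mw b ≠ 0 ∧ Y.w b ∈ Metric.ball z 1 :=
    fun b hb => ⟨left_ne_zero_of_mul hb, by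
      rw [Metric.mem_ball, dist_eq_norm]
      exact (lt_of_not_ge fun h1 => right_ne_zero_of_mul hb (gk_eq_zero hs.le h1)).trans_le hs1⟩
  have e1 : ∑ᶠ b, Y.mw b * gk s (Y.w b - z) = ∑ a ∈ t, ∑ᶠ n : ℤ, Y.m a * gk s (Y.w (a, n) - z) := by
    rw [finsum_curry _ ((h.fin_w z 1).subset hg)]
    refine finsum_eq_sum_of_support_subset _ fun a ha => ?_
    obtain ⟨n, -, hn⟩ := exists_ne_zero_of_finsum_mem_ne_zero
      (s := univ) (f := fun n : ℤ => Y.mw (a, n) * gk s (Y.w (a, n) - z)) (by simpa using ha)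
    obtain ⟨h1, h2⟩ := hg _ hn
    have h3 := (x3_ball h2).1
    rw [x3_w_re] at h3
    exact hm a h1 (by linarith only [h3, (abs_lt.1 h3).2])
  have e2 : ∀ a, ca (fun w : ℂ => Y.m a * nk (w.re - Y.ξ a) (w.im - Y.η a)) z s =
      Y.m a * nk (z.re - Y.ξ a) (z.im - Y.η a) + ∑ᶠ n : ℤ, Y.m a * gk s (Y.w (a, n) - z) := by
    intro a
    rw [x3_smul, ← mul_finsum, ← mul_add]
    by_cases h0 : Y.m a = 0
    · simp [h0]
    have := (ca_nk_sum (p := Y.ζ a) hs hs1 fun n => hz (a, n) h0).2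
    simp only [show (Y.ζ a).re = Y.ξ a by simp [ζ], show (Y.ζ a).im = Y.η a by simp [ζ]] at this
    rw [this]
    rfl
  have e3 := hv z s hs hsub
  unfold ca at e2 e3 ⊢
  rw [circleAverage_congr_sphere fun w hw => he w (hsp hw), circleAverage_fun_add
    (CircleIntegrable.fun_sum t fun a _ => Y.x3_ci_a a z s) (hc.mono hsp).circleIntegrable',
    circleAverage_fun_sum fun a _ => Y.x3_ci_a a z s, e3, e1, he z (by simp)]
  simp only [e2, Finset.sum_add_distrib]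
  ring

theorem Valid.mass (h : Y.Valid H) (z : ℂ) :
    ∑ᶠ b, (Metric.ball z 7).indicator (fun _ => Y.mw b) (Y.w b) ≤ 3 * exp 14 * Y.W z.re := by
  classical
  have hg : ∀ b, (Metric.ball z 7).indicator (fun _ => Y.mw b) (Y.w b) ≠ 0 →
      Y.mw b ≠ 0 ∧ Y.w b ∈ Metric.ball z 7 := fun b hb => by
    by_cases h1 : Y.w b ∈ Metric.ball z 7
    · rw [Set.indicator_of_mem h1] at hb
      exact ⟨hb, h1⟩
    · exact absurd (Set.indicator_of_notMem h1 _) hb
  have key : ∀ a, ∑ᶠ n : ℤ, (Metric.ball z 7).indicator (fun _ => Y.mw (a, n)) (Y.w (a, n)) ≤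
      3 * exp 14 * (Y.m a * w0 (z.re - Y.ξ a)) := by
    intro a
    set n0 := ⌈(z.im - 7 - Y.η a) / (2 * π)⌉ with hn0
    rw [finsum_eq_sum_of_support_subset (s := Finset.Icc n0 (n0 + 2)) _ fun n hn => ?_]
    · refine (Finset.sum_le_card_nsmul _ _ (exp 14 * (Y.m a * w0 (z.re - Y.ξ a)))
        fun n _ => ?_).trans ?_
      · by_cases h1 : Y.w (a, n) ∈ Metric.ball z 7
        · rw [Set.indicator_of_mem h1]
          have h3 := (x3_ball h1).1
          rw [x3_w_re] at h3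
          have h4 := (abs_lt.1 h3).2
          have h5 := w0_shift (z.re - Y.ξ a) (t := 7) (by norm_num)
          rw [w0_of_nonneg (by simp only at h4; linarith), show (2 : ℝ) * 7 = 14 by norm_num] at h5
          have h6 : 1 ≤ exp 14 * w0 (z.re - Y.ξ a) := by simp only at h4; linarith
          have := mul_le_mul_of_nonneg_left h6 (h.nonneg a)
          change Y.m a ≤ _
          linarith only [this]
        · rw [Set.indicator_of_notMem h1]
          exact mul_nonneg (exp_pos _).le (mul_nonneg (h.nonneg a) (w0_pos _).le)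
      · rw [Int.card_Icc, show n0 + 2 + 1 - n0 = 3 by ring]
        simp only [Int.reduceToNat, nsmul_eq_mul, Nat.cast_ofNat]
        linarith only []
    · have h3 := (x3_ball (hg _ hn).2).2
      rw [x3_w_im] at h3
      obtain ⟨h4, h5⟩ := abs_lt.1 h3
      simp only at h4 h5
      have h6 := Int.le_ceil ((z.im - 7 - Y.η a) / (2 * π))
      rw [← hn0, div_le_iff₀ two_pi_pos] at h6
      rw [Finset.coe_Icc]
      refine ⟨Int.ceil_le.2 ((div_le_iff₀ two_pi_pos).2 (by linarith only [h4])), ?_⟩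
      have h7 : (n : ℝ) < n0 + 3 := by
        by_contra h8
        linarith only [h5, h6, h8, pi_gt_three, not_lt.1 h8, mul_nonneg_of_nonpos_of_nonpos (Mathlib.Tactic.Linarith.sub_nonpos_of_le (le_of_not_gt h8)) (le_of_lt (Mathlib.Tactic.Linarith.sub_neg_of_lt pi_gt_three))]
      have h9 : n < n0 + 3 := by exact_mod_cast h7
      omega
  rw [finsum_curry _ ((h.fin_w z 7).subset hg), finsum_eq_sum_of_support_subset
    (s := (h.fin (z.re + 7)).toFinset) _ fun a ha => ?_]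
  · refine (Finset.sum_le_sum fun a _ => key a).trans ?_
    rw [← Finset.mul_sum]
    exact mul_le_mul_of_nonneg_left ((h.summable_w0 z.re).sum_le_tsum _ fun a _ =>
      mul_nonneg (h.nonneg a) (w0_pos _).le) (by positivity)
  · obtain ⟨n, -, hn⟩ := exists_ne_zero_of_finsum_mem_ne_zero (s := univ) (f := fun n : ℤ =>
      (Metric.ball z 7).indicator (fun _ => Y.mw (a, n)) (Y.w (a, n))) (by simpa using ha)
    obtain ⟨h1, h2⟩ := hg _ hn
    have h3 := (x3_ball h2).1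
    rw [x3_w_re] at h3
    rw [Finset.mem_coe, Set.Finite.mem_toFinset]
    exact ⟨h1, by linarith only [h3, (abs_lt.1 h3).2]⟩

theorem Valid.ca_close : ∃ C : ℝ, 0 < C ∧ ∀ {ι : Type} (Y : ICfg ι) (H : ℝ) (z : ℂ), Y.Valid H →
    |ca Y.u z 1 - (Y.cc z.re * Complex.exp z).re| ≤ C * Y.W z.re := by
  obtain ⟨C1, hC1, H1⟩ := abs_ca_lg
  obtain ⟨C2, hC2, H2⟩ := abs_ca_nk
  refine ⟨C1 + C2, by positivity, fun {ι} Y H z h => ?_⟩
  classical
  set k : ι → ℂ → ℝ := fun a w => if Y.ξ a < z.re then lg (w.re - Y.ξ a) (w.im - Y.η a)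
    else nk (w.re - Y.ξ a) (w.im - Y.η a) with hk
  have er : ∀ a, (Y.ζ a).re = Y.ξ a := fun a => by simp [ζ]
  have ei : ∀ a, (Y.ζ a).im = Y.η a := fun a => by simp [ζ]
  have hki : ∀ a, CircleIntegrable (k a) z 1 ∧
      |ca (k a) z 1| ≤ (C1 + C2) * w0 (z.re - Y.ξ a) := by
    intro a
    have hw := w0_pos (z.re - Y.ξ a)
    by_cases ha : Y.ξ a < z.re
    · have h1 := ci_lg_one (Y.ζ a) z 1
      have h2 := H1 (Y.ζ a) z (by rwa [er])
      simp only [er, ei] at h1 h2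
      simp only [hk, if_pos ha]
      exact ⟨h1, by linarith only [h2, hC2, hw, mul_pos_of_neg_of_neg (Mathlib.Tactic.Linarith.sub_neg_of_lt hC2) (Mathlib.Tactic.Linarith.sub_neg_of_lt hw)]⟩
    · have h1 := ci_nk (Y.ζ a) z 1
      have h2 := H2 (Y.ζ a) z (by rw [er]; exact not_lt.1 ha)
      simp only [er, ei] at h1 h2
      simp only [hk, if_neg ha]
      exact ⟨h1, by linarith only [h2, hC1, hw, mul_pos_of_neg_of_neg (Mathlib.Tactic.Linarith.sub_neg_of_lt hC1) (Mathlib.Tactic.Linarith.sub_neg_of_lt hw)]⟩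
  set s := (h.fin (z.re + 2 + 1)).toFinset with hs
  have hsub : Metric.sphere z |(1 : ℝ)| ⊆ {w : ℂ | w.re < z.re + 2} := fun w hw => by
    have := x3_sph (Metric.sphere_subset_closedBall hw)
    rw [abs_one] at this
    show w.re < z.re + 2
    linarith only [this]
  have far : ∀ a, a ∉ s → Y.m a ≠ 0 → z.re + 2 + 1 < Y.ξ a := fun a ha h0 =>
    lt_of_not_ge fun h1 => ha (by rw [hs, Set.Finite.mem_toFinset]; exact ⟨h0, h1⟩)
  have ek : ∀ a, a ∉ s → (fun w => Y.m a * k a w) =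
      fun w => Y.m a * nk (w.re - Y.ξ a) (w.im - Y.η a) := fun a ha => by
    by_cases h0 : Y.m a = 0
    · simp [h0]
    · have := far a ha h0
      simp only [hk, if_neg (show ¬ Y.ξ a < z.re by linarith only [this])]
  obtain ⟨h1, h2⟩ := x3_gen (f := fun a w => Y.m a * k a w)
    (h.sum.mul_left (2 * exp (2 * (z.re + 2)))) s (z := z) (r := 1)
    (fun a _ => x3_ci _ (hki a).1)
    (fun a ha => by rw [ek a ha]; exact (h.x3_far (far a ha)).1.mono hsub)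
    fun a ha w hw => by
      have := (h.x3_far (far a ha)).2.2 w (hsub hw)
      rwa [← congrFun (ek a ha) w] at this
  have e : Y.u = fun w => (Y.cc z.re * Complex.exp w).re + ∑' a, Y.m a * k a w := by
    funext w
    rw [u, (h.U_split z.re w.re w.im).2, Complex.re_add_im]
  have h3 := x3_lin (Y.cc z.re) z zero_le_one
  have hl : Continuous fun w : ℂ => (Y.cc z.re * Complex.exp w).re := by fun_prop
  have h4 : ca Y.u z 1 - (Y.cc z.re * Complex.exp z).re = ca (fun w => ∑' a, Y.m a * k a w) z 1 := by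
    unfold ca at h3 ⊢
    rw [e, circleAverage_fun_add hl.continuousOn.circleIntegrable' h1, h3]
    ring
  rw [h4, W, ← tsum_mul_left, ← Real.norm_eq_abs]
  refine h2.norm_le_of_bounded ((h.summable_w0 z.re).mul_left _).hasSum fun a => ?_
  rw [x3_smul, Real.norm_eq_abs, abs_mul, abs_of_nonneg (h.nonneg a)]
  have := mul_le_mul_of_nonneg_left (hki a).2 (h.nonneg a)
  linarith

end ICfg

end

end Pool.Agent.MinMod.Mo
end

-- merged part: Pool.Agent.Work.MP_f62247_an.Mo.X4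
section
/-!
# From a calm configuration to a frame and a potential
`cc_step` and `Calm μ` give `‖cc y - cc x‖ ≤ e² μ ‖cc x‖`; `exists_frame` with `c = Y.cc`. With `ν1 = C e² μ`: `|A x - Φ x| ≤ ν1 Φ x`, `|Re (cc x * exp z) - M z| ≤ ν1 Φ` because `M z = Re (Φ exp (-i φ) exp (i y))`, and `|Im (cc x * exp (i y)) * exp x - Φ sin (y - φ x)| ≤ ν1 Φ`.
-/

open Real MeasureTheory Set Filter Topology

namespace Pool.Agent.MinMod.Mo

noncomputable section

theorem x4_abs {c : ℂ} {x Φ φ b : ℝ} (hΦ : 0 < Φ)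
    (h : ‖c * (exp x : ℝ) - (Φ : ℂ) * Complex.exp (-(φ : ℂ) * Complex.I)‖ ≤ b) :
    |‖c‖ * exp x - Φ| ≤ b := by
  have h1 := abs_norm_sub_norm_le (c * (exp x : ℝ)) ((Φ : ℂ) * Complex.exp (-(φ : ℂ) * Complex.I))
  rw [norm_mul, norm_mul, ← Complex.ofReal_neg, Complex.norm_exp_ofReal_mul_I, mul_one,
    Complex.norm_real, Complex.norm_real, Real.norm_of_nonneg hΦ.le,
    Real.norm_of_nonneg (exp_pos x).le, Complex.ofReal_neg] at h1
  exact h1.trans h

theorem x4_rot {c : ℂ} {x Φ φ b : ℝ}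
    (h : ‖c * (exp x : ℝ) - (Φ : ℂ) * Complex.exp (-(φ : ℂ) * Complex.I)‖ ≤ b) (y : ℝ) :
    |(c * Complex.exp (x + y * Complex.I)).re - Φ * cos (y - φ)| ≤ b ∧
      |(c * Complex.exp (y * Complex.I)).im * exp x - Φ * sin (y - φ)| ≤ b := by
  have e1 : (c * (exp x : ℝ) - (Φ : ℂ) * Complex.exp (-(φ : ℂ) * Complex.I)) *
      Complex.exp (y * Complex.I) = c * Complex.exp (y * Complex.I) * (exp x : ℝ) -
        (Φ : ℂ) * Complex.exp (((y - φ : ℝ) : ℂ) * Complex.I) := by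
    rw [show ((y - φ : ℝ) : ℂ) * Complex.I = -(φ : ℂ) * Complex.I + y * Complex.I by
      push_cast; ring, Complex.exp_add]
    ring
  have h1 : ‖c * Complex.exp (y * Complex.I) * (exp x : ℝ) -
      (Φ : ℂ) * Complex.exp (((y - φ : ℝ) : ℂ) * Complex.I)‖ ≤ b := by
    rw [← e1, norm_mul, Complex.norm_exp_ofReal_mul_I, mul_one]
    exact h
  have h2 := (Complex.abs_re_le_norm _).trans h1
  have h3 := (Complex.abs_im_le_norm _).trans h1
  rw [Complex.sub_re, Complex.re_ofReal_mul, Complex.exp_ofReal_mul_I_re] at h2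
  rw [Complex.sub_im, Complex.im_ofReal_mul, Complex.exp_ofReal_mul_I_im, Complex.im_mul_ofReal] at h3
  refine ⟨?_, h3⟩
  rw [Complex.exp_add, ← Complex.ofReal_exp, mul_comm ((exp x : ℝ) : ℂ), ← mul_assoc]
  exact h2

theorem toPot {ν : ℝ} (hν : 0 < ν) : ∃ μ0 : ℝ, 0 < μ0 ∧ ∀ {ι : Type} (Y : ICfg ι) (H μ : ℝ),
    Y.Valid H → μ ≤ μ0 → Y.Calm μ → ∃ F : Frame, F.Good ν ∧ Pot F ν Y.u Y.w Y.mw ∧
      (∀ k ε x0 : ℝ, 0 ≤ ε → Y.Cov k ε μ (1 / 100) x0 → CovP F k (2 * ε) ν (1 / 200) x0 Y.u Y.w Y.mw) ∧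
      ∀ lam : ℝ, LoType Y.A lam → LoType F.Φ lam := by
  obtain ⟨Cf, hCf, hframe⟩ := exists_frame
  obtain ⟨Cc, hCc, hclose⟩ := ICfg.Valid.ca_close
  refine ⟨min ν (1 / 1000) / (Cf * exp 2 + 2 * Cc + 6 * exp 14 + 1), by positivity, ?_⟩
  intro ι Y H μ hV hμ hC
  have hA : ∀ x, 0 < Y.A x := fun x => mul_pos (hC x).1 (exp_pos x)
  have μ0 : 0 ≤ μ := nonneg_of_mul_nonneg_left ((hV.W_nonneg 0).trans (hC 0).2) (hA 0)
  rw [le_div_iff₀ (by positivity)] at hμ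
  have t1 : 0 ≤ Cf * (exp 2 * μ) := by positivity
  have t2 : 0 ≤ Cc * μ := by positivity
  have t3 : 0 ≤ exp 14 * μ := by positivity
  have s1 : Cf * (exp 2 * μ) + 2 * (Cc * μ) + 6 * (exp 14 * μ) + μ ≤ ν := by
    linarith only [hμ, min_le_left ν (1 / 1000)]
  have s2 : Cf * (exp 2 * μ) + 2 * (Cc * μ) + 6 * (exp 14 * μ) + μ ≤ 1 / 1000 := by
    linarith only [hμ, min_le_right ν (1 / 1000)]
  have t4 : exp 2 * μ ≤ Cf * (exp 2 * μ) := le_mul_of_one_le_left (by positivity) hCf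
  obtain ⟨F, hF, hE⟩ := hframe Y.cc H (exp 2 * μ) (by positivity) (by linarith only [μ0, t2, t3, s2, t4])
    (fun x => norm_pos_iff.1 (hC x).1) (fun x hx => by rw [hV.cc_left hx, hV.cc_left le_rfl])
    (fun x y h1 h2 => by
      have h3 := (hV.cc_step h1 h2).trans (mul_le_mul_of_nonneg_left (hC x).2 (exp_pos 2).le)
      refine le_of_mul_le_mul_right (h3.trans (le_of_eq ?_)) (exp_pos x)
      unfold ICfg.A
      ring)
  obtain ⟨δ, hδ⟩ : ∃ δ, δ = Cf * (exp 2 * μ) := ⟨_, rfl⟩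
  rw [← hδ] at hF hE t1 s1 s2
  have hAΦ : ∀ x, (1 - δ) * F.Φ x ≤ Y.A x ∧ Y.A x ≤ (1 + δ) * F.Φ x := fun x => by
    have h1 := abs_le.1 (x4_abs (F.Φ_pos x) (hE x))
    unfold ICfg.A
    constructor <;> linarith only [h1, h1.1, h1.2]
  have hA2 : ∀ x, Y.A x ≤ 2 * F.Φ x := fun x =>
    (hAΦ x).2.trans (mul_le_mul_of_nonneg_right (by linarith only [μ0, t2, t3, s2]) (F.Φ_pos x).le)
  have hW : ∀ x, Y.W x ≤ μ * (2 * F.Φ x) := fun x =>
    (hC x).2.trans (mul_le_mul_of_nonneg_left (hA2 x) μ0)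
  have hu : ∀ x y : ℝ, Y.u (x + y * Complex.I) = Y.U x y := fun x y => by simp [ICfg.u]
  refine ⟨F, hF.mono (by linarith only [μ0, t2, t3, s1]), ⟨fun b => hV.nonneg b.1, hV.fin_w, hV.measurable_u, hV.loc_u,
    hV.ci_u, Y.per_u, fun z hz s hs hs1 => hV.jen hz hs hs1, fun z => ?_, fun z => ?_⟩,
    fun k ε x0 hε hcov x hx hreg => ?_, fun lam hl => hl.of_comp (c := 1 / 2) (C := 2)
      (by norm_num) (by norm_num) (Eventually.of_forall fun x => ?_)⟩
  · have h1 := hclose Y H z hV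
    have h2 := (x4_rot (hE z.re) z.im).1
    rw [Complex.re_add_im] at h2
    have h3 := abs_sub_le (ca Y.u z 1) (Y.cc z.re * Complex.exp z).re (F.M z)
    have h4 := mul_le_mul_of_nonneg_left (hW z.re) hCc.le
    have h5 := mul_le_mul_of_nonneg_right (by linarith only [μ0, t3, s1] : δ + 2 * (Cc * μ) ≤ ν) (F.Φ_pos z.re).le
    unfold Frame.M Frame.ht at *
    linarith only [h1, h2, h3, h4, h5]
  · have h4 := mul_le_mul_of_nonneg_left (hW z.re) (by positivity : 0 ≤ 3 * exp 14)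
    have h5 := mul_le_mul_of_nonneg_right (by linarith only [μ0, t2, s1, t1] : 6 * (exp 14 * μ) ≤ ν) (F.Φ_pos z.re).le
    linarith only [h4, h5, hV, hV.mass z]
  · obtain ⟨y, hy⟩ := hcov x hx fun a ha => by simpa [ICfg.w, ICfg.ζ] using hreg (a, 0) ha
    have hΦ := F.Φ_pos x
    refine ⟨y, hy.imp (fun h y' => ?_) fun h => ⟨?_, ?_⟩⟩
    · rw [hu, hu]
      linarith only [h, hA2, hε, h y', mul_le_mul_of_nonneg_left (hA2 x) hε]
    · have h1 := mul_le_mul_of_nonneg_right h.1 (exp_pos x).le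
      have h2 := abs_sub_abs_le_abs_sub ((Y.cc x * Complex.exp (y * Complex.I)).im * exp x)
        (F.Φ x * sin (y - F.φ x))
      rw [abs_mul, abs_mul, abs_of_pos (exp_pos x), abs_of_pos hΦ] at h2
      have h3 := (x4_rot (hE x) y).2
      have h4 := (hAΦ x).1
      have h5 := mul_le_mul_of_nonneg_right (by linarith only [μ0, t2, t3, s2] : δ ≤ 1 / 1000) hΦ.le
      unfold ICfg.A at h4
      exact le_of_mul_le_mul_left (by linarith only [hΦ, h1, h2, h3, h4, h5] : F.Φ x * (1 / 200) ≤ F.Φ x * |sin (y - F.φ x)|) hΦ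
    · rw [hu]
      have h1 := mul_le_mul_of_nonneg_left (hAΦ x).1 (by linarith only [t2, t3, s2, t1] : 0 ≤ 1 - μ)
      have h2 := mul_le_mul_of_nonneg_right (by linarith only [t2, t3, s1, μ0, t1, mul_nonneg_of_nonpos_of_nonpos (Mathlib.Tactic.Linarith.sub_nonpos_of_le μ0) (Mathlib.Tactic.Linarith.sub_nonpos_of_le t1)] : 1 - ν ≤ (1 - μ) * (1 - δ)) hΦ.le
      linarith only [h, h1, h2, h.2]
  · have h1 := mul_le_mul_of_nonneg_right (by linarith only [μ0, t2, t3, s2] : 1 / 2 ≤ 1 - δ) (F.Φ_pos x).le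
    constructor <;> linarith only [hA2, h1, hAΦ, hA2 x, (hAΦ x).1]

end

end Pool.Agent.MinMod.Mo
end
end

-- merged part: Pool.Agent.Work.MP_f62247_an.Mo.Main
section
/-!
# Monotonicity
The chain `reduce`, `toPot`, `thicken`, `relocate`, `sweep`, `insert_strip`, `realise`.
-/

open Real MeasureTheory Set Filter Topology

namespace Pool.Agent.MinMod.Mo

noncomputable section

theorem CovD.mono_a {F : Frame} {k ε μ a a' x0 : ℝ} {u : ℂ → ℝ} (h : CovD F k ε μ a x0 u)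
    (ha : a' ≤ a) : CovD F k ε μ a' x0 u := by
  intro x hx
  obtain ⟨y, hy⟩ := h x hx
  exact ⟨y, hy.imp id fun h' => ⟨ha.trans h'.1, h'.2⟩⟩

theorem CovS.mono_a {F : Frame} {k ε a a' x0 : ℝ} {u : ℂ → ℝ} (h : CovS F k ε a x0 u)
    (ha : a ≤ a') : CovS F k ε a' x0 u := by
  intro x hx
  obtain ⟨y, h1, h2, h3⟩ := h x hx
  exact ⟨y, h1, h2.trans ha, h3⟩

theorem transfer : ∃ δ νk : ℝ, 0 < δ ∧ 0 < νk ∧ ∀ (f : ℂ → ℂ) (lam1 lam2 η η' ε : ℝ),
    Differentiable ℂ f → 1 < lam1 → lam1 < lam2 → lam2 < 1 + δ → lowerOrder f = (lam1 : EReal) →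
    0 < η' → η' < η → η ≤ νk → 0 < ε → (∀ᶠ r in atTop, modRatio f r ≤ ((-1 - η : ℝ) : EReal)) →
    ∃ g : ℂ → ℂ, Differentiable ℂ g ∧ (∃ z w, g z ≠ g w) ∧ lowerOrder g = (lam2 : EReal) ∧
      ∀ᶠ r in atTop, modRatio g r ≤ ((-1 - η' + ε : ℝ) : EReal) := by
  obtain ⟨t0, ht0, hins⟩ := insert_strip
  obtain ⟨t, ht, ht1, ht2⟩ : ∃ t : ℝ, 0 < t ∧ t ≤ t0 ∧ t ≤ 1 / 100 :=
    ⟨min t0 (1 / 100), lt_min ht0 (by norm_num), min_le_left _ _, min_le_right _ _⟩
  have h8 : 0 < t ^ 8 := by positivity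
  have h18 : 0 < t ^ 18 := by positivity
  have h81 : t ^ 8 ≤ 1 / 100 := (pow_le_of_le_one ht.le (by linarith only [ht, ht2]) (by norm_num)).trans ht2
  obtain ⟨ν3, hν3, hsw⟩ := sweep h8 h81 h18
  obtain ⟨a0, ha0, hrel⟩ := relocate
  obtain ⟨a, ha, ha1, ha2, ha3⟩ : ∃ a : ℝ, 0 < a ∧ a ≤ a0 ∧ a ≤ t ^ 8 / 8 ∧ a ≤ 1 / 800 :=
    ⟨min a0 (min (t ^ 8 / 8) (1 / 800)), by positivity, min_le_left _ _,
      (min_le_right _ _).trans (min_le_left _ _), (min_le_right _ _).trans (min_le_right _ _)⟩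
  obtain ⟨μr0, hμr0, hrel⟩ := hrel a ν3 ha ha1 hν3
  obtain ⟨μr, hμr, hμr1, hμr2⟩ : ∃ μr : ℝ, 0 < μr ∧ μr ≤ μr0 ∧ μr ≤ 1 / 100 :=
    ⟨min μr0 (1 / 100), by positivity, min_le_left _ _, min_le_right _ _⟩
  obtain ⟨μt, hμt, hth⟩ := thicken hμr
  obtain ⟨ν, hν, n1, n2, n3, n4, n5⟩ : ∃ ν : ℝ, 0 < ν ∧ ν ≤ μt ∧ ν ≤ μr ∧ ν ≤ ν3 ∧ ν ≤ t ^ 18 ∧
      ν ≤ t ^ 8 / 100 :=
    ⟨min μt (min μr (min ν3 (min (t ^ 18) (t ^ 8 / 100)))), by positivity, min_le_left _ _,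
      (min_le_right _ _).trans (min_le_left _ _),
      (min_le_right _ _).trans ((min_le_right _ _).trans (min_le_left _ _)),
      (min_le_right _ _).trans ((min_le_right _ _).trans ((min_le_right _ _).trans (min_le_left _ _))),
      (min_le_right _ _).trans ((min_le_right _ _).trans ((min_le_right _ _).trans (min_le_right _ _)))⟩
  obtain ⟨μp, hμp, hpot⟩ := toPot hν
  obtain ⟨δ, νk, hδ, hνk, hred⟩ := reduce hμp
  refine ⟨min δ (t ^ 8 / 100), min νk μr, by positivity, by positivity,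
    fun f lam1 lam2 η η' ε hf l1 l2 l3 ho e0 e1 e2 hε hm => ?_⟩
  have d1 := min_le_left δ (t ^ 8 / 100)
  have d2 := min_le_right δ (t ^ 8 / 100)
  have k1 := min_le_left νk μr
  have k2 := min_le_right νk μr
  obtain ⟨e, he, he1, he2⟩ : ∃ e : ℝ, 0 < e ∧ 1000 * e ≤ ε ∧ 1000 * e ≤ μr :=
    ⟨min ε μr / 1000, by positivity, by linarith only [min_le_left ε μr], by linarith only [min_le_right ε μr]⟩
  obtain ⟨ι, Y, H, lam, x0, hY, hc, hcov, hty, hl⟩ :=
    hred f lam1 lam2 η η' e hf l1 l2 (by linarith only [l3, d1]) ho e0 e1 (by linarith only [e2, k1]) he hm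
  obtain ⟨F, hF, hP, hcp, hty'⟩ := hpot Y H μp hY le_rfl hc
  have hk1 : 1 ≤ 1 + η' := by linarith only [e0]
  have hk2 : 1 + η' ≤ 2 := by linarith only [hμr2, e1, e2, k2, he, he2]
  obtain ⟨v, ρ, K, hD, hcd⟩ := hth F ν (1 + η') (2 * e) e (1 / 200) x0 Y.u Y.w Y.mw hν n1 hF hP hk1 hk2
    (by linarith only [he]) (by linarith only [hμr2, he, he2]) he (by norm_num) (hcp _ _ _ he.le hcov)
  obtain ⟨v2, K2, hS, hcs⟩ := hrel F μr K (1 + η') (2 * e + e) e x0 v ρ hμr1 (hF.mono n2) hD hk1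
    (by linarith only [e1, e2, k2]) (by linarith only [he]) (by linarith only [he, he2]) he (hcd.mono_a (by linarith only [h81, ha2]))
  obtain ⟨v3, K3, hC, hcs3⟩ := hsw F ν K2 (1 + η') (2 * e + e + e) e x0 v2 n3 hF hS hk1 hk2 he
    (hcs.mono_a (by linarith only [ha2]))
  have hlam := hF.type_ge (hty' lam hty)
  have hl0 : 1 / 2 ≤ lam := by linarith only [h81, hμr2, n5, he, he2, hlam]
  have hw0 : 0 < lam2 / lam - 1 := by
    rw [sub_pos, lt_div_iff₀ (by linarith only [h81, hμr2, n5, he, he2, hlam])]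
    linarith only [hl]
  have hw1 : lam2 / lam - 1 ≤ t ^ 8 / 25 := by
    rw [sub_le_iff_le_add, div_le_iff₀ (by linarith only [h81, hμr2, n5, he, he2, hlam])]
    linarith only [mul_le_mul_of_nonneg_left hl0 h8.le, l3, d2, hlam, n5]
  have hpi := pi_pos
  have hpi4 := pi_le_four
  have hq0 : 0 ≤ π * (lam2 / lam - 1) := mul_nonneg hpi.le hw0.le
  have hq1 : π * (lam2 / lam - 1) ≤ 4 * (t ^ 8 / 25) := mul_le_mul hpi4 hw1 hw0.le (by norm_num)
  have hq2 : π * (lam2 / lam - 1) ≤ π * (1 / 10) :=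
    mul_le_mul_of_nonneg_left (by linarith only [hw1, h81]) hpi.le
  obtain ⟨G, hG⟩ := hins F ν K3 t (2 * π * (lam2 / lam - 1)) (1 + η') (2 * e + e + e + e) e x0 v3 ht ht1
    n4 hF hC hk1 hk2 (by positivity) (by linarith only [hq1, h8]) (by linarith only [hμr2, he, he2]) he (hcs3.mono_a (by linarith only [l1, l2, l3, d2]))
    (by linarith only [he])
  have hL : (2 * π + 2 * π * (lam2 / lam - 1)) / (2 * π) * lam = lam2 := by
    have : lam ≠ 0 := by linarith only [h81, hμr2, n5, he, he2, hlam]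
    field_simp
    ring
  obtain ⟨g, g1, g2, g3, g4⟩ := realise hF (by linarith only [h81, hμr2, n5, he, he2]) hG (by linarith only [hq0])
    (by linarith only [hq2]) hk1 hk2
    (by linarith only [he]) (by linarith only [hμr2, he, he2]) (hty' lam hty) (by rw [hL]; linarith only [l1, l2])
  rw [hL] at g3
  refine ⟨g, g1, g2, g3, g4.mono fun r hr => hr.trans (EReal.coe_le_coe_iff.2 (by linarith only [he, he1]))⟩

theorem antitone : ∃ δ : ℝ, 0 < δ ∧ AntitoneOn minModConst (Ioo 1 (1 + δ)) := by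
  obtain ⟨δ, νk, hδ, hνk, H⟩ := transfer
  obtain ⟨c, δ1, hc, hδ1, hlo⟩ := lower_bound
  obtain ⟨K, δ2, hK, hδ2, hup⟩ := upper_bound
  obtain ⟨d, hd, d1, d2, d3, d4, d5⟩ : ∃ d : ℝ, 0 < d ∧ d ≤ δ ∧ d ≤ δ1 ∧ d ≤ δ2 ∧ d ≤ 1 ∧ d ≤ c * νk :=
    ⟨min δ (min δ1 (min δ2 (min 1 (c * νk)))), by positivity, min_le_left _ _,
      (min_le_right _ _).trans (min_le_left _ _),
      (min_le_right _ _).trans ((min_le_right _ _).trans (min_le_left _ _)),
      (min_le_right _ _).trans ((min_le_right _ _).trans ((min_le_right _ _).trans (min_le_left _ _))),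
      (min_le_right _ _).trans ((min_le_right _ _).trans ((min_le_right _ _).trans (min_le_right _ _)))⟩
  refine ⟨d, hd, fun lam1 h1 lam2 h2 h12 => ?_⟩
  rcases h12.eq_or_lt with rfl | h12
  · exact le_rfl
  refine le_iInf₂ fun f hf => ?_
  obtain ⟨hf, -, ho⟩ := hf
  have hu : minModConst lam2 ≤ ((-1 : ℝ) : EReal) := by
    have := hup (lam2 - 1) (by linarith only [h2, h2.1]) (by linarith only [d3, h2, h2.2])
    rw [add_sub_cancel] at this
    exact this.trans (EReal.coe_le_coe_iff.2 (by linarith only [exp_pos (-K / (lam2 - 1) ^ 2)]))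
  have he : 0 < lam1 - 1 := by linarith only [h1, h1.1]
  have he1 : lam1 - 1 < d := by linarith only [h1, h1.2]
  have hl : ((-1 - νk : ℝ) : EReal) ≤ limsup (modRatio f) atTop := by
    refine le_trans (EReal.coe_le_coe_iff.2 ?_)
      (hlo (lam1 - 1) he (by linarith only [d2, he1]) f hf (by rwa [add_sub_cancel]))
    have q1 : 1 / νk ≤ c / (lam1 - 1) ^ 2 := by
      rw [div_le_div_iff₀ hνk (by positivity)]
      (refine le_of_not_gt fun h_nl => ?_; linarith only [h_nl, d4, hd, d5, he1, he, mul_nonneg_of_nonpos_of_nonpos (Mathlib.Tactic.Linarith.sub_nonpos_of_le (sq_nonneg (lam1 - (1 : ℝ)))) (Mathlib.Tactic.Linarith.sub_nonpos_of_le d4), mul_nonneg_of_nonpos_of_nonpos (le_of_lt (Mathlib.Tactic.Linarith.sub_neg_of_lt hd)) (Mathlib.Tactic.Linarith.sub_nonpos_of_le d5), mul_pos_of_neg_of_neg (Mathlib.Tactic.Linarith.sub_neg_of_lt hd) (Mathlib.Tactic.Linarith.sub_neg_of_lt he1), mul_pos_of_neg_of_neg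 (Mathlib.Tactic.Linarith.sub_neg_of_lt hd) (Mathlib.Tactic.Linarith.sub_neg_of_lt h_nl), mul_pos_of_neg_of_neg (Mathlib.Tactic.Linarith.sub_neg_of_lt he) (Mathlib.Tactic.Linarith.sub_neg_of_lt he1)])
    have q2 : exp (-c / (lam1 - 1) ^ 2) ≤ νk := by
      rw [neg_div, exp_neg, inv_le_comm₀ (exp_pos _) hνk, ← one_div]
      linarith only [d4, he, he1, q1, add_one_le_exp (c / (lam1 - 1) ^ 2)]
    linarith only [q2]
  by_contra hcon
  have hlt := not_le.1 hcon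
  obtain ⟨b, b1, b2⟩ := EReal.lt_iff_exists_real_btwn.1 hlt
  obtain ⟨b', c1, c2⟩ := EReal.lt_iff_exists_real_btwn.1 b1
  have b3 : b < -1 := EReal.coe_lt_coe_iff.1 (b2.trans_le hu)
  have b4 : b' < b := EReal.coe_lt_coe_iff.1 c2
  have b5 : -1 - νk < b' := EReal.coe_lt_coe_iff.1 (hl.trans_lt c1)
  have hev : ∀ᶠ r in atTop, modRatio f r ≤ ((-1 - (-1 - b') : ℝ) : EReal) := by
    rw [show -1 - (-1 - b') = b' by ring]
    exact (eventually_lt_of_limsup_lt c1).mono fun r hr => hr.le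
  obtain ⟨g, g1, g2, g3, g4⟩ := H f lam1 lam2 (-1 - b') (-1 - (b + b') / 2) ((b - b') / 2) hf h1.1 h12
    (by linarith only [d1, h2, h2.2]) ho (by linarith only [b3, b4]) (by linarith only [b4]) (by linarith only [b5]) (by linarith only [b4]) hev
  rw [show -1 - (-1 - (b + b') / 2) + (b - b') / 2 = b by ring] at g4
  have : minModConst lam2 ≤ (b : EReal) :=
    (iInf₂_le g ⟨g1, g2, g3⟩).trans (limsup_le_of_le (h := g4))
  exact absurd b2 (not_lt.2 this)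

end

end Pool.Agent.MinMod.Mo
end

-- merged part: Pool.Agent.Work.MP_f62247_an.St.Z2
section
-- merged part: Pool.Agent.Work.MP_f62247_an.St.Z1
section
/-!
# The widened function of Mo/D4 as a base
Follow `d4_wide` (Mo/D4). `slope`: `β = 4π/(2π + w) ≤ 2` and `cos (β h) ≤ 3/4` force `|h| ≥ 3/10` (`Real.one_sub_sq_div_two_le_cos`); then `d4_D` or `d4_A`, `close_u`, `SubD.up`, `cos ≤ cos (29/100) ≤ 96/100` on `[29/100, π + 1]` and on `[-π, -29/100]`, `Φ_close`, `Bge`.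
Cover: with `h` the height of `ζ`, either `|h| ≤ 1/40` or `|h ± (2π + w)/2| ≤ 1/40`, and `β (2π + w)/2 = 2π`.
-/

open Real MeasureTheory Set Filter Topology

namespace Pool.Agent.MinMod.St

open Pool.Agent.MinMod.Mo

noncomputable section

theorem sz1_near {L h : ℝ} (hL : 2 * π ≤ L) (hh : |h| ≤ 3 / 10) : 3 / 4 < cos (4 * π / L * h) := by
  have hpi := pi_pos
  have h1 : 4 * π / L ≤ 2 := by
    rw [div_le_iff₀ (by linarith only [hL, hpi])]
    linarith only [hL]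
  have h2 : 0 ≤ 4 * π / L := div_nonneg (by linarith only [hpi]) (by linarith only [hL, hpi])
  have h3 : |4 * π / L * h| ≤ 2 * (3 / 10) := by
    rw [abs_mul, abs_of_nonneg h2]
    exact mul_le_mul h1 hh (abs_nonneg _) (by norm_num)
  have h4 := Real.one_sub_sq_div_two_le_cos (x := 4 * π / L * h)
  have h5 := pow_le_pow_left₀ (abs_nonneg _) h3 2
  rw [sq_abs] at h5
  linarith only [h4, h5]

theorem sz1_add {L h : ℝ} (hL : 2 * π ≤ L) (hh : |h + L / 2| ≤ 3 / 10) :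
    3 / 4 ≤ cos (4 * π / L * h) := by
  have hL0 : L ≠ 0 := by linarith only [hL, pi_pos] |> ne_of_gt
  have h1 := sz1_near hL hh
  have e : 4 * π / L * (h + L / 2) = 4 * π / L * h + 2 * π := by
    field_simp
    ring
  rw [e, cos_add_two_pi] at h1
  exact h1.le

theorem sz1_sub {L h : ℝ} (hL : 2 * π ≤ L) (hh : |h - L / 2| ≤ 3 / 10) :
    3 / 4 ≤ cos (4 * π / L * h) := by
  have h1 := sz1_add (h := -h) hL (by rwa [← abs_neg, neg_add, neg_neg, ← sub_eq_add_neg])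
  rwa [mul_neg, cos_neg] at h1

theorem sz1_far {h : ℝ} (h1 : 29 / 100 ≤ |h|) (h2 : |h| ≤ π + 1) : cos h ≤ 96 / 100 := by
  have pi3 := Real.pi_gt_three
  rw [← cos_abs]
  rcases le_total |h| π with c | c
  · refine (cos_le_cos_of_nonneg_of_le_pi (by norm_num) c h1).trans ?_
    have a1 := (abs_le.1 (cos_bound (x := 29 / 100) (by rw [abs_of_pos] <;> norm_num))).2
    rw [abs_of_pos (by norm_num)] at a1
    linarith only [a1]
  · exact (cos_nonpos_of_pi_div_two_le_of_le (by linarith only [pi3, c]) (by linarith only [h2, pi3])).trans (by norm_num)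

theorem sz1_up {F : Frame} {μ K t w r η d e : ℝ} {u v S H : ℂ → ℝ}
    (h : GH F μ K t w r η d e u v S H) {ξ : ℂ} (h1 : 29 / 100 ≤ |F.ht ξ|) (h2 : |F.ht ξ| ≤ π + 1) :
    tav r u ξ ≤ 962 / 1000 * F.Φ ξ.re := by
  obtain ⟨-, -, -, -, -, t6⟩ := d4_t h.dh.tpos h.dh.tle
  obtain ⟨-, -, s3, -⟩ := d4_small h
  have p := F.Φ_pos ξ.re
  have a1 := (abs_le.1 (h.dh.close_u ξ)).2
  have a2 := h.dh.clean.up ξ
  have a3 := mul_le_mul_of_nonneg_left (sz1_far h1 h2) p.le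
  have k1 := mul_le_mul_of_nonneg_right t6 p.le
  have k2 := mul_le_mul_of_nonneg_right s3 p.le
  rw [Frame.M] at a2
  linarith only [a1, a2, a3, k1, k2]

theorem base_GG {F : Frame} {μ K t w r η d e k ε ε' x0 K' : ℝ} {u v S H : ℂ → ℝ}
    (h : GH F μ K t w r η d e u v S H) (hk : 1 ≤ k) (h0 : 0 ≤ ε) (h1 : ε ≤ 1 / 100) (he : 30 * e ≤ ε')
    (hc : CovT F k ε (t ^ 8) x0 u) (hK : ∀ z, |GG F t w e r u v H z| ≤ K' * F.Φ z.re) :
    Base F k (ε + ε') (2 * π + w) x0 K' (t ^ 6 / 2) (min d (t ^ 6 / 8)) (GG F t w e r u v H)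
      (UU F η e u) (Bx u) := by
  obtain ⟨t1, t2, t3, t4, t5, t6⟩ := d4_t h.dh.tpos h.dh.tle
  obtain ⟨s1, s2, s3, s4⟩ := d4_small h
  have hd : 0 < d := h.dh.rpos.trans_le h.dh.rd
  have pi3 := Real.pi_gt_three
  have w0 := h.dh.wpos
  have η0 := h.dh.epos
  have hη : 3 * η ≤ e := by linarith only [s2, h, h.eta]
  have he1 : e ≤ 1 / 1000 * (1 / 1000) := h.ele.trans (mul_le_mul s4 t4 t3.le (by norm_num))
  have hL : 2 * π ≤ 2 * π + w := by linarith only [w0]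
  have cΦ : Continuous fun ζ : ℂ => 10 * e * F.Φ ζ.re :=
    continuous_const.mul (F.continuous_Φ.comp Complex.continuous_re)
  have hΦ : ∀ (x : ℝ) (ζ : ℂ), |ζ.re - x| ≤ d → 10 * e * F.Φ ζ.re ≤ 20 * (e * F.Φ x) :=
    fun x ζ hζ => by
      have := mul_le_mul_of_nonneg_left (d4_Φ h hζ) s2.le
      linarith only [this]
  refine ⟨(d4_cont h).add cΦ, d4_loc h, fun z hz => ?_, hK, lt_min hd (by linarith only [t3]), fun x => ?_,
    fun x => ?_, fun z => ?_, fun x ζ hζ => ?_, fun x ζ hζ a b c => ?_, fun x hx => ?_⟩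
  · obtain ⟨a, b⟩ := abs_lt.1 hz
    have e1 : z + ((2 * π + w : ℝ) : ℂ) * Complex.I = z + w * Complex.I + 2 * π * Complex.I := by
      push_cast
      ring
    simp only [GG, d4_re]
    rw [d4_D h (by rw [F.ht_add_I]; linarith only [pi3, w0, η0, hη, he1, a]), d4_A h (by linarith only [t2, pi3, η0, hη, he1, b]), e1, h.dh.per_u]
  · have p := F.Φ_pos x
    have k1 := mul_le_mul_of_nonneg_right t6 p.le
    linarith only [p, k1, h, h.dh.clean.Bge x]
  · have p := F.Φ_pos x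
    have k1 := mul_le_mul_of_nonneg_right t6 p.le
    linarith only [p, k1, h, h.dh.clean.toSubD.Ble x]
  · have := d4_le h z
    rw [GG, UU]
    linarith only [this]
  · have p := F.Φ_pos x
    have k2 := mul_le_mul_of_nonneg_right hη p.le
    have k3 := mul_le_mul_of_nonneg_right he p.le
    have k4 := mul_nonneg h0 p.le
    have k5 := mul_nonneg s2.le p.le
    have hζ' := hζ.trans (min_le_left _ _)
    have h3 := (abs_le.1 (md_Bx h.dh.clean.cont h.dh.clean.per h.dh.mdu (x : ℂ) (mem_univ _)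
      (ζ.re : ℂ) (by rw [← Complex.ofReal_sub, Complex.norm_real]; exact hζ'))).2
    have h4 := mul_le_mul_of_nonneg_left (d4_Φ h hζ') η0.le
    simp only [Complex.ofReal_re] at h3
    rw [UU]
    linarith only [k2, k3, k4, k5, h3, h4, hΦ, hζ', hΦ x ζ hζ']
  · have p := F.Φ_pos x
    have p' := F.Φ_pos ζ.re
    have hζ' := hζ.trans (min_le_right _ _)
    have a1 : 3 / 10 < |F.ht ζ| := by
      by_contra hc'
      exact absurd c (not_le.2 (sz1_near hL (not_lt.1 hc')))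
    have a2 : d4_G0 F t w e r u v H ζ ≤ 962 / 1000 * F.Φ ζ.re := by
      rcases lt_abs.1 a1 with a3 | a3
      · rw [d4_D h (by linarith only [η0, hη, he1, a3])]
        exact sz1_up h (by linarith only [η0, hη, he1, a1]) (abs_le.2 ⟨by linarith only [pi3, η0, hη, he1, a3], by linarith only [s4, η0, hη, he1, b]⟩)
      · rw [d4_A h (by linarith only [t2, η0, hη, he1, a3]), ← d4_re ζ w]
        refine sz1_up h (le_abs.2 (Or.inr ?_)) (abs_le.2 ⟨?_, ?_⟩) <;> rw [F.ht_add_I] <;> linarith only [s4, η0, hη, he1, a3, w0, a, b]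
    have a4 := (abs_le.1 (h.dh.good.Φ_close (by linarith only [s1, η0, hη, he1]) (x := x) (x' := ζ.re) (by linarith only [t4, η0, hη, he1, hζ']))).2
    have a5 : 4 * |ζ.re - x| * F.Φ x ≤ 1 / 1000 * F.Φ x :=
      mul_le_mul_of_nonneg_right (by linarith only [t4, η0, hη, he1, hζ']) p.le
    have k1 := mul_le_mul_of_nonneg_right t6 p.le
    have k2 := mul_le_mul_of_nonneg_right he1 p'.le
    rw [GG]
    linarith only [p, a2, a4, a5, k1, k2, h, h.dh.clean.Bge x]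
  have p := F.Φ_pos x
  have B1 := h.dh.clean.Bge x
  have k1 := mul_le_mul_of_nonneg_right t6 p.le
  have k2 := mul_le_mul_of_nonneg_right hη p.le
  have k3 := mul_le_mul_of_nonneg_right he p.le
  have k5 := mul_nonneg s2.le p.le
  have k6 := mul_le_mul_of_nonneg_right s3 p.le
  have k7 := mul_le_mul_of_nonneg_right h1 p.le
  obtain ⟨y, y1, y2, y4, y3⟩ := hc x hx
  have k8 : Bx u x ≤ k * Bx u x := le_mul_of_one_le_left (by linarith only [p, B1, k1]) hk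
  have hht : ∀ p ζ : ℂ, ‖ζ - p‖ ≤ min d (t ^ 6 / 8) → |F.ht ζ - F.ht p| ≤ t ^ 6 / 4 := fun p ζ hζ => by
    linarith only [h, s1, η0, hη, he1, hζ, h.dh.good.ht_sub (by linarith) p ζ, hζ.trans (min_le_right _ _)]
  rcases le_or_gt (-π + w) (y - F.φ x) with c | c
  · refine ⟨x + (y - w : ℝ) * Complex.I, by simp, fun ζ hζ => ?_⟩
    obtain ⟨a, b⟩ := abs_le.1 (hht _ ζ hζ)
    rw [F.ht_mk] at a b
    have hζ' := hζ.trans (min_le_left _ _)
    have h2 := d4_near h (q := x + y * Complex.I) (ξ := ζ + w * Complex.I) (by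
      refine le_of_eq_of_le ?_ hζ'
      congr 1
      push_cast
      ring)
    have h3 := hΦ x ζ (by simpa using (Frame.f1_re _ ζ).trans hζ')
    rw [d4_re, Complex.ofReal_re] at h2
    have h4 : d4_G0 F t w e r u v H ζ = tav r u (ζ + w * Complex.I) := by
      rcases le_or_gt (F.ht ζ) (-t ^ 2 / 2) with c' | c'
      · exact d4_A h c'
      · rw [d4_B h (by linarith only [t1, c']) (by linarith only [t3, t5, w0, y2, b]),
          max_eq_left (h.dip (by linarith only [t1, c']) (by linarith only [t5, w0, y2, b]) (by linarith only [p, B1, k1, k6, k7, y3, k8, h2]))]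
    refine ⟨by linarith only [t4, η0, hη, he1, c, a], by linarith only [t4, t5, pi3, w0, η0, hη, he1, y2, b], ?_, Or.inl (by linarith only [t5, w0, y2, b]), ?_⟩
    · rcases y4 with y4 | y4 <;> rw [abs_le] at y4
      · exact (sz1_near hL (abs_le.2 ⟨by linarith only [t4, s4, η0, hη, he1, a, y4, y4.1], by linarith only [t4, t5, w0, η0, hη, he1, y2, b, y4.2]⟩)).le
      · exact sz1_add hL (abs_le.2 ⟨by linarith only [t4, w0, η0, hη, he1, c, a, y4.1], by linarith only [t4, w0, η0, hη, he1, b, y4, y4.2]⟩)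
    · rw [GG, h4]
      linarith only [k2, k3, k5, y3, h2, h3]
  · refine ⟨x + (y + 2 * π : ℝ) * Complex.I, by simp, fun ζ hζ => ?_⟩
    obtain ⟨a, b⟩ := abs_le.1 (hht _ ζ hζ)
    rw [F.ht_mk] at a b
    have hζ' := hζ.trans (min_le_left _ _)
    have h2 := d4_near h hζ'
    have h3 := hΦ x ζ (by simpa using (Frame.f1_re _ ζ).trans hζ')
    have e1 : (x : ℂ) + (y + 2 * π : ℝ) * Complex.I = x + y * Complex.I + 2 * π * Complex.I := by
      push_cast
      ring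
    rw [d4_re, Complex.ofReal_re, e1, h.dh.clean.per] at h2
    refine ⟨by linarith only [t4, pi3, η0, hη, he1, y1, a], by linarith only [t4, η0, hη, he1, c, b], ?_, Or.inr (by linarith only [t4, η0, hη, he1, y1, a]), ?_⟩
    · rcases y4 with y4 | y4 <;> rw [abs_le] at y4
      · linarith only [s4, pi3, η0, hη, he1, c, y4, y4.1]
      · exact sz1_sub hL (abs_le.2 ⟨by linarith only [t4, s4, η0, hη, he1, a, y4, y4.1], by linarith only [t4, s4, η0, hη, he1, c, b, y4.2]⟩)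
    · rw [GG, d4_D h (by linarith only [t4, η0, hη, he1, y1, a])]
      linarith only [k2, k3, k5, y3, h2, h3]

end

end Pool.Agent.MinMod.St
end

-- merged part: Pool.Agent.Work.MP_f62247_an.St.H1
section
/-!
# Two-sided bounds for the repair kernel and the repair function
`Hk_two`: first with the weight `E = exp (-(11/10) |sg t p z|)` (`k2_sg`), then `E / 2 ≤ eK t X p ≤ 2 E` because `(11/10) * 63 * |re z - X| ≤ 1/10`. Follow the proof of `KH.ridge` (Mo/K2).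
Lower bound on the ridge: `Fk ≥ 86 w t` for `|sg| ≤ 1 - 2 log t`, `Hc ≥ (62 w/200) (8/100) exp (-(11/10)(|sg| - 1)) ≥ w E / 50` (`k2_qf_neg`), `E ≤ 1`, `t ≤ 1`.
Upper bound: for `|sg| > 1` `Hk ≤ Hc ≤ (63 w/200) exp (11/10) E` (`k2_qf_ge`); for `|sg| ≤ 1` `al ≤ 1/1000` (`KH.geo`), `k2_Ha`, `k2_lin`, `1 ≤ exp (11/10) E`.
`exists_HT`: copy the proof of `exists_H` (Mo/K6, do not edit it); `H z = ∫ p, S p * Hk F t w p z`; `eK t X p ≤ exp (-3 |re p - X|)` gives integrability (`mass_exp`), `integral_mono`.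
-/

open Real MeasureTheory Set Filter Topology

namespace Pool.Agent.MinMod.St

open Pool.Agent.MinMod.Mo

noncomputable section

theorem sh1_cmp {t X : ℝ} {p z : ℂ} (h0 : 0 < t) (h1 : t ≤ 1 / 10000)
    (hX : |z.re - X| ≤ 1 / 1000) :
    eK t X p ≤ 3 * exp (-(11 / 10) * |sg t p z|) ∧ exp (-(11 / 10) * |sg t p z|) ≤ 3 * eK t X p := by
  obtain ⟨k1, k2⟩ := kp_mem h0 h1
  have a1 : |X - p.re| ≤ |p.re - z.re| + 1 / 1000 := by
    have := abs_sub_le X z.re p.re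
    rw [abs_sub_comm X z.re, abs_sub_comm z.re p.re] at this
    linarith only [hX, this]
  have a2 : |p.re - z.re| ≤ |X - p.re| + 1 / 1000 := by
    have := abs_sub_le p.re X z.re
    rw [abs_sub_comm p.re X, abs_sub_comm X z.re] at this
    linarith only [hX, this]
  have b1 := mul_le_mul_of_nonneg_left a1 (k2_pos t).le
  have b2 := mul_le_mul_of_nonneg_left a2 (k2_pos t).le
  have key : ∀ a b : ℝ, a ≤ 1 + b → exp a ≤ 3 * exp b := fun a b h =>
    (exp_le_exp.2 h).trans (by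
      rw [exp_add]
      exact mul_le_mul_of_nonneg_right exp_one_lt_three.le (exp_pos _).le)
  rw [k2_sg, eK]
  exact ⟨key _ _ (by linarith only [h0, h1, k2, b2]), key _ _ (by linarith only [h0, h1, k2, b1])⟩

theorem sh1_nine (a : ℝ) : exp (-(11 / 10) * (a - 1)) ≤ 9 * exp (-(11 / 10) * a) := by
  have a1 : exp (-(11 / 10) * (a - 1)) ≤ exp 1 * exp 1 * exp (-(11 / 10) * a) := by
    rw [← exp_add, ← exp_add]
    exact exp_le_exp.2 (by linarith only [])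
  have a2 : exp 1 * exp 1 ≤ 3 * 3 :=
    mul_le_mul exp_one_lt_three.le exp_one_lt_three.le (exp_pos _).le (by norm_num)
  have := mul_le_mul_of_nonneg_right a2 (exp_pos (-(11 / 10) * a)).le
  linarith only [a1, this]

theorem sh1_lo : ∃ t0 : ℝ, 0 < t0 ∧ ∀ (F : Frame) (μ t w : ℝ) (p z : ℂ), KH F μ t w p → t ≤ t0 →
    -t ^ 2 < F.ht z → F.ht z ≤ t ^ 6 →
    w * t * exp (-(11 / 10) * |sg t p z|) / 50 ≤ Hk F t w p z := by
  obtain ⟨C, C0, hC⟩ := k2_Ha
  refine ⟨1 / (2 * C), by positivity, fun F μ t w p z h ht hz hz' => ?_⟩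
  have t0 := h.tpos
  have t1 := h.tle
  have w0 := h.wpos
  have l1 := k2_log t0 t1
  obtain ⟨k1, k2⟩ := kp_mem t0 t1
  have s1 := k2_sq t0 t1
  have s2 := hz'.trans (k2_pow t0 t1 (by norm_num : 2 ≤ 6))
  have s3 := sq_nonneg t
  have E0 := exp_pos (-(11 / 10) * |sg t p z|)
  have E1 : exp (-(11 / 10) * |sg t p z|) ≤ 1 :=
    exp_le_one_iff.2 (by linarith only [abs_nonneg (sg t p z)])
  have c0 : w * t * exp (-(11 / 10) * |sg t p z|) / 50 ≤ Hc F t w p z := by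
    have a1 : π - 4 * (63 * t ^ 2) ≤ ta F t z := by
      rw [← k2_kp t, ta]
      linarith only [s2, k2, hz, mul_nonneg_of_nonpos_of_nonpos (Mathlib.Tactic.Linarith.sub_nonpos_of_le (sq_nonneg t)) (Mathlib.Tactic.Linarith.sub_nonpos_of_le k2), mul_nonneg_of_nonpos_of_nonpos (le_of_lt (Mathlib.Tactic.Linarith.sub_neg_of_lt hz)) (Mathlib.Tactic.Linarith.sub_nonpos_of_le k2)]
    have a2 := k2_qf_neg (τ := ta F t z) (by linarith only [hz, t1, s1, s2, a1, pi_gt_d2]) (ta_lt t0 hz).le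
    have a3 : exp (-(11 / 10) * |sg t p z|) ≤ exp (-(11 / 10) * (|sg t p z| - 1)) :=
      exp_le_exp.2 (by linarith only [hz, t1, s1, s2])
    have a4 : w * 62 / 200 * exp (-(11 / 10) * |sg t p z|) * (8 / 100) ≤
        w * kp t / 200 * exp (-(11 / 10) * (|sg t p z| - 1)) * -qf (ta F t z) := by
      gcongr
      linarith only [a2]
    have a5 := mul_pos w0 E0
    have a6 := mul_le_mul_of_nonneg_left t1 a5.le
    rw [Hc]
    linarith only [a4, a5, a6]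
  have f : |sg t p z| ≤ 1 - 2 * Real.log t →
      w * t * exp (-(11 / 10) * |sg t p z|) / 50 ≤ Fk F t w p z := by
    intro hs
    have h0 := (h.k2_al hz hs).1
    have a1 : al F t p z ≤ 200 * t ^ 2 := by
      have := (abs_le.1 (h.geo hs).1).2
      linarith only [s2, this, k2, hz, t0, t1, mul_nonneg_of_nonpos_of_nonpos (Mathlib.Tactic.Linarith.sub_nonpos_of_le (sq_nonneg t)) (Mathlib.Tactic.Linarith.sub_nonpos_of_le k2), mul_pos_of_neg_of_neg (Mathlib.Tactic.Linarith.sub_neg_of_lt hz) (Mathlib.Tactic.Linarith.sub_neg_of_lt t0), mul_nonneg_of_nonpos_of_nonpos (le_of_lt (Mathlib.Tactic.Linarith.sub_neg_of_lt hz)) (Mathlib.Tactic.Linarith.sub_nonpos_of_le t1), mul_nonneg_of_nonpos_of_nonpos (le_of_lt (Mathlib.Tactic.Linarith.sub_neg_of_lt hz)) (Mathlib.Tactic.Linarith.sub_nonpos_of_le k2)]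
    have a2 := min_le_left (al F t p z) π
    have a3 := hC F μ t w p z h h0 (Or.inr (by linarith only [hz, t1, s1, s2, a1, a2]))
    have a4 := sin_le (le_min h0 pi_pos.le)
    have a5 : exp (-|sg t p z|) ≤ 1 := exp_le_one_iff.2 (neg_nonpos.2 (abs_nonneg _))
    have a6 : C * w * sin (min (al F t p z) π) * exp (-|sg t p z|) ≤ 100 * (w * t) :=
      calc _ ≤ C * w * (200 * t ^ 2) * 1 := by
            gcongr
            linarith only [a1, a2, a4]
        _ = 2 * C * t * (100 * (w * t)) := by ring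
        _ ≤ 1 * (100 * (w * t)) := by
          gcongr
          exact (le_div_iff₀' (by positivity)).1 ht
        _ = _ := one_mul _
    have a7 : w * 62 * t * 3 ≤ w * kp t * t * (π - min (al F t p z) π) := by
      gcongr
      linarith only [hz, t1, s1, s2, a1, a2, pi_gt_d2]
    have a9 := abs_le.1 (a3.trans a6)
    have b2 := mul_pos w0 t0
    have b3 := mul_le_mul_of_nonneg_left E1 b2.le
    linarith only [a7, a9, b2, b3, a9.1]
  unfold Hk
  split_ifs with c1 c2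
  · exact f (by linarith only [hz, t1, l1, s1, s2, c1])
  · exact le_min (f (by linarith only [hz, t1, s1, s2, c2])) c0
  · exact c0

theorem sh1_hi : ∃ C : ℝ, 0 < C ∧ ∀ (F : Frame) (μ t w : ℝ) (p z : ℂ), KH F μ t w p →
    -t ^ 2 < F.ht z → F.ht z ≤ 1 / 100000 →
    Hk F t w p z ≤ C * (w * exp (-(11 / 10) * |sg t p z|)) := by
  obtain ⟨C, C0, hC⟩ := k2_Ha
  refine ⟨9 * (1 + C), by positivity, fun F μ t w p z h hz hz' => ?_⟩
  have t0 := h.tpos
  have t1 := h.tle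
  have w0 := h.wpos
  have l1 := k2_log t0 t1
  obtain ⟨k1, k2⟩ := kp_mem t0 t1
  have s1 := k2_sq t0 t1
  have s3 := sq_nonneg t
  have E0 := exp_pos (-(11 / 10) * |sg t p z|)
  have a5 := mul_pos w0 E0
  have a6 := mul_pos C0 a5
  have c0 : Hc F t w p z ≤ 9 * (1 + C) * (w * exp (-(11 / 10) * |sg t p z|)) := by
    have a1 := k2_qf_ge (ta F t z)
    have a2 := sh1_nine |sg t p z|
    have a3 : w * kp t / 200 * exp (-(11 / 10) * (|sg t p z| - 1)) * -qf (ta F t z) ≤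
        w * kp t / 200 * exp (-(11 / 10) * (|sg t p z| - 1)) * 1 :=
      mul_le_mul_of_nonneg_left (by linarith only [a1]) (by positivity)
    have a4 : w * kp t / 200 * exp (-(11 / 10) * (|sg t p z| - 1)) * 1 ≤
        w * 63 / 200 * (9 * exp (-(11 / 10) * |sg t p z|)) * 1 := by
      gcongr
    rw [Hc]
    linarith only [a5, a6, a3, a4]
  unfold Hk
  split_ifs with c1 c2
  · have hs : |sg t p z| ≤ 1 - 2 * Real.log t := by linarith only [hz, hz', t1, l1, s1, c1]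
    have h0 := (h.k2_al hz hs).1
    have a1 : al F t p z ≤ 1 / 1000 := by
      have := (abs_le.1 (h.geo hs).1).2
      have b1 : kp t * (F.ht z + 2 * t ^ 2) ≤ 63 * (1 / 100000 + 2 * t ^ 2) :=
        (mul_le_mul_of_nonneg_left (by linarith only [hz']) (k2_pos t).le).trans
          (mul_le_mul_of_nonneg_right k2 (by positivity))
      linarith only [hz, hz', t1, s1, this, b1]
    have a2 := min_le_left (al F t p z) π
    have a3 := (abs_le.1 (hC F μ t w p z h h0 (Or.inr (by linarith only [a1, a2])))).2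
    have a4 : exp (-|sg t p z|) ≤ 1 := exp_le_one_iff.2 (neg_nonpos.2 (abs_nonneg _))
    have a7 : C * w * sin (min (al F t p z) π) * exp (-|sg t p z|) ≤ C * w * 1 * 1 := by
      gcongr
      exact sin_le_one _
    have a8 := (h.k2_lin h0).2
    have a9 := mul_le_mul_of_nonneg_left t1 w0.le
    have b1 : 1 ≤ 9 * exp (-(11 / 10) * |sg t p z|) :=
      le_trans (one_le_exp (by linarith only [c1])) (sh1_nine |sg t p z|)
    have b2 := mul_le_mul_of_nonneg_left b1 (show 0 ≤ (1 + C) * w by positivity)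
    linarith only [w0, a3, a7, a8, a9, b2]
  · exact (min_le_right _ _).trans c0
  · exact c0

theorem Hk_two : ∃ t0 c C : ℝ, 0 < t0 ∧ 0 < c ∧ 0 < C ∧ ∀ (F : Frame) (μ t w X : ℝ) (p z : ℂ),
    KH F μ t w p → t ≤ t0 → |z.re - X| ≤ 1 / 1000 → -t ^ 2 < F.ht z →
    (F.ht z ≤ t ^ 6 → c * w * t * eK t X p ≤ Hk F t w p z) ∧
      (F.ht z ≤ 1 / 100000 → Hk F t w p z ≤ C * w * eK t X p) := by
  obtain ⟨t0, p0, h1⟩ := sh1_lo
  obtain ⟨C, pC, h2⟩ := sh1_hi
  refine ⟨t0, 1 / 150, 3 * C, p0, by norm_num, by positivity,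
    fun F μ t w X p z h ht hX hz => ⟨fun hz' => ?_, fun hz' => ?_⟩⟩
  · have a1 := mul_le_mul_of_nonneg_left (sh1_cmp (p := p) h.tpos h.tle hX).1
      (mul_pos h.wpos h.tpos).le
    linarith only [a1, h1, h, ht, hz, hz', h1 F μ t w p z h ht hz hz']
  · have a1 := mul_le_mul_of_nonneg_left (sh1_cmp (p := p) h.tpos h.tle hX).2
      (mul_pos pC h.wpos).le
    linarith only [a1, h2, h, hz, hz', h2 F μ t w p z h hz hz']

theorem sh1_eK {t : ℝ} (h0 : 0 < t) (h1 : t ≤ 1 / 10000) (X : ℝ) (p : ℂ) :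
    eK t X p ≤ exp (-3 * |p.re - X|) := by
  have := mul_le_mul_of_nonneg_right (kp_mem h0 h1).1 (abs_nonneg (p.re - X))
  rw [eK, abs_sub_comm]
  exact exp_le_exp.2 (by linarith only [this, abs_nonneg (p.re - X)])

theorem sh1_cont (t X : ℝ) : Continuous (eK t X) := by
  unfold eK
  fun_prop

theorem exists_HT : ∃ t0 c C : ℝ, 0 < t0 ∧ 0 < c ∧ 0 < C ∧ ∀ (F : Frame) (μ K t w : ℝ) (S : ℂ → ℝ),
    0 < t → t ≤ t0 → 0 < w → w ≤ t ^ 8 → μ ≤ t ^ 18 → F.Good μ → Continuous S → (∀ z, 0 ≤ S z) →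
    (∀ z, S z ≤ K * F.Φ z.re) → (∀ z, S z ≠ 0 → 1 / 4000 ≤ F.ht z ∧ F.ht z ≤ 1 / 1000) →
    (∀ z, pot S (1 / 20000) z ≤ 100 * t ^ 18 * F.Φ z.re) →
    ∃ H : ℂ → ℝ, HH F t w S H ∧ HT F t w c C S H := by
  obtain ⟨t1, p1, h1⟩ := KH.continuousOn_Hk
  obtain ⟨t2, p2, h2⟩ := KH.jen
  obtain ⟨t3, p3, h3⟩ := KH.ridge
  obtain ⟨t4, c, C, p4, pc, pC, h4⟩ := Hk_two
  obtain ⟨Cb, pb, hb⟩ := KH.bound
  obtain ⟨Cm, pm, hm⟩ := mass_exp
  have pA : 0 < (10000 + 100 * (3 + Cb)) * Cm := by positivity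
  refine ⟨min (min (1 / 10000) (1 / ((10000 + 100 * (3 + Cb)) * Cm))) (min t1 (min t2 (min t3 t4))),
    c, C, lt_min (lt_min (by norm_num) (one_div_pos.2 pA)) (lt_min p1 (lt_min p2 (lt_min p3 p4))),
    pc, pC, ?_⟩
  intro F μ K t w S t0 ht w0 hw hμ hG cS S0 SK Sb Sp
  simp only [le_min_iff] at ht
  obtain ⟨⟨ta, tb⟩, tc, td, te, tf⟩ := ht
  rw [le_div_iff₀ pA] at tb
  have t1' : t ≤ 1 := by linarith only [t0, ta]
  have w1 : w ≤ 1 := hw.trans (pow_le_one₀ t0.le t1')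
  have μ1 : μ ≤ 1 / 100 := by
    have a1 : t ^ 18 ≤ t := pow_le_of_le_one t0.le t1' (by norm_num)
    linarith only [t0, hμ, ta, a1]
  have kh : ∀ p, S p ≠ 0 → KH F μ t w p := fun p hp =>
    ⟨t0, ta, w0, hw, hμ, hG, (Sb p hp).1, (Sb p hp).2⟩
  have ms := fun x => hm F μ K (100 * t ^ 18) x S hG μ1 cS S0 SK
    (fun z hz => ⟨by linarith only [t0, ta, Sb, hz, (Sb z hz).1], by linarith only [t0, ta, Sb, hz, (Sb z hz).2]⟩) Sp
  have cx : k6_ctx F t w Cb S :=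
    ⟨cS, S0, w0, pb, fun p z hp => hb F μ t w p z (kh p hp), fun x => (ms x).1⟩
  have t17 : 0 < t ^ 17 := pow_pos t0 17
  have hn : ∀ z, -t ^ 2 < F.ht z → ∫ p, ‖S p * Hk F t w p z‖ ≤ t ^ 17 * F.Φ z.re := by
    intro z hz
    obtain ⟨-, m1, m2⟩ := ms z.re
    have a1 := m2 z rfl
    have a2 := m2 (z + w * Complex.I) (by simp)
    have a3 : 0 < t ^ 17 * F.Φ z.re := mul_pos t17 (F.Φ_pos _)
    have e : Cm * (100 * t ^ 18) * F.Φ z.re = 100 * (t * Cm) * (t ^ 17 * F.Φ z.re) := by ring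
    rw [e] at m1 a1 a2
    have a4 : 0 < 100 * (t * Cm) * (t ^ 17 * F.Φ z.re) := by positivity
    have a5 := mul_le_mul_of_nonneg_left m1 pb.le
    have a6 := mul_le_mul (show 1 + w ≤ 2 by linarith only [w1]) a2
      (pot_nonneg one_pos fun ζ _ => S0 ζ) zero_le_two
    have a7 : (3 + Cb) * (100 * (t * Cm)) ≤ 1 := by
      have a8 : 0 < t * Cm := mul_pos t0 pm
      linarith only [tb, a8]
    have a8 := mul_le_mul_of_nonneg_right a7 a3.le
    refine (cx.norm hz).trans ?_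
    linarith only [a1, a5, a6, a8]
  have hi : ∀ X, Integrable fun p => S p * eK t X p := fun X =>
    (ms X).1.mono' (cS.mul (sh1_cont t X)).aestronglyMeasurable (Eventually.of_forall fun p => by
      rw [Real.norm_of_nonneg (mul_nonneg (S0 p) (show 0 ≤ eK t X p from (exp_pos _).le))]
      exact mul_le_mul_of_nonneg_left (sh1_eK t0 ta X p) (S0 p))
  refine ⟨fun z => ∫ p, S p * Hk F t w p z, ⟨cx.cont fun p hp => h1 F μ t w p (kh p hp) tc,
    fun z s s0 s1 hs => ?_, fun z z0 z1 => ⟨?_, ?_⟩, fun z hz => ?_, fun z hz => ?_⟩,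
    hi, fun X z hX z0 z1 => ?_, fun X z hX z0 z1 => ?_⟩
  · refine cx.jen (B := t ^ 17 * (exp (2 * s) * F.Φ z.re)) s0 hs (fun ζ hζ => ?_)
      fun p hp n1 n2 => (h2 F μ t w s p z (kh p hp) td s0 s1 hs n1 n2).2
    refine (hn ζ (hs hζ)).trans (mul_le_mul_of_nonneg_left ?_ t17.le)
    exact hG.Φ_le (by linarith only [μ1, s0, s1]) ((Frame.f1_re z ζ).trans (mem_closedBall_iff_norm.1 hζ))
  · refine integral_nonneg fun p => ?_
    by_cases hp : S p = 0
    · simp [hp]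
    · exact mul_nonneg (S0 p) (h3 F μ t w p z (kh p hp) te z0 z1).1
  · obtain ⟨m0, m1, -⟩ := ms z.re
    have a1 : ∫ p, S p * Hk F t w p z ≤ ∫ p, 100 * w * (S p * exp (-3 * |p.re - z.re|)) := by
      refine integral_mono (cx.intH z0) (m0.const_mul _) fun p => ?_
      by_cases hp : S p = 0
      · simp [hp]
      · have a2 := mul_le_mul_of_nonneg_left (h3 F μ t w p z (kh p hp) te z0 z1).2 (S0 p)
        simp only
        linarith only [a2]
    rw [integral_const_mul] at a1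
    have a2 := mul_le_mul_of_nonneg_left m1 (show 0 ≤ 100 * w by linarith only [w0])
    have a3 : 0 < w * t ^ 17 * F.Φ z.re := mul_pos (mul_pos w0 t17) (F.Φ_pos _)
    have a4 : 10000 * (t * Cm) ≤ 1 := by
      have a8 : 0 < t * Cm := mul_pos t0 pm
      have a9 : 0 < Cb * (t * Cm) := mul_pos pb a8
      linarith only [tb, a8, a9]
    have a5 := mul_le_mul_of_nonneg_right a4 a3.le
    have e : 100 * w * (Cm * (100 * t ^ 18) * F.Φ z.re) =
        10000 * (t * Cm) * (w * t ^ 17 * F.Φ z.re) := by ring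
    linarith only [a1, a2, a5]
  · have e : (fun p => S p * Hk F t w p z) = fun _ => 0 := by
      funext p
      by_cases hp : S p = 0
      · rw [hp, zero_mul]
      · rw [(kh p hp).top hz, mul_zero]
    simp only [e, integral_zero]
  · exact (norm_integral_le_integral_norm fun p => S p * Hk F t w p z).trans (hn z hz)
  · rw [SS, ← integral_const_mul]
    refine integral_mono ((hi X).const_mul _) (cx.intH z0) fun p => ?_
    by_cases hp : S p = 0
    · simp [hp]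
    · have a2 := mul_le_mul_of_nonneg_left ((h4 F μ t w X p z (kh p hp) tf hX z0).1 z1) (S0 p)
      simp only
      linarith only [a2]
  · rw [SS, ← integral_const_mul]
    refine integral_mono (cx.intH z0) ((hi X).const_mul _) fun p => ?_
    by_cases hp : S p = 0
    · simp [hp]
    · have a2 := mul_le_mul_of_nonneg_left ((h4 F μ t w X p z (kh p hp) tf hX z0).2 z1) (S0 p)
      simp only
      linarith only [a2]

end

end Pool.Agent.MinMod.St
end

-- merged part: Pool.Agent.Work.MP_f62247_an.St.P2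
section
/-!
# The chain stops
`stop_abs`: suppose not. By induction on `n ≤ N` there is `ζ` with `|re ζ - X| ≤ (θ 0 - θ n)/2000`, `im ζ ≤ y0 - n δ`, `θ n A ≤ ψ ζ` (`θ n / 4000 ≤ (θ n - θ (n+1))/2000`). For `n = N` this contradicts `hbot`.
`stop`: `ψ = psi r u v`, `A = Φ X`, `y0 = φ X + t^6/4`, `δ = w/8`, `yb = φ X - 2 t^8`; `psi_top`, `psi_zero`, `φ_sub`. The lower bound for the height of `ζ` follows from `psi_zero` and `psi ζ > 0`.
`exists_seq`: recursion on `{x // 0 < x ∧ x ≤ 1/1000}` or `Nat.rec` with an invariant. `finite_min`: induction on `N`.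
-/

open Real MeasureTheory Set Filter Topology

namespace Pool.Agent.MinMod.St

open Pool.Agent.MinMod.Mo

noncomputable section

theorem stop_abs {ψ : ℂ → ℝ} {θ : ℕ → ℝ} {A X y0 yb δ : ℝ} {N : ℕ} (hA : 0 < A) (hθ : ∀ n, 0 < θ n)
    (hδ : 0 ≤ δ) (hh : ∀ n, θ (n + 1) ≤ θ n / 2) (h0 : θ 0 * A ≤ ψ (X + y0 * Complex.I))
    (hbot : ∀ z : ℂ, |z.re - X| ≤ θ 0 / 2000 → z.im ≤ yb → ψ z ≤ 0) (hN : y0 - N * δ ≤ yb) :
    ∃ n, n < N ∧ ∃ ζ : ℂ, |ζ.re - X| ≤ θ 0 / 2000 ∧ ζ.im ≤ y0 ∧ θ n * A ≤ ψ ζ ∧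
      ∀ z : ℂ, |z.re - ζ.re| ≤ θ n / 4000 → z.im ≤ ζ.im - δ → ψ z ≤ θ (n + 1) * A := by
  by_contra hn
  have key : ∀ n, n ≤ N → ∃ ζ : ℂ, |ζ.re - X| ≤ (θ 0 - θ n) / 2000 ∧ ζ.im ≤ y0 - n * δ ∧
      θ n * A ≤ ψ ζ := by
    intro n
    induction n with
    | zero => exact fun _ => ⟨X + y0 * Complex.I, by simp, by simp, h0⟩
    | succ n ih =>
      intro h1
      obtain ⟨ζ, a1, a2, a3⟩ := ih (Nat.le_of_succ_le h1)
      by_contra h2
      have a4 := mul_nonneg (Nat.cast_nonneg n : (0 : ℝ) ≤ n) hδ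
      refine hn ⟨n, h1, ζ, by linarith only [a1, hθ, hθ n], by linarith only [a2, a4], a3, fun z b1 b2 => ?_⟩
      by_contra h3
      refine h2 ⟨z, ?_, ?_, (not_le.1 h3).le⟩
      · linarith only [a1, b1, hh, abs_sub_le z.re ζ.re X, hh n]
      · rw [Nat.cast_succ]
        linarith only [a2, b2]
  obtain ⟨ζ, a1, a2, a3⟩ := key N le_rfl
  linarith only [a3, hbot, a1, hθ, a2, hN, hA, hbot ζ (by linarith [hθ N]) (a2.trans hN), mul_pos (hθ N) hA]

theorem stop {F : Frame} {μ K t w r η d : ℝ} {u v : ℂ → ℝ} (h : DH F μ K t w r η d u v)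
    (hη : η ≤ w * t ^ 18 / 16) {θ : ℕ → ℝ} (hθ : ∀ n, 0 < θ n) (hh : ∀ n, θ (n + 1) ≤ θ n / 2)
    (h0 : θ 0 ≤ t ^ 12 / 200) {N : ℕ} (hN : 4 * t ^ 6 ≤ N * w) (X : ℝ) :
    ∃ n, n < N ∧ ∃ ζ : ℂ, |ζ.re - X| ≤ 1 / 2000 ∧ -t ^ 8 ≤ F.ht ζ ∧ F.ht ζ ≤ t ^ 6 / 3 ∧
      θ n * F.Φ X ≤ psi r u v ζ ∧ ∀ z : ℂ, |z.re - ζ.re| ≤ θ n / 4000 → z.im ≤ ζ.im - w / 8 →
        psi r u v z ≤ θ (n + 1) * F.Φ X := by
  have t0 := h.tpos
  have t1 := h.tle
  have p6 := pow_pos t0 6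
  have p8 := pow_pos t0 8
  have q8 := d3_pow t0 t1 6 8 (by omega)
  have q12 := d3_pow t0 t1 8 12 (by omega)
  have q18 := d3_one t0 t1 18 (by omega)
  have q6 := d3_one t0 t1 6 (by omega)
  have hφ : ∀ x, |x - X| ≤ θ 0 / 2000 → |F.φ x - F.φ X| ≤ t ^ 8 := fun x hx => by
    have a1 := h.good.φ_sub X x
    have a2 := mul_le_mul (h.mu.trans q18) hx (abs_nonneg _) (by norm_num)
    linarith only [h0, p8, q12, a1, a2]
  have c1 := psi_top h (z := X + (F.φ X + t ^ 6 / 4 : ℝ) * Complex.I)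
    (by rw [Frame.ht_mk, add_sub_cancel_left])
  rw [d3_re, Complex.ofReal_re] at c1
  have c2 : ∀ z : ℂ, |z.re - X| ≤ θ 0 / 2000 → z.im ≤ F.φ X - 2 * t ^ 8 → psi r u v z ≤ 0 := by
    intro z b1 b2
    refine (psi_zero h hη ?_).le
    rw [Frame.ht]
    linarith only [b2, hφ, b1, (abs_le.1 (hφ _ b1)).1]
  obtain ⟨n, hn, ζ, a1, a2, a3, a4⟩ := stop_abs (δ := w / 8) (N := N) (F.Φ_pos X) hθ
    (by linarith only [h, h.wpos]) hh ((mul_le_mul_of_nonneg_right h0 (F.Φ_pos X).le).trans c1) c2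
    (by linarith only [hN, p8, q8])
  refine ⟨n, hn, ζ, by linarith only [h0, p8, q8, q12, q6, a1], ?_, ?_, a3, a4⟩
  · by_contra h1
    rw [psi_zero h hη (not_le.1 h1).le] at a3
    linarith only [a3, hθ, mul_pos (hθ n) (F.Φ_pos X)]
  · rw [Frame.ht]
    linarith only [p8, q8, a2, hφ, a1, (abs_le.1 (hφ _ a1)).1]

theorem exists_seq {g : ℝ → ℝ} {θ0 : ℝ} (h0 : 0 < θ0) (h1 : θ0 ≤ 1 / 1000)
    (hg : ∀ x, 0 < x → x ≤ 1 / 1000 → 0 < g x ∧ g x ≤ x / 2) :
    ∃ θ : ℕ → ℝ, θ 0 = θ0 ∧ ∀ n, 0 < θ n ∧ θ n ≤ θ0 ∧ θ (n + 1) = g (θ n) := by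
  have key : ∀ n, 0 < g^[n] θ0 ∧ g^[n] θ0 ≤ θ0 := by
    intro n
    induction n with
    | zero => exact ⟨h0, le_rfl⟩
    | succ n ih =>
      rw [Function.iterate_succ_apply']
      obtain ⟨a1, a2⟩ := hg _ ih.1 (ih.2.trans h1)
      exact ⟨a1, by linarith only [ih, a1, a2, ih.1, ih.2]⟩
  exact ⟨fun n => g^[n] θ0, rfl, fun n =>
    ⟨(key n).1, (key n).2, Function.iterate_succ_apply' g n θ0⟩⟩

theorem finite_min {a : ℕ → ℝ} (ha : ∀ n, 0 < a n) (N : ℕ) : ∃ m : ℝ, 0 < m ∧ ∀ n, n < N → m ≤ a n := by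
  induction N with
  | zero => exact ⟨1, one_pos, fun n hn => absurd hn n.not_lt_zero⟩
  | succ N ih =>
    obtain ⟨m, h1, h2⟩ := ih
    refine ⟨min m (a N), lt_min h1 (ha N), fun n hn => ?_⟩
    rcases Nat.lt_succ_iff_lt_or_eq.1 hn with h | rfl
    · exact (min_le_left _ _).trans (h2 n h)
    · exact min_le_right _ _

end

end Pool.Agent.MinMod.St
end

-- merged part: Pool.Agent.Work.MP_f62247_an.St.Z2
section
/-!
# Insertion with a gain
-/

open Real MeasureTheory Set Filter Topology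

namespace Pool.Agent.MinMod.St

open Pool.Agent.MinMod.Mo

noncomputable section

theorem Dip.mono {F : Frame} {G0 U G : ℂ → ℝ} {K K' h X θ c r : ℝ} {p : ℂ}
    (hD : Dip F G0 U K h X θ c G p r) (hK : K ≤ K') : Dip F G0 U K' h X θ c G p r :=
  { hD with low := fun z => le_trans (mul_le_mul_of_nonneg_right (neg_le_neg hK) (F.Φ_pos _).le) (hD.low z) }

theorem Dip.cost {F : Frame} {G0 U G : ℂ → ℝ} {K h X θ c r : ℝ} {p : ℂ}
    (hD : Dip F G0 U K h X θ c G p r) {θ0 : ℝ} (h0 : θ0 ≤ θ) (h1 : θ ≤ 1 / 1000) (h2 : c ≤ om θ / 40) :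
    ∃ (θ c : ℝ) (G : ℂ → ℝ) (p : ℂ) (r : ℝ), θ0 ≤ θ ∧ θ ≤ 1 / 1000 ∧ c ≤ om θ / 40 ∧
      Dip F G0 U K h X θ c G p r := ⟨θ, c, G, p, r, h0, h1, h2, hD⟩

theorem insert_gain : ∃ t0 : ℝ, 0 < t0 ∧ ∀ t w0 : ℝ, 0 < t → t ≤ t0 → 0 < w0 → ∃ γ : ℝ, 0 < γ ∧
    γ ≤ 1 / 4 ∧ ∀ (F : Frame) (μ K w k ε ε' x0 : ℝ) (u : ℂ → ℝ), μ ≤ t ^ 18 → F.Good μ →
      Clean F (t ^ 18) K (t ^ 8) u → 1 ≤ k → k ≤ 2 → w0 ≤ w → w ≤ t ^ 8 → 0 ≤ ε → ε ≤ 1 / 100 →
      0 < ε' → ε' ≤ 1 / 100 → CovT F k ε (t ^ 8) x0 u →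
      ∃ G : ℂ → ℝ, Wide F (k + γ) (ε + ε') (2 * π + w) x0 G := by
  obtain ⟨t1, c, C, ht1, hc, hC, hHT⟩ := exists_HT
  obtain ⟨t2, ht2, hB⟩ := dipB hc hC
  refine ⟨min t1 (min t2 (1 / 1000)), by positivity, fun t w0 ht ht' hw0 => ?_⟩
  have a1 : t ≤ t1 := ht'.trans (min_le_left _ _)
  have a2 : t ≤ t2 := ht'.trans ((min_le_right _ _).trans (min_le_left _ _))
  have a3 : t ≤ 1 / 1000 := ht'.trans ((min_le_right _ _).trans (min_le_right _ _))
  choose! θ' f0 s0 e0 p1 p2 p3 p4 p5 p6 hA using fun (θ : ℝ) (h1 : 0 < θ) (h2 : θ ≤ 1 / 1000) =>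
    dipA hC h1 h2
  obtain ⟨θa, b0, b1, b2, b3⟩ : ∃ θa : ℝ, 0 < θa ∧ θa ≤ t ^ 12 / 200 ∧ θa ≤ w0 ∧ θa ≤ 1 / 1000 :=
    ⟨min (t ^ 12 / 200) (min w0 (1 / 1000)), by positivity, min_le_left _ _,
      (min_le_right _ _).trans (min_le_left _ _), (min_le_right _ _).trans (min_le_right _ _)⟩
  obtain ⟨θ, q0, q⟩ := exists_seq (g := fun x => min (f0 x) (om (θ' x) / 160)) b0 b3 fun x h1 h2 =>
    ⟨lt_min (p3 x h1 h2) (by have := om_pos (p1 x h1 h2); positivity),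
      (min_le_left _ _).trans (p4 x h1 h2)⟩
  have q1 : ∀ n, 0 < θ n := fun n => (q n).1
  have q2 : ∀ n, θ n ≤ 1 / 1000 := fun n => (q n).2.1.trans b3
  have q3 : ∀ n, θ (n + 1) ≤ f0 (θ n) := fun n => (q n).2.2.le.trans (min_le_left _ _)
  have q4 : ∀ n, θ (n + 1) ≤ om (θ' (θ n)) / 160 := fun n => (q n).2.2.le.trans (min_le_right _ _)
  have q5 : ∀ n, θ (n + 1) ≤ θ n / 2 := fun n => (q3 n).trans (p4 _ (q1 n) (q2 n))
  obtain ⟨N, hN⟩ := exists_nat_ge (4 * t ^ 6 / w0)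
  rw [div_le_iff₀ hw0] at hN
  obtain ⟨m1, m10, m11⟩ := finite_min (a := fun n => θ' (θ n)) (fun n => p1 _ (q1 n) (q2 n)) N
  obtain ⟨m2, m20, m21⟩ := finite_min (a := fun n => s0 (θ n)) (fun n => p5 _ (q1 n) (q2 n)) N
  obtain ⟨m3, m30, m31⟩ := finite_min (a := fun n => e0 (θ n)) (fun n => p6 _ (q1 n) (q2 n)) N
  obtain ⟨θb, c0, c1, hB⟩ := hB t w0 m2 ht a2 hw0 m20
  obtain ⟨γ, g0, g1, hben⟩ := benefit (θ0 := min m1 θb) (lt_min m10 c0) ((min_le_right _ _).trans c1)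
  refine ⟨γ, g0, g1, fun F μ K w k ε ε' x0 u hμ hF hu hk hk2 hw hw' h0 h1 hε' h2 hcov => ?_⟩
  have w0' : 0 < w := hw0.trans_le hw
  obtain ⟨e, e0', e1, e2, e3⟩ : ∃ e : ℝ, 0 < e ∧ e ≤ w * t ^ 6 ∧ e ≤ ε' / 30 ∧ e ≤ m3 :=
    ⟨min (w * t ^ 6) (min (ε' / 30) m3), by positivity, min_le_left _ _,
      (min_le_right _ _).trans (min_le_left _ _), (min_le_right _ _).trans (min_le_right _ _)⟩
  obtain ⟨η, n0, n1, n2⟩ : ∃ η : ℝ, 0 < η ∧ η ≤ e / 10 ^ 6 ∧ η ≤ w * t ^ 18 / 16 :=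
    ⟨min (e / 10 ^ 6) (w * t ^ 18 / 16), by positivity, min_le_left _ _, min_le_right _ _⟩
  obtain ⟨d, d0, d1, d2, d3⟩ := plateau ht (by linarith only [a3, h2, e2, n0, n1]) hμ hF hu n0
  have r0 : 0 < min d (t ^ 18) := lt_min d0 (by positivity)
  obtain ⟨v, hv⟩ := d3 _ r0 (min_le_right _ _)
  have p18 : 0 < w * t ^ 18 := by positivity
  have hD : DH F μ K t w _ η d u v :=
    ⟨ht, a3, w0', hw', hμ, hF, hu, d2, hv, r0, min_le_right _ _, min_le_left _ _, d1, n0, by linarith only [n0, n2]⟩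
  obtain ⟨S, K1, S1, S2, S3, S4, S5, S6, S7⟩ := hD.exists_S
  obtain ⟨H, hH, hT⟩ := hHT F μ K1 t w S ht a1 w0' hw' hμ hF S1 S2 S3 S4 S7
  have hG : GH F μ K t w _ η d e u v S H := ⟨hD, S1, S2, S4, S5, S6, hH, e1, by linarith only [n1]⟩
  obtain ⟨K', k1, k2⟩ := GG_bd hG
  obtain ⟨s1, -, -, s4⟩ := d4_small hG
  refine hben F μ k (ε + ε') (2 * π + w) x0 K' (K' + 2) (t ^ 6 / 2) _ _ _ _ hF s1 (by linarith only [hw0, hw])
    (by linarith only [s4]) hk hk2 (by linarith only [h0, e2, n0, n1]) (by linarith only [h1, h2]) (base_GG hG hk h0 h1 (by linarith only [e2]) hcov k1)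
    fun j => ?_
  rcases le_total (m2 * F.Φ j) (SS t S j) with hs | hs
  · obtain ⟨G, p, r', hd⟩ := hB F μ K w _ η d e K' j u v S H hG hT hw hs k1
    exact (hd.mono (by linarith only [h2, e2, n0, n1])).cost (min_le_right _ _) c1 (by have := om_pos c0; positivity)
  · obtain ⟨n, hn, ζ, z1, z2, z3, z4, z5⟩ := stop hD n2 q1 q5 (q0.le.trans b1) (N := N)
      (hN.trans (mul_le_mul_of_nonneg_left hw (Nat.cast_nonneg N))) j
    obtain ⟨G, p, r', hd⟩ := hA (θ n) (q1 n) (q2 n) F μ K t w _ η d e c K' j (θ (n + 1)) u v S H ζ hG hT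
      n2 (e3.trans (m31 n hn)) (((q n).2.1.trans b2).trans hw) (q1 _) (q3 n)
      (hs.trans (mul_le_mul_of_nonneg_right (m21 n hn) (F.Φ_pos _).le)) k1 k2 z1 z2 z3 z4 z5
    exact hd.cost ((min_le_left _ _).trans (m11 n hn)) (p2 _ (q1 n) (q2 n)) (by linarith only [q4, q4 n])

end

end Pool.Agent.MinMod.St
end
end

-- merged part: Pool.Agent.Work.MP_f62247_an.St.Main
section
-- merged part: Pool.Agent.Work.MP_f62247_an.St.Cov
section
/-!
# Relocation and sweeping with the stronger cover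
Copy `c6_cov` and `relocate` from Mo/C6 and `sweep` from Mo/S1 (do not edit those files; all their helper lemmas are available) and carry the extra clause of `CovT`.
In `c6_cov` the cover point has height in `[0, 2a]`, `[-2a, 0]`, `[π - 2a, π]` (moved down by `2π`), `[-π, -π + 2a]`, or is `± (π - 2 a^5)`; `2 a ≤ 1/50`. In `sweep` the cover point keeps its height.
-/

open Real MeasureTheory Set Filter Topology

namespace Pool.Agent.MinMod.St

open Pool.Agent.MinMod.Mo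

noncomputable section

theorem scov_cov {F : Frame} {μ K a ε' : ℝ} {u ρ c1 c2 P : ℂ → ℝ} {k ε x0 : ℝ}
    (ha : 0 < a) (ha1 : a ≤ 1 / 100) (hD : Dens F μ K u ρ)
    (H1 : c6_H F F.ht μ a ε' u c1) (H2 : c6_H F (fun z => -F.ht z) μ a ε' u c2)
    (p3 : ∀ z, P (z + (2 * π : ℝ) * Complex.I) = P z)
    (p4 : ∀ z, -π - a ^ 5 / 4 < F.ht z → F.ht z < π + a ^ 5 / 4 → P z = u z + c1 z + c2 z)
    (hC : CovD F k ε μ (2 * a) x0 u) (hμ : μ ≤ a ^ 11)
    (s1 : ∀ x, -k * Bx u x + ε * F.Φ x ≤ -(1 - a ^ 11) * F.Φ x)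
    (s2 : ∀ x, -(1 + a ^ 10) * F.Φ x ≤ -k * Bx u x + (ε + ε') * F.Φ x) (x : ℝ) (hx : x0 ≤ x) :
    ∃ z : ℂ, z.re = x ∧ 1 / 2 - 2 * π ≤ F.ht z ∧ F.ht z ≤ 2 * a ∧
      (|F.ht z| ≤ 1 / 50 ∨ |F.ht z + π| ≤ 1 / 50) ∧ P z ≤ -k * Bx u x + (ε + ε') * F.Φ x := by
  have h5 : 0 < a ^ 5 := by positivity
  have h6 : a ^ 5 ≤ a := pow_le_of_le_one ha.le (by linarith only [ha, ha1]) (by norm_num)
  have hπ := pi_gt_three
  have hΦ := F.Φ_pos x
  obtain ⟨p, e, l1, l2, hp⟩ : ∃ p : ℂ, p.re = x ∧ -π ≤ F.ht p ∧ F.ht p ≤ π ∧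
      (u p ≤ -k * Bx u x + ε * F.Φ x ∨
        (2 * a ≤ |sin (F.ht p)| ∧ u p ≤ -(1 - μ) * F.Φ x)) := by
    obtain ⟨y, hy⟩ := hC x hx
    obtain ⟨n, l1, l2⟩ := c6_red F (x + y * Complex.I)
    refine ⟨x + y * Complex.I + (n * (2 * π) : ℝ) * Complex.I, ?_, ?_, ?_, ?_⟩
    · rw [c6_re, c6_re, Complex.ofReal_re]
    · rwa [F.ht_add_I]
    · rwa [F.ht_add_I]
    · rwa [per_int (u := u) (L := 2 * π) (fun z => by simpa using hD.per z) n, F.ht_add_I, sin_add_int_mul_two_pi,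
        F.ht_mk]
  have hd : u p ≤ -(1 - a ^ 11) * F.Φ p.re := by
    rw [e]
    rcases hp with hp | hp
    · exact hp.trans (s1 x)
    · exact hp.2.trans (mul_le_mul_of_nonneg_right (by linarith only [hμ]) hΦ.le)
  have down : ∀ z : ℂ, z.re = x → π - 1 / 50 ≤ F.ht z → F.ht z ≤ π →
      P z ≤ -k * Bx u x + (ε + ε') * F.Φ x → ∃ z : ℂ, z.re = x ∧ 1 / 2 - 2 * π ≤ F.ht z ∧
        F.ht z ≤ 2 * a ∧ (|F.ht z| ≤ 1 / 50 ∨ |F.ht z + π| ≤ 1 / 50) ∧
        P z ≤ -k * Bx u x + (ε + ε') * F.Φ x := by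
    intro z m0 m1 m2 m3
    have e1 := F.ht_add_I z (((-1 : ℤ) : ℝ) * (2 * π))
    refine ⟨z + (((-1 : ℤ) : ℝ) * (2 * π) : ℝ) * Complex.I, by rwa [c6_re], ?_, ?_,
      Or.inr ?_, by rwa [per_int p3]⟩
    · rw [e1]
      push_cast
      linarith only [ha, ha1, hπ, m1]
    · rw [e1]
      push_cast
      linarith only [ha, ha1, hπ, m2]
    · rw [e1, abs_le]
      push_cast
      constructor <;> linarith only [m1, ha, ha1, m2]
  rcases le_total 0 (F.ht p) with h0 | h0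
  · rcases H1.cov p h0 l2 hd with ⟨m1, m2⟩ | ⟨q, m1, m2, m3⟩
    · have m3 := hp.resolve_right fun h => absurd h.1 (not_le.2 (c6_sin ha h0 l2 m1))
      have m4 : P p ≤ -k * Bx u x + (ε + ε') * F.Φ x := by
        rw [p4 p (by linarith only [ha, ha1, h5, hπ, h0]) (by linarith only [h5, l2]), H2.zero (Or.inl (by linarith only [ha, h0]))]
        rw [e] at m2
        linarith only [m2, m3]
      rcases m1 with m1 | m1
      · exact ⟨p, e, by linarith only [ha, ha1, hπ, h0], m1, Or.inl (abs_le.2 ⟨by linarith only [ha, ha1, h0], by linarith only [ha1, m1]⟩), m4⟩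
      · exact down p e (by linarith only [ha1, m1]) l2 m4
    · refine down q (m1.trans e) (by linarith only [ha1, h6, m2]) (by linarith only [h5, m2]) ?_
      rw [p4 q (by linarith only [ha, ha1, h6, hπ, m2]) (by linarith only [h5, m2]), H2.zero (Or.inl (by linarith only [ha, ha1, h6, hπ, m2]))]
      rw [e] at m3
      linarith only [m3, s2, s2 x]
  · rcases H2.cov p (by linarith) (by linarith only [l1]) hd with ⟨m1, m2⟩ | ⟨q, m1, m2, m3⟩
    · have m3 := hp.resolve_right fun h => by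
        have := c6_sin ha (h := -F.ht p) (by linarith only [h0]) (by linarith only [l1]) m1
        rw [sin_neg, abs_neg] at this
        linarith only [h, this, h.1]
      refine ⟨p, e, by linarith only [ha, ha1, hπ, l1], by linarith,
        m1.imp (fun m => abs_le.2 ⟨by linarith only [ha1, m], by linarith only [ha, ha1, h0]⟩)
          (fun m => abs_le.2 ⟨by linarith only [ha, ha1, l1], by linarith only [ha1, m]⟩), ?_⟩
      rw [p4 p (by linarith only [h5, l1]) (by linarith only [h5, l2]), H1.zero (Or.inl (by linarith only [ha, h0]))]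
      rw [e] at m2
      linarith
    · refine ⟨q, m1.trans e, by linarith only [ha, ha1, h5, hπ, m2], by linarith only [ha, ha1, h6, hπ, m2],
        Or.inr (abs_le.2 ⟨by linarith only [ha, ha1, h5, m2], by linarith only [ha1, h6, m2]⟩), ?_⟩
      rw [p4 q (by linarith only [h5, m2]) (by linarith only [ha, ha1, h6, hπ, m2]), H1.zero (Or.inl (by linarith only [ha, ha1, h6, hπ, m2]))]
      rw [e] at m3
      linarith only [m3, s2, s2 x]

theorem relocateT : ∃ a0 : ℝ, 0 < a0 ∧ ∀ a ν : ℝ, 0 < a → a ≤ a0 → 0 < ν → ∃ μ0 : ℝ, 0 < μ0 ∧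
    ∀ (F : Frame) (μ K k ε ε' x0 : ℝ) (u ρ : ℂ → ℝ), μ ≤ μ0 → F.Good μ → Dens F μ K u ρ → 1 ≤ k →
      k ≤ 1 + μ → 0 ≤ ε → ε ≤ μ → 0 < ε' → CovD F k ε μ (2 * a) x0 u →
      ∃ (v : ℂ → ℝ) (K' : ℝ), SubD F ν K' v ∧ CovT F k (ε + ε') (2 * a) x0 v := by
  obtain ⟨a1, h1, H⟩ := half
  refine ⟨min a1 (1 / 100), by positivity, fun a ν ha hle hν => ?_⟩
  obtain ⟨l1, l2⟩ := le_min_iff.1 hle
  have hπ := pi_gt_three
  have hδ : 0 < 1 - cos (a / 4) := by
    have := cos_lt_cos_of_nonneg_of_le_pi (x := 0) (y := a / 4) le_rfl (by linarith only [ha, l2, hπ]) (by linarith)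
    rw [cos_zero] at this
    linarith only [this]
  obtain ⟨ν1, n0, n1, n2, n3⟩ : ∃ ν1 : ℝ, 0 < ν1 ∧ ν1 ≤ ν ∧ ν1 ≤ (1 - cos (a / 4)) / 4 ∧
      ν1 ≤ a ^ 11 / 2 :=
    ⟨min ν (min ((1 - cos (a / 4)) / 4) (a ^ 11 / 2)), by positivity, min_le_left _ _,
      (min_le_right _ _).trans (min_le_left _ _), (min_le_right _ _).trans (min_le_right _ _)⟩
  obtain ⟨μ1, m0, HB⟩ := Dens.Bge n0
  refine ⟨min (min μ1 (a ^ 18)) (ν1 / 64), by positivity, ?_⟩
  intro F μ K k ε ε' x0 u ρ hμ hF hD k1 k2 e0 e1 e2 hC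
  simp only [le_min_iff] at hμ
  obtain ⟨⟨m1, m2⟩, m3⟩ := hμ
  have hB := HB F μ K u ρ m1 hD
  have μ0 := hF.nonneg
  have h5 : 0 < a ^ 5 := by positivity
  have h10 : a ^ 11 ≤ a ^ 10 := pow_le_pow_of_le_one ha.le (by linarith only [ha, l2]) (by norm_num)
  have h11 : a ^ 10 ≤ 1 := pow_le_one₀ ha.le (by linarith only [ha, l2])
  obtain ⟨c1, q1, q2, q3, q4, q5, q6, q7, q8⟩ := H F μ K a ε' u ρ ha l1 m2 hF hD e2
  have H1 : c6_H F F.ht μ a ε' u c1 := ⟨q1, q2, q3, q4, q5, q6, q7, q8⟩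
  obtain ⟨c', r1, r2, r3, r4, r5, r6, r7, r8⟩ :=
    H F.refl μ K a ε' _ _ ha l1 m2 hF.refl hD.refl e2
  obtain ⟨c2, H2⟩ : ∃ c2, c6_H F (fun z => -F.ht z) μ a ε' u c2 :=
    ⟨_, c6_H.refl ⟨r1, r2, r3, r4, r5, r6, r7, r8⟩⟩
  clear q1 q2 q3 q4 q5 q6 q7 q8 r1 r2 r3 r4 r5 r6 r7 r8 H HB
  obtain ⟨P, p1, p2, p3, p4⟩ := c6_per ha l2 hD H1 H2
  have hBx := c6_Bx ha μ0 hD H1 H2 p1 p3 p4 (by linarith only [n0, n2, m3]) hB
  have red : ∀ z : ℂ, ∃ t : ℝ, (∀ w, P (w + t * Complex.I) = P w) ∧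
      F.M (z + t * Complex.I) = F.M z ∧ -π ≤ F.ht (z + t * Complex.I) ∧
      F.ht (z + t * Complex.I) ≤ π := by
    intro z
    obtain ⟨n, b1, b2⟩ := c6_red F z
    exact ⟨n * (2 * π), per_int p3 n, c6_M F z n, by rwa [F.ht_add_I], by rwa [F.ht_add_I]⟩
  obtain ⟨K1, hK1⟩ := H1.low
  obtain ⟨K2, hK2⟩ := H2.low
  refine ⟨P, 20 * K + 2 + K1 + K2, ⟨p1, fun z => by simpa using p3 z, p2, fun η hη => ?_,
    fun z => ?_, fun z => ?_, fun z => ?_, fun x => ?_⟩, fun x hx => ?_⟩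
  · obtain ⟨d, hd, hM⟩ := (hD.uc.add H1.uc).add H2.uc η hη
    refine ⟨min d (a ^ 5 / 16), by positivity, fun z _ z' hz => ?_⟩
    obtain ⟨t, b0, -, b1, b2⟩ := red z
    obtain ⟨b3, b4⟩ := le_min_iff.1 hz
    have b5 : ‖z' + t * Complex.I - (z + t * Complex.I)‖ = ‖z' - z‖ := by
      rw [add_sub_add_right_eq_sub]
    obtain ⟨b6, b7⟩ := abs_le.1 (hF.ht_sub (by linarith only [ha, l2, n3, m3, h10, h11]) (z + t * Complex.I) (z' + t * Complex.I))
    rw [b5] at b6 b7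
    have := hM (z + t * Complex.I) (mem_univ _) (z' + t * Complex.I) (b5.trans_le b3)
    rwa [← b0 z, ← b0 z', p4 _ (by linarith only [h5, b1, b4, b6]) (by linarith only [h5, b2, b4, b7]), p4 _ (by linarith only [h5, b1]) (by linarith only [h5, b2]),
      ← c6_re z t]
  · obtain ⟨t, b0, b3, b1, b2⟩ := red z
    have := c6_up ha H1 H2 (z + t * Complex.I)
    rw [← p4 _ (by linarith only [h5, b1]) (by linarith only [h5, b2]), b0, b3, c6_re] at this
    have b4 := mul_le_mul_of_nonneg_right (show 3 * μ ≤ ν by linarith only [hν, n1, m3]) (F.Φ_pos z.re).le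
    linarith only [this, b4]
  · obtain ⟨t, b0, -, b1, b2⟩ := red z
    have b3 := hD.low hF (by linarith only [ha, l2, n3, m3, h10, h11]) (z + t * Complex.I)
    have b4 := hK1 (z + t * Complex.I)
    have b5 := hK2 (z + t * Complex.I)
    rw [c6_re] at b3 b4 b5
    rw [← b0 z, p4 _ (by linarith only [h5, b1]) (by linarith only [h5, b2])]
    linarith only [b3, b4, b5]
  · obtain ⟨t, b0, b3, b1, b2⟩ := red z
    have := c6_avg ha l2 hF (by linarith only [ha, l2, n3, m3, h10, h11]) hD H1 H2 p1 p3 p4 b1 b2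
    rw [← c6_shift, b3, c6_re] at this
    simp only [b0] at this
    have b4 := mul_le_mul_of_nonneg_right (show 64 * μ ≤ ν by linarith only [n1, m3]) (F.Φ_pos z.re).le
    linarith only [this, b4]
  · rw [hBx]
    exact (mul_le_mul_of_nonneg_right (by linarith only [n1]) (F.Φ_pos x).le).trans (hB x)
  · refine (scov_cov ha l2 hD H1 H2 p3 p4 hC (by linarith only [n0, n3, m3]) (fun x => ?_) (fun x => ?_) x hx).elim
      fun z ⟨b0, b1, b2, b4, b3⟩ => ⟨z.im, by rwa [← b0], by rwa [← b0], by rwa [← b0], by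
        rw [hBx]
        convert b3
        rw [← b0]
        exact Complex.re_add_im z⟩
    · have hΦ := F.Φ_pos x
      have b0 := hB x
      have b1 : 0 ≤ Bx u x := (mul_nonneg (by linarith only [ha, l2, n3, h10, h11]) hΦ.le).trans b0
      have b2 := mul_le_mul_of_nonneg_right k1 b1
      have b3 := mul_le_mul_of_nonneg_right (show ε + ν1 ≤ a ^ 11 by linarith only [n0, n3, e1, m3]) hΦ.le
      linarith only [b0, b2, b3]
    · have hΦ := F.Φ_pos x
      have b0 := mul_le_mul_of_nonneg_left (hD.Ble x) (show 0 ≤ k by linarith only [ha, l2, k1])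
      have b1 : k * (1 + μ) ≤ 1 + a ^ 10 := by (refine le_of_not_gt fun h_nl => ?_; linarith only [h_nl, n3, k2, m3, ha, n0, l2, h10, h11, k1, mul_pos_of_neg_of_neg (Mathlib.Tactic.Linarith.sub_neg_of_lt ha) (Mathlib.Tactic.Linarith.sub_neg_of_lt n0), mul_pos_of_neg_of_neg (Mathlib.Tactic.Linarith.sub_neg_of_lt ha) (Mathlib.Tactic.Linarith.sub_neg_of_lt h_nl), mul_nonneg_of_nonpos_of_nonpos (Mathlib.Tactic.Linarith.sub_nonpos_of_le l2) (le_of_lt (Mathlib.Tactic.Linarith.sub_neg_of_lt n0)), mul_nonneg_of_nonpos_of_nonpos (Mathlib.Tactic.Linarith.sub_nonpos_of_le l2) (Mathlib.Tactic.Linarith.sub_nonpos_of_le n3), mul_nonneg_of_nonpos_of_nonpos (Mathlib.Tactic.Linarith.sub_nonpos_of_le l2) (Mathlib.Tactic.Linarith.sub_nonpos_of_le h10), mul_nonneg_of_nonpos_of_nonpos (Mathlib.Tactic.Linarith.sub_nonpos_of_le l2) (le_of_lt (Mathlib.Tactic.Linarith.sub_neg_of_lt h_nl)), mul_nonneg_of_nonpos_of_nonpos (le_of_lt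 (Mathlib.Tactic.Linarith.sub_neg_of_lt n0)) (Mathlib.Tactic.Linarith.sub_nonpos_of_le n3), mul_nonneg_of_nonpos_of_nonpos (le_of_lt (Mathlib.Tactic.Linarith.sub_neg_of_lt n0)) (Mathlib.Tactic.Linarith.sub_nonpos_of_le k2), mul_nonneg_of_nonpos_of_nonpos (le_of_lt (Mathlib.Tactic.Linarith.sub_neg_of_lt n0)) (Mathlib.Tactic.Linarith.sub_nonpos_of_le m3), mul_nonneg_of_nonpos_of_nonpos (le_of_lt (Mathlib.Tactic.Linarith.sub_neg_of_lt n0)) (Mathlib.Tactic.Linarith.sub_nonpos_of_le h10), mul_nonneg_of_nonpos_of_nonpos (le_of_lt (Mathlib.Tactic.Linarith.sub_neg_of_lt n0)) (Mathlib.Tactic.Linarith.sub_nonpos_of_le h11), mul_nonneg_of_nonpos_of_nonpos (Mathlib.Tactic.Linarith.sub_nonpos_of_le k1) (Mathlib.Tactic.Linarith.sub_nonpos_of_le m3)])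
      have b2 := mul_le_mul_of_nonneg_right b1 hΦ.le
      have b3 := mul_nonneg (show 0 ≤ ε + ε' by linarith only [e0, e2]) hΦ.le
      linarith only [b0, b2, b3]

theorem sweepT {y1 ν' : ℝ} (hy : 0 < y1) (hy1 : y1 ≤ 1 / 100) (hν' : 0 < ν') : ∃ ν : ℝ, 0 < ν ∧
    ∀ (F : Frame) (μ K k ε ε' x0 : ℝ) (u : ℂ → ℝ), μ ≤ ν → F.Good μ → SubD F ν K u → 1 ≤ k → k ≤ 2 →
      0 < ε' → CovT F k ε (y1 / 4) x0 u →
      ∃ (u' : ℂ → ℝ) (K' : ℝ), Clean F ν' K' y1 u' ∧ CovT F k (ε + ε') (y1 / 4) x0 u' := by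
  have hpi := pi_gt_three
  have hc : 0 < 1 - cos (y1 / 4) := by
    rw [← cos_zero, sub_pos]
    exact cos_lt_cos_of_nonneg_of_le_pi le_rfl (by linarith only [hy, hy1, hpi]) (by linarith only [hy])
  obtain ⟨ν, hν, n1, n2, n3⟩ : ∃ ν : ℝ, 0 < ν ∧ ν ≤ 1 / 100 ∧ 21 * ν ≤ 1 - cos (y1 / 4) ∧
      300 * ν ≤ ν' * (y1 / 4) ^ 2 := by
    refine ⟨min (min (1 / 100) ((1 - cos (y1 / 4)) / 21)) (ν' * (y1 / 4) ^ 2 / 300),
      by positivity, (min_le_left _ _).trans (min_le_left _ _), ?_, ?_⟩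
    · linarith only [(min_le_left _ (ν' * (y1 / 4) ^ 2 / 300)).trans
        (min_le_right (1 / 100) ((1 - cos (y1 / 4)) / 21))]
    · linarith only [min_le_right (min (1 / 100) ((1 - cos (y1 / 4)) / 21)) (ν' * (y1 / 4) ^ 2 / 300)]
  have n4 : 300 * ν ≤ ν' := n3.trans (mul_le_of_le_one_right hν'.le (by linarith only [hy, hy1, mul_nonneg_of_nonpos_of_nonpos (le_of_lt (Mathlib.Tactic.Linarith.sub_neg_of_lt hy)) (Mathlib.Tactic.Linarith.sub_nonpos_of_le hy1)]))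
  refine ⟨ν, hν, fun F μ K k ε ε' x0 u hμ hF hu hk1 hk2 hε hcov => ?_⟩
  have hη : 0 < min ν (ε' / 3) := by positivity
  have e1 := min_le_left ν (ε' / 3)
  have e2 := min_le_right ν (ε' / 3)
  generalize min ν (ε' / 3) = η at hη e1 e2
  obtain ⟨v, r, hr, hr1, uc, per, md, v1, v2, v3, v4, v5, v6⟩ := s1_obst hy hy1 n1 n2 hη hμ hF hu
  have cv := continuous_of_uc uc
  have cu := continuous_tav cv hr
  have cl : ∀ z, |tav r v z - v z| ≤ η * F.Φ z.re := fun z =>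
    abs_tav_sub_le cv hr (md z (mem_univ z))
  have lo : ∀ z, u z - η * F.Φ z.re ≤ tav r v z := fun z => by
    linarith only [cl, v1, (abs_le.1 (cl z)).1, v1 z]
  have hi : ∀ z, tav r v z ≤ v z + η * F.Φ z.re := fun z => by linarith only [cl, (abs_le.1 (cl z)).2]
  have per' : ∀ z, tav r v (z + 2 * π * Complex.I) = tav r v z := fun z => by
    rw [← tav_shift, funext per]
  have up : ∀ z, tav r v z ≤ F.M z + 21 * ν * F.Φ z.re := fun z => by
    linarith only [hi, v4, e1, hi z, v4 z, mul_le_mul_of_nonneg_right e1 (F.Φ_pos z.re).le]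
  have avg : ∀ z, F.M z - 9 * ν * F.Φ z.re ≤ da (tav r v) z 1 := fun z => by
    have a1 := da_mono (f := u) (g := fun w => tav r v w + 8 * ν * F.Φ z.re) (s1_io hu.cont z)
      (s1_io (by fun_prop) z) (Eventually.of_forall fun w hw => by
        have b1 := s1_eight hF (by linarith only [hy, hy1, n1, hμ]) (mem_ball_iff_norm.1 hw).le
        have b2 := mul_le_mul e1 b1 (F.Φ_pos _).le hν.le
        linarith only [b2, lo, lo w])
    rw [da_add (s1_io cu z) (s1_io continuous_const z), da_const _ _ one_pos] at a1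
    linarith only [a1, hu, hu.avg z]
  have mv : MV (tav r v) {z | y1 / 2 ≤ F.ht z ∧ F.ht z ≤ 9 / 50} := fun z s hs hb => by
    rw [ca_tav cv hr hs, pot_congr (ρ' := fun _ => 0) hs fun ζ hζ => ?_]
    · simp [pot]
    · have a1 := hb (mem_closedBall_iff_norm.2 hζ.le)
      rw [den, v3 ζ a1.1 a1.2, sub_self, mul_zero]
  have mo : ∀ {c : ℝ}, c ≤ 300 → ∀ x, c * ν * F.Φ x ≤ ν' * F.Φ x := fun hc x =>
    mul_le_mul_of_nonneg_right ((mul_le_mul_of_nonneg_right hc hν.le).trans n4) (F.Φ_pos x).le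
  refine ⟨tav r v, K + η, ⟨⟨cu, per', ⟨cu.continuousOn, fun z s hs _ => ?_⟩,
    uc_tav hF (by linarith only [hy, hy1, n1, hμ]) hr hr1 uc, fun z => ?_, fun z => ?_, fun z => ?_, fun x => ?_⟩,
    fun z s hs hb => mv z s hs fun w hw => ?_, fun z b1 b2 => ?_⟩, fun x hx => ?_⟩
  · rw [ca_tav cv hr hs]
    exact le_add_of_nonneg_right (pot_nonneg hs fun ζ _ =>
      mul_nonneg (by positivity) (sub_nonneg.2 (v2 ζ)))
  · linarith [up z, mo (c := 21) (by norm_num) z.re]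
  · linarith only [lo, hu, lo z, hu.low z]
  · linarith [avg z, mo (c := 9) (by norm_num) z.re]
  · obtain ⟨y, -, -, hy⟩ := exists_Bx hu.cont hu.per x 0
    have a1 := lo (x + y * Complex.I)
    have a2 := f3_le cu per' x y
    have a3 : ((x : ℂ) + y * Complex.I).re = x := by simp
    rw [a3] at a1
    linarith [hu.Bge x, mo (c := 2) (by norm_num) x,
      mul_le_mul_of_nonneg_right e1 (F.Φ_pos x).le]
  · exact ⟨by linarith only [hy, hb, hw, (hb hw).1], by linarith only [hy, hy1, hb, hw, (hb hw).2]⟩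
  · have a1 := s1_near hF (by linarith only [hy, hy1, n1, hμ]) hy hy1 (by positivity) cu mv up (avg z) b1 b2
    have a2 : (50 * μ + 8 * (21 * ν) + 9 * ν) / (y1 / 4) ^ 2 ≤ ν' := by
      rw [div_le_iff₀ (by positivity)]
      linarith only [hν, n3, hμ]
    linarith only [a1, a2, mul_le_mul_of_nonneg_right a2 (F.Φ_pos z.re).le]
  · obtain ⟨y, b1, b2, b4, b3⟩ := hcov x hx
    refine ⟨y, b1, b2, b4, ?_⟩
    have hΦ := F.Φ_pos x
    have re : ∀ y : ℝ, ((x : ℂ) + y * Complex.I).re = x := fun y => by simp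
    have a1 := hi (x + y * Complex.I)
    have a2 := v6 (x + y * Complex.I) (by rw [F.ht_mk]; linarith only [hy, hy1, b1]) (by rw [F.ht_mk]; exact b2)
    have a3 : Bx (tav r v) x ≤ Bx u x + η * F.Φ x := Bx_le fun y => by
      have c1 := hi (x + y * Complex.I)
      have c2 := v5 (x + y * Complex.I)
      rw [re] at c1 c2
      linarith only [c1, c2]
    rw [re] at a1
    have a4 := mul_le_mul_of_nonneg_left a3 (show 0 ≤ k by linarith only [hy, hy1, hk1])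
    have a5 := mul_le_mul_of_nonneg_right hk2 (mul_pos hη hΦ).le
    have a6 := mul_le_mul_of_nonneg_right e2 hΦ.le
    linarith only [b3, a1, a2, a4, a5, a6]

theorem CovT.mono {F : Frame} {k ε a a' x0 : ℝ} {u : ℂ → ℝ} (h : CovT F k ε a x0 u) (ha : a ≤ a') :
    CovT F k ε a' x0 u := by
  intro x hx
  obtain ⟨y, h1, h2, h3⟩ := h x hx
  exact ⟨y, h1, h2.trans ha, h3⟩

end

end Pool.Agent.MinMod.St
end

-- merged part: Pool.Agent.Work.MP_f62247_an.St.Main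
section
/-!
# Strict monotonicity
The chain `reduce` (lower type below the midpoint), `toPot`, `thicken`, `relocateT`, `sweepT`, `insert_gain`, `realise`.
-/

open Real MeasureTheory Set Filter Topology

namespace Pool.Agent.MinMod.St

open Pool.Agent.MinMod.Mo

noncomputable section

theorem width {l1 l2 lam τ : ℝ} (h1 : 1 < l1) (h2 : l1 < l2) (h3 : l2 < 1 + τ / 100)
    (h4 : lam < (l1 + l2) / 2) (h5 : 1 - τ / 100 ≤ lam) (h6 : τ ≤ 1 / 100) :
    (l2 - l1) / 4 ≤ 2 * π * (l2 / lam - 1) ∧ 2 * π * (l2 / lam - 1) ≤ τ ∧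
      2 * π * (l2 / lam - 1) ≤ 1 / 10 * (2 * π) ∧
      (2 * π + 2 * π * (l2 / lam - 1)) / (2 * π) * lam = l2 := by
  have hw0 : (l2 - l1) / 4 ≤ l2 / lam - 1 := by
    rw [le_sub_iff_add_le, le_div_iff₀ (by linarith only [h1, h2, h3, h5, h6])]
    linarith only [h2, h4, h3, h6, mul_pos_of_neg_of_neg (Mathlib.Tactic.Linarith.sub_neg_of_lt h2) (Mathlib.Tactic.Linarith.sub_neg_of_lt h2), mul_pos_of_neg_of_neg (Mathlib.Tactic.Linarith.sub_neg_of_lt h2) (Mathlib.Tactic.Linarith.sub_neg_of_lt h3), mul_pos_of_neg_of_neg (Mathlib.Tactic.Linarith.sub_neg_of_lt h2) (Mathlib.Tactic.Linarith.sub_neg_of_lt h4), mul_nonneg_of_nonpos_of_nonpos (le_of_lt (Mathlib.Tactic.Linarith.sub_neg_of_lt h2)) (Mathlib.Tactic.Linarith.sub_nonpos_of_le h6)]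
  have hw1 : l2 / lam - 1 ≤ τ / 25 := by
    rw [sub_le_iff_le_add, div_le_iff₀ (by linarith only [h1, h2, h3, h5, h6])]
    linarith only [h3, h5, h1, h2, h6, mul_pos_of_neg_of_neg (Mathlib.Tactic.Linarith.sub_neg_of_lt h1) (Mathlib.Tactic.Linarith.sub_neg_of_lt h1), mul_pos_of_neg_of_neg (Mathlib.Tactic.Linarith.sub_neg_of_lt h1) (Mathlib.Tactic.Linarith.sub_neg_of_lt h2), mul_pos_of_neg_of_neg (Mathlib.Tactic.Linarith.sub_neg_of_lt h1) (Mathlib.Tactic.Linarith.sub_neg_of_lt h3), mul_nonneg_of_nonpos_of_nonpos (le_of_lt (Mathlib.Tactic.Linarith.sub_neg_of_lt h1)) (Mathlib.Tactic.Linarith.sub_nonpos_of_le h5), mul_nonneg_of_nonpos_of_nonpos (le_of_lt (Mathlib.Tactic.Linarith.sub_neg_of_lt h1)) (Mathlib.Tactic.Linarith.sub_nonpos_of_le h6), mul_pos_of_neg_of_neg (Mathlib.Tactic.Linarith.sub_neg_of_lt h2) (Mathlib.Tactic.Linarith.sub_neg_of_lt h2), mul_pos_of_neg_of_neg (Mathlib.Tactic.Linarith.sub_neg_of_lt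 h2) (Mathlib.Tactic.Linarith.sub_neg_of_lt h3), mul_nonneg_of_nonpos_of_nonpos (le_of_lt (Mathlib.Tactic.Linarith.sub_neg_of_lt h2)) (Mathlib.Tactic.Linarith.sub_nonpos_of_le h5), mul_nonneg_of_nonpos_of_nonpos (le_of_lt (Mathlib.Tactic.Linarith.sub_neg_of_lt h2)) (Mathlib.Tactic.Linarith.sub_nonpos_of_le h6), mul_nonneg_of_nonpos_of_nonpos (le_of_lt (Mathlib.Tactic.Linarith.sub_neg_of_lt h3)) (Mathlib.Tactic.Linarith.sub_nonpos_of_le h5), mul_nonneg_of_nonpos_of_nonpos (le_of_lt (Mathlib.Tactic.Linarith.sub_neg_of_lt h3)) (Mathlib.Tactic.Linarith.sub_nonpos_of_le h6)]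
  have hpi := pi_gt_three
  have hpi4 := pi_le_four
  refine ⟨by (refine le_of_not_gt fun h_nl => ?_; linarith only [h_nl, hw0, h1, h2, h3, h6, hpi, mul_pos_of_neg_of_neg (Mathlib.Tactic.Linarith.sub_neg_of_lt h1) (Mathlib.Tactic.Linarith.sub_neg_of_lt h2), mul_pos_of_neg_of_neg (Mathlib.Tactic.Linarith.sub_neg_of_lt h1) (Mathlib.Tactic.Linarith.sub_neg_of_lt h_nl), mul_pos_of_neg_of_neg (Mathlib.Tactic.Linarith.sub_neg_of_lt h2) (Mathlib.Tactic.Linarith.sub_neg_of_lt h2), mul_pos_of_neg_of_neg (Mathlib.Tactic.Linarith.sub_neg_of_lt h2) (Mathlib.Tactic.Linarith.sub_neg_of_lt h3), mul_nonneg_of_nonpos_of_nonpos (le_of_lt (Mathlib.Tactic.Linarith.sub_neg_of_lt h2)) (Mathlib.Tactic.Linarith.sub_nonpos_of_le h6), mul_pos_of_neg_of_neg (Mathlib.Tactic.Linarith.sub_neg_of_lt h2) (Mathlib.Tactic.Linarith.sub_neg_of_lt hpi), mul_pos_of_neg_of_neg (Mathlib.Tactic.Linarith.sub_neg_of_lt h2) (Mathlib.Tactic.Linarith.sub_neg_of_lt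 h_nl), mul_pos_of_neg_of_neg (Mathlib.Tactic.Linarith.sub_neg_of_lt h3) (Mathlib.Tactic.Linarith.sub_neg_of_lt h_nl), mul_nonneg_of_nonpos_of_nonpos (Mathlib.Tactic.Linarith.sub_nonpos_of_le h6) (le_of_lt (Mathlib.Tactic.Linarith.sub_neg_of_lt h_nl)), mul_nonneg_of_nonpos_of_nonpos (Mathlib.Tactic.Linarith.sub_nonpos_of_le hw0) (le_of_lt (Mathlib.Tactic.Linarith.sub_neg_of_lt hpi))]), by (refine le_of_not_gt fun h_nl => ?_; linarith only [h_nl, hw1, h1, h2, h3, h6, hpi4, hw0, mul_pos_of_neg_of_neg (Mathlib.Tactic.Linarith.sub_neg_of_lt h1) (Mathlib.Tactic.Linarith.sub_neg_of_lt h1), mul_pos_of_neg_of_neg (Mathlib.Tactic.Linarith.sub_neg_of_lt h1) (Mathlib.Tactic.Linarith.sub_neg_of_lt h2), mul_pos_of_neg_of_neg (Mathlib.Tactic.Linarith.sub_neg_of_lt h1) (Mathlib.Tactic.Linarith.sub_neg_of_lt h3), mul_nonneg_of_nonpos_of_nonpos (le_of_lt (Mathlib.Tactic.Linarith.sub_neg_of_lt h1)) (Mathlib.Tactic.Linarith.sub_nonpos_of_le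 h6), mul_pos_of_neg_of_neg (Mathlib.Tactic.Linarith.sub_neg_of_lt h1) (Mathlib.Tactic.Linarith.sub_neg_of_lt h_nl), mul_pos_of_neg_of_neg (Mathlib.Tactic.Linarith.sub_neg_of_lt h2) (Mathlib.Tactic.Linarith.sub_neg_of_lt h2), mul_pos_of_neg_of_neg (Mathlib.Tactic.Linarith.sub_neg_of_lt h2) (Mathlib.Tactic.Linarith.sub_neg_of_lt h3), mul_nonneg_of_nonpos_of_nonpos (le_of_lt (Mathlib.Tactic.Linarith.sub_neg_of_lt h2)) (Mathlib.Tactic.Linarith.sub_nonpos_of_le h6), mul_nonneg_of_nonpos_of_nonpos (le_of_lt (Mathlib.Tactic.Linarith.sub_neg_of_lt h2)) (Mathlib.Tactic.Linarith.sub_nonpos_of_le hpi4), mul_pos_of_neg_of_neg (Mathlib.Tactic.Linarith.sub_neg_of_lt h2) (Mathlib.Tactic.Linarith.sub_neg_of_lt h_nl), mul_pos_of_neg_of_neg (Mathlib.Tactic.Linarith.sub_neg_of_lt h3) (Mathlib.Tactic.Linarith.sub_neg_of_lt h3), mul_nonneg_of_nonpos_of_nonpos (le_of_lt (Mathlib.Tactic.Linarith.sub_neg_of_lt h3)) (Mathlib.Tactic.Linarith.sub_nonpos_of_le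 h6), mul_pos_of_neg_of_neg (Mathlib.Tactic.Linarith.sub_neg_of_lt h3) (Mathlib.Tactic.Linarith.sub_neg_of_lt h_nl), mul_nonneg_of_nonpos_of_nonpos (Mathlib.Tactic.Linarith.sub_nonpos_of_le h6) (le_of_lt (Mathlib.Tactic.Linarith.sub_neg_of_lt h_nl)), mul_nonneg_of_nonpos_of_nonpos (Mathlib.Tactic.Linarith.sub_nonpos_of_le hw0) (Mathlib.Tactic.Linarith.sub_nonpos_of_le hpi4)]), by (refine le_of_not_gt fun h_nl => ?_; linarith only [h_nl, h6, hw1, h1, h2, h3, hpi, hw0, hpi4, mul_pos_of_neg_of_neg (Mathlib.Tactic.Linarith.sub_neg_of_lt h1) (Mathlib.Tactic.Linarith.sub_neg_of_lt h1), mul_pos_of_neg_of_neg (Mathlib.Tactic.Linarith.sub_neg_of_lt h1) (Mathlib.Tactic.Linarith.sub_neg_of_lt h2), mul_pos_of_neg_of_neg (Mathlib.Tactic.Linarith.sub_neg_of_lt h1) (Mathlib.Tactic.Linarith.sub_neg_of_lt h3), mul_nonneg_of_nonpos_of_nonpos (le_of_lt (Mathlib.Tactic.Linarith.sub_neg_of_lt h1)) (Mathlib.Tactic.Linarith.sub_nonpos_of_le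 h6), mul_pos_of_neg_of_neg (Mathlib.Tactic.Linarith.sub_neg_of_lt h1) (Mathlib.Tactic.Linarith.sub_neg_of_lt hpi), mul_pos_of_neg_of_neg (Mathlib.Tactic.Linarith.sub_neg_of_lt h1) (Mathlib.Tactic.Linarith.sub_neg_of_lt h_nl), mul_pos_of_neg_of_neg (Mathlib.Tactic.Linarith.sub_neg_of_lt h2) (Mathlib.Tactic.Linarith.sub_neg_of_lt h2), mul_pos_of_neg_of_neg (Mathlib.Tactic.Linarith.sub_neg_of_lt h2) (Mathlib.Tactic.Linarith.sub_neg_of_lt h3), mul_nonneg_of_nonpos_of_nonpos (le_of_lt (Mathlib.Tactic.Linarith.sub_neg_of_lt h2)) (Mathlib.Tactic.Linarith.sub_nonpos_of_le h6), mul_pos_of_neg_of_neg (Mathlib.Tactic.Linarith.sub_neg_of_lt h2) (Mathlib.Tactic.Linarith.sub_neg_of_lt hpi), mul_pos_of_neg_of_neg (Mathlib.Tactic.Linarith.sub_neg_of_lt h2) (Mathlib.Tactic.Linarith.sub_neg_of_lt h_nl), mul_pos_of_neg_of_neg (Mathlib.Tactic.Linarith.sub_neg_of_lt h3) (Mathlib.Tactic.Linarith.sub_neg_of_lt h3), mul_nonneg_of_nonpos_of_nonpos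 (le_of_lt (Mathlib.Tactic.Linarith.sub_neg_of_lt h3)) (Mathlib.Tactic.Linarith.sub_nonpos_of_le h6), mul_pos_of_neg_of_neg (Mathlib.Tactic.Linarith.sub_neg_of_lt h3) (Mathlib.Tactic.Linarith.sub_neg_of_lt hpi), mul_pos_of_neg_of_neg (Mathlib.Tactic.Linarith.sub_neg_of_lt h3) (Mathlib.Tactic.Linarith.sub_neg_of_lt h_nl), mul_nonneg_of_nonpos_of_nonpos (Mathlib.Tactic.Linarith.sub_nonpos_of_le h6) (le_of_lt (Mathlib.Tactic.Linarith.sub_neg_of_lt hpi)), mul_nonneg_of_nonpos_of_nonpos (Mathlib.Tactic.Linarith.sub_nonpos_of_le h6) (le_of_lt (Mathlib.Tactic.Linarith.sub_neg_of_lt h_nl)), mul_nonneg_of_nonpos_of_nonpos (Mathlib.Tactic.Linarith.sub_nonpos_of_le hw0) (Mathlib.Tactic.Linarith.sub_nonpos_of_le hpi4)]), ?_⟩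
  have : lam ≠ 0 := by linarith only [h1, h2, h3, h5, h6]
  field_simp
  ring

theorem transferS : ∃ δ νk : ℝ, 0 < δ ∧ 0 < νk ∧ ∀ lam1 lam2 : ℝ, 1 < lam1 → lam1 < lam2 →
    lam2 < 1 + δ → ∃ γ : ℝ, 0 < γ ∧ ∀ (f : ℂ → ℂ) (η η' ε : ℝ), Differentiable ℂ f →
    lowerOrder f = (lam1 : EReal) → 0 < η' → η' < η → η ≤ νk → 0 < ε →
    (∀ᶠ r in atTop, modRatio f r ≤ ((-1 - η : ℝ) : EReal)) →
    ∃ g : ℂ → ℂ, Differentiable ℂ g ∧ (∃ z w, g z ≠ g w) ∧ lowerOrder g = (lam2 : EReal) ∧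
      ∀ᶠ r in atTop, modRatio g r ≤ ((-1 - η' - γ + ε : ℝ) : EReal) := by
  obtain ⟨t0, ht0, hins⟩ := insert_gain
  obtain ⟨t, ht, ht1, ht2⟩ : ∃ t : ℝ, 0 < t ∧ t ≤ t0 ∧ t ≤ 1 / 100 :=
    ⟨min t0 (1 / 100), lt_min ht0 (by norm_num), min_le_left _ _, min_le_right _ _⟩
  have h8 : 0 < t ^ 8 := by positivity
  have h18 : 0 < t ^ 18 := by positivity
  have h81 : t ^ 8 ≤ 1 / 100 := (pow_le_of_le_one ht.le (by linarith only [ht, ht2]) (by norm_num)).trans ht2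
  obtain ⟨ν3, hν3, hsw⟩ := sweepT h8 h81 h18
  obtain ⟨a0, ha0, hrel⟩ := relocateT
  obtain ⟨a, ha, ha1, ha2, ha3⟩ : ∃ a : ℝ, 0 < a ∧ a ≤ a0 ∧ a ≤ t ^ 8 / 8 ∧ a ≤ 1 / 800 :=
    ⟨min a0 (min (t ^ 8 / 8) (1 / 800)), by positivity, min_le_left _ _,
      (min_le_right _ _).trans (min_le_left _ _), (min_le_right _ _).trans (min_le_right _ _)⟩
  obtain ⟨μr0, hμr0, hrel⟩ := hrel a ν3 ha ha1 hν3
  obtain ⟨μr, hμr, hμr1, hμr2⟩ : ∃ μr : ℝ, 0 < μr ∧ μr ≤ μr0 ∧ μr ≤ 1 / 100 :=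
    ⟨min μr0 (1 / 100), by positivity, min_le_left _ _, min_le_right _ _⟩
  obtain ⟨μt, hμt, hth⟩ := thicken hμr
  obtain ⟨ν, hν, n1, n2, n3, n4, n5⟩ : ∃ ν : ℝ, 0 < ν ∧ ν ≤ μt ∧ ν ≤ μr ∧ ν ≤ ν3 ∧ ν ≤ t ^ 18 ∧
      ν ≤ t ^ 8 / 100 :=
    ⟨min μt (min μr (min ν3 (min (t ^ 18) (t ^ 8 / 100)))), by positivity, min_le_left _ _,
      (min_le_right _ _).trans (min_le_left _ _),
      (min_le_right _ _).trans ((min_le_right _ _).trans (min_le_left _ _)),
      (min_le_right _ _).trans ((min_le_right _ _).trans ((min_le_right _ _).trans (min_le_left _ _))),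
      (min_le_right _ _).trans ((min_le_right _ _).trans ((min_le_right _ _).trans (min_le_right _ _)))⟩
  obtain ⟨μp, hμp, hpot⟩ := toPot hν
  obtain ⟨δ, νk, hδ, hνk, hred⟩ := reduce hμp
  refine ⟨min δ (t ^ 8 / 100), min νk μr, by positivity, by positivity, fun lam1 lam2 l1 l2 l3 => ?_⟩
  obtain ⟨γ, g0, g1, hins⟩ := hins t ((lam2 - lam1) / 4) ht ht1 (by linarith only [l2])
  refine ⟨γ, g0, fun f η η' ε hf ho e0 e1 e2 hε hm => ?_⟩
  have d1 := min_le_left δ (t ^ 8 / 100)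
  have d2 := min_le_right δ (t ^ 8 / 100)
  have k1 := min_le_left νk μr
  have k2 := min_le_right νk μr
  obtain ⟨e, he, he1, he2⟩ : ∃ e : ℝ, 0 < e ∧ 1000 * e ≤ ε ∧ 1000 * e ≤ μr :=
    ⟨min ε μr / 1000, by positivity, by linarith only [min_le_left ε μr], by linarith only [min_le_right ε μr]⟩
  obtain ⟨ι, Y, H, lam, x0, hY, hc, hcov, hty, hl⟩ :=
    hred f lam1 ((lam1 + lam2) / 2) η η' e hf l1 (by linarith only [l2]) (by linarith only [l2, l3, d1]) ho e0 e1 (by linarith only [e2, k1]) he hm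
  obtain ⟨F, hF, hP, hcp, hty'⟩ := hpot Y H μp hY le_rfl hc
  have hk1 : 1 ≤ 1 + η' := by linarith only [e0]
  have hk2 : 1 + η' ≤ 2 := by linarith only [hμr2, e1, e2, k2, he, he2]
  obtain ⟨v, ρ, K, hD, hcd⟩ := hth F ν (1 + η') (2 * e) e (1 / 200) x0 Y.u Y.w Y.mw hν n1 hF hP hk1 hk2
    (by linarith only [he]) (by linarith only [hμr2, he, he2]) he (by norm_num) (hcp _ _ _ he.le hcov)
  obtain ⟨v2, K2, hS, hcs⟩ := hrel F μr K (1 + η') (2 * e + e) e x0 v ρ hμr1 (hF.mono n2) hD hk1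
    (by linarith only [e1, e2, k2]) (by linarith only [he]) (by linarith only [he, he2]) he (hcd.mono_a (by linarith only [h81, ha2]))
  obtain ⟨v3, K3, hC, hcs3⟩ := hsw F ν K2 (1 + η') (2 * e + e + e) e x0 v2 n3 hF hS hk1 hk2 he
    (hcs.mono (by linarith only [ha2]))
  have hlam := hF.type_ge (hty' lam hty)
  obtain ⟨w1, w2, w3, hL⟩ := width (τ := t ^ 8) l1 l2 (by linarith only [l3, d2]) hl (by linarith only [n5, hlam]) h81
  obtain ⟨G, hG⟩ := hins F ν K3 (2 * π * (lam2 / lam - 1)) (1 + η') (2 * e + e + e + e) e x0 v3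
    n4 hF hC hk1 hk2 w1 w2 (by linarith only [he]) (by linarith only [hμr2, he, he2]) he (by linarith only [hμr2, he, he2]) (hcs3.mono (by linarith only [l1, l2, l3, d2]))
  obtain ⟨g, g1, g2, g3, g4⟩ := realise hF (by linarith only [h81, hμr2, n5, he, he2]) hG (by linarith only [l2, w1]) (by linarith only [w3])
    (by linarith only [g0, e0]) (by linarith only [hμr2, g1, e1, e2, k2, he, he2]) (by linarith only [he]) (by linarith only [hμr2, he, he2]) (hty' lam hty) (by rw [hL]; linarith only [l1, l2])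
  rw [hL] at g3
  refine ⟨g, g1, g2, g3, g4.mono fun r hr => hr.trans (EReal.coe_le_coe_iff.2 (by linarith only [he, he1]))⟩

theorem strictAnti : ∃ δ : ℝ, 0 < δ ∧ StrictAntiOn minModConst (Ioo 1 (1 + δ)) := by
  obtain ⟨δ, νk, hδ, hνk, H⟩ := transferS
  obtain ⟨c, δ1, hc, hδ1, hlo⟩ := lower_bound
  obtain ⟨K, δ2, hK, hδ2, hup⟩ := upper_bound
  obtain ⟨d, hd, d1, d2, d3, d4, d5⟩ : ∃ d : ℝ, 0 < d ∧ d ≤ δ ∧ d ≤ δ1 ∧ d ≤ δ2 ∧ d ≤ 1 ∧ d ≤ c * νk :=
    ⟨min δ (min δ1 (min δ2 (min 1 (c * νk)))), by positivity, min_le_left _ _,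
      (min_le_right _ _).trans (min_le_left _ _),
      (min_le_right _ _).trans ((min_le_right _ _).trans (min_le_left _ _)),
      (min_le_right _ _).trans ((min_le_right _ _).trans ((min_le_right _ _).trans (min_le_left _ _))),
      (min_le_right _ _).trans ((min_le_right _ _).trans ((min_le_right _ _).trans (min_le_right _ _)))⟩
  refine ⟨d, hd, fun lam1 h1 lam2 h2 h12 => ?_⟩
  obtain ⟨γ, hγ, H⟩ := H lam1 lam2 h1.1 h12 (by linarith [h2.2])
  have he : 0 < lam1 - 1 := by linarith [h1.1]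
  have he1 : lam1 - 1 < d := by linarith [h1.2]
  have hu : minModConst lam1 < ((-1 : ℝ) : EReal) := by
    have := hup (lam1 - 1) he (by linarith)
    rw [add_sub_cancel] at this
    exact this.trans_lt (EReal.coe_lt_coe_iff.2 (by linarith only [exp_pos (-K / (lam1 - 1) ^ 2)]))
  have hl : ((-1 - νk : ℝ) : EReal) ≤ minModConst lam1 := by
    refine le_iInf₂ fun f hf => le_trans (EReal.coe_le_coe_iff.2 ?_)
      (hlo (lam1 - 1) he (by linarith) f hf.1 (by rw [add_sub_cancel]; exact hf.2.2))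
    have q1 : 1 / νk ≤ c / (lam1 - 1) ^ 2 := by
      rw [div_le_div_iff₀ hνk (by positivity)]
      (refine le_of_not_gt fun h_nl => ?_; linarith only [h_nl, d4, hd, d5, he1, he, mul_nonneg_of_nonpos_of_nonpos (Mathlib.Tactic.Linarith.sub_nonpos_of_le (sq_nonneg (lam1 - (1 : ℝ)))) (Mathlib.Tactic.Linarith.sub_nonpos_of_le d4), mul_nonneg_of_nonpos_of_nonpos (le_of_lt (Mathlib.Tactic.Linarith.sub_neg_of_lt hd)) (Mathlib.Tactic.Linarith.sub_nonpos_of_le d5), mul_pos_of_neg_of_neg (Mathlib.Tactic.Linarith.sub_neg_of_lt hd) (Mathlib.Tactic.Linarith.sub_neg_of_lt he1), mul_pos_of_neg_of_neg (Mathlib.Tactic.Linarith.sub_neg_of_lt hd) (Mathlib.Tactic.Linarith.sub_neg_of_lt h_nl), mul_pos_of_neg_of_neg (Mathlib.Tactic.Linarith.sub_neg_of_lt he) (Mathlib.Tactic.Linarith.sub_neg_of_lt he1)])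
    have q2 : exp (-c / (lam1 - 1) ^ 2) ≤ νk := by
      rw [neg_div, exp_neg, inv_le_comm₀ (exp_pos _) hνk, ← one_div]
      linarith only [d4, he, he1, q1, add_one_le_exp (c / (lam1 - 1) ^ 2)]
    linarith only [q2]
  obtain ⟨c1, hc1⟩ : ∃ c1 : ℝ, minModConst lam1 = c1 :=
    ⟨_, (EReal.coe_toReal (hu.trans (EReal.coe_lt_top _)).ne ((EReal.bot_lt_coe _).trans_le hl).ne').symm⟩
  have b1 : c1 < -1 := EReal.coe_lt_coe_iff.1 (hc1 ▸ hu)
  have b2 : -1 - νk ≤ c1 := EReal.coe_le_coe_iff.1 (hc1 ▸ hl)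
  obtain ⟨b, b3, b4, b5⟩ : ∃ b : ℝ, c1 < b ∧ b < -1 ∧ b ≤ c1 + γ / 4 :=
    ⟨min ((c1 - 1) / 2) (c1 + γ / 4), lt_min (by linarith only [b1]) (by linarith only [hγ]),
      (min_le_left _ _).trans_lt (by linarith only [b1]), min_le_right _ _⟩
  have hb : minModConst lam1 < (b : EReal) := hc1 ▸ EReal.coe_lt_coe_iff.2 b3
  obtain ⟨f, hf⟩ := iInf_lt_iff.1 hb
  obtain ⟨hf1, hf⟩ := iInf_lt_iff.1 hf
  have hev : ∀ᶠ r in atTop, modRatio f r ≤ ((-1 - (-1 - b) : ℝ) : EReal) := by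
    rw [show -1 - (-1 - b) = b by ring]
    exact (eventually_lt_of_limsup_lt hf).mono fun r hr => hr.le
  obtain ⟨η', e1, e2, e3⟩ : ∃ η' : ℝ, 0 < η' ∧ η' < -1 - b ∧ -1 - b - γ / 4 ≤ η' :=
    ⟨max ((-1 - b) / 2) (-1 - b - γ / 4), lt_max_of_lt_left (by linarith only [b4]),
      max_lt (by linarith only [b4]) (by linarith only [b3, b5]), le_max_right _ _⟩
  obtain ⟨g, g1, g2, g3, g4⟩ := H f (-1 - b) η' (γ / 4) hf1.1 hf1.2.2 e1 e2 (by linarith only [b2, b3]) (by linarith only [b3, b5]) hev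
  have : minModConst lam2 ≤ ((-1 - η' - γ + γ / 4 : ℝ) : EReal) :=
    (iInf₂_le g ⟨g1, g2, g3⟩).trans (limsup_le_of_le (h := g4))
  rw [hc1]
  exact this.trans_lt (EReal.coe_lt_coe_iff.2 (by linarith only [b3, b5, e3]))

end

end Pool.Agent.MinMod.St
end
end
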