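import Pool.Agent.Work.MP_f62247_an.St.RB

-- merged part: Pool.Agent.Work.MP_f62247_an.St.W1
section
/-!
# The superharmonic mode and the sum of the amplitudes
`sub_ang`: `subOn_of_lap` (Mo/I2) for `f x y = -(exp (s x) * g (y - φ x))`, `g h = cos (β h) - 1/8`, `β = 4π/L ∈ [199/100, 2]`, `s = ± β`: `fxx + fyy = - exp (s x) (s² g - (2 s φ1 + φ2) g' + φ1² g'' + g'')`, the bracket is `≤ -β²/8 + 5 μ β + μ² β² ≤ 0`
(see `Frame.f2_sub` in Mo/F2, or apply it to the frame with `ψ x = s x`). `exists_Om`: `Om x = ∑' i, c i * exp (-β |x - a i|)`. For `i ≥ x`: `Φ i ≤ exp (1.01 (i - x)) Φ x`, for `i ≤ x`: `Φ i ≤ Φ x` (`Φ_grow`); so each term is `≤ κ Φ x exp (1/5) exp (-(9/10) |i - x|)`, and `∑ i, exp (-(9/10) |i - x|) ≤ 10`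
(compare with `(1/2)^|i - round x|`, `summable_geometric_two`, `HasSum.nat_add_neg` or `Summable.of_nat_of_neg`). For the local form split off `i = j` (`Summable.tsum_eq_add_tsum_ite`); for `i > j` and `|x - j| ≤ 3/4` one has `x ≤ a i`, for `i < j` one has `a i ≤ x`; `tsum_mul_right`.
`sig`, `om`: `exp (-30/θ) ≤ θ/30`, monotonicity.
-/

open Real MeasureTheory Set Filter Topology

namespace Pool.Agent.MinMod.St

open Pool.Agent.MinMod.Mo

noncomputable section

theorem beta_mem {L : ℝ} (h1 : 2 * π ≤ L) (h2 : L ≤ 2 * π + 1 / 1000) :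
    199 / 100 ≤ 4 * π / L ∧ 4 * π / L ≤ 2 := by
  have hp := pi_gt_three
  have hL : 0 < L := by linarith only [h1, hp]
  constructor
  · rw [le_div_iff₀ hL]
    linarith only [h2, hp]
  · rw [div_le_iff₀ hL]
    linarith

theorem continuous_ang (F : Frame) (L : ℝ) : Continuous (ang F L) := by
  have := F.continuous_ht
  unfold ang
  fun_prop

theorem abs_ang (F : Frame) (L : ℝ) (z : ℂ) : |ang F L z| ≤ 9 / 8 := by
  unfold ang
  have h1 := cos_le_one (4 * π / L * F.ht z)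
  have h2 := neg_one_le_cos (4 * π / L * F.ht z)
  exact abs_le.2 ⟨by linarith only [h2], by linarith only [h1]⟩

theorem ang_per (F : Frame) {L : ℝ} (hL : 0 < L) (z : ℂ) : ang F L (z + L * Complex.I) = ang F L z := by
  unfold ang
  rw [F.ht_add_I, show 4 * π / L * (F.ht z + L) = 4 * π / L * F.ht z + 2 * π + 2 * π by
    field_simp
    ring, cos_add_two_pi, cos_add_two_pi]

/-- the frame with a linear size -/
def sw1_fr (F : Frame) (s a : ℝ) : Frame where
  ψ := fun x => s * (x - a)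
  ψ1 := fun _ => s
  ψ2 := fun _ => 0
  φ := F.φ
  φ1 := F.φ1
  φ2 := F.φ2
  dψ := fun x => by simpa using ((hasDerivAt_id x).sub_const a).const_mul s
  dψ1 := fun x => hasDerivAt_const x s
  cψ2 := continuous_const
  dφ := F.dφ
  dφ1 := F.dφ1
  cφ2 := F.cφ2

theorem sw1_lap {β s p q : ℝ} (b1 : 199 / 100 ≤ β) (b2 : β ≤ 2) (hs : |s| ≤ 2) (hp : |p| ≤ 1 / 100)
    (hq : |q| ≤ 1 / 100) (t : ℝ) :
    0 ≤ β ^ 2 / 8 - (2 * s * p + q) * (β * sin t) + p ^ 2 * (β ^ 2 * cos t) := by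
  have a1 : |s * p| ≤ 2 * (1 / 100) := by
    rw [abs_mul]
    exact mul_le_mul hs hp (abs_nonneg _) (by norm_num)
  have a2 : |2 * s * p + q| ≤ 5 / 100 := by
    have := abs_le.1 a1
    have := abs_le.1 hq
    exact abs_le.2 ⟨by linarith, by linarith⟩
  have a3 : |β * sin t| ≤ 2 * 1 := by
    rw [abs_mul, abs_of_nonneg (by linarith only [b1] : 0 ≤ β)]
    exact mul_le_mul b2 (abs_sin_le_one t) (abs_nonneg _) (by norm_num)
  have a4 : |(2 * s * p + q) * (β * sin t)| ≤ 5 / 100 * (2 * 1) := by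
    rw [abs_mul]
    exact mul_le_mul a2 a3 (abs_nonneg _) (by norm_num)
  have a5 : p ^ 2 ≤ 1 / 100 := by
    have := abs_le.1 hp
    linarith only [this, mul_nonneg_of_nonpos_of_nonpos (Mathlib.Tactic.Linarith.sub_nonpos_of_le this.left) (Mathlib.Tactic.Linarith.sub_nonpos_of_le this.right)]
  have a6 : -4 ≤ β ^ 2 * cos t := by
    have := neg_one_le_cos t
    have h4 : β ^ 2 ≤ 4 := by linarith only [b2, b1, mul_nonneg_of_nonpos_of_nonpos (Mathlib.Tactic.Linarith.sub_nonpos_of_le b1) (Mathlib.Tactic.Linarith.sub_nonpos_of_le b2)]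
    linarith only [h4, this, sq_nonneg β, mul_nonneg_of_nonpos_of_nonpos (Mathlib.Tactic.Linarith.sub_nonpos_of_le (sq_nonneg β)) (Mathlib.Tactic.Linarith.sub_nonpos_of_le this)]
  have a7 : -(4 / 100) ≤ p ^ 2 * (β ^ 2 * cos t) := by linarith only [a5, a6, sq_nonneg p, mul_nonneg_of_nonpos_of_nonpos (Mathlib.Tactic.Linarith.sub_nonpos_of_le (sq_nonneg p)) (Mathlib.Tactic.Linarith.sub_nonpos_of_le a6)]
  have a8 : 3 ≤ β ^ 2 := by linarith only [b1, mul_nonneg_of_nonpos_of_nonpos (Mathlib.Tactic.Linarith.sub_nonpos_of_le b1) (Mathlib.Tactic.Linarith.sub_nonpos_of_le b1)]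
  linarith only [a4, a7, a8, le_abs_self ((2 * s * p + q) * (β * sin t))]
theorem sub_ang {F : Frame} {μ L s A : ℝ} (hF : F.Good μ) (hμ : μ ≤ 1 / 100) (h1 : 2 * π ≤ L)
    (h2 : L ≤ 2 * π + 1 / 1000) (hs : s = 4 * π / L ∨ s = -(4 * π / L)) (hA : 0 ≤ A) (a : ℝ) :
    SubOn (fun z => -(A * exp (s * (z.re - a)) * ang F L z)) univ := by
  obtain ⟨b1, b2⟩ := beta_mem h1 h2
  unfold ang
  generalize 4 * π / L = β at *
  have dl : ∀ t : ℝ, HasDerivAt (fun t : ℝ => β * t) β t := fun t => by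
    simpa using (hasDerivAt_id t).const_mul β
  have key := (sw1_fr F s a).f2_sub (g := fun t => -(A * (cos (β * t) - 1 / 8)))
    (g1 := fun t => A * β * sin (β * t)) (g2 := fun t => A * β ^ 2 * cos (β * t))
    (fun t => ((((dl t).cos.sub_const (1 / 8)).const_mul A).neg).congr_deriv (by ring))
    (fun t => ((dl t).sin.const_mul (A * β)).congr_deriv (by ring)) (by fun_prop) 0 0
    isOpen_univ ?_
  · have e : (fun z : ℂ => -(A * exp (s * (z.re - a)) * (cos (β * F.ht z) - 1 / 8))) =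
        fun z : ℂ => (sw1_fr F s a).Φ z.re * -(A * (cos (β * (sw1_fr F s a).ht z) - 1 / 8)) -
          0 * ‖z - 0‖ ^ 2 := by
      funext z
      show _ = exp (s * (z.re - a)) * -(A * (cos (β * F.ht z) - 1 / 8)) - 0 * ‖z - 0‖ ^ 2
      ring
    rw [e]
    exact key
  · intro z _
    rw [mul_zero]
    refine mul_nonneg ((sw1_fr F s a).Φ_pos _).le ?_
    show 0 ≤ (0 + s ^ 2) * -(A * (cos (β * F.ht z) - 1 / 8)) -
      (2 * s * F.φ1 z.re + F.φ2 z.re) * (A * β * sin (β * F.ht z)) +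
      (F.φ1 z.re ^ 2 + 1) * (A * β ^ 2 * cos (β * F.ht z))
    obtain ⟨-, -, c1, c2⟩ := hF z.re
    have hs2 : s ^ 2 = β ^ 2 := by
      rcases hs with e | e
      · rw [e]
      · rw [e, neg_sq]
    have hs1 : |s| ≤ 2 := by
      rcases hs with e | e <;> rw [e] <;> exact abs_le.2 ⟨by linarith only [b1, b2], by linarith only [b2, b1]⟩
    have q := sw1_lap b1 b2 hs1 (c1.trans hμ) (c2.trans hμ) (β * F.ht z)
    have := mul_nonneg hA q
    rw [zero_add, hs2]
    linarith only [this]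

theorem sw1_geo (n : ℤ) : HasSum (fun i : ℤ => (1 / 2 : ℝ) ^ (i - n).natAbs) 3 := by
  have h : HasSum (fun i : ℤ => (1 / 2 : ℝ) ^ i.natAbs) (2 + 2 * (1 / 2)) := by
    refine HasSum.of_nat_of_neg_add_one (f := fun i : ℤ => (1 / 2 : ℝ) ^ i.natAbs)
      (by simpa only [Int.natAbs_natCast] using hasSum_geometric_two) ?_
    have e : (fun m : ℕ => (1 / 2 : ℝ) ^ (-((m : ℤ) + 1)).natAbs) =
        fun m : ℕ => (1 / 2 : ℝ) ^ m * (1 / 2) := by
      funext m
      rw [← pow_succ, show (-((m : ℤ) + 1)).natAbs = m + 1 by omega]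
    rw [e]
    exact hasSum_geometric_two.mul_right _
  rw [show (2 : ℝ) + 2 * (1 / 2) = 3 by norm_num] at h
  have h' := (Equiv.subRight n).hasSum_iff.2 h
  simpa only [Function.comp_def, Equiv.subRight_apply] using h'

theorem sw1_term {F : Frame} {μ β κ c a : ℝ} {i : ℤ} (hF : F.Good μ) (hμ : μ ≤ 1 / 100)
    (h1 : 199 / 100 ≤ β) (hκ : 0 ≤ κ) (hc : c ≤ κ * F.Φ i) (ha : |a - i| ≤ 1 / 10)
    (x : ℝ) : c * exp (-β * |x - a|) ≤ 9 * κ * F.Φ x * (1 / 2) ^ (i - ⌊x⌋).natAbs := by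
  have hm : (((i - ⌊x⌋).natAbs : ℕ) : ℝ) ≤ |i - x| + 1 := by
    rw [Nat.cast_natAbs]
    push_cast
    have a1 := abs_sub_le (i : ℝ) x ⌊x⌋
    have a2 : |x - ⌊x⌋| ≤ 1 :=
      abs_le.2 ⟨by linarith only [Int.floor_le x], by linarith only [Int.lt_floor_add_one x]⟩
    linarith only [a1, a2]
  generalize (i - ⌊x⌋).natAbs = m at hm
  have hd : |(i : ℝ) - x| ≤ |x - a| + 1 / 10 := by
    have a1 := abs_sub_le (i : ℝ) a x
    rw [abs_sub_comm (i : ℝ) a, abs_sub_comm a x] at a1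
    linarith only [ha, a1]
  have hψ : F.ψ i ≤ F.ψ x + 101 / 100 * |i - x| := by
    have a1 := (abs_le.1 (hF.ψ_sub x i)).2
    have a2 := le_abs_self ((i : ℝ) - x)
    have a3 := mul_le_mul_of_nonneg_right hμ (abs_nonneg ((i : ℝ) - x))
    linarith only [a1, a2, a3]
  have hl : Real.log 2 ≤ 9 / 10 := by linarith only [Real.log_two_lt_d9]
  have hpow : (1 / 2 : ℝ) ^ m = exp (-(m * Real.log 2)) := by
    rw [exp_neg, exp_nat_mul, exp_log two_pos, one_div, inv_pow]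
  have h9 : exp 2 ≤ 9 := by
    have a1 : exp 2 = exp 1 * exp 1 := by rw [← exp_add]; norm_num
    have a2 := exp_one_lt_d9
    have a3 := exp_pos 1
    linarith only [a1, a2, a3, mul_pos_of_neg_of_neg (Mathlib.Tactic.Linarith.sub_neg_of_lt a2) (Mathlib.Tactic.Linarith.sub_neg_of_lt a3)]
  have hexp : F.ψ i + -β * |x - a| ≤ 2 + (F.ψ x + -(m * Real.log 2)) := by
    have a1 := mul_le_mul_of_nonneg_right h1 (abs_nonneg (x - a))
    have a2 := mul_le_mul_of_nonneg_left hl (Nat.cast_nonneg (α := ℝ) m)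
    have a3 := abs_nonneg ((i : ℝ) - x)
    linarith only [hm, hd, hψ, a1, a2, a3]
  calc c * exp (-β * |x - a|) ≤ κ * F.Φ i * exp (-β * |x - a|) :=
        mul_le_mul_of_nonneg_right hc (exp_pos _).le
    _ = κ * exp (F.ψ i + -β * |x - a|) := by rw [exp_add, mul_assoc]; rfl
    _ ≤ κ * exp (2 + (F.ψ x + -(m * Real.log 2))) :=
        mul_le_mul_of_nonneg_left (exp_le_exp.2 hexp) hκ
    _ = exp 2 * (κ * F.Φ x * (1 / 2) ^ m) := by
        rw [exp_add, exp_add, hpow]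
        unfold Frame.Φ
        ring
    _ ≤ 9 * (κ * F.Φ x * (1 / 2) ^ m) :=
        mul_le_mul_of_nonneg_right h9 (by have := F.Φ_pos x; positivity)
    _ = _ := by ring
theorem exists_Om {F : Frame} {μ β κ : ℝ} (hF : F.Good μ) (hμ : μ ≤ 1 / 100) (h1 : 199 / 100 ≤ β)
    (h2 : β ≤ 2) {c a : ℤ → ℝ} (hc : ∀ i, 0 ≤ c i ∧ c i ≤ κ * F.Φ i) (ha : ∀ i, |a i - i| ≤ 1 / 10) :
    ∃ Om : ℝ → ℝ, (∀ j : ℤ, ∃ A B : ℝ, 0 ≤ A ∧ 0 ≤ B ∧ ∀ x : ℝ, |x - j| ≤ 3 / 4 →
        Om x = A * exp (β * (x - j)) + B * exp (-β * (x - j)) + c j * exp (-β * |x - a j|)) ∧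
      (∀ x, Om x ≤ 40 * κ * F.Φ x) ∧ ∀ x x', Om x' ≤ exp (β * |x' - x|) * Om x := by
  have hκ : 0 ≤ κ := by
    have := (hc 0).1.trans (hc 0).2
    exact nonneg_of_mul_nonneg_left this (F.Φ_pos _)
  have hβ : 0 ≤ β := by linarith only [h1]
  have h0 : ∀ (x : ℝ) (i : ℤ), 0 ≤ c i * exp (-β * |x - a i|) :=
    fun x i => mul_nonneg (hc i).1 (exp_pos _).le
  have hb : ∀ (x : ℝ) (i : ℤ), c i * exp (-β * |x - a i|) ≤
      9 * κ * F.Φ x * (1 / 2) ^ (i - ⌊x⌋).natAbs :=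
    fun x i => sw1_term hF hμ h1 hκ (hc i).2 (ha i) x
  have hsum : ∀ x : ℝ, Summable fun i : ℤ => c i * exp (-β * |x - a i|) := fun x =>
    Summable.of_nonneg_of_le (h0 x) (hb x) ((sw1_geo ⌊x⌋).summable.mul_left _)
  refine ⟨fun x => ∑' i : ℤ, c i * exp (-β * |x - a i|), fun j => ?_, fun x => ?_,
    fun x x' => ?_⟩
  · have s1 : Summable fun i : ℤ => if j < i then c i * exp (-β * |j - a i|) else 0 :=
      Summable.of_nonneg_of_le (fun i => by split_ifs; exacts [h0 _ _, le_rfl])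
        (fun i => by split_ifs; exacts [le_rfl, h0 _ _]) (hsum j)
    have s2 : Summable fun i : ℤ => if i < j then c i * exp (-β * |j - a i|) else 0 :=
      Summable.of_nonneg_of_le (fun i => by split_ifs; exacts [h0 _ _, le_rfl])
        (fun i => by split_ifs; exacts [le_rfl, h0 _ _]) (hsum j)
    refine ⟨∑' i : ℤ, if j < i then c i * exp (-β * |j - a i|) else 0,
      ∑' i : ℤ, if i < j then c i * exp (-β * |j - a i|) else 0,
      tsum_nonneg fun i => by split_ifs; exacts [h0 _ _, le_rfl],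
      tsum_nonneg fun i => by split_ifs; exacts [h0 _ _, le_rfl], fun x hx => ?_⟩
    have H := ((s1.hasSum.mul_right (exp (β * (x - j)))).add
      (s2.hasSum.mul_right (exp (-β * (x - j))))).add
      (hasSum_ite_eq j (c j * exp (-β * |x - a j|)))
    rw [← H.tsum_eq]
    refine tsum_congr fun i => ?_
    obtain ⟨x1, x2⟩ := abs_le.1 hx
    obtain ⟨y1, y2⟩ := abs_le.1 (ha i)
    rcases lt_trichotomy j i with h | h | h
    · have hi : (j : ℝ) + 1 ≤ i := by exact_mod_cast h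
      rw [if_pos h, if_neg h.not_gt, if_neg h.ne', zero_mul, add_zero, add_zero, mul_assoc,
        ← exp_add, abs_of_nonpos (by linarith only [x2, y1, hi]), abs_of_nonpos (by linarith only [y1, hi])]
      congr 2
      ring
    · subst h
      simp
    · have hi : (i : ℝ) + 1 ≤ j := by exact_mod_cast h
      rw [if_pos h, if_neg h.not_gt, if_neg h.ne, zero_mul, zero_add, add_zero, mul_assoc,
        ← exp_add, abs_of_nonneg (by linarith only [x1, y2, hi]), abs_of_nonneg (by linarith only [y2, hi])]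
      congr 2
      ring
  · have H := (sw1_geo ⌊x⌋).mul_left (9 * κ * F.Φ x)
    have a1 := hasSum_le (hb x) (hsum x).hasSum H
    have a2 := mul_nonneg hκ (F.Φ_pos x).le
    show ∑' i : ℤ, c i * exp (-β * |x - a i|) ≤ _
    linarith only [a1, a2]
  · refine hasSum_le (fun i => ?_) (hsum x').hasSum ((hsum x).hasSum.mul_left _)
    rw [mul_left_comm, ← exp_add]
    refine mul_le_mul_of_nonneg_left (exp_le_exp.2 ?_) (hc i).1
    have a1 : |x - a i| ≤ |x' - x| + |x' - a i| := by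
      rw [abs_sub_comm x' x]
      exact abs_sub_le _ _ _
    have := mul_le_mul_of_nonneg_left a1 hβ
    linarith only [this]

theorem sig_pos {θ : ℝ} (h : 0 < θ) : 0 < sig θ := by
  unfold sig
  positivity

theorem sw1_exp {t y : ℝ} (h : 0 < t) (h1 : t ≤ 1 / 1000) (hy : 1 ≤ y) : exp (-y / t) ≤ 1 / 50 := by
  have a1 : 50 ≤ y / t := by
    rw [le_div_iff₀ h]
    linarith only [h, h1, hy]
  rw [neg_div, exp_neg, one_div]
  exact inv_anti₀ (by norm_num) (by linarith only [h, h1, a1, add_one_le_exp (y / t)])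

theorem sw1_mono {t t' y : ℝ} (h : 0 < t) (h1 : t ≤ t') (hy : 0 ≤ y) :
    exp (-y / t) ≤ exp (-y / t') := by
  rw [neg_div, neg_div]
  exact exp_le_exp.2 (neg_le_neg (div_le_div_of_nonneg_left hy h h1))
theorem sig_le {θ : ℝ} (h : 0 < θ) (h1 : θ ≤ 1 / 1000) : sig θ ≤ θ / 100 := by
  have := sw1_exp h h1 (y := 30) (by norm_num)
  unfold sig
  linarith only [h, this, mul_nonneg_of_nonpos_of_nonpos (le_of_lt (Mathlib.Tactic.Linarith.sub_neg_of_lt h)) (Mathlib.Tactic.Linarith.sub_nonpos_of_le this)]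

theorem sig_mono {θ θ' : ℝ} (h : 0 < θ) (h1 : θ ≤ θ') : sig θ ≤ sig θ' := by
  have := mul_le_mul h1 (sw1_mono h h1 (y := 30) (by norm_num)) (exp_pos _).le (h.le.trans h1)
  unfold sig
  linarith only [this]

theorem om_pos {θ : ℝ} (h : 0 < θ) : 0 < om θ := by
  unfold om
  positivity

theorem om_le {θ : ℝ} (h : 0 < θ) (h1 : θ ≤ 1 / 1000) : om θ ≤ θ / 100 := by
  have := sw1_exp (sig_pos h) (by linarith only [h, h1, sig_le h h1]) (y := 11) (by norm_num)
  unfold om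
  linarith only [h, h1, this, mul_pos_of_neg_of_neg (Mathlib.Tactic.Linarith.sub_neg_of_lt h) (Mathlib.Tactic.Linarith.sub_neg_of_lt h), mul_nonneg_of_nonpos_of_nonpos (le_of_lt (Mathlib.Tactic.Linarith.sub_neg_of_lt h)) (Mathlib.Tactic.Linarith.sub_nonpos_of_le h1), mul_nonneg_of_nonpos_of_nonpos (le_of_lt (Mathlib.Tactic.Linarith.sub_neg_of_lt h)) (Mathlib.Tactic.Linarith.sub_nonpos_of_le this)]

theorem om_mono {θ θ' : ℝ} (h : 0 < θ) (h1 : θ ≤ θ') : om θ ≤ om θ' := by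
  have := mul_le_mul h1 (sw1_mono (sig_pos h) (sig_mono h h1) (y := 11) (by norm_num))
    (exp_pos _).le (h.le.trans h1)
  unfold om
  linarith only [this]

end

end Pool.Agent.MinMod.St
end

-- merged part: Pool.Agent.Work.MP_f62247_an.St.W2
section
/-!
# The function on the slab pays for the kink of `Pk`
`a = re p - σ/2`, `β = 4π/L`, `Ep z = A exp (β (re z - a)) ang z`, `Em z = A exp (-β (re z - a)) ang z` (`sub_ang`). `Pk = Ep` for `re z ≤ a`, `Pk = Em` for `re z ≥ a`; `g0 = 0` for `|re z - re p| ≥ σ/2`, `g0 ≥ 0`.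
Inside the slab and off the line `im z = im p` locally `g0 z = A Re cos (π (z - q)/σ)` with `q = p ± (L/2) I` (`Complex.cos_add_mul_I`-type identity: `Re cos (x + i y) = cos x cosh y`; `ca_re`).
On the line `re z = a` touch from above by `-Ep` (`LocSub.of_le`): for `0 ≤ x - a ≤ σ/2`, `g0 ≥ 2 A (x - a)/σ` (`Real.mul_le_sin`, `cosh ≥ 1`) and `|Ep - Em| ≤ A (9/8) (exp (β X) - exp (-β X)) ≤ 6 A X` for `X = x - a ≤ 1/100`. On the line `re z = re p + σ/2` touch by `-Em`.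
-/

open Real MeasureTheory Set Filter Topology

namespace Pool.Agent.MinMod.St

open Pool.Agent.MinMod.Mo

noncomputable section

variable {F : Frame} {μ L A σ : ℝ} {p z : ℂ}

theorem continuous_g0 (L A σ : ℝ) (p : ℂ) : Continuous (g0 L A σ p) := by
  unfold g0
  fun_prop

theorem continuous_Pk (F : Frame) (L A a : ℝ) : Continuous (Pk F L A a) := by
  have := continuous_ang F L
  unfold Pk
  fun_prop

theorem g0_nonneg (hA : 0 ≤ A) (hσ : 0 < σ) (z : ℂ) : 0 ≤ g0 L A σ p z := by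
  refine mul_nonneg (mul_nonneg hA (cos_nonneg_of_neg_pi_div_two_le_of_le ?_ ?_)) (cosh_pos _).le
  · exact le_trans (by linarith only [pi_pos]) (show 0 ≤ _ by positivity)
  · rw [div_le_iff₀ hσ]
    linarith only [mul_le_mul_of_nonneg_left (min_le_right |z.re - p.re| (σ / 2)) pi_pos.le]

theorem g0_zero (hσ : 0 < σ) (hz : σ / 2 ≤ |z.re - p.re|) : g0 L A σ p z = 0 := by
  rw [g0, min_eq_right hz, show π * (σ / 2) / σ = π / 2 by field_simp, cos_pi_div_two, mul_zero,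
    zero_mul]

theorem g0_le (hA : 0 ≤ A) (hσ : 0 < σ) (h2 : L ≤ 2 * π + 1 / 1000) (hz : |z.im - p.im| ≤ L) :
    g0 L A σ p z ≤ A * exp (11 / σ) := by
  refine mul_le_mul (mul_le_of_le_one_right hA (cos_le_one _)) ?_ (cosh_pos _).le hA
  have h0 := abs_nonneg (z.im - p.im)
  have h3 := mul_le_mul_of_nonneg_left h2 pi_pos.le
  have h4 := mul_le_mul_of_nonneg_left hz pi_pos.le
  have h5 := mul_nonneg pi_pos.le h0
  have h6 : π * π ≤ 10 := by linarith only [h2, hz, h0, pi_lt_d2, pi_pos, mul_nonneg_of_nonpos_of_nonpos (Mathlib.Tactic.Linarith.sub_nonpos_of_le h2) (le_of_lt (Mathlib.Tactic.Linarith.sub_neg_of_lt pi_lt_d2)), mul_nonneg_of_nonpos_of_nonpos (Mathlib.Tactic.Linarith.sub_nonpos_of_le hz) (le_of_lt (Mathlib.Tactic.Linarith.sub_neg_of_lt pi_lt_d2)), mul_nonneg_of_nonpos_of_nonpos (Mathlib.Tactic.Linarith.sub_nonpos_of_le h0) (le_of_lt (Mathlib.Tactic.Linarith.sub_neg_of_lt pi_lt_d2))]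
  have h7 : π * (|z.im - p.im| - L / 2) / σ ≤ 11 / σ :=
    div_le_div_of_nonneg_right (by linarith only [h3, h4, h6, pi_lt_d2]) hσ.le
  have h8 : -(π * (|z.im - p.im| - L / 2)) / σ ≤ 11 / σ :=
    div_le_div_of_nonneg_right (by linarith only [h3, h5, h6, pi_lt_d2]) hσ.le
  rw [cosh_eq, ← neg_div]
  linarith only [h7, h8, exp_le_exp.2 h7, exp_le_exp.2 h8]

theorem g0_per (h1 : z.im ≤ p.im) (h2 : p.im ≤ z.im + L) :
    g0 L A σ p (z + L * Complex.I) = g0 L A σ p z := by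
  have e1 : (z + L * Complex.I).re = z.re := by simp
  have e2 : (z + L * Complex.I).im = z.im + L := by simp
  rw [g0, g0, e1, e2, abs_of_nonneg (by linarith : 0 ≤ z.im + L - p.im),
    abs_of_nonpos (by linarith : z.im - p.im ≤ 0), ← cosh_neg]
  congr 2
  ring

theorem Pk_per (hL : 0 < L) (a : ℝ) (z : ℂ) : Pk F L A a (z + L * Complex.I) = Pk F L A a z := by
  rw [Pk, Pk, ang_per F hL]
  simp

theorem Pk_sub_Ep (h1 : 2 * π ≤ L) (h2 : L ≤ 2 * π + 1 / 1000) (hA : 0 ≤ A) {a : ℝ}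
    (hz : |z.re - a| ≤ 1 / 10) :
    |Pk F L A a z - A * exp (4 * π / L * (z.re - a)) * ang F L z| ≤ 4 * A := by
  obtain ⟨b1, b2⟩ := beta_mem h1 h2
  have a1 : exp (-(4 * π / L) * |z.re - a|) ≤ 1 :=
    exp_le_one_iff.2 (mul_nonpos_of_nonpos_of_nonneg (by linarith only [b1]) (abs_nonneg _))
  have a2 : exp (4 * π / L * (z.re - a)) ≤ 3 :=
    (exp_le_exp.2 (by linarith only [b2, hz, b1, abs_le.1 hz, mul_nonneg_of_nonpos_of_nonpos (Mathlib.Tactic.Linarith.sub_nonpos_of_le b1) (Mathlib.Tactic.Linarith.sub_nonpos_of_le (abs_le.mp hz).right)])).trans exp_one_lt_three.le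
  have a3 : |exp (-(4 * π / L) * |z.re - a|) - exp (4 * π / L * (z.re - a))| ≤ 3 :=
    abs_le.2 ⟨by linarith only [a2, exp_pos (-(4 * π / L) * |z.re - a|)],
      by linarith only [a1, exp_pos (4 * π / L * (z.re - a))]⟩
  rw [Pk, ← sub_mul, ← mul_sub, abs_mul, abs_mul, abs_of_nonneg hA]
  have a4 := mul_le_mul (mul_le_mul_of_nonneg_left a3 hA) (abs_ang F L z) (abs_nonneg _)
    (by positivity)
  linarith only [hA, a4]

theorem sw2_harm (A k b c : ℝ) (z : ℂ) :
    LocSub (fun w => A * cos (k * (w.re - b)) * cosh (k * (w.im - c))) z := by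
  have e : ∀ w : ℂ, (A * Complex.cos (k * (w - (b + c * Complex.I)))).re =
      A * cos (k * (w.re - b)) * cosh (k * (w.im - c)) := fun w => by
    have e1 : (k : ℂ) * (w - (b + c * Complex.I)) =
        (k * (w.re - b) : ℝ) + (k * (w.im - c) : ℝ) * Complex.I := by
      apply Complex.ext <;> simp
    rw [e1, Complex.cos_add_mul_I, ← Complex.ofReal_cos, ← Complex.ofReal_cosh,
      ← Complex.ofReal_sin, ← Complex.ofReal_sinh, Complex.re_ofReal_mul, mul_assoc A]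
    simp only [Complex.sub_re, Complex.mul_I_re, ← Complex.ofReal_mul, Complex.ofReal_re,
      Complex.ofReal_im, neg_zero, sub_zero]
  refine ⟨1, one_pos, fun s hs _ => le_of_eq ?_⟩
  simp only [← e]
  exact (ca_re (G := fun w => A * Complex.cos (k * (w - (b + c * Complex.I)))) hs.le
    fun w _ => by fun_prop).symm

theorem sw2_left {a : ℝ} (h : z.re ≤ a) :
    Pk F L A a z = A * exp (4 * π / L * (z.re - a)) * ang F L z := by
  rw [Pk, abs_of_nonpos (sub_nonpos.2 h), neg_mul_neg]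

theorem sw2_right {a : ℝ} (h : a ≤ z.re) :
    Pk F L A a z = A * exp (-(4 * π / L) * (z.re - a)) * ang F L z := by
  rw [Pk, abs_of_nonneg (sub_nonneg.2 h)]

theorem sw2_kink (h1 : 2 * π ≤ L) (h2 : L ≤ 2 * π + 1 / 1000) (hA : 0 ≤ A) (hσ : 0 < σ)
    (hσ1 : σ ≤ 1 / 100) (hz : z.re ≤ p.re) :
    -(A * exp (4 * π / L * (z.re - (p.re - σ / 2))) * ang F L z) ≤
      g0 L A σ p z - Pk F L A (p.re - σ / 2) z := by
  rcases le_total z.re (p.re - σ / 2) with h | h
  · rw [sw2_left h]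
    linarith only [hA, hσ, g0_nonneg (L := L) (p := p) hA hσ z]
  obtain ⟨b1, b2⟩ := beta_mem h1 h2
  obtain ⟨X, hX⟩ : ∃ X, X = z.re - (p.re - σ / 2) := ⟨_, rfl⟩
  have x0 : 0 ≤ X := by linarith only [h, hX]
  have a1 : 200 * X ≤ cos (π * min |z.re - p.re| (σ / 2) / σ) := by
    rw [abs_of_nonpos (sub_nonpos.2 hz), min_eq_left (by linarith only [h]),
      show π * -(z.re - p.re) / σ = π / 2 - π * (X / σ) by rw [hX]; field_simp; ring,
      cos_pi_div_two_sub]
    have c1 : X / σ ≤ 1 / 2 := (div_le_iff₀ hσ).2 (by linarith only [hz, hX])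
    have c2 : 100 * X ≤ X / σ := (le_div_iff₀ hσ).2 (by linarith only [hX, hσ, hσ1, h, Mathlib.Tactic.Linarith.mul_zero_eq (Mathlib.Tactic.Linarith.sub_neg_of_lt hσ) (sub_eq_zero_of_eq hX), mul_nonneg_of_nonpos_of_nonpos (Mathlib.Tactic.Linarith.sub_nonpos_of_le hσ1) (Mathlib.Tactic.Linarith.sub_nonpos_of_le h)])
    refine le_trans ?_ (mul_le_sin (by positivity) (by (refine le_of_not_gt fun h_nl => ?_; linarith only [h_nl, hσ, hσ1, c1, pi_pos, mul_pos_of_neg_of_neg (Mathlib.Tactic.Linarith.sub_neg_of_lt hσ) (Mathlib.Tactic.Linarith.sub_neg_of_lt h_nl), mul_nonneg_of_nonpos_of_nonpos (Mathlib.Tactic.Linarith.sub_nonpos_of_le hσ1) (le_of_lt (Mathlib.Tactic.Linarith.sub_neg_of_lt h_nl)), mul_nonneg_of_nonpos_of_nonpos (Mathlib.Tactic.Linarith.sub_nonpos_of_le c1) (le_of_lt (Mathlib.Tactic.Linarith.sub_neg_of_lt pi_pos))])))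
    rw [show 2 / π * (π * (X / σ)) = 2 * (X / σ) by field_simp]
    linarith only [c2]
  have a2 : A * (200 * X) ≤ g0 L A σ p z :=
    (mul_le_mul_of_nonneg_left a1 hA).trans
      (le_mul_of_one_le_right (mul_nonneg hA (le_trans (by linarith only [h, hX]) a1)) (one_le_cosh _))
  rw [sw2_right h, ← hX, neg_mul]
  generalize 4 * π / L = β at b1 b2
  have t0 : 0 ≤ β * X := by positivity
  have t1 : β * X ≤ 2 * X := mul_le_mul_of_nonneg_right b2 x0
  have a3 := (abs_le.1 (abs_exp_sub_one_le (x := β * X) (by rw [abs_of_nonneg t0]; linarith only [hσ, hσ1, hz, hX, t1]))).2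
  rw [abs_of_nonneg t0] at a3
  have a4 := add_one_le_exp (-(β * X))
  have a5 : exp (-(β * X)) ≤ exp (β * X) := exp_le_exp.2 (by linarith only [t0])
  have a6 : (exp (β * X) - exp (-(β * X))) * -ang F L z ≤ 6 * X * (9 / 8) :=
    (mul_le_mul_of_nonneg_left (neg_le.1 (abs_le.1 (abs_ang F L z)).1) (by linarith only [a5])).trans
      (by linarith only [t1, a3, a4])
  have a7 := mul_le_mul_of_nonneg_left a6 hA
  have a8 := mul_nonneg hA x0
  linarith only [a2, a7, a8]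

theorem g0_Pk_loc (hF : F.Good μ) (hμ : μ ≤ 1 / 100) (h1 : 2 * π ≤ L) (h2 : L ≤ 2 * π + 1 / 1000)
    (hA : 0 ≤ A) (hσ : 0 < σ) (hσ1 : σ ≤ 1 / 100) (hz : z.im ≠ p.im ∨ σ / 2 < |z.re - p.re|) :
    LocSub (fun ζ => g0 L A σ p ζ - Pk F L A (p.re - σ / 2) ζ) z := by
  have cu : ∀ᶠ w in 𝓝 z, ContinuousAt
      (fun ζ => g0 L A σ p ζ - Pk F L A (p.re - σ / 2) ζ) w :=
    .of_forall fun w => ((continuous_g0 L A σ p).sub (continuous_Pk F L A _)).continuousAt
  have sp := sub_ang hF hμ h1 h2 (.inl rfl) hA (p.re - σ / 2)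
  have sm := sub_ang hF hμ h1 h2 (.inr rfl) hA (p.re - σ / 2)
  have cm := Eventually.of_forall (f := 𝓝 z) fun w => (continuousOn_univ.1 sm.1).continuousAt (x := w)
  rcases le_or_gt z.re (p.re - σ / 2) with h | h
  · refine (sp.locSub univ_mem).of_le ?_ ?_
      (.of_forall fun w => (continuousOn_univ.1 sp.1).continuousAt) cu
    · rw [g0_zero hσ (le_abs'.2 (.inl (by linarith only [h]))), sw2_left h, zero_sub]
    · filter_upwards [Complex.continuous_re.continuousAt.eventually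
        (gt_mem_nhds (show z.re < p.re by linarith only [hσ, h]))] with w hw
      exact sw2_kink h1 h2 hA hσ hσ1 hw.le
  have e1 := Complex.continuous_re.continuousAt.eventually (lt_mem_nhds h)
  rcases le_or_gt (p.re + σ / 2) z.re with h' | h'
  · refine (sm.locSub univ_mem).of_le ?_ ?_ cm cu
    · rw [g0_zero hσ (le_abs.2 (.inl (by linarith only [h']))), sw2_right h.le, zero_sub]
    · filter_upwards [e1] with w hw
      rw [sw2_right hw.le]
      linarith only [hA, hσ, g0_nonneg (L := L) (p := p) hA hσ w]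
  have e2 := Complex.continuous_re.continuousAt.eventually (gt_mem_nhds h')
  obtain ⟨c, hc⟩ : ∃ c, ∀ᶠ w in 𝓝 z,
      cosh (π / σ * (w.im - c)) = cosh (π * (|w.im - p.im| - L / 2) / σ) := by
    rcases (hz.resolve_right (not_lt.2 (abs_le.2 ⟨by linarith only [h], by linarith only [h']⟩))).lt_or_gt with h3 | h3
    · refine ⟨p.im - L / 2, ?_⟩
      filter_upwards [Complex.continuous_im.continuousAt.eventually (gt_mem_nhds h3)] with w hw
      rw [abs_of_neg (sub_neg.2 hw), ← cosh_neg]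
      congr 1
      ring
    · refine ⟨p.im + L / 2, ?_⟩
      filter_upwards [Complex.continuous_im.continuousAt.eventually (lt_mem_nhds h3)] with w hw
      rw [abs_of_pos (sub_pos.2 hw)]
      congr 1
      ring
  refine ((sw2_harm A (π / σ) p.re c z).add (sm.locSub univ_mem)
    (.of_forall fun w => by fun_prop) cm).congr ?_
  filter_upwards [e1, e2, hc] with w a1 a2 a3
  rw [sw2_right a1.le, g0, a3, min_eq_left (abs_le.2 ⟨by linarith only [a1], by linarith only [a2]⟩), ← cos_abs,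
    abs_mul, abs_of_pos (div_pos pi_pos hσ), div_mul_eq_mul_div, sub_eq_add_neg (_ * cosh _)]

end

end Pool.Agent.MinMod.St
end

-- merged part: Pool.Agent.Work.MP_f62247_an.St.W3
section
/-!
# One window
`σ = sig θ ≤ θ/100 ≤ r/100`, `m = θ Φ X`, `A = om θ Φ X` (`4 A ≤ m/8` by `om_le`, `A exp (11/σ) = m/8`), `a = re p - σ/2`, `P = Pk F L A a`, `g = g0 L A σ p`, `Ep z = A exp (β (re z - a)) ang z`.
`Ξ1 = (m/2) lm p σ + g - P`, `Ξ2 = (m/2) log (3σ) - Ep`, `Lf z = if ‖z - p‖ ≤ 3r/2 then (G z - m lm p r z) + (m/2) lm p (2σ) z + max (Ξ1 z) (Ξ2 z) else G z + g z - P z`.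
For `9σ ≤ ‖z - p‖ ≤ 2r` one has `Ξ2 ≤ Ξ1` (`log 3 ≥ 1`, `Pk_sub_Ep`), so for `r ≤ ‖z - p‖ ≤ 2r` both branches agree (`lm_out`, `ite_right`). For `‖z - p‖ < σ` one has `Ξ1 < Ξ2` (`g0_le`), elsewhere `g0_Pk_loc` applies; `locSub_max`, `sub_lm`, `sub_ang`, `Dip.pole`, `LocSub.add`.
Upper bound in the disc: `lm p (2σ) ≤ lm p r`, `lm p σ ≤ lm p r`; for `‖z - p‖ ≤ 9σ`: `Ξ2 + P ≤ (m/2) log r`. Depth: `log (2σ) - log r ≤ -30/θ`. Lower bound: `max ≥ Ξ1`, `m (log r - log σ) ≤ 32 Φ X` in the disc of radius `r` (`log σ = log θ - 30/θ - log 2`, `- θ log θ ≤ 1`, `log r ≤ 0`).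
On the band `|im z - im p| ≤ L` whenever `g z ≠ 0` (`g0_zero`, `φ_sub`, `Dip.ph`). Near the seam both `z` and `z + L I` are far from `p` (`ht_sub`), `g0_per`, `Pk_per`.
-/

open Real MeasureTheory Set Filter Topology

namespace Pool.Agent.MinMod.St

open Pool.Agent.MinMod.Mo

noncomputable section

structure Win (F : Frame) (L X θ : ℝ) (G : ℂ → ℝ) (p : ℂ) (Lf g : ℂ → ℝ) : Prop where
  cont : Continuous Lf
  loc : ∀ z, LocSub Lf z
  g1 : ∀ z, 0 ≤ g z
  g2 : ∀ z : ℂ, sig θ / 2 ≤ |z.re - p.re| → g z = 0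
  g3 : ∀ z, -π - 1 < F.ht z → F.ht z < -π + L + 1 → g z ≤ θ * F.Φ X / 8
  up : ∀ z, Lf z ≤ G z + g z - Pk F L (om θ * F.Φ X) (p.re - sig θ / 2) z
  deep : ∀ z, ‖z - p‖ ≤ 2 * sig θ →
    Lf z ≤ G z + g z - Pk F L (om θ * F.Φ X) (p.re - sig θ / 2) z - 15 * F.Φ X
  low : ∀ z, G z - Pk F L (om θ * F.Φ X) (p.re - sig θ / 2) z - 32 * F.Φ X ≤ Lf z
  out : ∀ z : ℂ, 1 / 10 ≤ |z.re - X| → Lf z = G z - Pk F L (om θ * F.Φ X) (p.re - sig θ / 2) z
  seam : ∀ z, |F.ht z - -π| < 1 → Lf (z + L * Complex.I) - G (z + L * Complex.I) = Lf z - G z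

theorem sw3_add {f g : ℂ → ℝ} {z : ℂ} (hf : LocSub f z) (hg : LocSub g z) (cf : Continuous f)
    (cg : Continuous g) : LocSub (fun w => f w + g w) z :=
  hf.add hg (Eventually.of_forall fun _ => cf.continuousAt)
    (Eventually.of_forall fun _ => cg.continuousAt)

theorem sw3_log {σ x : ℝ} (hσ : 0 < σ) (hx : 3 * σ ≤ x) : Real.log σ + 1 ≤ Real.log x := by
  have h1 : 1 ≤ Real.log 3 := by
    rw [Real.le_log_iff_exp_le (by norm_num)]
    exact (exp_one_lt_d9.trans (by norm_num)).le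
  have h2 := Real.log_le_log (by positivity) hx
  rw [Real.log_mul (by norm_num) hσ.ne'] at h2
  linarith

theorem sw3_main {F : Frame} {μ L σ A m r : ℝ} {G : ℂ → ℝ} {p : ℂ} (hF : F.Good μ)
    (hμ : μ ≤ 1 / 100) (h1 : 2 * π ≤ L) (h2 : L ≤ 2 * π + 1 / 1000) (s0 : 0 < σ) (s1 : 100 * σ ≤ r)
    (r1 : r ≤ 1 / 1000) (a0 : 0 < A) (a1 : 100 * A ≤ m) (a2 : A * exp (11 / σ) ≤ m / 8)
    (cG : Continuous G) (lG : ∀ z, LocSub G z)
    (pole : SubOn (fun z => G z - m * lm p r z) (Metric.ball p (2 * r))) :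
    ∃ Lf : ℂ → ℝ, Continuous Lf ∧ (∀ z, LocSub Lf z) ∧
      (∀ z, 1 / 500 ≤ ‖z - p‖ → Lf z = G z + g0 L A σ p z - Pk F L A (p.re - σ / 2) z) ∧
      (∀ z, Lf z ≤ G z + g0 L A σ p z - Pk F L A (p.re - σ / 2) z) ∧
      (∀ z, ‖z - p‖ ≤ 2 * σ → Lf z ≤ G z + g0 L A σ p z - Pk F L A (p.re - σ / 2) z +
        m / 2 * (Real.log (2 * σ) - Real.log r)) ∧
      ∀ z, G z - Pk F L A (p.re - σ / 2) z + m * Real.log σ ≤ Lf z := by
  have m0 : 0 ≤ m / 2 := by linarith only [a0, a1]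
  have r0 : 0 < r := by linarith only [s0, s1]
  have s2 : 0 < 2 * σ := by linarith only [s0]
  have hl : ∀ z : ℂ, σ / 2 < ‖z - p‖ →
      LocSub (fun ζ => g0 L A σ p ζ - Pk F L A (p.re - σ / 2) ζ) z := by
    intro z hz
    refine g0_Pk_loc hF hμ h1 h2 a0.le s0 (by linarith only [s0, s1, r1]) (or_iff_not_imp_left.2 fun e => ?_)
    have := Complex.norm_le_abs_re_add_abs_im (z - p)
    rw [Complex.sub_im, not_not.1 e, sub_self, abs_zero, add_zero, Complex.sub_re] at this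
    linarith only [hz, this]
  have hE : ∀ z : ℂ, ‖z - p‖ ≤ 2 * r → |Pk F L A (p.re - σ / 2) z -
      A * exp (4 * π / L * (z.re - (p.re - σ / 2))) * ang F L z| ≤ 4 * A := by
    intro z hz
    refine Pk_sub_Ep h1 h2 a0.le ?_
    have := abs_le.1 ((Complex.abs_re_le_norm (z - p)).trans hz)
    rw [Complex.sub_re] at this
    rw [abs_le]
    constructor <;> linarith only [s0, s1, r1, this, this.1, this.2]
  have hg : ∀ z : ℂ, ‖z - p‖ ≤ 1 → g0 L A σ p z ≤ m / 8 := fun z hz =>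
    (g0_le a0.le s0 h2 (((Complex.abs_im_le_norm (z - p)).trans hz).trans
      (by linarith only [h1, s0, s1, r1, pi_gt_three]))).trans a2
  have sE := sub_ang hF hμ h1 h2 (Or.inl rfl) a0.le (p.re - σ / 2)
  have g1 := g0_nonneg (L := L) (p := p) a0.le s0
  have cg := continuous_g0 L A σ p
  have cP := continuous_Pk F L A (p.re - σ / 2)
  generalize g0 L A σ p = g at hl hg g1 cg ⊢
  generalize Pk F L A (p.re - σ / 2) = P at hl hE cP ⊢
  obtain ⟨N, hN⟩ : ∃ N : ℂ → ℝ, N = fun z =>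
    -(A * exp (4 * π / L * (z.re - (p.re - σ / 2))) * ang F L z) := ⟨_, rfl⟩
  rw [← hN] at sE
  have hE' : ∀ z : ℂ, ‖z - p‖ ≤ 2 * r → -(4 * A) ≤ P z + N z ∧ P z + N z ≤ 4 * A := fun z hz => by
    rw [hN]
    exact abs_le.1 (hE z hz)
  clear hN hE
  have cN : Continuous N := continuousOn_univ.1 sE.1
  have c1 : Continuous fun z => m / 2 * lm p σ z + (g z - P z) :=
    (continuous_const.mul (continuous_lm p s0)).add (cg.sub cP)
  have c2 : Continuous fun z => m / 2 * Real.log (3 * σ) + N z := continuous_const.add cN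
  have c3 : Continuous fun z => G z - m * lm p r z :=
    cG.sub (continuous_const.mul (continuous_lm p r0))
  have c4 : Continuous fun z => m / 2 * lm p (2 * σ) z := continuous_const.mul (continuous_lm p s2)
  have cτ : Continuous fun z : ℂ => ‖z - p‖ := (continuous_id.sub continuous_const).norm
  have l9 := mul_le_mul_of_nonneg_left
    (sw3_log (by linarith only [s0] : 0 < 3 * σ) (by linarith only [s0, s1] : 3 * (3 * σ) ≤ r)) m0
  have key : ∀ z : ℂ, ‖z - p‖ ≤ 2 * r → max (m / 2 * lm p σ z + (g z - P z))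
      (m / 2 * Real.log (3 * σ) + N z) ≤ m / 2 * lm p r z + (g z - P z) := by
    intro z hz
    have b1 := mul_le_mul_of_nonneg_left (lm_mono p s0 (by linarith only [s0, s1] : σ ≤ r) z) m0
    have b2 := mul_le_mul_of_nonneg_left (lm_ge p r0 z) m0
    exact max_le (by linarith only [b1]) (by linarith only [a0, a1, l9, b2, hE', hz, g1, (hE' z hz).2, g1 z])
  obtain ⟨Lf, hLf⟩ : ∃ Lf : ℂ → ℝ, Lf = fun z => if ‖z - p‖ ≤ 3 * r / 2 then
      G z - m * lm p r z + m / 2 * lm p (2 * σ) z +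
        max (m / 2 * lm p σ z + (g z - P z)) (m / 2 * Real.log (3 * σ) + N z)
      else G z + (g z - P z) := ⟨_, rfl⟩
  have e1 : ∀ z : ℂ, ‖z - p‖ < 3 * r / 2 → Lf =ᶠ[𝓝 z] fun z => G z - m * lm p r z +
      m / 2 * lm p (2 * σ) z + max (m / 2 * lm p σ z + (g z - P z))
        (m / 2 * Real.log (3 * σ) + N z) := fun z hz => hLf ▸ ite_lt cτ hz
  have e2 : ∀ z : ℂ, r < ‖z - p‖ → Lf =ᶠ[𝓝 z] fun z => G z + (g z - P z) := by
    intro z hz
    rw [hLf]
    refine ite_right ((cτ.continuousAt.eventually (lt_mem_nhds hz)).mono fun ζ b1 b2 => ?_)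
    have b3 := key ζ (by linarith only [s0, s1, b2])
    have b4 := le_max_left (m / 2 * lm p σ ζ + (g ζ - P ζ)) (m / 2 * Real.log (3 * σ) + N ζ)
    have b5 : lm p σ ζ = lm p r ζ := (lm_out (by linarith only [s0, s1, b1])).trans (lm_out b1.le).symm
    have b6 : lm p (2 * σ) ζ = lm p r ζ := (lm_out (by linarith only [s0, s1, b1])).trans (lm_out b1.le).symm
    rw [b6]
    rw [b5] at b3 b4 ⊢
    linarith only [b4, b3]
  refine ⟨Lf, continuous_iff_continuousAt.2 fun z => ?_, fun z => ?_, fun z hz => ?_, fun z => ?_,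
    fun z hz => ?_, fun z => ?_⟩
  · rcases lt_or_ge r ‖z - p‖ with hz | hz
    · exact (cG.add (cg.sub cP)).continuousAt.congr (e2 z hz).symm
    · exact ((c3.add c4).add (c1.max c2)).continuousAt.congr (e1 z (by linarith only [s0, s1, hz])).symm
  · rcases lt_or_ge r ‖z - p‖ with hz | hz
    · exact (sw3_add (lG z) (hl z (by linarith only [s0, s1, hz])) cG (cg.sub cP)).congr (e2 z hz).symm
    refine (sw3_add (sw3_add (pole.locSub (Metric.isOpen_ball.mem_nhds
      (mem_ball_iff_norm.2 (by linarith only [s0, s1, hz])))) (((sub_lm p s2).smul m0).locSub univ_mem) c3 c4)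
      (locSub_max (fun b => ?_) (fun _ => ?_) (Eventually.of_forall fun _ => c1.continuousAt)
        (Eventually.of_forall fun _ => c2.continuousAt)) (c3.add c4) (c1.max c2)).congr
      (e1 z (by linarith only [s0, s1, hz])).symm
    · refine sw3_add (((sub_lm p s0).smul m0).locSub univ_mem) (hl z (not_le.1 fun b1 => ?_))
        (continuous_const.mul (continuous_lm p s0)) (cg.sub cP)
      rw [lm_in (by linarith only [s0, b1])] at b
      have b2 := mul_le_mul_of_nonneg_left (sw3_log s0 le_rfl) m0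
      linarith only [a0, a1, b, b2, hE', s0, s1, b1, hg, r1, (hE' z (by linarith)).1, hg z (by linarith)]
    · exact sw3_add ⟨1, one_pos, fun s _ _ => (circleAverage_const _ _ _).ge⟩ (sE.locSub univ_mem)
        continuous_const cN
  · rw [(e2 z (by linarith only [s0, s1, r1, hz])).self_of_nhds]
    ring
  · rcases lt_or_ge r ‖z - p‖ with hz | hz
    · rw [(e2 z hz).self_of_nhds]
      linarith only []
    · rw [(e1 z (by linarith only [s0, s1, hz])).self_of_nhds]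
      have b1 := mul_le_mul_of_nonneg_left (lm_mono p s2 (by linarith only [s0, s1] : 2 * σ ≤ r) z) m0
      linarith only [b1, key, s0, s1, hz, key z (by linarith)]
  · rw [(e1 z (by linarith only [s0, s1, hz])).self_of_nhds]
    have b1 := key z (by linarith only [s0, s1, hz])
    beta_reduce
    rw [lm_in hz]
    rw [lm_in (by linarith only [s0, s1, hz] : ‖z - p‖ ≤ r)] at b1 ⊢
    linarith only [b1]
  · rcases lt_or_ge r ‖z - p‖ with hz | hz
    · rw [(e2 z hz).self_of_nhds]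
      have := mul_nonneg m0 (neg_nonneg.2 (Real.log_nonpos s0.le (by linarith only [s0, s1, r1])))
      linarith only [this, g1, g1 z]
    · rw [(e1 z (by linarith only [s0, s1, hz])).self_of_nhds]
      have b1 := le_max_left (m / 2 * lm p σ z + (g z - P z)) (m / 2 * Real.log (3 * σ) + N z)
      have b2 := mul_le_mul_of_nonneg_left (lm_mono p s0 (by linarith only [s0] : σ ≤ 2 * σ) z) m0
      have b3 := mul_le_mul_of_nonneg_left (lm_ge p s0 z) m0
      have b4 := mul_le_mul_of_nonneg_left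
        (lm_nonpos r0 (by linarith only [s0, s1, r1]) (by linarith only [s0, s1, r1, hz] : ‖z - p‖ ≤ 1)) m0
      linarith only [b1, b2, b3, b4, g1, g1 z]

theorem exists_win {F : Frame} {μ L K h X θ c r : ℝ} {G0 U G : ℂ → ℝ} {p : ℂ} (hF : F.Good μ)
    (hμ : μ ≤ 1 / 100) (h1 : 2 * π ≤ L) (h2 : L ≤ 2 * π + 1 / 1000) (hθ : 0 < θ) (hθ1 : θ ≤ 1 / 1000)
    (hD : Dip F G0 U K h X θ c G p r) : ∃ Lf g : ℂ → ℝ, Win F L X θ G p Lf g := by
  have p0 := F.Φ_pos X
  have s0 := sig_pos hθ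
  have s1 := sig_le hθ hθ1
  have a0 := mul_pos (om_pos hθ) p0
  have a1 := mul_le_mul_of_nonneg_right (om_le hθ hθ1) p0.le
  have a2 : om θ * F.Φ X * exp (11 / sig θ) = θ * F.Φ X / 8 := by
    have : exp (-11 / sig θ) * exp (11 / sig θ) = 1 := by
      rw [← exp_add, neg_div, neg_add_cancel, exp_zero]
    rw [om]
    linear_combination θ * F.Φ X / 8 * this
  have l1 : θ * Real.log (2 * sig θ) = θ * Real.log θ - 30 := by
    rw [show 2 * sig θ = θ * exp (-30 / θ) by rw [sig]; ring, Real.log_mul hθ.ne' (exp_pos _).ne',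
      Real.log_exp]
    field_simp
    ring
  have l2 : -32 ≤ θ * Real.log (sig θ) := by
    rw [Real.log_mul two_ne_zero s0.ne'] at l1
    have b1 := mul_le_mul_of_nonneg_left (Real.one_sub_inv_le_log_of_pos hθ) hθ.le
    rw [mul_sub, mul_inv_cancel₀ hθ.ne'] at b1
    have b2 := mul_le_mul_of_nonneg_left (Real.log_le_sub_one_of_pos two_pos) hθ.le
    linarith only [hθ1, s0, s1, l1, b1, b2]
  have l3 := mul_le_mul_of_nonneg_left (Real.log_le_log hθ hD.r1) hθ.le
  have r1 := hD.r1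
  have π3 := pi_gt_three
  have ph := abs_le.1 hD.ph
  obtain ⟨Lf, c1, c2, c3, c4, c5, c6⟩ := sw3_main hF hμ h1 h2 s0 (by linarith only [s1, r1]) hD.r2 a0
    (by linarith only [a1]) a2.le hD.cont hD.loc hD.pole
  have him : ∀ z : ℂ, |z.re - p.re| ≤ sig θ / 2 →
      -(1 / 50) ≤ z.im - p.im - F.ht z ∧ z.im - p.im - F.ht z ≤ 1 / 50 := by
    intro z hz
    have b1 := abs_le.1 ((hF.φ_sub p.re z.re).trans (mul_le_mul hμ (show _ ≤ 1 by linarith only [hθ1, s0, s1, hz])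
      (abs_nonneg _) (by norm_num)))
    simp only [Frame.ht] at ph ⊢
    constructor <;> linarith only [hθ1, s0, s1, ph, b1, b1.1, b1.2, ph.1, ph.2]
  have far : ∀ z : ℂ, 1 ≤ |F.ht z| → 1 / 500 ≤ ‖z - p‖ := by
    intro z hz
    have b1 := hF.ht_sub (by linarith only [hμ, hθ1, s0, s1]) p z
    have b2 := abs_sub_abs_le_abs_sub (F.ht z) (F.ht p)
    linarith only [hθ1, s0, s1, hz, b1, b2, hD, hD.ph]
  refine ⟨Lf, g0 L (om θ * F.Φ X) (sig θ) p, c1, c2, g0_nonneg a0.le s0, fun z => g0_zero s0,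
    fun z b1 b2 => ?_, c4, fun z hz => (c5 z hz).trans ?_, fun z => le_trans ?_ (c6 z),
    fun z hz => ?_, fun z hz => ?_⟩
  · rcases le_total (sig θ / 2) |z.re - p.re| with b | b
    · rw [g0_zero s0 b]
      positivity
    · refine (g0_le a0.le s0 h2 (abs_le.2 ?_)).trans a2.le
      constructor <;> linarith only [h1, hθ1, s0, s1, π3, b1, him, b, b2, (him z b).1, (him z b).2]
  · have := mul_le_mul_of_nonneg_right
      (show θ * Real.log (2 * sig θ) - θ * Real.log r ≤ -30 by linarith only [l1, l3]) p0.le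
    linarith only [this]
  · have := mul_le_mul_of_nonneg_right l2 p0.le
    linarith only [this]
  · have b1 := abs_sub_le z.re p.re X
    have b2 : |z.re - p.re| ≤ ‖z - p‖ := Complex.abs_re_le_norm (z - p)
    rw [c3 z (by linarith only [hθ1, s0, s1, hz, b1, b2, hD, hD.px]), g0_zero s0 (by linarith only [hθ1, s0, s1, hz, b1, hD, hD.px]), add_zero]
  · obtain ⟨b1, b2⟩ := abs_lt.1 hz
    rw [c3 z (far z (le_abs.2 (Or.inr (by linarith only [hθ1, s0, s1, π3, b2])))), c3 _ (far _ (le_abs.2 (Or.inl (by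
      rw [F.ht_add_I]
      linarith only [h1, hθ1, s0, s1, π3, b1])))), Pk_per (by linarith only [h1, hθ1, s0, s1, π3])]
    have : g0 L (om θ * F.Φ X) (sig θ) p (z + L * Complex.I) =
        g0 L (om θ * F.Φ X) (sig θ) p z := by
      rcases le_total (sig θ / 2) |z.re - p.re| with b | b
      · rw [g0_zero s0 b, g0_zero s0 (by simpa using b)]
      · exact g0_per (by linarith only [hθ1, s0, s1, π3, b2, him, b, (him z b).2]) (by linarith only [h1, hθ1, s0, s1, π3, b1, him, b, (him z b).1])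
    rw [this]
    ring

end

end Pool.Agent.MinMod.St
end

-- merged part: Pool.Agent.Work.MP_f62247_an.St.W4
section
/-!
# All windows: the function on the band
Choose the data of the windows, `c j = om (θ j) Φ j`, `a j = re (p j) - sig (θ j)/2`, `Om` from `exists_Om` with `κ = 1/100000` (`om_le`), `β = 4π/L`. `Gb z = Lf j z + Pk j z - Om (re z) ang z` with `j = round (re z)`.
For every `j` and `|re ζ - j| < 3/4` the same formula holds with that `j` (if `round (re ζ) ≠ j` both expressions are `G0 ζ - Om ang` by `Win.out`, `Dip.out`; `abs_sub_round`). There `Pk j - Om ang = -(A exp (β (x - j)) ang) - (B exp (-β (x - j)) ang)` (`sub_ang`), so `Gb` is continuous and `LocSub`.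
Cost: if `G j ζ ≠ G0 ζ` then `|re ζ - j| < 1/10`, `|re ζ - a j| ≤ 1/5`, so `cost Φ j ≤ om Φ j/40 ≤ Om (re ζ)/16`. Lower bound of `Om`: the term `j = round x`, `exp (-6/5) ≥ 1/4`... `Φ x ≤ exp 1 Φ j` (`Φ_le`), `om_mono`.
-/

open Real MeasureTheory Set Filter Topology

namespace Pool.Agent.MinMod.St

open Pool.Agent.MinMod.Mo

noncomputable section

structure Big (F : Frame) (L K h θ0 : ℝ) (G0 U Gb : ℂ → ℝ) (Om : ℝ → ℝ) (θ : ℤ → ℝ) (p : ℤ → ℂ)
    (g : ℂ → ℝ) : Prop where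
  cont : Continuous Gb
  loc : ∀ z, LocSub Gb z
  seam : ∀ z, |F.ht z - -π| < 1 → Gb (z + L * Complex.I) = Gb z
  th : ∀ j, θ0 ≤ θ j ∧ θ j ≤ 1 / 1000
  px : ∀ j, |(p j).re - j| ≤ 1 / 20
  ph : ∀ j, |F.ht (p j)| ≤ 1 / 2000
  om1 : ∀ x, om θ0 / 10 * F.Φ x ≤ Om x
  om2 : ∀ x, Om x ≤ F.Φ x / 1000
  om3 : ∀ x x', |x' - x| ≤ 1 / 20 → Om x ≤ 10 / 9 * Om x'
  g1 : ∀ z, -π - 1 < F.ht z → F.ht z < -π + L + 1 → 0 ≤ g z ∧ g z ≤ F.Φ z.re / 1000
  g2 : ∀ z : ℂ, (∀ j, sig (θ j) / 2 ≤ |z.re - (p j).re|) → g z = 0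
  up : ∀ z, Gb z ≤ U z + Om z.re / 16 + g z - Om z.re * ang F L z
  far : ∀ z, 1 / 1000 ≤ |F.ht z| → Gb z ≤ G0 z + g z - Om z.re * ang F L z
  cov : ∀ z, F.ht z ≤ h → G0 z ≤ 0 → Gb z ≤ G0 z + Om z.re / 16 + g z - Om z.re * ang F L z
  deep : ∀ j z, ‖z - p j‖ ≤ 2 * sig (θ j) →
    Gb z ≤ U z + Om z.re / 16 + g z - Om z.re * ang F L z - 7 * F.Φ z.re
  low : ∀ z, -(K + 200) * F.Φ z.re ≤ Gb z

theorem sw4_ne {x : ℝ} {j : ℤ} (e : round x ≠ j) : 1 ≤ |x - j| + |x - round x| := by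
  have h1 : (1 : ℤ) ≤ |round x - j| := Int.one_le_abs (sub_ne_zero.2 e)
  have h2 : (1 : ℝ) ≤ |(round x : ℝ) - j| := by exact_mod_cast h1
  have h3 : (round x : ℝ) - j = (x - j) - (x - round x) := by ring
  rw [h3] at h2
  exact h2.trans (abs_sub _ _)

theorem sw4_exp {t : ℝ} (h1 : t < 1) : exp t ≤ 1 / (1 - t) := by
  have h2 := add_one_le_exp (-t)
  rw [le_div_iff₀ (by linarith)]
  have h3 : exp t * exp (-t) = 1 := by rw [← exp_add, add_neg_cancel, exp_zero]
  (refine le_of_not_gt fun h_nl => ?_; linarith only [h_nl, h2, h1, h3, exp_pos t, Mathlib.Tactic.Linarith.mul_zero_eq (Mathlib.Tactic.Linarith.sub_neg_of_lt h1) (sub_eq_zero_of_eq h3), mul_pos_of_neg_of_neg (Mathlib.Tactic.Linarith.sub_neg_of_lt h1) (Mathlib.Tactic.Linarith.sub_neg_of_lt h_nl), mul_nonneg_of_nonpos_of_nonpos (Mathlib.Tactic.Linarith.sub_nonpos_of_le h2) (le_of_lt (Mathlib.Tactic.Linarith.sub_neg_of_lt h_nl))])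

theorem sw4_exp22 : exp 1 * exp (6 / 5) ≤ 10 := by
  have h1 : exp (6 / 5) = exp 1 * exp (1 / 5) := by
    rw [← exp_add]
    norm_num
  have h2 := sw4_exp (t := 1 / 5) (by norm_num)
  have h3 := exp_one_lt_d9
  have h4 := exp_pos 1
  have h5 : exp 1 * exp 1 ≤ 8 := by linarith only [h3, h4, mul_pos_of_neg_of_neg (Mathlib.Tactic.Linarith.sub_neg_of_lt h3) (Mathlib.Tactic.Linarith.sub_neg_of_lt h4)]
  rw [h1, ← mul_assoc]
  linarith only [h5, h2, exp_pos (1 / 5), mul_nonneg_of_nonpos_of_nonpos (Mathlib.Tactic.Linarith.sub_nonpos_of_le (mul_self_nonneg ((1 : ℝ) * rexp (1 : ℝ)))) (Mathlib.Tactic.Linarith.sub_nonpos_of_le h2)]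

theorem exists_big {F : Frame} {μ L K h θ0 : ℝ} {G0 U : ℂ → ℝ} (hF : F.Good μ) (hμ : μ ≤ 1 / 100)
    (h1 : 2 * π ≤ L) (h2 : L ≤ 2 * π + 1 / 1000) (h0 : 0 < θ0)
    (hs : ∀ z, |F.ht z - -π| < 1 → G0 (z + L * Complex.I) = G0 z)
    (hD : ∀ j : ℤ, ∃ (θ c : ℝ) (G : ℂ → ℝ) (p : ℂ) (r : ℝ), θ0 ≤ θ ∧ θ ≤ 1 / 1000 ∧ c ≤ om θ / 40 ∧
      Dip F G0 U K h j θ c G p r) (hU : ∀ z, G0 z ≤ U z) :
    ∃ (Gb : ℂ → ℝ) (Om : ℝ → ℝ) (θ : ℤ → ℝ) (p : ℤ → ℂ) (g : ℂ → ℝ),
      Big F L K h θ0 G0 U Gb Om θ p g := by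
  choose θ cs G p r hθ0 hθ1 hcs hDip using hD
  have hθp : ∀ j, 0 < θ j := fun j => h0.trans_le (hθ0 j)
  choose Lf gg hW using fun j : ℤ => exists_win hF hμ h1 h2 (hθp j) (hθ1 j) (hDip j)
  obtain ⟨b1, b2⟩ := beta_mem h1 h2
  have μ1 : μ ≤ 1 := by linarith only [hμ]
  have L0 : 0 < L := by linarith only [h1, pi_pos]
  have hsig : ∀ j, 0 < sig (θ j) ∧ sig (θ j) ≤ 1 / 100000 := fun j =>
    ⟨sig_pos (hθp j), by linarith only [hθp, hθ1, sig_le (hθp j) (hθ1 j), hθ1 j]⟩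
  have hamp : ∀ j : ℤ, 0 ≤ om (θ j) * F.Φ j := fun j =>
    mul_nonneg (om_pos (hθp j)).le (F.Φ_pos _).le
  have ha : ∀ j : ℤ, |(p j).re - sig (θ j) / 2 - j| ≤ 1 / 10 := by
    intro j
    have e1 := abs_le.1 (hDip j).px
    have e2 := hsig j
    exact abs_le.2 ⟨by linarith only [e1, e2], by linarith only [e1, e2]⟩
  obtain ⟨Om, hO1, hO2, hO3⟩ := exists_Om (κ := 1 / 100000) (c := fun j => om (θ j) * F.Φ j)
    (a := fun j => (p j).re - sig (θ j) / 2) hF hμ b1 b2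
    (fun j => ⟨hamp j, mul_le_mul_of_nonneg_right
      (by linarith only [hθp, hθ1, om_le (hθp j) (hθ1 j), hθ1 j]) (F.Φ_pos _).le⟩) ha
  have hlow : ∀ (j : ℤ) (x t : ℝ), |x - j| ≤ t → t ≤ 3 / 4 →
      om (θ j) * F.Φ j * exp (-(2 * (t + 1 / 10))) ≤ Om x := by
    intro j x t e1 e2
    obtain ⟨A, B, hA, hB, e⟩ := hO1 j
    rw [e x (e1.trans e2)]
    have e3 : |x - ((p j).re - sig (θ j) / 2)| ≤ t + 1 / 10 := by
      have e4 := abs_le.1 (ha j)
      have e5 := abs_le.1 e1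
      exact abs_le.2 ⟨by linarith only [e4, e5], by linarith only [e4, e5]⟩
    have e6 : exp (-(2 * (t + 1 / 10))) ≤ exp (-(4 * π / L) * |x - ((p j).re - sig (θ j) / 2)|) := by
      refine exp_le_exp.2 ?_
      have := mul_le_mul b2 e3 (abs_nonneg _) (by norm_num)
      linarith only [this]
    have e7 := mul_le_mul_of_nonneg_left e6 (hamp j)
    have e8 := mul_nonneg hA (exp_pos (4 * π / L * (x - j))).le
    have e9 := mul_nonneg hB (exp_pos (-(4 * π / L) * (x - j))).le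
    linarith only [e7, e8, e9]
  have hO0 : ∀ x, 0 ≤ Om x := fun x =>
    (mul_nonneg (hamp _) (exp_pos _).le).trans
      (hlow (round x) x (1 / 2) (abs_sub_round x) (by norm_num))
  have hcost : ∀ (j : ℤ) (x : ℝ), |x - j| < 1 / 10 → cs j * F.Φ j ≤ Om x / 16 := by
    intro j x e
    have e1 := hlow j x (1 / 10) e.le (by norm_num)
    have e2 : 3 / 5 ≤ exp (-(2 * (1 / 10 + 1 / 10 : ℝ))) := by
      have := add_one_le_exp (-(2 * (1 / 10 + 1 / 10 : ℝ)))
      linarith only [this]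
    have e3 := mul_le_mul_of_nonneg_left e2 (hamp j)
    have e4 := mul_le_mul_of_nonneg_right (hcs j) (F.Φ_pos j).le
    have e5 := hamp j
    linarith only [e1, e3, e4, e5]
  have hGU : ∀ (j : ℤ) (z : ℂ), G j z ≤ U z + Om z.re / 16 := by
    intro j z
    rcases lt_or_ge |z.re - j| (1 / 10) with e | e
    · linarith only [hDip, hcost, e, (hDip j).up z, hcost j z.re e]
    · rw [(hDip j).out z (Or.inl e)]
      linarith only [hU, hO0, hU z, hO0 z.re]
  have hΦ : ∀ x : ℝ, F.Φ (round x) ≤ 3 * F.Φ x := by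
    intro x
    have e1 := hF.Φ_le μ1 (x := x) (x' := round x) (s := 1 / 2)
      (by rw [abs_sub_comm]; exact abs_sub_round x)
    have e2 : exp (2 * (1 / 2 : ℝ)) ≤ 3 := by
      norm_num
      linarith only [exp_one_lt_d9]
    exact e1.trans (mul_le_mul_of_nonneg_right e2 (F.Φ_pos _).le)
  obtain ⟨T, hT⟩ : ∃ T : ℤ → ℂ → ℝ, T = fun j z =>
    Lf j z + Pk F L (om (θ j) * F.Φ j) ((p j).re - sig (θ j) / 2) z := ⟨_, rfl⟩
  have hTout : ∀ (j : ℤ) (z : ℂ), 1 / 10 ≤ |z.re - j| → T j z = G0 z := by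
    intro j z e
    rw [hT]
    beta_reduce
    rw [(hW j).out z e, (hDip j).out z (Or.inl e)]
    ring
  have hTeq : ∀ (j : ℤ) (z : ℂ), |z.re - j| < 3 / 4 → T (round z.re) z = T j z := by
    intro j z e
    by_cases e1 : round z.re = j
    · rw [e1]
    · have e2 := sw4_ne e1
      have e3 := abs_sub_round z.re
      rw [hTout j z (by linarith only [e2, e3]), hTout _ z (by linarith only [e, e2])]
  have hTup : ∀ (j : ℤ) (z : ℂ), T j z ≤ G j z + gg j z := by
    intro j z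
    rw [hT]
    beta_reduce
    linarith only [hW, (hW j).up z]
  have hloc : ∀ z : ℂ, ContinuousAt (fun w => T (round w.re) w - Om w.re * ang F L w) z ∧
      LocSub (fun w => T (round w.re) w - Om w.re * ang F L w) z := by
    intro z
    obtain ⟨A, B, hA, hB, e⟩ := hO1 (round z.re)
    have s1 := sub_ang hF hμ h1 h2 (Or.inl rfl) hA (round z.re)
    have s2 := sub_ang hF hμ h1 h2 (Or.inr rfl) hB (round z.re)
    have s3 := s1.add s2
    have c3 := continuousOn_univ.1 s3.1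
    have ev : ∀ᶠ w : ℂ in 𝓝 z, |w.re - round z.re| < 3 / 4 :=
      ((Complex.continuous_re.sub continuous_const).abs.continuousAt).eventually_lt
        continuousAt_const (lt_of_le_of_lt (abs_sub_round z.re) (by norm_num))
    have eq : (fun w => Lf (round z.re) w +
        (-(A * exp (4 * π / L * (w.re - round z.re)) * ang F L w) +
          -(B * exp (-(4 * π / L) * (w.re - round z.re)) * ang F L w))) =ᶠ[𝓝 z]
        fun w => T (round w.re) w - Om w.re * ang F L w := by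
      filter_upwards [ev] with w hw
      rw [hTeq _ w hw, e w.re hw.le, hT]
      unfold Pk
      ring
    refine ⟨(((hW _).cont.add c3).continuousAt).congr eq, LocSub.congr ?_ eq⟩
    exact ((hW _).loc z).add (s3.locSub univ_mem)
      (Eventually.of_forall fun w => (hW _).cont.continuousAt)
      (Eventually.of_forall fun w => c3.continuousAt)
  refine ⟨fun w => T (round w.re) w - Om w.re * ang F L w, Om, θ, p, fun w => gg (round w.re) w,
    continuous_iff_continuousAt.2 fun z => (hloc z).1, fun z => (hloc z).2, fun z hz => ?_,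
    fun j => ⟨hθ0 j, hθ1 j⟩, fun j => (hDip j).px, fun j => (hDip j).ph, fun x => ?_, fun x => ?_,
    fun x x' e => ?_, fun z e1 e2 => ⟨(hW _).g1 z, ?_⟩, fun z e => (hW _).g2 z (e _), fun z => ?_,
    fun z e => ?_, fun z e1 e2 => ?_, fun j z e => ?_, fun z => ?_⟩
  · have e0 : (z + L * Complex.I).re = z.re := by simp
    have e1 := (hW (round z.re)).seam z hz
    have e2 := abs_lt.1 hz
    have e3 := pi_gt_three
    rw [(hDip _).out z (Or.inr (le_abs.2 (Or.inr (by linarith only [e2, e3])))),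
      (hDip _).out (z + L * Complex.I) (Or.inr (le_abs.2 (Or.inl (by
        rw [F.ht_add_I]; linarith only [h1, e2, e3])))), hs z hz] at e1
    rw [e0, ang_per F L0, hT]
    beta_reduce
    rw [Pk_per L0]
    linarith only [e1]
  · have e1 := hlow (round x) x (1 / 2) (abs_sub_round x) (by norm_num)
    have e2 := hF.Φ_le μ1 (x := round x) (x' := x) (s := 1 / 2) (abs_sub_round x)
    have e3 : exp (6 / 5) * exp (-(2 * (1 / 2 + 1 / 10 : ℝ))) = 1 := by
      rw [← exp_add]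
      norm_num
    have e4 : exp (2 * (1 / 2 : ℝ)) = exp 1 := by norm_num
    rw [e4] at e2
    have e5 : exp 1 ≤ 10 * exp (-(2 * (1 / 2 + 1 / 10 : ℝ))) := by
      have := mul_le_mul_of_nonneg_right sw4_exp22 (exp_pos (-(2 * (1 / 2 + 1 / 10 : ℝ)))).le
      rwa [mul_assoc, e3, mul_one] at this
    have e6 := e2.trans (mul_le_mul_of_nonneg_right e5 (F.Φ_pos _).le)
    have e7 := mul_le_mul (om_mono h0 (hθ0 (round x))) e6 (F.Φ_pos _).le (om_pos (hθp _)).le
    linarith only [e1, e7]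
  · linarith only [hO2, hO2 x, F.Φ_pos x]
  · have e1 := hO3 x' x
    have e2 : exp (4 * π / L * |x - x'|) ≤ 10 / 9 := by
      rw [abs_sub_comm] at e
      have e3 := mul_le_mul b2 e (abs_nonneg _) (by norm_num)
      have e4 := sw4_exp (t := 2 * (1 / 20)) (by norm_num)
      refine (exp_le_exp.2 e3).trans (e4.trans (by norm_num))
    exact e1.trans (mul_le_mul_of_nonneg_right e2 (hO0 _))
  · have e3 := (hW (round z.re)).g3 z e1 e2
    have e4 := mul_le_mul (hθ1 (round z.re)) (hΦ z.re) (F.Φ_pos _).le (by norm_num)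
    linarith only [e3, e4, F.Φ_pos z.re]
  · linarith only [hTup, hGU, hTup (round z.re) z, hGU (round z.re) z]
  · linarith only [hTup, hDip, e, hTup (round z.re) z, (hDip (round z.re)).out z (Or.inr e)]
  · have e3 : G (round z.re) z ≤ G0 z + Om z.re / 16 := by
      rcases lt_or_ge |z.re - round z.re| (1 / 10) with e | e
      · linarith only [hDip, e1, e2, hcost, e, (hDip (round z.re)).cov z e1 e2, hcost _ z.re e]
      · rw [(hDip _).out z (Or.inl e)]
        linarith only [hO0, hO0 z.re]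
    linarith only [e3, hTup, hTup (round z.re) z]
  · have e1 : |z.re - j| ≤ 1 / 4 := by
      have e2 := abs_le.1 ((Complex.abs_re_le_norm (z - p j)).trans e)
      rw [Complex.sub_re] at e2
      have e3 := abs_le.1 (hDip j).px
      have e4 := hsig j
      exact abs_le.2 ⟨by linarith only [e2, e3, e4], by linarith only [e2, e3, e4]⟩
    have e2 : round z.re = j := by
      by_contra e3
      linarith only [e1, e3, sw4_ne e3, abs_sub_round z.re]
    have e3 := (hW j).deep z e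
    have e4 := hF.Φ_le μ1 (x := j) (x' := z.re) (s := 1 / 4) e1
    have e5 : exp (2 * (1 / 4 : ℝ)) ≤ 2 :=
      (sw4_exp (t := 2 * (1 / 4)) (by norm_num)).trans (by norm_num)
    have e6 := mul_le_mul_of_nonneg_right e5 (F.Φ_pos j).le
    rw [e2, hT]
    beta_reduce
    linarith only [e3, e4, e6, hGU, hGU j z, F.Φ_pos j]
  · have e1 := (hW (round z.re)).low z
    have e2 := (hDip (round z.re)).low z
    have e3 := mul_le_mul_of_nonneg_left (abs_le.1 (abs_ang F L z)).2 (hO0 z.re)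
    rw [hT]
    beta_reduce
    linarith only [e1, e2, e3, hΦ, hO2, hΦ z.re, hO2 z.re, F.Φ_pos z.re]

end

end Pool.Agent.MinMod.St
end

-- merged part: Pool.Agent.Work.MP_f62247_an.St.W5
section
/-!
# The gain
`γ = om θ0 / 20`. `exists_big`, `periodise` (Mo/F3) with `h0 = -π`, `d = 1`; reduce a point to height in `[-π, -π + L)` with `d4_red`, `per_int` (as in `d4_wide`, Mo/D4). New `d' = min d (sig θ0 / 4)`,
`Bt' x = B x - Om x/2 + (if ∃ j, |x - re (p j)| ≤ sig (θ j) then Φ x/100 else 0)` (classical). Upper bound at `ζ`, `|re ζ - x| ≤ d'`: if `cos ≥ 3/4` then `ang ≥ 5/8`, `up`, `env`, `om3`; otherwise `|ht ζ| ≥ 1/1000`, `far`, `slope`, `abs_ang`, `om2`.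
If no such `j` exists then `g ζ = 0` (`sig_mono`), otherwise `g ζ ≤ Φ x/100`. Cover: if `j` exists take the point `x + im (p j) I` and `deep` (heights `≤ 1/100` in absolute value, so `ang ≥ 0`); otherwise the old cover point (there `G0 ≤ 0`), `cov` or `far`, and `γ B x ≤ Om x` (`om1`), `Om x/2 ≤ (k + γ) Om x/2`.
-/

open Real MeasureTheory Set Filter Topology

namespace Pool.Agent.MinMod.St

open Pool.Agent.MinMod.Mo

noncomputable section

theorem sw5_cos {L t : ℝ} (h1 : 2 * π ≤ L) (h2 : L ≤ 2 * π + 1 / 1000) (ht : |t| ≤ 1 / 1000) :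
    3 / 4 < cos (4 * π / L * t) := by
  obtain ⟨b1, b2⟩ := beta_mem h1 h2
  have h3 : |4 * π / L * t| ≤ 1 / 2 := by
    rw [abs_mul, abs_of_nonneg (by linarith only [b1] : (0 : ℝ) ≤ 4 * π / L)]
    linarith only [ht, b2, b1, abs_nonneg t, mul_nonneg_of_nonpos_of_nonpos (Mathlib.Tactic.Linarith.sub_nonpos_of_le ht) (Mathlib.Tactic.Linarith.sub_nonpos_of_le b1)]
  have h4 := Real.one_sub_sq_div_two_le_cos (x := 4 * π / L * t)
  have h5 : (4 * π / L * t) ^ 2 ≤ (1 / 2) ^ 2 := by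
    rw [← sq_abs]
    exact pow_le_pow_left₀ (abs_nonneg _) h3 2
  linarith only [h4, h5]

theorem sw5_Φ {F : Frame} {μ : ℝ} (hF : F.Good μ) (hμ : μ ≤ 1 / 100) {x x' : ℝ}
    (hx : |x' - x| ≤ 1 / 4000) : 999 / 1000 * F.Φ x ≤ F.Φ x' ∧ F.Φ x' ≤ 1001 / 1000 * F.Φ x := by
  have h := abs_le.1 (hF.Φ_close (by linarith only [hμ]) (x := x) (x' := x') (by linarith only [hx]))
  have h2 : 4 * |x' - x| * F.Φ x ≤ 1 / 1000 * F.Φ x :=
    mul_le_mul_of_nonneg_right (by linarith only [hx]) (F.Φ_pos x).le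
  constructor <;> linarith only [h, h2, h.1, h.2]

theorem sw5_ang {O a b : ℝ} (hO : 0 ≤ O) (h : b ≤ a) : O * b ≤ O * a := mul_le_mul_of_nonneg_left h hO

open Classical in
/-- the allowance for the function on the slabs -/
def sw5_I (F : Frame) (θ : ℤ → ℝ) (p : ℤ → ℂ) (x : ℝ) : ℝ :=
  if ∃ j, |x - (p j).re| ≤ sig (θ j) then F.Φ x / 100 else 0

section
variable {F : Frame} {μ L K h θ0 : ℝ} {G0 U Gb : ℂ → ℝ} {Om : ℝ → ℝ} {θ : ℤ → ℝ} {p : ℤ → ℂ}
  {g : ℂ → ℝ}

theorem sw5_I_mem (F : Frame) (θ : ℤ → ℝ) (p : ℤ → ℂ) (x : ℝ) :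
    0 ≤ sw5_I F θ p x ∧ sw5_I F θ p x ≤ F.Φ x / 100 := by
  have := F.Φ_pos x
  unfold sw5_I
  split_ifs <;> constructor <;> linarith only [this]

theorem sw5_Om (hb : Big F L K h θ0 G0 U Gb Om θ p g) (h0 : 0 < θ0) (x : ℝ) : 0 ≤ Om x :=
  le_trans (mul_nonneg (by linarith [om_pos h0]) (F.Φ_pos x).le) (hb.om1 x)

theorem sw5_g0 (hb : Big F L K h θ0 G0 U Gb Om θ p g) (h0 : 0 < θ0) {x : ℝ} {ζ : ℂ}
    (hζ : |ζ.re - x| ≤ sig θ0 / 4) (hn : ¬∃ j, |x - (p j).re| ≤ sig (θ j)) : g ζ = 0 := by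
  refine hb.g2 ζ fun j => ?_
  have h1 : sig (θ j) < |x - (p j).re| := lt_of_not_ge fun hc => hn ⟨j, hc⟩
  have h2 := sig_mono h0 (hb.th j).1
  have h3 := sig_pos h0
  have h4 : |x - (p j).re| ≤ |ζ.re - x| + |ζ.re - (p j).re| := by
    have := abs_sub_le x ζ.re (p j).re
    rwa [abs_sub_comm x ζ.re] at this
  linarith only [hζ, h1, h2, h3, h4]

theorem sw5_g (hb : Big F L K h θ0 G0 U Gb Om θ p g) (hF : F.Good μ) (hμ : μ ≤ 1 / 100) (h0 : 0 < θ0)
    (h00 : θ0 ≤ 1 / 1000) {x : ℝ} {ζ : ℂ} (hζ : |ζ.re - x| ≤ sig θ0 / 4) (a : -π - 1 < F.ht ζ)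
    (b : F.ht ζ < -π + L + 1) : g ζ ≤ sw5_I F θ p x := by
  unfold sw5_I
  split_ifs with hc
  · have h1 := (hb.g1 ζ a b).2
    have h2 := (sw5_Φ hF hμ (x := x) (x' := ζ.re) (by linarith only [h0, h00, hζ, sig_le h0 h00])).2
    linarith only [h1, h2, F.Φ_pos x]
  · exact (sw5_g0 hb h0 hζ hc).le

end

theorem benefit {θ0 : ℝ} (h0 : 0 < θ0) (h00 : θ0 ≤ 1 / 1000) : ∃ γ : ℝ, 0 < γ ∧ γ ≤ 1 / 4 ∧
    ∀ (F : Frame) (μ k ε L x0 K K' h d : ℝ) (G0 U : ℂ → ℝ) (B : ℝ → ℝ), F.Good μ → μ ≤ 1 / 100 →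
      2 * π ≤ L → L ≤ 2 * π + 1 / 1000 → 1 ≤ k → k ≤ 2 → 0 ≤ ε → ε ≤ 1 / 50 →
      Base F k ε L x0 K h d G0 U B →
      (∀ j : ℤ, ∃ (θ c : ℝ) (G : ℂ → ℝ) (p : ℂ) (r : ℝ), θ0 ≤ θ ∧ θ ≤ 1 / 1000 ∧ c ≤ om θ / 40 ∧
        Dip F G0 U K' h j θ c G p r) →
      ∃ G : ℂ → ℝ, Wide F (k + γ) ε L x0 G := by
  have o1 := om_pos h0
  have o2 := om_le h0 h00
  have s1 := sig_pos h0
  have s2 := sig_le h0 h00
  refine ⟨om θ0 / 20, by linarith only [o1], by linarith only [h00, o1, o2],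
    fun F μ k ε L x0 K K' h d G0 U B hF hμ h1 h2 hk1 hk2 e0 e1 base hD => ?_⟩
  have pi3 := Real.pi_gt_three
  obtain ⟨Gb, Om, θ, p, g, hb⟩ := exists_big hF hμ h1 h2 h0 base.seam hD base.le
  obtain ⟨P, P1, P2, P3, P4⟩ := periodise F (G := Gb) (L := L) (h0 := -π) (d := 1) one_pos
    (by linarith only [h00, o1, o2, h1, pi3]) hb.cont.continuousOn (fun z _ _ => hb.loc z) hb.seam
  have hred : ∀ ζ : ℂ, ∃ ζ' : ℂ, ζ'.re = ζ.re ∧ -π ≤ F.ht ζ' ∧ F.ht ζ' < -π + L ∧ P ζ = Gb ζ' := by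
    intro ζ
    obtain ⟨n, a, b⟩ := d4_red F (L := L) (by linarith only [h00, o1, o2, h1, pi3]) (-π) ζ
    refine ⟨_, d4_re ζ (n * L), a, b, ?_⟩
    rw [← per_int P3 n ζ, P4 _ (by linarith only [h00, o1, o2, a]) (by linarith only [h00, o1, o2, b])]
  have hO := sw5_Om hb h0
  refine ⟨P, P1, P2, P3, ⟨|K'| + 200, fun z => ?_⟩,
    fun x => B x - Om x / 2 + sw5_I F θ p x, min d (sig θ0 / 4), lt_min base.dpos (by linarith only [s1]),
    fun x hx => ?_⟩
  · obtain ⟨ζ, a, b, c, e⟩ := hred z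
    have q := F.Φ_pos ζ.re
    have l1 := hb.low ζ
    have l2 := hb.up ζ
    have l3 := base.env ζ.re ζ (by simpa using base.dpos.le)
    have l4 := base.Bhi ζ.re
    have l5 := (hb.g1 ζ (by linarith only [h00, o1, o2, b]) (by linarith only [h00, o1, o2, c])).2
    have l6 := hb.om2 ζ.re
    have l7 := sw5_ang (hO ζ.re) (abs_le.1 (abs_ang F L ζ)).1
    have l8 := mul_le_mul_of_nonneg_right e1 q.le
    have l9 := mul_le_mul_of_nonneg_right (le_abs_self K') q.le
    have l10 := mul_nonneg (abs_nonneg K') q.le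
    rw [e, ← a, abs_le]
    constructor <;> linarith only [l1, l9, q, l2, l3, l4, l5, l6, l7, l8, l10]
  have q := F.Φ_pos x
  have B1 := base.Blo x
  have B2 := base.Bhi x
  have O1 := hb.om1 x
  have O2 := hb.om2 x
  have O3 := hO x
  obtain ⟨I1, I2⟩ := sw5_I_mem F θ p x
  have e2 := mul_nonneg e0 q.le
  have e3 := mul_le_mul_of_nonneg_right e1 q.le
  refine ⟨by linarith only [q, B1, O2, I1], by linarith only [q, B2, O3, I2], fun ζ hζ => ?_, ?_⟩
  · obtain ⟨ζ', a, b, c, e⟩ := hred ζ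
    rw [← a] at hζ
    have z1 := hζ.trans (min_le_left _ _)
    have z2 := hζ.trans (min_le_right _ _)
    have l1 := sw5_g hb hF hμ h0 h00 z2 (by linarith only [h00, o1, o2, b]) (by linarith only [h00, o1, o2, c])
    rw [e]
    rcases le_or_gt (3 / 4) (cos (4 * π / L * F.ht ζ')) with u | u
    · have l2 := hb.up ζ'
      have l3 := base.env x ζ' z1
      have l4 := hb.om3 x ζ'.re (by linarith only [h00, o1, o2, s2, z2])
      have l5 : Om ζ'.re * (5 / 8) ≤ Om ζ'.re * ang F L ζ' :=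
        sw5_ang (hO _) (by unfold ang; linarith only [u])
      linarith only [O3, l1, l2, l3, l4, l5]
    · have l2 := hb.far ζ' (le_of_not_gt fun hc => by linarith only [u, h1, h2, hc, sw5_cos h1 h2 hc.le])
      have l3 := base.slope x ζ' z1 b c.le u.le
      have l4 := hb.om2 ζ'.re
      have l5 := sw5_ang (hO ζ'.re) (abs_le.1 (abs_ang F L ζ')).1
      have l6 := (sw5_Φ hF hμ (x := x) (x' := ζ'.re) (by linarith only [h00, o1, o2, s2, z2])).2
      linarith only [q, O2, e2, l1, l2, l3, l4, l5, l6]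
  by_cases hc : ∃ j, |x - (p j).re| ≤ sig (θ j)
  · obtain ⟨j, hj⟩ := hc
    refine ⟨x + (p j).im * Complex.I, by simp, fun ζ hζ => ?_⟩
    have z0 : |ζ.re - x| ≤ min d (sig θ0 / 4) := by simpa using (Frame.f1_re _ ζ).trans hζ
    have z1 := z0.trans (min_le_left _ _)
    have z2 := z0.trans (min_le_right _ _)
    have z3 := hζ.trans (min_le_right _ _)
    have t1 := sig_mono h0 (hb.th j).1
    have t2 := sig_le (h0.trans_le (hb.th j).1) (hb.th j).2
    have t3 := (hb.th j).2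
    have n1 : ‖(x : ℂ) + (p j).im * Complex.I - p j‖ = |x - (p j).re| := by
      have : (x : ℂ) + (p j).im * Complex.I - p j = ((x - (p j).re : ℝ) : ℂ) := by
        apply Complex.ext <;> simp
      rw [this, Complex.norm_real, Real.norm_eq_abs]
    have n2 : ‖ζ - p j‖ ≤ 2 * sig (θ j) := by
      have := norm_sub_le_norm_sub_add_norm_sub ζ ((x : ℂ) + (p j).im * Complex.I) (p j)
      linarith only [s1, hj, z3, t1, n1, this]
    have n3 := abs_le.1 (hF.ht_sub (by linarith only [h00, o1, o2, hμ]) (p j) ζ)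
    have n4 := abs_le.1 (hb.ph j)
    have a : -π - 1 < F.ht ζ := by linarith only [h00, o1, o2, pi3, t2, t3, n2, n3, n4, n3.1, n4.1]
    have b : F.ht ζ < -π + L + 1 := by linarith only [h00, o1, o2, h1, pi3, t2, t3, n2, n3, n4, n3.2, n4.2]
    have l1 := hb.deep j ζ n2
    have l2 := base.env x ζ z1
    have l3 := (hb.g1 ζ a b).2
    have l4 := hb.om2 ζ.re
    have l5 := sw5_ang (hO ζ.re) (abs_le.1 (abs_ang F L ζ)).1
    have l6 := (sw5_Φ hF hμ (x := x) (x' := ζ.re) (by linarith only [h00, o1, o2, s2, z2])).1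
    have l7 : (k + om θ0 / 20) * (B x - Om x / 2 + sw5_I F θ p x) ≤ 9 / 4 * (2 * F.Φ x) :=
      mul_le_mul (by linarith only [h00, o1, o2, hk2]) (by linarith only [q, B2, O3, I2]) (by linarith only [q, B1, O2, I1]) (by norm_num)
    rw [P4 ζ a b]
    linarith only [q, B2, l1, l2, l3, l4, l5, l6, l7]
  · obtain ⟨r, r1, r2⟩ := base.cov x hx
    refine ⟨r, r1, fun ζ hζ => ?_⟩
    have z0 : |ζ.re - x| ≤ min d (sig θ0 / 4) := by
      rw [← r1]
      exact (Frame.f1_re _ ζ).trans hζ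
    have z2 := z0.trans (min_le_right _ _)
    obtain ⟨a, b, c, u, v⟩ := r2 ζ (hζ.trans (min_le_left _ _))
    have l0 : sw5_I F θ p x = 0 := if_neg hc
    have l1 := sw5_g0 hb h0 z2 hc
    have l2 : B x ≤ k * B x := le_mul_of_one_le_left (by linarith only [q, B1]) hk1
    have l3 : Gb ζ ≤ G0 ζ + Om ζ.re / 16 + g ζ - Om ζ.re * ang F L ζ := by
      rcases u with u | u
      · exact hb.cov ζ u (by linarith only [q, B1, e3, v, l2])
      · have := hb.far ζ (u.trans (le_abs_self _))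
        linarith only [this, hO, hO ζ.re]
    have l4 := hb.om3 x ζ.re (by linarith only [h00, o1, o2, s2, z2])
    have l5 : Om ζ.re * (5 / 8) ≤ Om ζ.re * ang F L ζ := sw5_ang (hO _) (by unfold ang; linarith only [c])
    have l6 : om θ0 / 20 * B x ≤ om θ0 / 20 * (3 / 2 * F.Φ x) := sw5_ang (by linarith only [o1]) B2
    have l7 : Om x * 1 ≤ Om x * (k + om θ0 / 20) := sw5_ang O3 (by linarith only [o1, hk1])
    beta_reduce
    rw [P4 ζ a b, l0]
    linarith only [O1, O3, v, l1, l3, l4, l5, l6, l7]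

end

end Pool.Agent.MinMod.St
end
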